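import Pool.Agent.H843.Ho3

/-!
# The weight operators of products and the action of correspondences
-/

open CategoryTheory AlgebraicGeometry Function Finset Polynomial

universe u v

set_option linter.unusedSectionVars false

namespace Pool.Agent.H843.Ho

open Pool.Agent.H914 Pool.Agent.H914.VarClass Pool.Agent.H914.VarClass.Obj
  Pool.Agent.H914.WeilCohomology Pool.Agent.R908 Pool.Agent.H447 Pool.Agent.H843.Ex
  Pool.Agent.X310.Jm Pool.Agent.X310.Sec Pool.Agent.Y163

variable {k : Type u} [Field k] {𝒱 : VarClass k} {ops : CycleOps 𝒱}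
  {W : WeilCohomology.{u, v} ops} {X Y Z : 𝒱.Obj} {Pol : ∀ X : 𝒱.Obj, Set X.Cycles}

/-- The top power of a polarization. -/
lemma tr_top (hPol : IsPolSystem ops Pol) {D : X.Cycles} (hD : D ∈ Pol X) :
    W.tr X ((Lop W X D ^ X.dim) 1) ≠ 0 := by
  have h1 := divPow_mem (ops := ops) (hPol.isCyc X D hD) X.V.fundCycle_mem X.dim
  rw [zero_add] at h1
  have h2 := W.tr_cl h1
  rw [cl_divPow, W.cl_fund] at h2
  rw [h2]
  have h3 := hPol.degree_pos X D hD
  exact_mod_cast h3.ne'

lemma one_ne (hPol : IsPolSystem ops Pol) : (1 : W.H X) ≠ 0 := by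
  obtain ⟨D, hD⟩ := hPol.nonempty X
  intro h0
  apply tr_top (W := W) hPol hD
  rw [h0, map_zero, map_zero]

/-- The value of the weight operator at `1`. -/
lemma IsWt.one (hPol : IsPolSystem ops Pol) {C : Module.End W.K (W.H X)}
    (hC : IsWt W Pol X C) : C 1 = (-(X.dim : W.K)) • (1 : W.H X) := by
  have hN := hC.node hPol
  obtain ⟨D, hD, F, h1, h2, t⟩ := hC
  have h3 : C 1 ∈ W.gr X 0 := by
    have := rop_opAlg.hom h1 (0 : ℕ) 1 (by rw [grZ_natCast]; exact W.one_mem X)
    rwa [mul_zero, add_zero, grZ_natCast] at this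
  rw [W.gr_zero, Submodule.mem_span_singleton] at h3
  obtain ⟨c, hc⟩ := h3
  set T := C + (X.dim : W.K) • (1 : Module.End W.K (W.H X)) with hT
  have hTa : ∀ a, T a = C a + (X.dim : W.K) • a := fun a => rfl
  have h4 : T 1 = (c + X.dim) • (1 : W.H X) := by rw [hTa, ← hc, add_smul]
  obtain ⟨i, hi, hi2⟩ := eig_lt hN h4 (one_ne hPol)
  set y := (Lop W X D ^ X.dim) 1 with hy
  have hy0 : y ≠ 0 := by
    intro h0
    apply tr_top (W := W) hPol hD
    rw [← hy, h0, map_zero]
  have h5 : T y = (c + 2 * X.dim + X.dim) • y := by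
    rw [hTa, hy, h_epow t hc.symm, ← add_smul]
  obtain ⟨i', hi', hi2'⟩ := eig_lt hN h5 hy0
  have h6 : ((i + 2 * X.dim : ℕ) : W.K) = (i' : W.K) := by
    push_cast
    rw [← hi2, ← hi2']
    ring
  have h7 : i + 2 * X.dim = i' := by exact_mod_cast h6
  obtain rfl : i = 0 := by omega
  rw [← hc]
  congr 1
  rw [Nat.cast_zero] at hi2
  exact eq_neg_of_add_eq_zero_left hi2

/-! ### Adjoints -/

lemma adj_mulLeft {p : ℕ} {c : W.H X} (hc : c ∈ W.gr X (2 * p)) :
    adj (LinearMap.mulLeft W.K c) = LinearMap.mulLeft W.K c := by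
  symm
  apply adj_unique
  intro a b
  rw [LinearMap.mulLeft_apply, LinearMap.mulLeft_apply, W.even_comm hc, mul_assoc]

lemma adj_add (f g : Module.End W.K (W.H X)) : adj (f + g) = adj f + adj g := by
  symm
  apply adj_unique
  intro a b
  rw [LinearMap.add_apply, LinearMap.add_apply, add_mul, mul_add, map_add, map_add, adj_spec,
    adj_spec]

lemma adj_neg (f : Module.End W.K (W.H X)) : adj (-f) = -adj f := by
  rw [eq_neg_iff_add_eq_zero, ← adj_add, neg_add_cancel, adj_zero]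

lemma adj_corr {p : ℕ} {c : W.H (X.prod X)} (hc : c ∈ W.gr _ (2 * p)) :
    adj (W.corr c) = W.corr (W.map (swap X X) c) := by
  symm
  apply adj_unique
  intro a b
  exact tr_corr_swap hc a b

lemma rop_adj {d : ℤ} {u : Module.End W.K (W.H X)} (hu : ROp W X d u) :
    ROp W X d (adj u) := by
  obtain ⟨U, ⟨q, hq, z, hz, hU⟩ | ⟨hd, hU⟩, rfl⟩ := hu
  · rw [hU, adj_corr (W.cl_mem hz), ← W.cl_pull]
    exact H447.rop_corr hq (ops.pull_mem _ hz)
  · rw [hU, adj_zero]
    exact rop_opAlg.zero d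

lemma sl2_of_anti {A : Type*} [Ring A] {c l f : A} (h1 : f * l - l * f = c)
    (h2 : l * c - c * l = 2 * l) (h3 : f * c - c * f = -(2 * f)) : Sl2 (-c) l f where
  ef := by rw [← h1]; noncomm_ring
  he := by rw [← h2]; noncomm_ring
  hf := by rw [← h3]; noncomm_ring

lemma sl2_adj {C L F : Module.End W.K (W.H X)} (t : Sl2 C L F) (hL : adj L = L) :
    Sl2 (-adj C) L (adj F) := by
  have h2 : ∀ x : Module.End W.K (W.H X), adj (2 * x) = 2 * adj x := by
    intro x
    rw [two_mul, adj_add, two_mul]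
  refine sl2_of_anti ?_ ?_ ?_
  · have h3 := congrArg adj t.ef
    rwa [adj_sub, adj_mul, adj_mul, hL] at h3
  · have h3 := congrArg adj t.he
    rwa [adj_sub, adj_mul, adj_mul, h2, hL] at h3
  · have h3 := congrArg adj t.hf
    rwa [adj_sub, adj_mul, adj_mul, adj_neg, h2] at h3

lemma IsWt.adj (hPol : IsPolSystem ops Pol) {C : Module.End W.K (W.H X)}
    (hC : IsWt W Pol X C) : IsWt W Pol X (-adj C) := by
  obtain ⟨D, hD, F, h1, h2, t⟩ := hC
  exact ⟨D, hD, Y163.adj F, rop_opAlg.neg (rop_adj h1), rop_adj h2,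
    sl2_adj t (adj_mulLeft (W.cl_mem (hPol.isCyc X D hD)))⟩

/-! ### External products -/

lemma rop_ext {d e : ℤ} {φ : Module.End W.K (W.H Y)} {ψ : Module.End W.K (W.H Z)}
    (hφ : ROp W Y d φ) (hψ : ROp W Z e ψ) : ROp W (Y.prod Z) (d + e) (extOp W φ ψ) := by
  obtain ⟨U, ⟨q, hq, z, hz, hU⟩ | ⟨hd, hU⟩, rfl⟩ := hφ
  · obtain ⟨U', ⟨q', hq', z', hz', hU'⟩ | ⟨hd', hU'⟩, rfl⟩ := hψ
    · rw [hU, hU']
      have hcyc := ops.mul_mem (ops.pull_mem (q1 Y Z) hz) (ops.pull_mem (q2 Y Z) hz')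
      have e1 : extOp W (W.corr (W.cl _ z)) (W.corr (W.cl _ z')) =
          W.corr (W.cl _ (ops.mul (ops.pull (q1 Y Z) z) (ops.pull (q2 Y Z) z'))) := by
        apply ext_kunneth_lin
        intro a b
        rw [extOp_tmul, W.cl_mul, W.cl_pull, W.cl_pull, corr_ext _ (W.cl_mem hz')]
      rw [e1]
      exact H447.rop_corr (by rw [dim_prod]; push_cast; omega) hcyc
    · rw [hU', extOp_zero_right]
      exact rop_opAlg.zero _
  · rw [hU, extOp_zero_left]
    exact rop_opAlg.zero _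

lemma extOp_sub_left (φ φ' : Module.End W.K (W.H Y)) (ψ : Module.End W.K (W.H Z)) :
    extOp W (φ - φ') ψ = extOp W φ ψ - extOp W φ' ψ := by
  rw [eq_sub_iff_add_eq, ← extOp_add_left, sub_add_cancel]

lemma extOp_sub_right (φ : Module.End W.K (W.H Y)) (ψ ψ' : Module.End W.K (W.H Z)) :
    extOp W φ (ψ - ψ') = extOp W φ ψ - extOp W φ ψ' := by
  rw [eq_sub_iff_add_eq, ← extOp_add_right, sub_add_cancel]

/-- The commutator of operators `A ⊗ 1 + 1 ⊗ A'`. -/
lemma ext_comm (A B : Module.End W.K (W.H Y)) (A' B' : Module.End W.K (W.H Z)) :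
    (extOp W A 1 + extOp W 1 A') * (extOp W B 1 + extOp W 1 B') -
      (extOp W B 1 + extOp W 1 B') * (extOp W A 1 + extOp W 1 A') =
      extOp W (A * B - B * A) 1 + extOp W 1 (A' * B' - B' * A') := by
  simp only [mul_add, add_mul, extOp_mul, mul_one, one_mul, extOp_sub_left, extOp_sub_right]
  abel

lemma sl2_ext {C L F : Module.End W.K (W.H Y)} {C' L' F' : Module.End W.K (W.H Z)}
    (t : Sl2 C L F) (t' : Sl2 C' L' F') : Sl2 (extOp W C 1 + extOp W 1 C')
      (extOp W L 1 + extOp W 1 L') (extOp W F 1 + extOp W 1 F') where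
  ef := by rw [ext_comm, t.ef, t'.ef]
  he := by
    rw [ext_comm, t.he, t'.he, two_mul, two_mul, two_mul, extOp_add_left, extOp_add_right]
    abel
  hf := by
    have h1 : ∀ x : Module.End W.K (W.H Y), extOp W (-x) (1 : Module.End W.K (W.H Z)) =
        -extOp W x 1 := by
      intro x
      rw [eq_neg_iff_add_eq_zero, ← extOp_add_left, neg_add_cancel, extOp_zero_left]
    have h2 : ∀ x : Module.End W.K (W.H Z), extOp W (1 : Module.End W.K (W.H Y)) (-x) =
        -extOp W 1 x := by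
      intro x
      rw [eq_neg_iff_add_eq_zero, ← extOp_add_right, neg_add_cancel, extOp_zero_right]
    rw [ext_comm, t.hf, t'.hf, two_mul, two_mul, two_mul, h1, h2, extOp_add_left,
      extOp_add_right]
    abel

lemma Lop_box {D : X.Cycles} {E : Y.Cycles} (hE : Y.IsCyc 1 E) :
    Lop W (X.prod Y) (ops.pull (fst X Y) D + ops.pull (snd X Y) E) =
      extOp W (Lop W X D) 1 + extOp W 1 (Lop W Y E) := by
  apply ext_kunneth_lin
  intro a b
  rw [LinearMap.add_apply, extOp_tmul, extOp_tmul, LinearMap.mulLeft_apply,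
    LinearMap.mulLeft_apply, LinearMap.mulLeft_apply, Module.End.one_apply,
    Module.End.one_apply, map_add, W.cl_pull, W.cl_pull, add_mul, map_mul (W.map (fst X Y)),
    map_mul (W.map (snd X Y)), mul_assoc, ← mul_assoc (W.map (snd X Y) (W.cl Y E)),
    W.even_comm (W.map_mem _ (W.cl_mem hE)) (W.map (fst X Y) a), mul_assoc]

lemma IsWt.prod (hPol : IsPolSystem ops Pol) {C : Module.End W.K (W.H X)}
    {C' : Module.End W.K (W.H Y)} (hC : IsWt W Pol X C) (hC' : IsWt W Pol Y C') :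
    IsWt W Pol (X.prod Y) (extOp W C 1 + extOp W 1 C') := by
  obtain ⟨D, hD, F, h1, h2, t⟩ := hC
  obtain ⟨D', hD', F', h1', h2', t'⟩ := hC'
  refine ⟨_, hPol.box X Y D hD D' hD', extOp W F 1 + extOp W 1 F', ?_, ?_, ?_⟩
  · exact rop_opAlg.add (rop_opAlg.cast (rop_ext h1 rop_opAlg.one) (by ring))
      (rop_opAlg.cast (rop_ext rop_opAlg.one h1') (by ring))
  · exact rop_opAlg.add (rop_opAlg.cast (rop_ext h2 rop_opAlg.one) (by ring))
      (rop_opAlg.cast (rop_ext rop_opAlg.one h2') (by ring))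
  · rw [Lop_box (hPol.isCyc Y D' hD')]
    exact sl2_ext t t'

/-- The weight of the class of a cycle. -/
lemma IsWt.cl (hPol : IsPolSystem ops Pol) (hW : HomEqNum W (X.prod X))
    (hI : ∀ D ∈ Pol (X.prod X), NumHodgeIndex ops (X.prod X) D) {C : Module.End W.K (W.H X)}
    (hC : IsWt W Pol X C) {p : ℕ} {z : X.Cycles} (hz : X.IsCyc p z) :
    C (W.cl X z) = (2 * p - X.dim : W.K) • W.cl X z := by
  have h1 := hC.ad hPol hW hI (u := LinearMap.mulLeft W.K (W.cl X z)) (d := p)
    ⟨_, Realized.mulLeft hz, rfl⟩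
  have h2 := congrArg (fun A => A (1 : W.H X)) h1
  simp only [ad_apply, LinearMap.sub_apply, Module.End.mul_apply, LinearMap.mulLeft_apply,
    mul_one, LinearMap.smul_apply] at h2
  rw [hC.one hPol, mul_smul_comm, mul_one] at h2
  rw [sub_smul]
  push_cast at h2
  rw [← h2]
  module

/-- **The weights of correspondences.** -/
theorem wt_corr (hPol : IsPolSystem ops Pol) (hW : ∀ X, HomEqNum W X)
    (hI : ∀ X, ∀ D ∈ Pol X, NumHodgeIndex ops X D) {C : Module.End W.K (W.H X)}
    {C' : Module.End W.K (W.H Y)} (hC : IsWt W Pol X C) (hC' : IsWt W Pol Y C') {d : ℤ}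
    {u : W.H X →ₗ[W.K] W.H Y} (hu : u ∈ KOp W X Y d) :
    C' ∘ₗ u - u ∘ₗ C = ((2 * d + X.dim - Y.dim : ℤ) : W.K) • u := by
  have hadj : Y163.adj C = -C := by
    have := hC.unique hPol (hW _) (hI _) (hC.adj hPol)
    rw [this, neg_neg]
    rw [← this]
  induction hu using Submodule.span_induction with
  | mem x hx =>
    obtain ⟨p, hp, z, hz, rfl⟩ := hx
    have h1 := (hC.prod hPol hC').cl hPol (hW _) (hI _) hz
    have h2 : Deg0 (W := W) (X := X) (Y163.adj C) :=
      deg0_of_mem (KOp.ofRop (rop_adj hC.rop))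
    have h3 : Deg0 (W := W) (X := Y) C' := deg0_of_mem (KOp.ofRop hC'.rop)
    have h4 : Deg0 (W := W) (X := Y) (1 : Module.End W.K (W.H Y)) := fun i a ha => ha
    have h5 : Deg0 (W := W) (X := X) (Y163.adj (1 : Module.End W.K (W.H X))) := by
      rw [adj_one]
      exact fun i a ha => ha
    have h6 := congrArg W.corr h1
    rw [LinearMap.add_apply, corr_add, corr_extOp h2 h4, corr_extOp h5 h3, adj_one, hadj,
      corr_smul] at h6
    have h7 : ((1 : Module.End W.K (W.H Y)) ∘ₗ W.corr (W.cl _ z) ∘ₗ (-C)) +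
        C' ∘ₗ W.corr (W.cl _ z) ∘ₗ (1 : Module.End W.K (W.H X)) =
        C' ∘ₗ W.corr (W.cl _ z) - W.corr (W.cl _ z) ∘ₗ C := by
      apply LinearMap.ext
      intro a
      simp only [LinearMap.add_apply, LinearMap.comp_apply, LinearMap.neg_apply, map_neg,
        Module.End.one_apply, LinearMap.sub_apply]
      abel
    rw [h7] at h6
    rw [h6]
    congr 1
    rw [dim_prod]
    have h8 : ((p : ℤ) : W.K) = ((X.dim + d : ℤ) : W.K) := by rw [hp]
    push_cast at h8 ⊢
    rw [h8]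
    ring
  | zero => simp
  | add x y _ _ hx hy =>
    rw [LinearMap.comp_add, LinearMap.add_comp, smul_add, ← hx, ← hy]
    abel
  | smul a x _ hx =>
    rw [LinearMap.comp_smul, LinearMap.smul_comp, smul_comm _ a x, ← hx]
    apply LinearMap.ext
    intro y
    simp only [LinearMap.sub_apply, LinearMap.smul_apply, LinearMap.comp_apply, smul_sub]

end Pool.Agent.H843.Ho
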