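import Mathlib

/-!
# Weight decompositions and graded parts of filtered maps
-/

namespace Pool.Agent.H843.Ex

open Finset

/-- A decomposition of a vector space into weight spaces, given by projectors. -/
structure Spl (K A : Type*) [Field K] [AddCommGroup A] [Module K A] where
  /-- the projectors -/
  P : ℝ → A →ₗ[K] A
  /-- a finite set containing the weights -/
  S : Finset ℝ
  orth : ∀ s t x, P s (P t x) = if s = t then P t x else 0
  sum : ∀ x, ∑ s ∈ S, P s x = x

namespace Spl

variable {K A B C : Type*} [Field K] [AddCommGroup A] [Module K A] [AddCommGroup B] [Module K B]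
  [AddCommGroup C] [Module K C]

/-- The trivial decomposition: everything has weight zero. -/
noncomputable def triv (K A : Type*) [Field K] [AddCommGroup A] [Module K A] : Spl K A where
  P s := if s = 0 then LinearMap.id else 0
  S := {0}
  orth s t x := by
    by_cases h1 : s = 0 <;> by_cases h2 : t = 0
    · subst h1; subst h2; simp
    · subst h1
      rw [if_pos rfl, if_neg h2, if_neg (Ne.symm h2)]
      simp
    · subst h2
      rw [if_neg h1, if_pos rfl, if_neg h1]
      simp
    · rw [if_neg h1, if_neg h2]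
      simp
  sum x := by simp

variable (D : Spl K A) (E : Spl K B) (G : Spl K C)

lemma P_P (s : ℝ) (x : A) : D.P s (D.P s x) = D.P s x := by rw [D.orth, if_pos rfl]

lemma P_P_ne {s t : ℝ} (h : s ≠ t) (x : A) : D.P s (D.P t x) = 0 := by rw [D.orth, if_neg h]

lemma P_notMem {s : ℝ} (h : s ∉ D.S) (x : A) : D.P s x = 0 := by
  conv_lhs => rw [← D.sum x, map_sum]
  apply Finset.sum_eq_zero
  intro t ht
  refine D.P_P_ne ?_ x
  rintro rfl
  exact h ht

/-- The filtration attached to the decomposition. -/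
def fil (t : ℝ) : Submodule K A where
  carrier := {x | ∀ s < t, D.P s x = 0}
  add_mem' := fun ha hb s hs => by rw [map_add, ha s hs, hb s hs, add_zero]
  zero_mem' := fun s _ => map_zero _
  smul_mem' := fun c x hx s hs => by rw [map_smul, hx s hs, smul_zero]

variable {D E G}

lemma mem_fil {t : ℝ} {x : A} : x ∈ D.fil t ↔ ∀ s < t, D.P s x = 0 := Iff.rfl

lemma fil_anti {s t : ℝ} (h : s ≤ t) {x : A} (hx : x ∈ D.fil t) : x ∈ D.fil s :=
  fun r hr => hx r (lt_of_lt_of_le hr h)

lemma P_mem (s : ℝ) (x : A) : D.P s x ∈ D.fil s := fun _ hr => D.P_P_ne hr.ne x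

lemma mem_of_eq {s : ℝ} {x : A} (h : D.P s x = x) : x ∈ D.fil s := h ▸ P_mem s x

/-- Induction over the weight vectors. -/
lemma ind {p : A → Prop} (h : ∀ s x, D.P s x = x → p x) (hadd : ∀ x y, p x → p y → p (x + y))
    (x : A) : p x := by
  have h0 : p 0 := h 0 0 (map_zero _)
  rw [← D.sum x]
  exact Finset.sum_induction _ p hadd h0 (fun s _ => h s _ (D.P_P s x))

/-- An element of `F s` is its component of weight `s`, up to components of larger weights. -/
lemma sub_eq_sum {s : ℝ} {x : A} (hx : x ∈ D.fil s) :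
    x = D.P s x + ∑ t ∈ D.S.filter (fun t => s < t), D.P t x := by
  by_cases hs : s ∈ D.S
  · conv_lhs => rw [← D.sum x, ← Finset.add_sum_erase _ _ hs]
    congr 1
    rw [← Finset.sum_filter_add_sum_filter_not (D.S.erase s) (fun t => s < t)]
    have h1 : ∑ t ∈ (D.S.erase s).filter (fun t => ¬ s < t), D.P t x = 0 := by
      apply Finset.sum_eq_zero
      intro t ht
      rw [Finset.mem_filter, Finset.mem_erase] at ht
      exact hx t (lt_of_le_of_ne (not_lt.1 ht.2) ht.1.1)
    rw [h1, add_zero]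
    congr 1
    ext t
    rw [Finset.mem_filter, Finset.mem_filter, Finset.mem_erase]
    constructor
    · rintro ⟨⟨_, h2⟩, h3⟩
      exact ⟨h2, h3⟩
    · rintro ⟨h2, h3⟩
      exact ⟨⟨h3.ne', h2⟩, h3⟩
  · rw [D.P_notMem hs, zero_add]
    conv_lhs => rw [← D.sum x]
    rw [← Finset.sum_filter_add_sum_filter_not D.S (fun t => s < t)]
    have h1 : ∑ t ∈ D.S.filter (fun t => ¬ s < t), D.P t x = 0 := by
      apply Finset.sum_eq_zero
      intro t ht
      rw [Finset.mem_filter] at ht
      refine hx t (lt_of_le_of_ne (not_lt.1 ht.2) ?_)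
      rintro rfl
      exact hs ht.1
    rw [h1, add_zero]

/-- A linear map which preserves the filtrations. -/
def Filt (D : Spl K A) (E : Spl K B) (T : A →ₗ[K] B) : Prop :=
  ∀ s, ∀ x ∈ D.fil s, T x ∈ E.fil s

lemma Filt.id (D : Spl K A) : Filt D D LinearMap.id := fun _ _ hx => hx

lemma Filt.comp {T : A →ₗ[K] B} {T' : B →ₗ[K] C} (h' : Filt E G T') (h : Filt D E T) :
    Filt D G (T' ∘ₗ T) := fun s x hx => h' s _ (h s x hx)

/-- Only the component of weight `s` of an element of `F s` contributes to the component of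
weight `s` of the image. -/
lemma Filt.lead {T : A →ₗ[K] B} (h : Filt D E T) {s : ℝ} {x : A} (hx : x ∈ D.fil s) :
    E.P s (T x) = E.P s (T (D.P s x)) := by
  conv_lhs => rw [sub_eq_sum hx]
  rw [map_add, map_add, map_sum, map_sum]
  have h1 : ∑ t ∈ D.S.filter (fun t => s < t), E.P s (T (D.P t x)) = 0 := by
    apply Finset.sum_eq_zero
    intro t ht
    rw [Finset.mem_filter] at ht
    exact h t _ (P_mem t x) s ht.2
  rw [h1, add_zero]

/-- The graded part of a linear map. -/
noncomputable def grL (D : Spl K A) (E : Spl K B) (T : A →ₗ[K] B) : A →ₗ[K] B :=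
  ∑ s ∈ D.S, E.P s ∘ₗ T ∘ₗ D.P s

lemma grL_wt {T : A →ₗ[K] B} {s : ℝ} {x : A} (hx : D.P s x = x) : grL D E T x = E.P s (T x) := by
  rw [grL, LinearMap.sum_apply]
  by_cases hs : s ∈ D.S
  · rw [Finset.sum_eq_single_of_mem s hs]
    · rw [LinearMap.comp_apply, LinearMap.comp_apply, hx]
    · intro t _ ht
      rw [LinearMap.comp_apply, LinearMap.comp_apply, ← hx, D.P_P_ne ht, map_zero, map_zero]
  · have hx0 : x = 0 := by rw [← hx, D.P_notMem hs]
    rw [hx0]
    simp

lemma grL_P_comm {T : A →ₗ[K] B} (s : ℝ) (x : A) : E.P s (grL D E T x) = grL D E T (D.P s x) := by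
  refine ind (D := D) (p := fun x => E.P s (grL D E T x) = grL D E T (D.P s x)) ?_ ?_ x
  · intro t x hx
    by_cases hst : s = t
    · subst hst
      rw [hx, grL_wt hx, E.P_P]
    · have h0 : D.P s x = 0 := by rw [← hx]; exact D.P_P_ne hst x
      rw [h0, grL_wt hx, E.P_P_ne hst, map_zero]
  · intro x y hx hy
    rw [map_add, map_add, hx, hy, map_add, map_add]

lemma grL_id : grL D D LinearMap.id = LinearMap.id := by
  apply LinearMap.ext
  refine ind (D := D) ?_ ?_
  · intro s x hx
    rw [grL_wt hx, LinearMap.id_apply, hx]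
  · intro x y hx hy
    rw [map_add, map_add, hx, hy]

lemma grL_comp {T : A →ₗ[K] B} {T' : B →ₗ[K] C} (h' : Filt E G T') (h : Filt D E T) :
    grL D G (T' ∘ₗ T) = grL E G T' ∘ₗ grL D E T := by
  apply LinearMap.ext
  refine ind (D := D) ?_ ?_
  · intro s x hx
    rw [grL_wt hx, LinearMap.comp_apply, LinearMap.comp_apply, grL_wt hx,
      grL_wt (E.P_P s (T x)), h'.lead (h s x (mem_of_eq hx))]
  · intro x y hx hy
    rw [map_add, map_add, hx, hy]

/-- For an element of weight at least zero, the graded part of the map takes its component of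
weight zero to that of the image. -/
lemma grL_zero {T : A →ₗ[K] B} (h : Filt D E T) {x : A} (hx : x ∈ D.fil 0) :
    grL D E T (D.P 0 x) = E.P 0 (T x) := by
  rw [grL_wt (D.P_P 0 x), h.lead hx]

lemma grL_mem {T : A →ₗ[K] B} {U : Submodule K A} {V : Submodule K B}
    (hD : ∀ s, ∀ x ∈ U, D.P s x ∈ U) (hE : ∀ s, ∀ x ∈ V, E.P s x ∈ V)
    (hT : ∀ x ∈ U, T x ∈ V) {x : A} (hx : x ∈ U) : grL D E T x ∈ V := by
  rw [grL, LinearMap.sum_apply]
  exact Submodule.sum_mem _ fun s _ => hE s _ (hT _ (hD s x hx))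

lemma grL_bij {T : A →ₗ[K] B} (hT : Function.Bijective T) (h : Filt D E T)
    (h' : ∀ s x, T x ∈ E.fil s → x ∈ D.fil s) : Function.Bijective (grL D E T) := by
  set e := LinearEquiv.ofBijective T hT with he
  have h2 : Filt E D e.symm.toLinearMap := by
    intro s y hy
    apply h'
    have : T (e.symm y) = y := e.apply_symm_apply y
    change T (e.symm y) ∈ E.fil s
    rw [this]
    exact hy
  have h3 := grL_comp h2 h
  have h4 := grL_comp h h2
  have e1 : e.symm.toLinearMap ∘ₗ T = LinearMap.id := by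
    apply LinearMap.ext
    intro x
    exact e.symm_apply_apply x
  have e2 : T ∘ₗ e.symm.toLinearMap = LinearMap.id := by
    apply LinearMap.ext
    intro x
    exact e.apply_symm_apply x
  rw [e1, grL_id] at h3
  rw [e2, grL_id] at h4
  constructor
  · intro x y hxy
    have h5 := congrArg (grL E D e.symm.toLinearMap) hxy
    rw [← LinearMap.comp_apply, ← LinearMap.comp_apply, ← h3] at h5
    exact h5
  · intro y
    refine ⟨grL E D e.symm.toLinearMap y, ?_⟩
    rw [← LinearMap.comp_apply, ← h4]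
    rfl

end Spl

/-! ### Products -/

namespace Spl

variable {K A : Type*} [Field K] [Ring A] [Algebra K A] {D : Spl K A}

/-- The filtration is multiplicative. -/
def FMul (D : Spl K A) : Prop := ∀ s t, ∀ a ∈ D.fil s, ∀ b ∈ D.fil t, a * b ∈ D.fil (s + t)

lemma FMul.lead (h : FMul D) {s t : ℝ} {a b : A} (ha : a ∈ D.fil s) (hb : b ∈ D.fil t) :
    D.P (s + t) (a * b) = D.P (s + t) (D.P s a * D.P t b) := by
  have h1 : ∀ r > s, ∀ a' ∈ D.fil r, ∀ b' ∈ D.fil t, D.P (s + t) (a' * b') = 0 :=
    fun r hr a' ha' b' hb' => h r t a' ha' b' hb' _ (by linarith)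
  have h2 : ∀ r > t, ∀ a' ∈ D.fil s, ∀ b' ∈ D.fil r, D.P (s + t) (a' * b') = 0 :=
    fun r hr a' ha' b' hb' => h s r a' ha' b' hb' _ (by linarith)
  have e1 : D.P (s + t) (a * b) = D.P (s + t) (D.P s a * b) := by
    conv_lhs => rw [sub_eq_sum ha]
    rw [add_mul, map_add, Finset.sum_mul, map_sum]
    have h3 : ∑ r ∈ D.S.filter (fun r => s < r), D.P (s + t) (D.P r a * b) = 0 := by
      apply Finset.sum_eq_zero
      intro r hr
      rw [Finset.mem_filter] at hr
      exact h1 r hr.2 _ (P_mem r a) b hb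
    rw [h3, add_zero]
  rw [e1]
  conv_lhs => rw [sub_eq_sum hb]
  rw [mul_add, map_add, Finset.mul_sum, map_sum]
  have h3 : ∑ r ∈ D.S.filter (fun r => t < r), D.P (s + t) (D.P s a * D.P r b) = 0 := by
    apply Finset.sum_eq_zero
    intro r hr
    rw [Finset.mem_filter] at hr
    exact h2 r hr.2 _ (P_mem s a) _ (P_mem r b)
  rw [h3, add_zero]

/-- The graded product. -/
noncomputable def gmul (D : Spl K A) : A →ₗ[K] A →ₗ[K] A :=
  ∑ s ∈ D.S, ∑ t ∈ D.S, ((LinearMap.mul K A).compl₁₂ (D.P s) (D.P t)).compr₂ (D.P (s + t))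

lemma gmul_apply (a b : A) :
    gmul D a b = ∑ s ∈ D.S, ∑ t ∈ D.S, D.P (s + t) (D.P s a * D.P t b) := by
  rw [gmul]
  simp [LinearMap.sum_apply]

lemma gmul_wt {s t : ℝ} {a b : A} (ha : D.P s a = a) (hb : D.P t b = b) :
    gmul D a b = D.P (s + t) (a * b) := by
  rw [gmul_apply]
  by_cases hs : s ∈ D.S
  · by_cases ht : t ∈ D.S
    · rw [Finset.sum_eq_single_of_mem s hs, Finset.sum_eq_single_of_mem t ht, ha, hb]
      · intro r _ hr
        rw [← hb, D.P_P_ne hr, mul_zero, map_zero]
      · intro r _ hr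
        apply Finset.sum_eq_zero
        intro r' _
        rw [← ha, D.P_P_ne hr, zero_mul, map_zero]
    · have h0 : b = 0 := by rw [← hb, D.P_notMem ht]
      rw [h0]
      simp
  · have h0 : a = 0 := by rw [← ha, D.P_notMem hs]
    rw [h0]
    simp

lemma gmul_wt_eq {s t : ℝ} {a b : A} (ha : D.P s a = a) (hb : D.P t b = b) :
    D.P (s + t) (gmul D a b) = gmul D a b := by
  rw [gmul_wt ha hb, D.P_P]

/-- An equality of two bilinear expressions may be checked on weight vectors. -/
lemma ind₂ {B : Type*} [AddCommGroup B] [Module K B] {F G : A →ₗ[K] A →ₗ[K] B}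
    (h : ∀ s t a b, D.P s a = a → D.P t b = b → F a b = G a b) (a b : A) : F a b = G a b := by
  refine ind (D := D) (p := fun a => F a b = G a b) ?_ ?_ a
  · intro s a ha
    refine ind (D := D) (p := fun b => F a b = G a b) ?_ ?_ b
    · intro t b hb
      exact h s t a b ha hb
    · intro x y hx hy
      rw [map_add, map_add, hx, hy]
  · intro x y hx hy
    rw [map_add, map_add, LinearMap.add_apply, LinearMap.add_apply, hx, hy]

lemma gmul_assoc (h : FMul D) (a b c : A) :
    gmul D (gmul D a b) c = gmul D a (gmul D b c) := by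
  refine ind (D := D) (p := fun a => gmul D (gmul D a b) c = gmul D a (gmul D b c)) ?_ ?_ a
  · intro r a ha
    refine ind (D := D) (p := fun b => gmul D (gmul D a b) c = gmul D a (gmul D b c)) ?_ ?_ b
    · intro s b hb
      refine ind (D := D) (p := fun c => gmul D (gmul D a b) c = gmul D a (gmul D b c)) ?_ ?_ c
      · intro t c hc
        rw [gmul_wt (gmul_wt_eq ha hb) hc, gmul_wt ha (gmul_wt_eq hb hc), gmul_wt ha hb,
          gmul_wt hb hc]
        have e1 := h.lead (h r s a (mem_of_eq ha) b (mem_of_eq hb)) (mem_of_eq hc)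
        have e2 := h.lead (mem_of_eq ha) (h s t b (mem_of_eq hb) c (mem_of_eq hc))
        rw [hc] at e1
        rw [ha] at e2
        rw [← e1, ← e2, add_assoc, mul_assoc]
      · intro x y hx hy
        simp only [map_add, LinearMap.add_apply, hx, hy]
    · intro x y hx hy
      simp only [map_add, LinearMap.add_apply, hx, hy]
  · intro x y hx hy
    simp only [map_add, LinearMap.add_apply, hx, hy]

lemma gmul_mem {U V W : Submodule K A} (hU : ∀ s, ∀ x ∈ U, D.P s x ∈ U)
    (hV : ∀ s, ∀ x ∈ V, D.P s x ∈ V) (hW : ∀ s, ∀ x ∈ W, D.P s x ∈ W)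
    (h : ∀ x ∈ U, ∀ y ∈ V, x * y ∈ W) {a b : A} (ha : a ∈ U) (hb : b ∈ V) :
    gmul D a b ∈ W := by
  rw [gmul_apply]
  exact Submodule.sum_mem _ fun s _ => Submodule.sum_mem _ fun t _ =>
    hW _ _ (h _ (hU s a ha) _ (hV t b hb))

/-- For elements of weight at least zero, the component of weight zero is multiplicative. -/
lemma gmul_zero (h : FMul D) {a b : A} (ha : a ∈ D.fil 0) (hb : b ∈ D.fil 0) :
    gmul D (D.P 0 a) (D.P 0 b) = D.P 0 (a * b) := by
  rw [gmul_wt (D.P_P 0 a) (D.P_P 0 b)]
  have e1 := h.lead ha hb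
  rw [add_zero] at e1 ⊢
  exact e1.symm

variable {B : Type*} [Ring B] [Algebra K B] {E : Spl K B}

/-- The graded part of a filtered algebra homomorphism is multiplicative. -/
lemma grL_gmul {f : A →ₐ[K] B} (hf : Filt D E f.toLinearMap) (hD : FMul D) (hE : FMul E)
    (a b : A) : grL D E f.toLinearMap (gmul D a b) =
      gmul E (grL D E f.toLinearMap a) (grL D E f.toLinearMap b) := by
  refine ind (D := D) (p := fun a => grL D E f.toLinearMap (gmul D a b) =
      gmul E (grL D E f.toLinearMap a) (grL D E f.toLinearMap b)) ?_ ?_ a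
  · intro s a ha
    refine ind (D := D) (p := fun b => grL D E f.toLinearMap (gmul D a b) =
      gmul E (grL D E f.toLinearMap a) (grL D E f.toLinearMap b)) ?_ ?_ b
    · intro t b hb
      rw [grL_wt (gmul_wt_eq ha hb), gmul_wt ha hb,
        ← hf.lead (hD s t a (mem_of_eq ha) b (mem_of_eq hb)), grL_wt ha, grL_wt hb,
        gmul_wt (E.P_P s _) (E.P_P t _),
        ← hE.lead (hf s a (mem_of_eq ha)) (hf t b (mem_of_eq hb))]
      change E.P (s + t) (f (a * b)) = E.P (s + t) (f a * f b)
      rw [map_mul]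
    · intro x y hx hy
      simp only [map_add, hx, hy]
  · intro x y hx hy
    simp only [map_add, LinearMap.add_apply, hx, hy]

/-! ### The structure of a Poincaré algebra -/

/-- The decomposition is compatible with the structure of a graded algebra with an orientation. -/
structure Wt (gr : ℕ → Submodule K A) (tr : A →ₗ[K] K) (D : Spl K A) : Prop where
  hom : ∀ s i, ∀ a ∈ gr i, D.P s a ∈ gr i
  mul : FMul D
  one : (1 : A) ∈ D.fil 0
  tr0 : ∀ s > 0, ∀ x ∈ D.fil s, tr x = 0
  nondeg : ∀ s a, D.P s a = a → (∀ b, D.P (-s) b = b → tr (a * b) = 0) → a = 0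

namespace Wt

variable {gr : ℕ → Submodule K A} {tr : A →ₗ[K] K} (h : Wt gr tr D)

include h

lemma P_one (h0 : gr 0 = Submodule.span K {1}) (h1 : (1 : A) ∈ gr 0) : D.P 0 (1 : A) = 1 := by
  have h2 := h.hom 0 0 1 h1
  rw [h0, Submodule.mem_span_singleton] at h2
  obtain ⟨c, hc⟩ := h2
  have h3 : c • (c • (1 : A)) = c • (1 : A) := by
    have h4 := D.P_P 0 (1 : A)
    rw [← hc, map_smul, ← hc] at h4
    exact h4
  by_cases hc0 : c = 0
  · -- the whole algebra vanishes
    have h4 : ∀ s x, D.P s x = x → x = 0 := by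
      intro s x hx
      have h5 := h.mul.lead h.one (mem_of_eq hx)
      rw [zero_add, one_mul, hx, ← hc, hc0, zero_smul, zero_mul, map_zero] at h5
      exact h5
    have h5 : (1 : A) = 0 := by
      rw [← D.sum (1 : A)]
      exact Finset.sum_eq_zero fun s _ => h4 s _ (D.P_P s 1)
    rw [h5, map_zero]
  · have h4 := congrArg (fun x => c⁻¹ • x) h3
    simp only [smul_smul, inv_mul_cancel₀ hc0, one_smul] at h4
    rw [inv_mul_cancel_left₀ hc0] at h4
    rw [← hc]
    exact h4

/-- The graded orientation vanishes unless the weight is zero, and there it is the old one. -/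
lemma tr_lead {x : A} (hx : x ∈ D.fil 0) : tr (D.P 0 x) = tr x := by
  conv_rhs => rw [sub_eq_sum hx]
  rw [map_add, map_sum]
  have h1 : ∑ t ∈ D.S.filter (fun t => 0 < t), tr (D.P t x) = 0 := by
    apply Finset.sum_eq_zero
    intro t ht
    rw [Finset.mem_filter] at ht
    exact h.tr0 t ht.2 _ (P_mem t x)
  rw [h1, add_zero]

lemma gmul_one (h0 : gr 0 = Submodule.span K {1}) (h1 : (1 : A) ∈ gr 0) (a : A) :
    gmul D a 1 = a := by
  refine ind (D := D) (p := fun a => gmul D a 1 = a) ?_ ?_ a
  · intro s a ha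
    rw [gmul_wt ha (h.P_one h0 h1), mul_one, add_zero, ha]
  · intro x y hx hy
    rw [map_add, LinearMap.add_apply, hx, hy]

lemma one_gmul (h0 : gr 0 = Submodule.span K {1}) (h1 : (1 : A) ∈ gr 0) (a : A) :
    gmul D 1 a = a := by
  refine ind (D := D) (p := fun a => gmul D 1 a = a) ?_ ?_ a
  · intro s a ha
    rw [gmul_wt (h.P_one h0 h1) ha, one_mul, zero_add, ha]
  · intro x y hx hy
    rw [map_add, hx, hy]

/-- The value of the graded pairing on weight vectors. -/
lemma tr_gmul_wt {s t : ℝ} {a b : A} (ha : D.P s a = a) (hb : D.P t b = b) :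
    tr (D.P 0 (gmul D a b)) = if s + t = 0 then tr (a * b) else 0 := by
  rw [gmul_wt ha hb]
  split_ifs with h1
  · rw [h1, D.P_P, h.tr_lead]
    have h2 := h.mul s t a (mem_of_eq ha) b (mem_of_eq hb)
    rw [h1] at h2
    exact h2
  · rw [D.P_P_ne (Ne.symm h1), map_zero]

/-- The graded pairing is nondegenerate. -/
lemma g_nondeg (a : A) (ha : ∀ b, tr (D.P 0 (gmul D a b)) = 0) : a = 0 := by
  rw [← D.sum a]
  apply Finset.sum_eq_zero
  intro s _
  refine h.nondeg s _ (D.P_P s a) ?_
  intro b hb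
  have h1 := ha b
  have h2 : tr (D.P 0 (gmul D a b)) = ∑ t ∈ D.S, tr (D.P 0 (gmul D (D.P t a) b)) := by
    conv_lhs => rw [← D.sum a]
    rw [map_sum, LinearMap.sum_apply, map_sum, map_sum]
  rw [h2] at h1
  have h3 : ∀ t, t ≠ s → tr (D.P 0 (gmul D (D.P t a) b)) = 0 := by
    intro t ht
    rw [h.tr_gmul_wt (D.P_P t a) hb, if_neg]
    intro h4
    exact ht (by linarith)
  by_cases hs : s ∈ D.S
  · rw [Finset.sum_eq_single_of_mem s hs (fun t _ ht => h3 t ht),
      h.tr_gmul_wt (D.P_P s a) hb, if_pos (add_neg_cancel s)] at h1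
    exact h1
  · rw [D.P_notMem hs, zero_mul, map_zero]

omit h in
/-- Graded commutativity. -/
lemma g_comm (h : Wt gr tr D) (hcomm : ∀ {i j : ℕ} {a b : A}, a ∈ gr i → b ∈ gr j →
    a * b = (-1 : K) ^ (i * j) • (b * a)) {i j : ℕ} {a b : A} (ha : a ∈ gr i) (hb : b ∈ gr j) :
    gmul D a b = (-1 : K) ^ (i * j) • gmul D b a := by
  rw [gmul_apply, gmul_apply, Finset.sum_comm, Finset.smul_sum]
  refine Finset.sum_congr rfl fun s _ => ?_
  rw [Finset.smul_sum]
  refine Finset.sum_congr rfl fun t _ => ?_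
  rw [hcomm (h.hom t i a ha) (h.hom s j b hb), map_smul, add_comm]

end Wt

/-- Push-forward is adjoint to pull-back for the graded pairings. -/
lemma tr_push {grA : ℕ → Submodule K A} {trA : A →ₗ[K] K} (hA : Wt grA trA D)
    {grB : ℕ → Submodule K B} {trB : B →ₗ[K] K} (hB : Wt grB trB E) {f : B →ₐ[K] A}
    {g : A →ₗ[K] B} (hf : Filt E D f.toLinearMap) (hg : Filt D E g)
    (hfg : ∀ a b, trB (g a * b) = trA (a * f b)) (a : A) (b : B) :
    trB (E.P 0 (gmul E (grL D E g a) b)) = trA (D.P 0 (gmul D a (grL E D f.toLinearMap b))) := by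
  refine ind (D := D) (p := fun a => trB (E.P 0 (gmul E (grL D E g a) b)) =
    trA (D.P 0 (gmul D a (grL E D f.toLinearMap b)))) ?_ ?_ a
  · intro s a ha
    refine ind (D := E) (p := fun b => trB (E.P 0 (gmul E (grL D E g a) b)) =
      trA (D.P 0 (gmul D a (grL E D f.toLinearMap b)))) ?_ ?_ b
    · intro t b hb
      rw [grL_wt ha, grL_wt hb, hB.tr_gmul_wt (E.P_P s _) hb, hA.tr_gmul_wt ha (D.P_P t _)]
      split_ifs with h1
      · have e1 : trB (E.P s (g a) * b) = trB (g a * b) := by
          have h2 := hB.mul.lead (hg s a (mem_of_eq ha)) (mem_of_eq hb)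
          rw [h1, hb] at h2
          have h3 := hB.mul s t _ (P_mem s (g a)) b (mem_of_eq hb)
          have h4 := hB.mul s t _ (hg s a (mem_of_eq ha)) b (mem_of_eq hb)
          rw [h1] at h3 h4
          rw [← hB.tr_lead h3, ← hB.tr_lead h4, h2]
        have e2 : trA (a * D.P t (f b)) = trA (a * f b) := by
          have h2 := hA.mul.lead (mem_of_eq ha) (hf t b (mem_of_eq hb))
          rw [h1, ha] at h2
          have h3 := hA.mul s t a (mem_of_eq ha) _ (P_mem t (f b))
          have h4 := hA.mul s t a (mem_of_eq ha) _ (hf t b (mem_of_eq hb))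
          rw [h1] at h3 h4
          change trA (a * D.P t (f b)) = trA (a * f b)
          change D.P 0 (a * f b) = D.P 0 (a * D.P t (f b)) at h2
          change a * f b ∈ D.fil 0 at h4
          rw [← hA.tr_lead h3, ← hA.tr_lead h4, h2]
        change trB (E.P s (g a) * b) = trA (a * D.P t (f b))
        rw [e1, e2, hfg]
      · rfl
    · intro x y hx hy
      simp only [map_add, hx, hy]
  · intro x y hx hy
    simp only [map_add, LinearMap.add_apply, hx, hy]

/-- The trace of an external product. -/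
lemma tr_ext {C : Type*} [Ring C] [Algebra K C] {G : Spl K C}
    {grA : ℕ → Submodule K A} {trA : A →ₗ[K] K} (hA : Wt grA trA D)
    {grB : ℕ → Submodule K B} {trB : B →ₗ[K] K} (hB : Wt grB trB E)
    {grC : ℕ → Submodule K C} {trC : C →ₗ[K] K} (hC : Wt grC trC G) {p : A →ₐ[K] C}
    {q : B →ₐ[K] C} (hp : Filt D G p.toLinearMap) (hq : Filt E G q.toLinearMap)
    (hpq : ∀ a b, trC (p a * q b) = trA a * trB b) (a : A) (b : B) :
    trC (G.P 0 (gmul G (grL D G p.toLinearMap a) (grL E G q.toLinearMap b))) =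
      trA (D.P 0 a) * trB (E.P 0 b) := by
  refine ind (D := D) (p := fun a => trC (G.P 0 (gmul G (grL D G p.toLinearMap a)
    (grL E G q.toLinearMap b))) = trA (D.P 0 a) * trB (E.P 0 b)) ?_ ?_ a
  · intro s a ha
    refine ind (D := E) (p := fun b => trC (G.P 0 (gmul G (grL D G p.toLinearMap a)
      (grL E G q.toLinearMap b))) = trA (D.P 0 a) * trB (E.P 0 b)) ?_ ?_ b
    · intro t b hb
      rw [grL_wt ha, grL_wt hb, hC.tr_gmul_wt (G.P_P s _) (G.P_P t _)]
      have e1 : s + t = 0 → trC (G.P s (p a) * G.P t (q b)) = trA a * trB b := by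
        intro h1
        have h2 := hC.mul.lead (hp s a (mem_of_eq ha)) (hq t b (mem_of_eq hb))
        have h3 := hC.mul s t _ (P_mem s (p a)) _ (P_mem t (q b))
        have h4 := hC.mul s t _ (hp s a (mem_of_eq ha)) _ (hq t b (mem_of_eq hb))
        rw [h1] at h2 h3 h4
        rw [← hpq, ← hC.tr_lead h3]
        change G.P 0 (p a * q b) = _ at h2
        change p a * q b ∈ G.fil 0 at h4
        rw [← hC.tr_lead h4, h2]
        rfl
      change (if s + t = 0 then trC (G.P s (p a) * G.P t (q b)) else 0) = _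
      by_cases hs : s = 0
      · subst hs
        by_cases ht : t = 0
        · subst ht
          rw [if_pos (add_zero 0), e1 (add_zero 0), ha, hb]
        · rw [if_neg (by rw [zero_add]; exact ht), ← hb, E.P_P_ne (Ne.symm ht), map_zero,
            mul_zero]
      · have h0 : D.P 0 a = 0 := by rw [← ha, D.P_P_ne (Ne.symm hs)]
        rw [h0, map_zero, zero_mul]
        split_ifs with h1
        · rw [e1 h1]
          rcases lt_or_gt_of_ne hs with h2 | h2
          · rw [hB.tr0 t (by linarith) b (mem_of_eq hb), mul_zero]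
          · rw [hA.tr0 s h2 a (mem_of_eq ha), zero_mul]
        · rfl
    · intro x y hx hy
      simp only [map_add, hx, hy, mul_add]
  · intro x y hx hy
    simp only [map_add, LinearMap.add_apply, hx, hy, add_mul]

end Spl

end Pool.Agent.H843.Ex
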