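import Pool.Graph.R_seed8.H447R3.DegB
import Pool.Graph.R_seed8.H914R2.Span

/-!
# Regularity of the algebra of correspondences
-/

open Finset

set_option linter.unusedSectionVars false

namespace Pool.Agent.H843.Ex

open Pool.Agent.H914 Pool.Agent.H447

variable {K : Type*} [Field K] [CharZero K] {V : Type*} [AddCommGroup V] [Module K V]
  {gr : ℕ → Submodule K V} {R : ℤ → Module.End K V → Prop}

/-- The algebra generated by the operators in all degrees. -/
def allOps (R : ℤ → Module.End K V → Prop) : Subalgebra K (Module.End K V) :=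
  Algebra.adjoin K {y | ∃ d, R d y}

/-- A finite sum of homogeneous elements. -/
def IsFinSum (R : ℤ → Module.End K V → Prop) (y : Module.End K V) : Prop :=
  ∃ (s : Finset ℤ) (f : ℤ → Module.End K V), (∀ d, f d ∈ KS R d) ∧ (∀ d ∉ s, f d = 0) ∧
    y = ∑ d ∈ s, f d

lemma IsFinSum.of_mem {d : ℤ} {y : Module.End K V} (hy : y ∈ KS R d) : IsFinSum R y := by
  classical
  refine ⟨{d}, fun e => if e = d then y else 0, ?_, ?_, ?_⟩
  · intro e
    by_cases he : e = d
    · subst he; simpa using hy
    · simp [he]
  · intro e he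
    rw [Finset.mem_singleton] at he
    simp [he]
  · simp

lemma IsFinSum.add {y z : Module.End K V} (hy : IsFinSum R y) (hz : IsFinSum R z) :
    IsFinSum R (y + z) := by
  classical
  obtain ⟨s, f, hf, hs, rfl⟩ := hy
  obtain ⟨t, g, hg, ht, rfl⟩ := hz
  refine ⟨s ∪ t, fun d => f d + g d, fun d => Submodule.add_mem _ (hf d) (hg d), ?_, ?_⟩
  · intro d hd
    rw [Finset.mem_union, not_or] at hd
    beta_reduce
    rw [hs d hd.1, ht d hd.2, add_zero]
  · rw [Finset.sum_add_distrib]
    congr 1
    · exact Finset.sum_subset Finset.subset_union_left (fun d _ hd => hs d hd)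
    · exact Finset.sum_subset Finset.subset_union_right (fun d _ hd => ht d hd)

lemma IsFinSum.zero : IsFinSum R (0 : Module.End K V) :=
  ⟨∅, fun _ => 0, fun _ => Submodule.zero_mem _, fun _ _ => rfl, by simp⟩

lemma IsFinSum.sum {ι : Type*} (s : Finset ι) (f : ι → Module.End K V)
    (h : ∀ i ∈ s, IsFinSum R (f i)) : IsFinSum R (∑ i ∈ s, f i) := by
  classical
  induction s using Finset.induction_on with
  | empty => simpa using IsFinSum.zero
  | insert a s ha ih =>
    rw [Finset.sum_insert ha]
    exact (h a (by simp)).add (ih (fun i hi => h i (by simp [hi])))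

variable (hR : OpAlg gr R)

include hR in
lemma IsFinSum.mul {y z : Module.End K V} (hy : IsFinSum R y) (hz : IsFinSum R z) :
    IsFinSum R (y * z) := by
  obtain ⟨s, f, hf, hs, rfl⟩ := hy
  obtain ⟨t, g, hg, ht, rfl⟩ := hz
  rw [Finset.sum_mul]
  refine IsFinSum.sum _ _ fun d _ => ?_
  rw [Finset.mul_sum]
  exact IsFinSum.sum _ _ fun e _ => IsFinSum.of_mem (hR.kspan.mul (hf d) (hg e))

include hR in
lemma isFinSum_of_mem {y : Module.End K V} (hy : y ∈ allOps R) : IsFinSum R y := by
  induction hy using Algebra.adjoin_induction with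
  | mem x hx =>
    obtain ⟨d, hd⟩ := hx
    exact IsFinSum.of_mem (Submodule.subset_span hd)
  | algebraMap r =>
    rw [Algebra.algebraMap_eq_smul_one]
    exact IsFinSum.of_mem (Submodule.smul_mem _ _ (Submodule.subset_span hR.one))
  | add x y _ _ hx hy => exact hx.add hy
  | mul x y _ _ hx hy => exact IsFinSum.mul hR hx hy

omit [CharZero K] in
lemma mem_allOps {d : ℤ} {y : Module.End K V} (hy : R d y) : y ∈ allOps R :=
  Algebra.subset_adjoin ⟨d, hy⟩

omit [CharZero K] in
lemma mem_allOps_of_KS {d : ℤ} {y : Module.End K V} (hy : y ∈ KS R d) : y ∈ allOps R := by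
  induction hy using Submodule.span_induction with
  | mem x hx => exact mem_allOps hx
  | zero => exact Subalgebra.zero_mem _
  | add x y _ _ hx hy => exact Subalgebra.add_mem _ hx hy
  | smul a x _ hx => exact Subalgebra.smul_mem _ hx _

variable [Module.Finite K V] (h : DirectSum.IsInternal gr)

/-- Supertraces of products of elements of noncomplementary degrees vanish. -/
lemma str_zero {d e : ℤ} (hde : d + e ≠ 0) {y z : Module.End K V} (hy : IsHom gr (2 * d) y)
    (hz : IsHom gr (2 * e) z) : LinearMap.trace K V (par h * (y * z)) = 0 := by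
  have hpar : IsHom gr 0 (par h) := isHom_scal h _
  have h1 := hpar.mul (hy.mul hz)
  exact trace_of_isHom h (by omega) h1

/-- The supertrace is a trace. -/
lemma str_mul_comm {d : ℤ} {y : Module.End K V} (hy : IsHom gr (2 * d) y) (z : Module.End K V) :
    LinearMap.trace K V (par h * (y * z)) = LinearMap.trace K V (par h * (z * y)) := by
  rw [← mul_assoc, hy.par_comm h, mul_assoc, LinearMap.trace_mul_comm, mul_assoc]

/-- Nondegeneracy of the rational supertrace form. -/
def StrNondeg (R : ℤ → Module.End K V → Prop) (h : DirectSum.IsInternal gr) : Prop :=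
  ∀ d, ∀ y, R d y → (∀ u, R (-d) u → LinearMap.trace K V (par h * (y * u)) = 0) → y = 0

include hR in
/-- Coefficients: the rational components of an element with coefficients. -/
lemma exists_comp (hrat : ∀ y, R 0 y → ∃ q : ℚ, LinearMap.trace K V (par h * y) = q)
    (ret : K →ₗ[ℚ] ℚ) {d : ℤ} {b : Module.End K V} (hb : b ∈ KS R d) :
    ∃ b', R d b' ∧ ∀ e f u v, R e u → R f v → e + d + f = 0 →
      LinearMap.trace K V (par h * (u * b' * v)) =
        (ret (LinearMap.trace K V (par h * (u * b * v))) : K) := by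
  induction hb using Submodule.span_induction generalizing ret with
  | mem x hx =>
    have hx' : R d x := hx
    refine ⟨((ret 1 : ℚ) : K) • x, hR.smul _ hx', ?_⟩
    intro e f u v hu hv hef
    obtain ⟨q, hq⟩ := hrat (u * x * v) (hR.cast (hR.mul (hR.mul hu hx') hv) hef)
    rw [mul_smul_comm, smul_mul_assoc, mul_smul_comm, map_smul, hq, smul_eq_mul,
      ← one_mul (q : K), ret_mul, one_mul]
    push_cast; ring
  | zero =>
    refine ⟨0, hR.zero _, ?_⟩
    intro e f u v _ _ _
    simp
  | add x y _ _ hx hy =>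
    obtain ⟨x', hx', hx2⟩ := hx ret
    obtain ⟨y', hy', hy2⟩ := hy ret
    refine ⟨x' + y', hR.add hx' hy', ?_⟩
    intro e f u v hu hv hef
    rw [mul_add, add_mul, mul_add, map_add, hx2 e f u v hu hv hef, hy2 e f u v hu hv hef,
      mul_add, add_mul, mul_add, map_add, map_add]
    push_cast; rfl
  | smul a x _ ih =>
    obtain ⟨x', hx', hx2⟩ := ih (ret ∘ₗ (LinearMap.mul ℚ K a))
    refine ⟨x', hx', ?_⟩
    intro e f u v hu hv hef
    rw [hx2 e f u v hu hv hef, mul_smul_comm, smul_mul_assoc, mul_smul_comm, map_smul]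
    rfl

include hR in
/-- Nondegeneracy with coefficients. -/
lemma StrNondeg.span (hrat : ∀ y, R 0 y → ∃ q : ℚ, LinearMap.trace K V (par h * y) = q)
    (hnd : StrNondeg R h) {d : ℤ} {y : Module.End K V} (hy : y ∈ KS R d)
    (h0 : ∀ u, R (-d) u → LinearMap.trace K V (par h * (y * u)) = 0) : y = 0 := by
  -- all pairings with all functionals vanish
  have hrep : ∃ (m : ℕ) (c : Fin m → K) (z : Fin m → Module.End K V), (∀ i, R d (z i)) ∧
      y = ∑ i, c i • z i := by
    rw [KS, Submodule.mem_span_set'] at hy
    obtain ⟨m, c, g, hg⟩ := hy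
    exact ⟨m, c, fun i => (g i : Module.End K V), fun i => (g i).2, hg.symm⟩
  obtain ⟨m, c, z, hz, rfl⟩ := hrep
  refine sum_smul_eq_zero (K := K) (V := Module.End K V) c z ?_
  intro ret
  apply hnd d
  · exact hR.sum (fun i _ => hR.smul _ (hz i))
  intro u hu
  have h1 := h0 u hu
  rw [Finset.sum_mul, Finset.mul_sum, map_sum] at h1 ⊢
  have h2 : ∀ i, ∃ q : ℚ, LinearMap.trace K V (par h * (z i * u)) = q :=
    fun i => hrat _ (hR.cast (hR.mul (hz i) hu) (by ring))
  choose q hq using h2
  have h3 : ∀ (a : K) (i : Fin m), LinearMap.trace K V (par h * (a • z i * u)) = a * q i := by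
    intro a i
    rw [smul_mul_assoc, mul_smul_comm, map_smul, hq, smul_eq_mul]
  simp only [h3] at h1 ⊢
  have h4 := congrArg ret h1
  rw [map_sum, map_zero] at h4
  simp only [ret_mul] at h4
  have h5 : ((∑ i, ret (c i) * q i : ℚ) : K) = 0 := by rw [h4]; simp
  rw [← h5]
  push_cast
  rfl

include hR in
/-- **The algebra generated by the correspondences is semisimple.** -/
theorem isSemisimpleRing_allOps
    (hrat : ∀ y, R 0 y → ∃ q : ℚ, LinearMap.trace K V (par h * y) = q)
    (hnd : StrNondeg R h) : IsSemisimpleRing (allOps R) := by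
  have : IsArtinianRing (allOps R) := IsArtinianRing.of_finite K (allOps R)
  rw [IsArtinianRing.isSemisimpleRing_iff_jacobson, eq_bot_iff]
  intro y hy
  rw [Submodule.mem_bot]
  obtain ⟨s, f, hf, hs, hfy⟩ := isFinSum_of_mem hR y.2
  obtain ⟨N, hN⟩ : IsNilpotent (Ring.jacobson (allOps R)) := IsSemiprimaryRing.isNilpotent
  -- the components of `y` vanish
  have hcomp : ∀ d, f d = 0 := by
    intro d
    apply hnd.span hR h hrat (hf d)
    intro u hu
    by_cases hd : d ∈ s
    · have hyu : (y : Module.End K V) * u ∈ allOps R :=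
        Subalgebra.mul_mem _ y.2 (mem_allOps hu)
      have hmem : (⟨(y : Module.End K V) * u, hyu⟩ : allOps R) ∈ Ring.jacobson (allOps R) := by
        have := (Ring.jacobson (allOps R)).mul_mem_right ⟨u, mem_allOps hu⟩ hy
        exact this
      have hpow : ((y : Module.End K V) * u) ^ N = 0 := by
        have h1 := Ideal.pow_mem_pow hmem N
        rw [hN] at h1
        have h2 := congrArg (fun x : allOps R => (x : Module.End K V)) (Submodule.mem_bot _ |>.1 h1)
        simpa using h2
      have hcomm : Commute (par h) ((y : Module.End K V) * u) := by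
        have h1 : ∀ z ∈ allOps R, Commute (par h) z := by
          intro z hz
          obtain ⟨s', f', hf', -, rfl⟩ := isFinSum_of_mem hR hz
          exact Commute.sum_right _ _ _ (fun e _ => (hR.kspan.hom (hf' e)).par_comm h)
        exact h1 _ hyu
      have hnil : IsNilpotent (par h * ((y : Module.End K V) * u)) :=
        ⟨N, by rw [hcomm.mul_pow, hpow, mul_zero]⟩
      have h0 : LinearMap.trace K V (par h * ((y : Module.End K V) * u)) = 0 :=
        (LinearMap.isNilpotent_trace_of_isNilpotent hnil).eq_zero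
      rw [hfy, Finset.sum_mul, Finset.mul_sum, map_sum, Finset.sum_eq_single d] at h0
      · exact h0
      · intro e _ hed
        exact str_zero h (by omega) (hR.kspan.hom (hf e)) (hR.hom hu)
      · intro hd'; exact absurd hd hd'
    · rw [hs d hd, zero_mul, mul_zero, map_zero]
  apply Subtype.ext
  rw [hfy]
  exact Finset.sum_eq_zero (fun d _ => hcomp d)

include hR in
/-- **Von Neumann regularity.** Every correspondence `y` has a rational correspondence `b` of the
opposite degree with `y b y = y`. -/
theorem exists_regular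
    (hrat : ∀ y, R 0 y → ∃ q : ℚ, LinearMap.trace K V (par h * y) = q)
    (hnd : StrNondeg R h) {d : ℤ} {y : Module.End K V} (hy : R d y) :
    ∃ b, R (-d) b ∧ y * b * y = y := by
  have := isSemisimpleRing_allOps hR h hrat hnd
  obtain ⟨e, he, hspan⟩ := IsSemisimpleRing.ideal_eq_span_idempotent
    (Ideal.span {(⟨y, mem_allOps hy⟩ : allOps R)})
  obtain ⟨b, hb⟩ := Ideal.mem_span_singleton'.1
    (show e ∈ Ideal.span {(⟨y, mem_allOps hy⟩ : allOps R)} by
      rw [hspan]; exact Ideal.mem_span_singleton_self e)
  obtain ⟨c, hc⟩ := Ideal.mem_span_singleton'.1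
    (show (⟨y, mem_allOps hy⟩ : allOps R) ∈ Ideal.span {e} by
      rw [← hspan]; exact Ideal.mem_span_singleton_self _)
  have h1 : y * (b : Module.End K V) * y = y := by
    have h2 : (⟨y, mem_allOps hy⟩ : allOps R) * e = ⟨y, mem_allOps hy⟩ := by
      rw [← hc, mul_assoc, he.eq]
    have h3 := congrArg (fun x : allOps R => (x : Module.End K V)) h2
    rw [← hb] at h3
    simpa [mul_assoc] using h3
  obtain ⟨s, f, hf, hs, hfb⟩ := isFinSum_of_mem hR b.2
  have h2 : y * f (-d) * y = y := by
    rw [← sub_eq_zero]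
    have hmem : y * f (-d) * y - y ∈ KS R d := by
      refine Submodule.sub_mem _ ?_ (Submodule.subset_span hy)
      exact hR.kspan.cast (hR.kspan.mul (hR.kspan.mul (Submodule.subset_span hy) (hf (-d)))
        (Submodule.subset_span hy)) (by ring)
    apply hnd.span hR h hrat hmem
    intro u hu
    rw [sub_mul, mul_sub, map_sub, sub_eq_zero]
    conv_rhs => rw [← h1, hfb]
    rw [Finset.mul_sum, Finset.sum_mul, Finset.sum_mul, Finset.mul_sum, map_sum]
    by_cases hd : -d ∈ s
    · rw [Finset.sum_eq_single (-d)]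
      · intro e' _ he'
        have h5 := hR.kspan.hom (hR.kspan.mul (hR.kspan.mul (Submodule.subset_span hy) (hf e'))
          (Submodule.subset_span hy))
        exact str_zero h (by omega) h5 (hR.hom hu)
      · intro h'; exact absurd hd h'
    · rw [hs _ hd]
      symm
      rw [mul_zero, zero_mul, zero_mul, mul_zero, map_zero]
      apply Finset.sum_eq_zero
      intro e' he'
      have hne : e' ≠ -d := by rintro rfl; exact hd he'
      have h5 := hR.kspan.hom (hR.kspan.mul (hR.kspan.mul (Submodule.subset_span hy) (hf e'))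
        (Submodule.subset_span hy))
      exact str_zero h (by omega) h5 (hR.hom hu)
  obtain ⟨ret, hret⟩ := exists_retract K
  obtain ⟨b', hb', hb2⟩ := exists_comp hR h hrat ret (hf (-d))
  refine ⟨b', hb', ?_⟩
  rw [← sub_eq_zero]
  apply hnd d
  · exact hR.sub (hR.cast (hR.mul (hR.mul hy hb') hy) (by ring)) hy
  intro u hu
  rw [sub_mul, mul_sub, map_sub, sub_eq_zero]
  have h3 := hb2 d 0 y (y * u) hy (hR.cast (hR.mul hy hu) (by ring)) (by ring)
  rw [mul_assoc (y * b') y u, h3]
  have h4 : y * f (-d) * (y * u) = y * u := by rw [← mul_assoc, h2]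
  rw [h4]
  obtain ⟨q, hq⟩ := hrat (y * u) (hR.cast (hR.mul hy hu) (by ring))
  rw [hq, ret_ratCast hret]

end Pool.Agent.H843.Ex
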