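import Pool.Agent.H843.Ex9
import Pool.Agent.H843.Ex10
import Pool.Graph.R_seed8.W537.OneCycleB

/-!
# Inverting the Lefschetz operators when homological and numerical equivalence agree
-/

open CategoryTheory AlgebraicGeometry Function Filter Finset

universe u v

set_option linter.unusedSectionVars false

namespace Pool.Agent.H843.Ex

open Pool.Agent.H914 Pool.Agent.H914.VarClass Pool.Agent.H914.VarClass.Obj
  Pool.Agent.H914.WeilCohomology Pool.Agent.R908 Pool.Agent.N180.Cf Pool.Agent.H447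
  Pool.Agent.W537

variable {k : Type u} [Field k] {𝒱 : VarClass k} {ops : CycleOps 𝒱}
  {W : WeilCohomology.{u, v} ops} {X : 𝒱.Obj}

lemma rop_corr {d : ℤ} {p : ℕ} (hp : (p : ℤ) = X.dim + d) {z : (X.prod X).Cycles}
    (hz : (X.prod X).IsCyc p z) : ROp W X d (W.corr (W.cl _ z)) :=
  ⟨fun W => W.corr (W.cl _ z), Or.inl ⟨p, hp, z, hz, fun _ => rfl⟩, rfl⟩

/-- If homological and numerical equivalence agree on `X × X`, the supertrace form of the algebra
of correspondences is nondegenerate. -/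
lemma strNondeg_of_homEqNum (h : HomEqNum W (X.prod X)) :
    StrNondeg (ROp W X) (W.isInternal X) := by
  rintro d _ ⟨Y, ⟨q, hq, z, hz, hY⟩ | ⟨hd, hY⟩, rfl⟩ hu
  · rw [hY] at hu ⊢
    by_cases hq2 : q ≤ (X.prod X).dim
    · rw [h q hq2 z hz ?_, corr_zero]
      intro w hw
      have h1 : ((X.prod X).V.degCycle (ops.mul z w) : W.K) = 0 := by
        rw [← tr_mul_cl hz hw (by omega), tr_mul_eq_trace (W.cl_mem hz), mul_assoc, ← W.cl_pull]
        apply hu
        refine rop_corr (p := (X.prod X).dim - q) ?_ (ops.pull_mem _ hw)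
        rw [dim_prod] at hq2 ⊢
        omega
      exact_mod_cast h1
    · have h1 := W.cl_mem hz
      rw [W.gr_eq_bot _ _ (by omega)] at h1
      rw [(Submodule.mem_bot _).1 h1, corr_zero]
  · exact hY W

/-- **Algebraic inverses.** If homological and numerical equivalence agree on `X × X` and the map
`ξ ^ (n - i)` is injective on `H^i(X)`, then some cycle induces its inverse. -/
theorem exists_inverts {D : X.Cycles} (hD : X.IsCyc 1 D) (h : HomEqNum W (X.prod X)) {i : ℕ}
    (hi : i ≤ X.dim) (hinj : ∀ a ∈ W.gr X i, lefPow W X D (X.dim - i) a = 0 → a = 0) :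
    ∃ z, InvertsLefschetz W X D i z := by
  have hL : ROp W X ((X.dim - i : ℕ) : ℤ) (LL D W ^ (X.dim - i)) :=
    rop_opAlg.cast (rop_opAlg.pow (rop_mulLeft hD) (X.dim - i)) (by ring)
  obtain ⟨b, hb, hbL⟩ := exists_regular rop_opAlg (W.isInternal X) rop_str
    (strNondeg_of_homEqNum h) hL
  obtain ⟨Y, hY, rfl⟩ := hb
  obtain ⟨z, hz, hYz⟩ := cyc_of_realized hi hY
  refine ⟨z, (inverts_iff hD W hi).2 ⟨hz, fun a ha => ?_⟩⟩
  rw [show X.dim - (X.dim - i) = i by omega] at ha
  rw [← hYz W, ← sub_eq_zero]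
  have hmem : Y W ((LL D W ^ (X.dim - i)) a) ∈ W.gr X i := by
    have h1 := (hY.isHom W).mul (rop_opAlg.hom hL)
    have h2 := h1 i a (by rw [grZ_natCast]; exact ha)
    rw [show (i : ℤ) + (2 * -((X.dim - i : ℕ) : ℤ) + 2 * ((X.dim - i : ℕ) : ℤ)) = i by ring,
      grZ_natCast] at h2
    exact h2
  apply hinj _ (Submodule.sub_mem _ hmem ha)
  have h3 := congrArg (fun T => T a) hbL
  have h4 : lefPow W X D (X.dim - i) = LL D W ^ (X.dim - i) := by
    rw [LinearMap.pow_mulLeft]; rfl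
  rw [map_sub, sub_eq_zero, h4]
  exact h3

/-! ### Traces in the limit theory -/

lemma trace_grL {K A : Type*} [Field K] [AddCommGroup A] [Module K A] [Module.Finite K A]
    (D : Spl K A) (T : A →ₗ[K] A) :
    LinearMap.trace K A (Spl.grL D D T) = LinearMap.trace K A T := by
  have h1 : ∀ s ∈ D.S, LinearMap.trace K A (D.P s ∘ₗ T ∘ₗ D.P s) =
      LinearMap.trace K A (T ∘ₗ D.P s) := by
    intro s _
    have h2 := LinearMap.trace_mul_comm K (D.P s) (T ∘ₗ D.P s)
    have h3 : (T ∘ₗ D.P s) * D.P s = T ∘ₗ D.P s := by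
      apply LinearMap.ext
      intro x
      change T (D.P s (D.P s x)) = T (D.P s x)
      rw [D.P_P]
    rw [h3] at h2
    exact h2
  rw [Spl.grL, map_sum, Finset.sum_congr rfl h1, ← map_sum]
  congr 1
  apply LinearMap.ext
  intro x
  rw [LinearMap.sum_apply]
  simp only [LinearMap.comp_apply]
  rw [← map_sum, D.sum]

lemma trace_gmap {I : Type*} (l : Ultrafilter I) {K A : Type*} [Field K] [AddCommGroup A]
    [Module K A] [Module.Finite K A] (T : I → A →ₗ[K] A) :
    LinearMap.trace (Germ (l : Filter I) K) (Germ (l : Filter I) A) (gmap (l : Filter I) T) =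
      ((fun i => LinearMap.trace K A (T i) : I → K) : Germ (l : Filter I) K) := by
  classical
  set b := Module.finBasis K A with hb
  have h1 : gmap (l : Filter I) T = ∑ j, (gmap (l : Filter I) (fun _ => b.coord j)).smulRight
      ((fun i => T i (b j) : I → A) : Germ (l : Filter I) A) := by
    apply LinearMap.ext
    intro x
    induction x using Germ.inductionOn with | h x =>
    rw [LinearMap.sum_apply]
    have h4 := map_sum (Germ.coeAddHom (l : Filter I) (M := A))
      (fun j => (fun i => b.coord j (x i) • T i (b j))) Finset.univ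
    have h5 : ((fun i => T i (x i) : I → A) : Germ (l : Filter I) A) =
        Germ.coeAddHom (l : Filter I) (∑ j, (fun i => b.coord j (x i) • T i (b j))) := by
      refine congrArg _ ?_
      funext i
      rw [Finset.sum_apply]
      conv_lhs => rw [← b.sum_repr (x i), map_sum]
      refine Finset.sum_congr rfl fun j _ => ?_
      rw [map_smul]
      rfl
    rw [gmap_coe, h5, h4]
    rfl
  rw [h1, map_sum]
  have h2 : ∀ j, LinearMap.trace (Germ (l : Filter I) K) (Germ (l : Filter I) A)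
      ((gmap (l : Filter I) (fun _ => b.coord j)).smulRight
        ((fun i => T i (b j) : I → A) : Germ (l : Filter I) A)) =
      ((fun i => b.coord j (T i (b j)) : I → K) : Germ (l : Filter I) K) := by
    intro j
    rw [LinearMap.trace_smulRight]
    rfl
  rw [Finset.sum_congr rfl (fun j _ => h2 j)]
  have h6 := map_sum (Germ.coeAddHom (l : Filter I) (M := K))
      (fun j => (fun i => b.coord j (T i (b j)))) Finset.univ
  rw [← Germ.coe_coeAddHom, ← h6]
  refine congrArg _ ?_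
  funext i
  rw [Finset.sum_apply, LinearMap.trace_eq_matrix_trace K b, Matrix.trace]
  refine Finset.sum_congr rfl fun j _ => ?_
  rw [Matrix.diag_apply, LinearMap.toMatrix_apply]
  rfl

section Star

variable {𝒟 : Sys W} {𝒰 : Ultrafilter 𝒱.Obj}
  (h𝒰 : ∀ V, ∀ᶠ i in (𝒰 : Filter 𝒱.Obj), Dom W i V)

/-- The action of a cycle in the limit theory. -/
lemma corr_star {X Y : 𝒱.Obj} (z : (X.prod Y).Cycles) (a : 𝒱.Obj → W.H X) :
    (star 𝒟 h𝒰).corr ((star 𝒟 h𝒰).cl (X.prod Y) z) (mk 𝒟 𝒰 a) =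
      mk 𝒟 𝒰 (fun i => Spl.grL (𝒟.D i X) (𝒟.D i Y) (W.corr (W.cl (X.prod Y) z)) (a i)) := by
  change pushL 𝒟 𝒰 (snd X Y) (mk 𝒟 𝒰 (fun i => (𝒟.D i (X.prod Y)).P 0 (W.cl (X.prod Y) z)) *
    mapL 𝒟 𝒰 (fst X Y) (mk 𝒟 𝒰 a)) = _
  rw [mapL, opS_mk, mk_mul, pushL, opS_mk]
  apply mk_eq
  filter_upwards [h𝒰 X, h𝒰 Y, h𝒰 (X.prod Y)] with i hX hY hXY
  set D := 𝒟.D i (X.prod Y) with hD
  have hc := 𝒟.cl_mem hXY z
  have hmul : Spl.Filt D D (LinearMap.mulLeft W.K (W.cl (X.prod Y) z)) := by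
    intro s x hx
    have := (𝒟.wt i (X.prod Y)).mul 0 s _ hc x hx
    rwa [zero_add] at this
  have hg : ∀ b, Spl.gmul D (D.P 0 (W.cl (X.prod Y) z)) b =
      Spl.grL D D (LinearMap.mulLeft W.K (W.cl (X.prod Y) z)) b := by
    refine Spl.ind (D := D) ?_ ?_
    · intro s b hb
      rw [Spl.gmul_wt (D.P_P 0 _) hb, Spl.grL_wt hb, LinearMap.mulLeft_apply]
      have h1 := (𝒟.wt i (X.prod Y)).mul.lead hc (Spl.mem_of_eq hb)
      rw [← hD, hb] at h1
      rw [← h1, zero_add]
    · intro x y hx hy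
      rw [map_add, map_add, hx, hy]
  rw [hg]
  have h2 := Spl.grL_comp (𝒟.filt_push hXY hY (snd X Y)) (hmul.comp (𝒟.filt_map hXY hX (fst X Y)))
  rw [Spl.grL_comp hmul (𝒟.filt_map hXY hX (fst X Y))] at h2
  exact (congrArg (fun T => T (a i)) h2).symm

/-- The embedding of the coefficient field of `W` in that of the limit theory. -/
noncomputable def constHom (W : WeilCohomology.{u, v} ops) (𝒰 : Ultrafilter 𝒱.Obj) :
    W.K →+* KS W 𝒰 where
  toFun c := ((fun _ => c : 𝒱.Obj → W.K) : Germ (𝒰 : Filter 𝒱.Obj) W.K)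
  map_one' := rfl
  map_mul' _ _ := rfl
  map_zero' := rfl
  map_add' _ _ := rfl

/-- **The limit theory has the same traces of correspondences on each `H^j(X)`.** -/
theorem traceOn_star {X : 𝒱.Obj} {z : (X.prod X).Cycles} {j : ℕ} {t : W.K}
    (hz : (X.prod X).IsCyc X.dim z) (ht : TraceOn (W.gr X) j (cycOp W X z) t) :
    TraceOn ((star 𝒟 h𝒰).gr X) j (cycOp (star 𝒟 h𝒰) X z) (constHom W 𝒰 t) := by
  intro P hP
  have hzW : LinearMap.trace W.K (W.H X) (W.corr (W.cl _ z) ∘ₗ proj (W.isInternal X) j) = t := by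
    refine ht _ ?_
    intro i a ha
    split_ifs with hi
    · subst hi; exact proj_same _ ha
    · exact proj_ne _ ha hi
  have hP' : P = opS 𝒟 𝒰 (fun _ => proj (W.isInternal X) j) := by
    apply gr_ext ((star 𝒟 h𝒰).isInternal X)
    rintro i _ ⟨a, ha, rfl⟩
    refine (hP i _ ⟨a, ha, rfl⟩).trans ?_
    by_cases hi : i = j
    · subst hi
      refine (if_pos rfl).trans ?_
      exact (mk_eq (𝒟 := 𝒟) (Eventually.of_forall fun l => proj_same _ (ha l))).symm
    · refine (if_neg hi).trans ?_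
      exact (mk_eq (𝒟 := 𝒟) (Eventually.of_forall fun l => proj_ne _ (ha l) hi)).symm
  have hT : cycOp (star 𝒟 h𝒰) X z * P = opS 𝒟 𝒰 (fun i =>
      Spl.grL (𝒟.D i X) (𝒟.D i X) (W.corr (W.cl (X.prod X) z)) ∘ₗ
        proj (W.isInternal X) j) := by
    rw [hP']
    apply LinearMap.ext
    intro a
    exact mk_ind (𝒟 := 𝒟) (𝒰 := 𝒰) (p := fun a => cycOp (star 𝒟 h𝒰) X z
      (opS 𝒟 𝒰 (fun _ => proj (W.isInternal X) j) a) = opS 𝒟 𝒰 (fun i =>
      Spl.grL (𝒟.D i X) (𝒟.D i X) (W.corr (W.cl (X.prod X) z)) ∘ₗ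
        proj (W.isInternal X) j) a) (fun a => corr_star h𝒰 z
          (fun i => proj (W.isInternal X) j (a i))) a
  rw [hT]
  refine (trace_gmap 𝒰 _).trans ?_
  refine germ_eq ?_
  filter_upwards [h𝒰 X, h𝒰 (X.prod X)] with i hX hXX
  rw [← hzW]
  have h1 : Spl.grL (𝒟.D i X) (𝒟.D i X) (W.corr (W.cl (X.prod X) z)) ∘ₗ
      proj (W.isInternal X) j = Spl.grL (𝒟.D i X) (𝒟.D i X)
        (W.corr (W.cl (X.prod X) z) ∘ₗ proj (W.isInternal X) j) := by
    have hpj : ∀ s x, (𝒟.D i X).P s (proj (W.isInternal X) j x) =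
        proj (W.isInternal X) j ((𝒟.D i X).P s x) := by
      intro s x
      refine gr_induction (W.isInternal X) (p := fun x => (𝒟.D i X).P s
        (proj (W.isInternal X) j x) = proj (W.isInternal X) j ((𝒟.D i X).P s x)) ?_ ?_ x
      · intro l x hx
        have h2 := (𝒟.wt i X).hom s l x hx
        by_cases hl : l = j
        · subst hl
          rw [proj_same _ hx, proj_same _ h2]
        · rw [proj_ne _ hx hl, proj_ne _ h2 hl, map_zero]
      · intro x y hx hy
        rw [map_add, map_add, hx, hy, map_add, map_add]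
    have hF : Spl.Filt (𝒟.D i X) (𝒟.D i X) (proj (W.isInternal X) j) := by
      intro s x hx r hr
      rw [hpj, hx r hr, map_zero]
    have hC : Spl.Filt (𝒟.D i X) (𝒟.D i X) (W.corr (W.cl (X.prod X) z)) :=
      𝒟.kop i X X hX hX 0 _ (KOp.gen (by rw [add_zero]) hz)
    rw [Spl.grL_comp hC hF]
    congr 1
    apply LinearMap.ext
    refine Spl.ind (D := 𝒟.D i X) ?_ ?_
    · intro s x hx
      rw [Spl.grL_wt hx, hpj, hx]
    · intro x y hx hy
      rw [map_add, map_add, hx, hy]
  rw [h1, trace_grL]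

end Star

end Pool.Agent.H843.Ex
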