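import Pool.Graph.R_seed8.W537.OneCycleDefs
import Pool.Graph.R_pool_sql_team_seeded_63374d34.N180.CfDefs

/-!
# Comparing Weil cohomology theories: definitions
-/

open CategoryTheory AlgebraicGeometry

universe u v

namespace Pool.Agent.H843

open Pool.Agent.H914 Pool.Agent.H914.VarClass Pool.Agent.H914.VarClass.Obj
  Pool.Agent.H914.WeilCohomology

variable {k : Type u} [Field k] {𝒱 : VarClass k} {ops : CycleOps 𝒱}

/-- The theories `W` and `W'` have the same Betti numbers on all varieties of the class. -/
def SameBetti (W W' : WeilCohomology.{u, v} ops) : Prop :=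
  ∀ (X : 𝒱.Obj) (i : ℕ), W'.betti X i = W.betti X i

/-- The theory `W'` cannot be distinguished from `W` by numbers: the Betti numbers are the same,
and there is an embedding `σ` of the coefficient field of `W` in that of `W'` such that for every
variety `X`, every cycle `z` of codimension `dim X` on `X × X` and every `i` the trace of the
correspondence `z` on `H^i(X)` for `W'` is the image under `σ` of the trace for `W`. -/
def Indistinguishable (W W' : WeilCohomology.{u, v} ops) : Prop :=
  SameBetti W W' ∧ ∃ σ : W.K →+* W'.K, ∀ (X : 𝒱.Obj) (z : (X.prod X).Cycles),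
    (X.prod X).IsCyc X.dim z → ∀ (i : ℕ) (t : W.K),
      W537.TraceOn (W.gr X) i (W537.cycOp W X z) t →
        W537.TraceOn (W'.gr X) i (W537.cycOp W' X z) (σ t)

/-- Homological equivalence for `W` and numerical equivalence coincide on all varieties of the
class. -/
def HomEqNumAll (W : WeilCohomology.{u, v} ops) : Prop := ∀ X : 𝒱.Obj, HomEqNum W X

/-- The sign conjecture (conjecture `C⁺`) for all varieties of the class: on the cohomology of `X`
the operator `(-1) ^ i` in degree `i` is given by a linear combination of algebraic
correspondences, with coefficients in the coefficient field. -/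
def SignAll (W : WeilCohomology.{u, v} ops) : Prop := ∀ X : 𝒱.Obj, N180.Cf.SignOpAlgebraic W X

/-- Hard Lefschetz in degree `i` for the divisor `D` on `X`: the product with the power `n - i` of
the class of `D` is a bijection from `H^i(X)` to `H^(2n - i)(X)`, where `n = dim X`. -/
def LefschetzIn (W : WeilCohomology.{u, v} ops) (X : 𝒱.Obj) (D : X.Cycles) (i : ℕ) : Prop :=
  Set.BijOn (W537.lefPow W X D (X.dim - i)) (W.gr X i) (W.gr X (2 * X.dim - i))

/-- The cycle `z` of codimension `j` on `X` is numerically equivalent to zero: its intersection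
numbers with all cycles of the complementary codimension vanish. -/
def NumTrivial (ops : CycleOps 𝒱) (X : 𝒱.Obj) (j : ℕ) (z : X.Cycles) : Prop :=
  ∀ w, X.IsCyc (X.dim - j) w → X.V.degCycle (ops.mul z w) = 0

/-- Every cycle which is homologically equivalent to zero for `W'` is homologically equivalent to
zero for `W`. -/
def HomEqFiner (W' W : WeilCohomology.{u, v} ops) : Prop :=
  ∀ (X : 𝒱.Obj) (j : ℕ) (z : X.Cycles), X.IsCyc j z → W'.cl X z = 0 → W.cl X z = 0

/-- Hard Lefschetz for `W` and the divisors in the sets `Div X`. -/
def HardLefschetzFor (W : WeilCohomology.{u, v} ops) (Div : ∀ X : 𝒱.Obj, Set X.Cycles) : Prop :=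
  ∀ X, ∀ D ∈ Div X, HardLefschetz W X D

end Pool.Agent.H843
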