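import Pool.Agent.H843.Ex11
import Pool.Agent.H843.StarDefs
import Pool.Graph.R_seed8.H914R2.LefB

/-!
# The Lefschetz standard conjecture and hard Lefschetz for all theories
-/

open CategoryTheory AlgebraicGeometry Function Filter Finset

universe u v

set_option linter.unusedSectionVars false

namespace Pool.Agent.H843.Ex

open Pool.Agent.H914 Pool.Agent.H914.VarClass Pool.Agent.H914.VarClass.Obj
  Pool.Agent.H914.WeilCohomology Pool.Agent.R908 Pool.Agent.N180.Cf Pool.Agent.H447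
  Pool.Agent.W537

variable {k : Type u} [Field k] {𝒱 : VarClass k} {ops : CycleOps 𝒱}

/-- **Existence of a theory in which homological and numerical equivalence agree.** -/
theorem exists_star (W : WeilCohomology.{u, max (u + 1) v} ops) (hsign : SignAll W)
    (hP : ∃ P : 𝒱.Obj, P.dim = 0)
    (hdeg : ∀ X : 𝒱.Obj, ∃ z, X.IsCyc X.dim z ∧ X.V.degCycle z ≠ 0) :
    ∃ W' : WeilCohomology.{u, max (u + 1) v} ops, Indistinguishable W W' ∧ HomEqNumAll W' := by
  obtain ⟨P, hP⟩ := hP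
  obtain ⟨𝒟⟩ := exists_sys W hsign hP
  obtain ⟨𝒰, h𝒰⟩ := exists_ultra (W := W) hdeg P
  refine ⟨star.{u, max (u + 1) v} 𝒟 h𝒰, ⟨fun X i => betti_star h𝒰 X i, ?_⟩,
    fun X => homEqNum_star h𝒰 X⟩
  exact ⟨constHom W 𝒰, fun X z hz i t ht => traceOn_star h𝒰 hz ht⟩

variable {W : WeilCohomology.{u, v} ops} {X : 𝒱.Obj}

/-- Powers of a divisor as cycles. -/
lemma exists_powCyc {D : X.Cycles} (hD : X.IsCyc 1 D) (m : ℕ) :
    ∃ z, X.IsCyc m z ∧ ∀ W : WeilCohomology.{u, v} ops, W.cl X z = W.cl X D ^ m := by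
  induction m with
  | zero => exact ⟨X.V.fundCycle, X.V.fundCycle_mem, fun W => by rw [W.cl_fund, pow_zero]⟩
  | succ m ih =>
    obtain ⟨z, hz, h⟩ := ih
    exact ⟨ops.mul z D, ops.mul_mem hz hD, fun W => by rw [W.cl_mul, h, pow_succ]⟩

lemma lefPow_mem {D : X.Cycles} (hD : X.IsCyc 1 D) {i m : ℕ} {a : W.H X} (ha : a ∈ W.gr X i) :
    lefPow W X D m a ∈ W.gr X (i + 2 * m) := by
  obtain ⟨z, hz, h⟩ := exists_powCyc (ops := ops) hD m
  have h1 := W.mul_mem (W.cl_mem hz) ha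
  rw [h W, add_comm (2 * m) i] at h1
  exact h1

lemma LL_pow_eq {D : X.Cycles} (m : ℕ) : LL D W ^ m = lefPow W X D m := by
  rw [LinearMap.pow_mulLeft]
  rfl

/-- Hard Lefschetz in all degrees. -/
lemma hardLefschetz_iff {D : X.Cycles} (hD : X.IsCyc 1 D) :
    HardLefschetz W X D ↔ ∀ i ≤ X.dim, LefschetzIn W X D i := by
  have key : ∀ i, (LinearMap.mulLeft W.K (W.cl X D)) ^ (X.dim - i) =
      lefPow W X D (X.dim - i) := fun i => LL_pow_eq _
  constructor
  · intro h i hi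
    obtain ⟨h1, h2⟩ := h i hi
    rw [key] at h1 h2
    refine ⟨?_, ?_, ?_⟩
    · intro a ha
      have h3 := lefPow_mem hD (m := X.dim - i) ha
      rwa [show i + 2 * (X.dim - i) = 2 * X.dim - i by omega] at h3
    · intro a ha b hb hab
      rw [← sub_eq_zero]
      apply h1 _ (Submodule.sub_mem _ ha hb)
      rw [map_sub, sub_eq_zero]
      exact hab
    · intro b hb
      obtain ⟨a, ha, hab⟩ := h2 b hb
      exact ⟨a, ha, hab⟩
  · intro h i hi
    obtain ⟨h1, h2, h3⟩ := h i hi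
    rw [key]
    refine ⟨?_, ?_⟩
    · intro a ha h0
      apply h2 ha (Submodule.zero_mem _)
      rw [h0, map_zero]
    · intro b hb
      obtain ⟨a, ha, hab⟩ := h3 hb
      exact ⟨a, ha, hab⟩

/-- A zero-cycle of nonzero degree, from hard Lefschetz. -/
lemma exists_deg_of_lefschetz {D : X.Cycles} (hD : X.IsCyc 1 D) (h : LefschetzIn W X D 0)
    (h1 : (1 : W.H X) ≠ 0) : ∃ z, X.IsCyc X.dim z ∧ X.V.degCycle z ≠ 0 := by
  obtain ⟨z, hz, hzD⟩ := exists_powCyc (ops := ops) hD X.dim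
  refine ⟨z, hz, fun h0 => h1 ?_⟩
  apply W.nondeg
  intro b
  rw [one_mul]
  refine gr_induction (W.isInternal X) (p := fun b => W.tr X b = 0) ?_ ?_ b
  · intro i b hb
    by_cases hi : i = 2 * X.dim
    · subst hi
      obtain ⟨a, ha, hab⟩ := h.surjOn hb
      have ha' : a ∈ W.gr X 0 := ha
      rw [W.gr_zero, Submodule.mem_span_singleton] at ha'
      obtain ⟨c, rfl⟩ := ha'
      have h2 : lefPow W X D (X.dim - 0) (c • 1) = c • W.cl X z := by
        rw [map_smul, hzD W]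
        change c • (W.cl X D ^ (X.dim - 0) * 1) = _
        rw [mul_one, Nat.sub_zero]
      have h3 := W.tr_cl hz
      rw [← hab, h2, map_smul, h3, h0, Rat.cast_zero, smul_zero]
    · exact W.tr_eq_zero hb hi
  · intro a b ha hb
    rw [map_add, ha, hb, add_zero]

lemma lefschetzIn_of_inverts {D : X.Cycles} (hD : X.IsCyc 1 D) {i : ℕ} (hi : i ≤ X.dim)
    {z : (X.prod X).Cycles} (h : InvertsLefschetz W X D i z) : LefschetzIn W X D i := by
  obtain ⟨hz, h1, h2⟩ := h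
  refine ⟨?_, ?_, ?_⟩
  · intro a ha
    have h3 := lefPow_mem hD (m := X.dim - i) ha
    rwa [show i + 2 * (X.dim - i) = 2 * X.dim - i by omega] at h3
  · intro a ha b hb hab
    rw [← h1 a ha, ← h1 b hb, hab]
  · intro b hb
    refine ⟨cycOp W X z b, ?_, h2 b hb⟩
    have h3 := (W.corr_isHom (W.cl_mem hz)) (2 * X.dim - i : ℕ) b (by rw [grZ_natCast]; exact hb)
    rw [show ((2 * X.dim - i : ℕ) : ℤ) + 2 * ((i : ℤ) - X.dim) = (i : ℕ) by omega,
      grZ_natCast] at h3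
    exact h3

lemma inj_of_lefschetzIn {D : X.Cycles} {i : ℕ} (h : LefschetzIn W X D i) :
    ∀ a ∈ W.gr X i, lefPow W X D (X.dim - i) a = 0 → a = 0 := by
  intro a ha h0
  apply h.injOn ha (Submodule.zero_mem _)
  rw [h0, map_zero]

/-- Algebraic inverses give the conjecture B. -/
lemma lefschetzB_of_inverts {D : X.Cycles} (hD : X.IsCyc 1 D) (hHL : HardLefschetz W X D)
    (h : ∀ i ≤ X.dim, ∃ z, InvertsLefschetz W X D i z) : LefschetzB W X D := by
  apply lefschetzB_of_inj hD hHL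
  intro c hc
  obtain ⟨z, hz, h1, h2⟩ := h (X.dim - c) (by omega)
  refine ⟨W.corr (W.cl _ z), KOp.gen (by omega) hz, ?_⟩
  intro a ha h0
  have h3 := h2 a (by rwa [show 2 * X.dim - (X.dim - c) = X.dim + c by omega])
  rw [← h3]
  change lefPow W X D _ (W.corr (W.cl _ z) a) = 0
  rw [h0, map_zero]

/-- The conjecture B gives algebraic inverses. -/
lemma inverts_of_lefschetzB {D : X.Cycles} (hD : X.IsCyc 1 D) (hHL : HardLefschetz W X D)
    (hB : LefschetzB W X D) {i : ℕ} (hi : i ≤ X.dim) : ∃ z, InvertsLefschetz W X D i z := by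
  obtain ⟨Φ, hΦ, hLam⟩ := lefschetzB_iff_rop.1 hB
  have hLh : IsHom (W.gr X) 2 (LL D W) := LL_isHom hD W
  have hp : ROp W X (-((X.dim - i : ℕ) : ℤ)) (Φ ^ (X.dim - i)) :=
    rop_opAlg.cast (rop_opAlg.pow hΦ (X.dim - i)) (by ring)
  obtain ⟨Y, hY, hYW⟩ := hp
  obtain ⟨z, hz, hYz⟩ := cyc_of_realized hi hY
  refine ⟨z, (inverts_iff hD W hi).2 ⟨hz, fun a ha => ?_⟩⟩
  rw [← hYz W, hYW]
  exact lam_pow_L_pow hLh W_hbd hHL hLam (by omega) ha

/-- **The sign conjecture from algebraic inverses.** -/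
lemma sign_of_inverts {D : X.Cycles} (hD : X.IsCyc 1 D)
    (h : ∀ i ≤ X.dim, ∃ z, InvertsLefschetz W X D i z) : SignOpAlgebraic W X := by
  obtain ⟨Λ, hΛ⟩ := oneCycle hD le_rfl W h
  have h1 : ∀ i ≤ X.dim, InducesInverse W X D i (Λ i) :=
    ((hΛ W).out 0 2).1 (fun i _ => rfl)
  have hinv : ∀ i ≤ X.dim, IsInv (W.gr X) X.dim (LL D W) (X.dim - i) (W.corr (W.cl _ (Λ i))) := by
    intro i hi
    obtain ⟨h2, h3⟩ := h1 i hi
    refine ⟨((inverts_iff hD W hi).1 h2).2, fun j hj a ha => h3 j (by omega) a ha⟩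
  have hLp : ∀ i, (LL D W ^ (X.dim - i)) ∈ KOp W X X ((X.dim - i : ℕ) : ℤ) := by
    intro i
    rw [← mem_KS_iff]
    exact Submodule.subset_span (rop_opAlg.cast (rop_opAlg.pow (rop_mulLeft hD) (X.dim - i))
      (by ring))
  have hT : ∀ i ≤ X.dim, W.corr (W.cl _ (Λ i)) ∈ KOp W X X (-((X.dim - i : ℕ) : ℤ)) := by
    intro i hi
    exact KOp.gen (by omega) (h1 i hi).1.1
  have hp : ∀ j ≤ 2 * X.dim, proj (W.isInternal X) j ∈ KOp W X X 0 := by
    intro j hj
    by_cases hj2 : j ≤ X.dim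
    · have h2 := isInv_mul_pow hD W (by omega) (hinv j hj2)
      rw [show X.dim - (X.dim - j) = j by omega] at h2
      rw [← h2]
      exact KOp.cast (KOp.comp (hT j hj2) (hLp j)) (by ring)
    · have h2 := pow_mul_isInv hD W (by omega) (hinv (2 * X.dim - j) (by omega))
      rw [show X.dim + (X.dim - (2 * X.dim - j)) = j by omega] at h2
      rw [← h2]
      exact KOp.cast (KOp.comp (hLp _) (hT _ (by omega))) (by ring)
  have hpar : par (W.isInternal X) ∈ KOp W X X 0 := by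
    have h2 : par (W.isInternal X) = ∑ j ∈ range (2 * X.dim + 1),
        (-1 : W.K) ^ j • proj (W.isInternal X) j := by
      apply gr_ext (W.isInternal X)
      intro j a ha
      rw [par, scal_apply _ _ ha, LinearMap.sum_apply]
      by_cases hj : j ∈ range (2 * X.dim + 1)
      · rw [Finset.sum_eq_single_of_mem j hj, LinearMap.smul_apply, proj_same _ ha]
        intro i _ hi
        rw [LinearMap.smul_apply, proj_ne _ ha (Ne.symm hi), smul_zero]
      · rw [Finset.mem_range] at hj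
        rw [W.gr_eq_bot X j (by omega)] at ha
        rw [(Submodule.mem_bot _).1 ha, smul_zero]
        simp
    rw [h2]
    refine Submodule.sum_mem _ fun j hj => Submodule.smul_mem _ _ (hp j ?_)
    rw [Finset.mem_range] at hj
    omega
  obtain ⟨γ, hγ, hγ'⟩ := mem_KOp_iff.1 hpar
  rw [add_zero] at hγ
  refine ⟨_, ⟨γ, hγ, rfl⟩, ?_⟩
  intro i a ha
  rw [hγ', par, scal_apply _ _ ha]

/-- **The relative theorem.** -/
theorem relative (W : WeilCohomology.{u, max (u + 1) v} ops) (hsign : SignAll W)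
    (hP : ∃ P : 𝒱.Obj, P.dim = 0)
    (hdeg : ∀ X : 𝒱.Obj, ∃ z, X.IsCyc X.dim z ∧ X.V.degCycle z ≠ 0)
    {X : 𝒱.Obj} {D : X.Cycles} (hD : X.IsCyc 1 D) {d : ℕ} (hd : d ≤ X.dim) : List.TFAE [
      ∀ i ≤ d, ∃ z, InvertsLefschetz W X D i z,
      ∀ W' : WeilCohomology.{u, max (u + 1) v} ops, (∀ i ≤ d, W'.betti X i = W.betti X i) →
        ∀ i ≤ d, LefschetzIn W' X D i,
      ∀ W' : WeilCohomology.{u, max (u + 1) v} ops, Indistinguishable W W' → HomEqNumAll W' →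
        ∀ i ≤ d, LefschetzIn W' X D i,
      ∃ W' : WeilCohomology.{u, max (u + 1) v} ops, SameBetti W W' ∧ HomEqNumAll W' ∧
        ∀ i ≤ d, LefschetzIn W' X D i] := by
  tfae_have 1 → 2 := by
    intro h W' hW' i hi
    obtain ⟨Λ, hΛ⟩ := oneCycle hD hd W h
    have h1 : ∀ i ≤ d, ∃ z, InvertsLefschetz W' X D i z := ((hΛ W').out 0 3).1 hW'
    obtain ⟨z, hz⟩ := h1 i hi
    exact lefschetzIn_of_inverts hD (by omega) hz
  tfae_have 2 → 3 := fun h W' hW' _ => h W' (fun i _ => hW'.1 X i)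
  tfae_have 3 → 4 := by
    intro h
    obtain ⟨W', h1, h2⟩ := exists_star W hsign hP hdeg
    exact ⟨W', h1.1, h2, h W' h1 h2⟩
  tfae_have 4 → 1 := by
    rintro ⟨W', h1, h2, h3⟩
    have h4 : ∀ i ≤ d, ∃ z, InvertsLefschetz W' X D i z := fun i hi =>
      exists_inverts hD (h2 _) (by omega) (inj_of_lefschetzIn (h3 i hi))
    obtain ⟨Λ, hΛ⟩ := oneCycle hD hd W' h4
    exact ((hΛ W).out 0 3).1 (fun i _ => (h1 X i).symm)
  tfae_finish

/-- **The Lefschetz standard conjecture and hard Lefschetz for all theories.** -/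
theorem main (W : WeilCohomology.{u, max (u + 1) v} ops) (hP : ∃ P : 𝒱.Obj, P.dim = 0)
    (hone : ∀ X : 𝒱.Obj, (1 : W.H X) ≠ 0) (Div : ∀ X : 𝒱.Obj, Set X.Cycles)
    (hne : ∀ X, (Div X).Nonempty) (hcyc : ∀ X, ∀ D ∈ Div X, X.IsCyc 1 D)
    (hHL : ∀ X, ∀ D ∈ Div X, HardLefschetz W X D) :
    List.TFAE [
      ∀ X, ∀ D ∈ Div X, LefschetzB W X D,
      SignAll W ∧ ∀ W' : WeilCohomology.{u, max (u + 1) v} ops, SameBetti W W' →
        ∀ X, ∀ D ∈ Div X, HardLefschetz W' X D,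
      SignAll W ∧ ∀ W' : WeilCohomology.{u, max (u + 1) v} ops, Indistinguishable W W' →
        HomEqNumAll W' → ∀ X, ∀ D ∈ Div X, HardLefschetz W' X D,
      SignAll W ∧ ∃ W' : WeilCohomology.{u, max (u + 1) v} ops, SameBetti W W' ∧
        HomEqNumAll W' ∧ ∀ X, ∀ D ∈ Div X, HardLefschetz W' X D] ∧
    (SignAll W → ∃ Ws : WeilCohomology.{u, max (u + 1) v} ops,
      Indistinguishable W Ws ∧ HomEqNumAll Ws ∧
      ∀ (X : 𝒱.Obj) (D : X.Cycles), X.IsCyc 1 D → ∀ d ≤ X.dim, List.TFAE [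
        ∀ i ≤ d, ∃ z, InvertsLefschetz W X D i z,
        ∀ i ≤ d, LefschetzIn Ws X D i,
        ∀ W' : WeilCohomology.{u, max (u + 1) v} ops, (∀ i ≤ d, W'.betti X i = W.betti X i) →
          ∀ i ≤ d, LefschetzIn W' X D i,
        ∀ W' : WeilCohomology.{u, max (u + 1) v} ops, Indistinguishable W W' →
          HomEqNumAll W' → ∀ i ≤ d, LefschetzIn W' X D i,
        ∃ W' : WeilCohomology.{u, max (u + 1) v} ops, SameBetti W W' ∧ HomEqNumAll W' ∧
          ∀ i ≤ d, LefschetzIn W' X D i]) := by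
  have hdeg : ∀ X : 𝒱.Obj, ∃ z, X.IsCyc X.dim z ∧ X.V.degCycle z ≠ 0 := by
    intro X
    obtain ⟨D, hD⟩ := hne X
    exact exists_deg_of_lefschetz (hcyc X D hD)
      ((hardLefschetz_iff (hcyc X D hD)).1 (hHL X D hD) 0 (Nat.zero_le _)) (hone X)
  refine ⟨?_, fun hsign => ?_⟩
  swap
  · obtain ⟨Ws, h1, h2⟩ := exists_star W hsign hP hdeg
    refine ⟨Ws, h1, h2, fun X D hD d hd => ?_⟩
    have h3 := relative W hsign hP hdeg hD hd
    tfae_have 1 ↔ 3 := h3.out 0 1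
    tfae_have 3 ↔ 4 := h3.out 1 2
    tfae_have 4 ↔ 5 := h3.out 2 3
    tfae_have 4 → 2 := fun h => h Ws h1 h2
    tfae_have 2 → 5 := fun h => ⟨Ws, h1.1, h2, h⟩
    tfae_finish
  tfae_have 1 → 2 := by
    intro h
    have hinv : ∀ X, ∀ D ∈ Div X, ∀ i ≤ X.dim, ∃ z, InvertsLefschetz W X D i z :=
      fun X D hD i hi => inverts_of_lefschetzB (hcyc X D hD) (hHL X D hD) (h X D hD) hi
    refine ⟨fun X => ?_, fun W' hW' X D hD => ?_⟩
    · obtain ⟨D, hD⟩ := hne X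
      exact sign_of_inverts (hcyc X D hD) (hinv X D hD)
    · obtain ⟨Λ, hΛ⟩ := oneCycle (hcyc X D hD) le_rfl W (hinv X D hD)
      have h1 := ((hΛ W').out 0 3).1 (fun i _ => hW' X i)
      rw [hardLefschetz_iff (hcyc X D hD)]
      intro i hi
      obtain ⟨z, hz⟩ := h1 i hi
      exact lefschetzIn_of_inverts (hcyc X D hD) hi hz
  tfae_have 2 → 3 := fun h => ⟨h.1, fun W' hW' _ => h.2 W' hW'.1⟩
  tfae_have 3 → 4 := by
    rintro ⟨hsign, h⟩
    obtain ⟨W', h1, h2⟩ := exists_star W hsign hP hdeg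
    exact ⟨hsign, W', h1.1, h2, h W' h1 h2⟩
  tfae_have 4 → 1 := by
    rintro ⟨hsign, W', h1, h2, h3⟩ X D hD
    have h5 : ∃ W' : WeilCohomology.{u, max (u + 1) v} ops, SameBetti W W' ∧ HomEqNumAll W' ∧
        ∀ i ≤ X.dim, LefschetzIn W' X D i :=
      ⟨W', h1, h2, (hardLefschetz_iff (hcyc X D hD)).1 (h3 X D hD)⟩
    have h4 : ∀ i ≤ X.dim, ∃ z, InvertsLefschetz W X D i z :=
      ((relative W hsign hP hdeg (hcyc X D hD) le_rfl).out 0 3).2 h5
    exact lefschetzB_of_inverts (hcyc X D hD) (hHL X D hD) h4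
  tfae_finish

end Pool.Agent.H843.Ex
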