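import Pool.Agent.H843.Ex12

/-!
# The conjecture D and homological equivalence for all theories
-/

open CategoryTheory AlgebraicGeometry Function Filter Finset

universe u v

set_option linter.unusedSectionVars false

namespace Pool.Agent.H843.Ex

open Pool.Agent.H914 Pool.Agent.H914.VarClass Pool.Agent.H914.VarClass.Obj
  Pool.Agent.H914.WeilCohomology Pool.Agent.R908 Pool.Agent.N180.Cf Pool.Agent.H447
  Pool.Agent.W537

variable {k : Type u} [Field k] {𝒱 : VarClass k} {ops : CycleOps 𝒱}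

section

variable {W : WeilCohomology.{u, v} ops} {X : 𝒱.Obj}

lemma numTrivial_of_cl {j : ℕ} (hj : j ≤ X.dim) {z : X.Cycles} (hz : X.IsCyc j z)
    (h : W.cl X z = 0) : NumTrivial ops X j z := by
  intro w hw
  have h1 : X.IsCyc X.dim (ops.mul z w) := by
    have := ops.mul_mem hz hw
    rwa [show j + (X.dim - j) = X.dim by omega] at this
  have h2 := W.tr_cl h1
  rw [W.cl_mul, h, zero_mul, map_zero] at h2
  exact_mod_cast h2.symm

lemma cl_eq_zero_of_dim {j : ℕ} (hj : X.dim < j) {z : X.Cycles} (hz : X.IsCyc j z) :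
    W.cl X z = 0 := by
  have h := W.cl_mem hz
  rw [W.gr_eq_bot X _ (by omega)] at h
  exact (Submodule.mem_bot _).1 h

lemma homEqFiner_of_num {W' : WeilCohomology.{u, v} ops} (h : HomEqNumAll W) :
    HomEqFiner W' W := by
  intro X j z hz h0
  by_cases hj : j ≤ X.dim
  · exact h X j hj z hz (numTrivial_of_cl hj hz h0)
  · exact cl_eq_zero_of_dim (by omega) hz

lemma homEqNumAll_of_finer {W' : WeilCohomology.{u, v} ops} (h : HomEqNumAll W')
    (h1 : HomEqFiner W' W) : HomEqNumAll W := fun X j hj z hz h0 => h1 X j z hz (h X j hj z hz h0)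

lemma homEqFiner_refl : HomEqFiner W W := fun _ _ _ _ h => h

/-- D and hard Lefschetz imply B. -/
lemma lefschetzB_of_homEqNumAll (h : HomEqNumAll W) {D : X.Cycles} (hD : X.IsCyc 1 D)
    (hHL : HardLefschetz W X D) : LefschetzB W X D := by
  by_cases h0 : X.dim = 0
  · -- no primitive classes to consider: use algebraic inverses
    apply lefschetzB_of_inverts hD hHL
    intro i hi
    have h1 := (hardLefschetz_iff hD).1 hHL i hi
    exact exists_inverts hD (h _) (by omega) (inj_of_lefschetzIn h1)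
  · apply lefschetzB_of_homEqNumIn hD hHL
    intro z hz h1
    exact h (X.prod X) (X.dim + 1) (by rw [dim_prod]; omega) z hz h1

lemma signAll_of_lefschetzB {Div : ∀ X : 𝒱.Obj, Set X.Cycles}
    (hne : ∀ X, (Div X).Nonempty) (hcyc : ∀ X, ∀ D ∈ Div X, X.IsCyc 1 D)
    (hHL : HardLefschetzFor W Div) (hB : ∀ X, ∀ D ∈ Div X, LefschetzB W X D) : SignAll W := by
  intro X
  obtain ⟨D, hD⟩ := hne X
  exact sign_of_inverts (hcyc X D hD) (fun i hi =>
    inverts_of_lefschetzB (hcyc X D hD) (hHL X D hD) (hB X D hD) hi)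

end

lemma hardLefschetzFor_of_lefschetzB {W : WeilCohomology.{u, v} ops}
    {Div : ∀ X : 𝒱.Obj, Set X.Cycles} (hcyc : ∀ X, ∀ D ∈ Div X, X.IsCyc 1 D)
    (hHL : HardLefschetzFor W Div) (hB : ∀ X, ∀ D ∈ Div X, LefschetzB W X D)
    {W' : WeilCohomology.{u, v} ops} (h : SameBetti W W') : HardLefschetzFor W' Div := by
  intro X D hD
  obtain ⟨Λ, hΛ⟩ := oneCycle (hcyc X D hD) le_rfl W (fun i hi =>
    inverts_of_lefschetzB (hcyc X D hD) (hHL X D hD) (hB X D hD) hi)
  have h1 := ((hΛ W').out 0 3).1 (fun i _ => h X i)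
  rw [hardLefschetz_iff (hcyc X D hD)]
  intro i hi
  obtain ⟨z, hz⟩ := h1 i hi
  exact lefschetzIn_of_inverts (hcyc X D hD) hi hz

/-- **Homological and numerical equivalence for all theories.** -/
theorem mainD (W : WeilCohomology.{u, max (u + 1) v} ops) (hP : ∃ P : 𝒱.Obj, P.dim = 0)
    (hone : ∀ X : 𝒱.Obj, (1 : W.H X) ≠ 0) (Div : ∀ X : 𝒱.Obj, Set X.Cycles)
    (hne : ∀ X, (Div X).Nonempty) (hcyc : ∀ X, ∀ D ∈ Div X, X.IsCyc 1 D)
    (hHL : HardLefschetzFor W Div) :
    (SignAll W → ∀ (X : 𝒱.Obj), ∀ j ≤ X.dim, ∀ z, X.IsCyc j z → (NumTrivial ops X j z ↔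
      ∃ W' : WeilCohomology.{u, max (u + 1) v} ops, Indistinguishable W W' ∧ W'.cl X z = 0)) ∧
    List.TFAE [
      HomEqNumAll W,
      SignAll W ∧ ∀ W' : WeilCohomology.{u, max (u + 1) v} ops, SameBetti W W' → HomEqFiner W' W,
      SignAll W ∧ ∀ W' : WeilCohomology.{u, max (u + 1) v} ops, Indistinguishable W W' →
        HomEqFiner W' W] ∧
    List.TFAE [
      ∀ W' : WeilCohomology.{u, max (u + 1) v} ops, SameBetti W W' → HomEqNumAll W',
      ∀ W' : WeilCohomology.{u, max (u + 1) v} ops, SameBetti W W' → HardLefschetzFor W' Div →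
        HomEqNumAll W',
      SignAll W ∧ ∀ W' : WeilCohomology.{u, max (u + 1) v} ops, SameBetti W W' →
        HomEqFiner W W' ∧ HomEqFiner W' W,
      (∀ X, ∀ D ∈ Div X, LefschetzB W X D) ∧ ∀ W' : WeilCohomology.{u, max (u + 1) v} ops,
        SameBetti W W' → HardLefschetzFor W' Div → HomEqFiner W W' ∧ HomEqFiner W' W] := by
  have hdeg : ∀ X : 𝒱.Obj, ∃ z, X.IsCyc X.dim z ∧ X.V.degCycle z ≠ 0 := by
    intro X
    obtain ⟨D, hD⟩ := hne X
    exact exists_deg_of_lefschetz (hcyc X D hD)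
      ((hardLefschetz_iff (hcyc X D hD)).1 (hHL X D hD) 0 (Nat.zero_le _)) (hone X)
  have hBD : HomEqNumAll W → ∀ X, ∀ D ∈ Div X, LefschetzB W X D :=
    fun h X D hD => lefschetzB_of_homEqNumAll h (hcyc X D hD) (hHL X D hD)
  refine ⟨fun hsign X j hj z hz => ⟨fun h => ?_, ?_⟩, ?_, ?_⟩
  · obtain ⟨Ws, h1, h2⟩ := exists_star W hsign hP hdeg
    exact ⟨Ws, h1, h2 X j hj z hz h⟩
  · rintro ⟨W', -, h⟩
    exact numTrivial_of_cl hj hz h
  · tfae_have 1 → 2 := fun h => ⟨signAll_of_lefschetzB hne hcyc hHL (hBD h),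
      fun W' _ => homEqFiner_of_num h⟩
    tfae_have 2 → 3 := fun h => ⟨h.1, fun W' hW' => h.2 W' hW'.1⟩
    tfae_have 3 → 1 := by
      rintro ⟨hsign, h⟩
      obtain ⟨Ws, h1, h2⟩ := exists_star W hsign hP hdeg
      exact homEqNumAll_of_finer h2 (h Ws h1)
    tfae_finish
  · tfae_have 1 → 2 := fun h W' hW' _ => h W' hW'
    tfae_have 2 → 4 := by
      intro h
      have hW := h W (fun _ _ => rfl) hHL
      exact ⟨hBD hW, fun W' h1 h2 =>
        ⟨homEqFiner_of_num (h W' h1 h2), homEqFiner_of_num hW⟩⟩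
    tfae_have 4 → 3 := fun h => ⟨signAll_of_lefschetzB hne hcyc hHL h.1, fun W' h1 =>
      h.2 W' h1 (hardLefschetzFor_of_lefschetzB hcyc hHL h.1 h1)⟩
    tfae_have 3 → 1 := by
      rintro ⟨hsign, h⟩ W' hW'
      obtain ⟨Ws, h1, h2⟩ := exists_star W hsign hP hdeg
      have h3 : HomEqNumAll W := homEqNumAll_of_finer h2 (h Ws h1.1).2
      exact homEqNumAll_of_finer h3 (h W' hW').1
    tfae_finish

end Pool.Agent.H843.Ex
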