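import Pool.Agent.H843.StarDefs
import Pool.Graph.R_seed8.Y163.Defs

/-!
# Frobenius endomorphisms in several Weil cohomology theories: definitions
-/

open CategoryTheory AlgebraicGeometry

universe u v

namespace Pool.Agent.H843

open Pool.Agent.H914 Pool.Agent.H914.VarClass Pool.Agent.H914.VarClass.Obj
  Pool.Agent.H914.WeilCohomology Pool.Agent.W534

variable {k : Type u} [Field k] {𝒱 : VarClass k} {ops : CycleOps 𝒱}

/-- The Frobenius endomorphisms of the varieties and the fields of definition are the same for the
two Weil cohomology theories. -/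
def SameFrob {W W' : WeilCohomology.{u, v} ops} {p : ℕ} (Φ : FrobSystem W p)
    (Φ' : FrobSystem W' p) : Prop :=
  ∀ X : 𝒱.Obj, Φ'.Fr X = Φ.Fr X ∧ Φ'.e X = Φ.e X

/-- The Frobenius endomorphisms of `Φ` and `Φ'` are the same, and for all `X`, `s` and `i` the
`s`-th iterate of the Frobenius endomorphism of `X` has the same trace on `H^i(X)` for both
theories, in some field which contains the two coefficient fields. (So the characteristic
polynomials of the Frobenius endomorphisms on the `H^i(X)` are the same.) -/
def SameFrobTraces {W W' : WeilCohomology.{u, v} ops} {p : ℕ} (Φ : FrobSystem W p)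
    (Φ' : FrobSystem W' p) : Prop :=
  SameFrob Φ Φ' ∧ ∃ (L : Type v) (_ : Field L) (σ : W.K →+* L) (σ' : W'.K →+* L),
    ∀ (X : 𝒱.Obj) (s i : ℕ) (t : W.K) (t' : W'.K),
      W537.TraceOn (W.gr X) i (W.map (W534.iter (Φ.Fr X) s)).toLinearMap t →
      W537.TraceOn (W'.gr X) i (W'.map (W534.iter (Φ'.Fr X) s)).toLinearMap t' → σ t = σ' t'

end Pool.Agent.H843
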