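import Pool.Agent.H843.Ex13
import Pool.Agent.H843.FrobDefs
import Pool.Graph.R_pool_sql_team_seeded_2aa45f1a.Q82.SF.Poly
import Pool.Graph.R_seed8.Y163.TateA
import Pool.Graph.R_seed8.W534.PoleD

/-!
# Frobenius endomorphisms and the limit theories
-/

open CategoryTheory AlgebraicGeometry Function Filter Finset

universe u v w

set_option linter.unusedSectionVars false

namespace Pool.Agent.H843.Ex

section LA

open Polynomial

variable {K : Type*} [Field K] [CharZero K]

/-- A polynomial which gives the projectors to the generalised eigenspaces. -/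
lemma exists_gen_poly (M : K[X]) (hM0 : M ≠ 0) (μ : K) : ∃ E : K[X],
    ∀ {V : Type w} [AddCommGroup V] [Module K V] [Module.Finite K V] (f : Module.End K V),
      aeval f M = 0 → LinearMap.IsProj (f.maxGenEigenspace μ) (aeval f E) := by
  classical
  obtain ⟨Q, hQ, hQ'⟩ := Polynomial.exists_eq_pow_rootMultiplicity_mul_and_not_dvd M hM0 μ
  set a := M.rootMultiplicity μ with ha
  have hcop : ∀ n : ℕ, IsCoprime ((X - C μ) ^ n) Q := by
    intro n
    refine IsCoprime.pow_left ?_
    exact (Polynomial.irreducible_X_sub_C μ).coprime_iff_not_dvd.2 hQ'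
  obtain ⟨u, v, huv⟩ := hcop a
  refine ⟨v * Q, fun {V} _ _ _ f hf => ?_⟩
  have hT : aeval f (X - C μ) = f - μ • (1 : Module.End K V) := by
    rw [map_sub, aeval_X, aeval_C, Algebra.algebraMap_eq_smul_one]
  constructor
  · intro x
    rw [Module.End.mem_maxGenEigenspace]
    refine ⟨a, ?_⟩
    have h1 : aeval f ((X - C μ) ^ a) (aeval f (v * Q) x) = 0 := by
      rw [← Module.End.mul_apply, ← map_mul, show (X - C μ) ^ a * (v * Q) = v * M by
        rw [hQ]; ring, map_mul, hf, mul_zero]
      rfl
    rwa [map_pow, hT] at h1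
  · intro x hx
    rw [Module.End.mem_maxGenEigenspace] at hx
    obtain ⟨n, hn⟩ := hx
    set y := aeval f ((X - C μ) ^ a) x with hy
    have h1 : aeval f Q y = 0 := by
      rw [hy, ← Module.End.mul_apply, ← map_mul, mul_comm Q, ← hQ, hf]
      rfl
    have h2 : aeval f ((X - C μ) ^ n) y = 0 := by
      rw [hy, ← Module.End.mul_apply, ← map_mul, mul_comm, map_mul, Module.End.mul_apply,
        map_pow (aeval f) _ n, hT, hn, map_zero]
    obtain ⟨s, t, hst⟩ := hcop n
    have h3 : y = 0 := by
      have h4 : aeval f (s * (X - C μ) ^ n + t * Q) y = y := by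
        rw [hst, map_one]; rfl
      rw [← h4, map_add, map_mul, map_mul, LinearMap.add_apply, Module.End.mul_apply,
        Module.End.mul_apply, h1, h2, map_zero, map_zero, add_zero]
    have h5 : aeval f (u * (X - C μ) ^ a + v * Q) x = x := by
      rw [huv, map_one]; rfl
    rw [map_add, LinearMap.add_apply, map_mul, Module.End.mul_apply, ← hy, h3, map_zero,
      zero_add] at h5
    exact h5

/-- The dimensions of the generalised eigenspaces are determined by the traces of the powers. -/
lemma finrank_gen_eq_same {V V' : Type w} [AddCommGroup V] [Module K V] [Module.Finite K V]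
    [AddCommGroup V'] [Module K V'] [Module.Finite K V'] (f : Module.End K V)
    (g : Module.End K V')
    (h : ∀ r : ℕ, LinearMap.trace K V (f ^ r) = LinearMap.trace K V' (g ^ r)) (μ : K) :
    Module.finrank K (f.maxGenEigenspace μ) = Module.finrank K (g.maxGenEigenspace μ) := by
  have hP : ∀ P : K[X], LinearMap.trace K V (aeval f P) = LinearMap.trace K V' (aeval g P) := by
    intro P
    rw [aeval_eq_sum_range, aeval_eq_sum_range, map_sum, map_sum]
    refine Finset.sum_congr rfl fun r _ => ?_
    rw [map_smul, map_smul, h]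
  have h0 : minpoly K f * minpoly K g ≠ 0 :=
    mul_ne_zero (minpoly.ne_zero (Algebra.IsIntegral.isIntegral f))
      (minpoly.ne_zero (Algebra.IsIntegral.isIntegral g))
  obtain ⟨E, hE⟩ := exists_gen_poly.{w} (minpoly K f * minpoly K g) h0 μ
  have h1 := (hE f (by rw [map_mul, minpoly.aeval, zero_mul])).trace
  have h2 := (hE g (by rw [map_mul, minpoly.aeval, mul_zero])).trace
  have h3 := hP E
  rw [h1, h2] at h3
  exact_mod_cast h3

end LA

section LA2

open Polynomial

/-- The same for an embedding of fields. -/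
lemma finrank_gen_eq {K K' : Type w} [Field K] [Field K'] [CharZero K'] (σ : K →+* K')
    {V V' : Type w} [AddCommGroup V] [Module K V] [Module.Finite K V]
    [AddCommGroup V'] [Module K' V'] [Module.Finite K' V'] (f : Module.End K V)
    (g : Module.End K' V')
    (h : ∀ r : ℕ, LinearMap.trace K' V' (g ^ r) = σ (LinearMap.trace K V (f ^ r))) (μ : K) :
    Module.finrank K' (g.maxGenEigenspace (σ μ)) = Module.finrank K (f.maxGenEigenspace μ) := by
  let _ : Algebra K K' := σ.toAlgebra
  have h1 : ∀ r : ℕ, LinearMap.trace K' _ ((f.baseChange K') ^ r) =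
      LinearMap.trace K' V' (g ^ r) := by
    intro r
    rw [h, ← LinearMap.baseChange_pow, LinearMap.trace_baseChange]
    rfl
  rw [← finrank_gen_eq_same _ _ h1, LinearMap.finrank_maxGenEigenspace_eq,
    LinearMap.finrank_maxGenEigenspace_eq, LinearMap.charpoly_baseChange]
  exact (eq_rootMultiplicity_map (algebraMap K K').injective μ).symm

end LA2

open Pool.Agent.H914 Pool.Agent.H914.VarClass Pool.Agent.H914.VarClass.Obj
  Pool.Agent.H914.WeilCohomology Pool.Agent.R908 Pool.Agent.N180.Cf Pool.Agent.H447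
  Pool.Agent.W537 Pool.Agent.W534 Pool.Agent.Y163

variable {k : Type u} [Field k] {𝒱 : VarClass k} {ops : CycleOps 𝒱}

section One

variable {W : WeilCohomology.{u, v} ops} {X : 𝒱.Obj} {p : ℕ} (Φ : FrobSystem W p)

lemma finrank_genTate_on (s j : ℕ) : Module.finrank W.K (genTate Φ X s j) =
    Module.finrank W.K ((frobOn Φ X s (2 * j)).maxGenEigenspace ((card Φ X s : W.K) ^ j)) := by
  have h1 := Submodule.inf_genEigenspace (W.map (W534.iter (Φ.Fr X) s)).toLinearMap
    (W.gr X (2 * j)) (k := ⊤) (μ := (card Φ X s : W.K) ^ j) (fun _ hx => W.map_mem _ hx)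
  have h2 : genTate Φ X s j = (Module.End.genEigenspace (frobOn Φ X s (2 * j))
      ((card Φ X s : W.K) ^ j) ⊤).map (W.gr X (2 * j)).subtype := by
    rw [genTate, inf_comm]
    exact h1
  rw [h2]
  exact (LinearEquiv.finrank_eq (Submodule.equivMapOfInjective _
    (Submodule.subtype_injective _) _)).symm

/-- The trace on a graded piece. -/
lemma trace_restrict_gr (T : Module.End W.K (W.H X)) (i : ℕ) (hT : ∀ x ∈ W.gr X i, T x ∈ W.gr X i) :
    LinearMap.trace W.K (W.gr X i) (T.restrict hT) =
      LinearMap.trace W.K (W.H X) (T * proj (W.isInternal X) i) := by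
  have h1 : ∀ x, (T * proj (W.isInternal X) i) x ∈ W.gr X i := by
    intro x
    refine gr_induction (W.isInternal X) (p := fun x =>
      (T * proj (W.isInternal X) i) x ∈ W.gr X i) ?_ ?_ x
    · intro j x hx
      rw [Module.End.mul_apply]
      by_cases hj : j = i
      · subst hj
        rw [proj_same _ hx]
        exact hT x hx
      · rw [proj_ne _ hx hj, map_zero]
        exact Submodule.zero_mem _
    · intro x y hx hy
      rw [map_add]
      exact Submodule.add_mem _ hx hy
  rw [← LinearMap.trace_restrict_eq_of_forall_mem (W.gr X i) _ h1]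
  congr 1
  apply LinearMap.ext
  rintro ⟨x, hx⟩
  apply Subtype.ext
  change T x = T (proj (W.isInternal X) i x)
  rw [proj_same _ hx]

lemma traceOn_iff {i : ℕ} {T : Module.End W.K (W.H X)} {t : W.K} :
    TraceOn (W.gr X) i T t ↔ LinearMap.trace W.K (W.H X) (T * proj (W.isInternal X) i) = t := by
  constructor
  · intro h
    apply h
    intro j a ha
    split_ifs with hj
    · subst hj; exact proj_same _ ha
    · exact proj_ne _ ha hj
  · intro h P hP
    rw [← h]
    congr 2
    apply gr_ext (W.isInternal X)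
    intro j a ha
    rw [hP j a ha]
    split_ifs with hj
    · subst hj; exact (proj_same _ ha).symm
    · exact (proj_ne _ ha hj).symm

lemma trace_frobOn (s i : ℕ) : LinearMap.trace W.K _ (frobOn Φ X s i) =
    LinearMap.trace W.K (W.H X)
      ((W.map (W534.iter (Φ.Fr X) s)).toLinearMap * proj (W.isInternal X) i) :=
  trace_restrict_gr _ _ (fun _ hx => W.map_mem _ hx)

lemma cycOp_graph (f : X ⟶ X) :
    cycOp W X (ops.push (Obj.lift f (𝟙 X)) X.V.fundCycle) = (W.map f).toLinearMap :=
  corr_graph f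

lemma graph_mem (f : X ⟶ X) :
    (X.prod X).IsCyc X.dim (ops.push (Obj.lift f (𝟙 X)) X.V.fundCycle) :=
  ops.push_mem _ X.V.fundCycle_mem (by rw [dim_prod, zero_add])

end One

section Two

variable {W W' : WeilCohomology.{u, v} ops} {p : ℕ} {Φ : FrobSystem W p} {Φ' : FrobSystem W' p}

/-- The traces of endomorphisms of varieties. -/
lemma trace_map_proj (hind : Indistinguishable W W') : ∃ σ : W.K →+* W'.K,
    ∀ (X : 𝒱.Obj) (f : X ⟶ X) (i : ℕ), LinearMap.trace W'.K (W'.H X)
      ((W'.map f).toLinearMap * proj (W'.isInternal X) i) =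
        σ (LinearMap.trace W.K (W.H X) ((W.map f).toLinearMap * proj (W.isInternal X) i)) := by
  obtain ⟨-, σ, hσ⟩ := hind
  refine ⟨σ, fun X f i => ?_⟩
  have h := hσ X _ (graph_mem (ops := ops) f) i _ (traceOn_iff.2 rfl)
  rw [cycOp_graph, cycOp_graph, traceOn_iff] at h
  exact h

lemma frobOn_pow (Φ : FrobSystem W p) (X : 𝒱.Obj) (s i r : ℕ) :
    frobOn Φ X s i ^ r = frobOn Φ X (s * r) i := by
  have h1 : ∀ (r : ℕ) (x : W.gr X i), (((frobOn Φ X s i ^ r) x : W.gr X i) : W.H X) =
      (frob Φ X s ^ r) x := by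
    intro r
    induction r with
    | zero => intro x; rfl
    | succ r ih =>
      intro x
      rw [pow_succ', Module.End.mul_apply, pow_succ', Module.End.mul_apply, ← ih]
      rfl
  apply LinearMap.ext
  intro x
  apply Subtype.ext
  rw [h1, ← frob_mul_eq]
  rfl

/-- Indistinguishable theories have the same traces of Frobenius. -/
lemma sameFrobTraces_of_indist (hΦ : SameFrob Φ Φ') (hind : Indistinguishable W W') :
    SameFrobTraces Φ Φ' := by
  obtain ⟨σ, hσ⟩ := trace_map_proj hind
  refine ⟨hΦ, W'.K, inferInstance, σ, RingHom.id _, fun X s i t t' h h' => ?_⟩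
  rw [traceOn_iff] at h h'
  rw [← h, ← h', (hΦ X).1]
  exact (hσ X _ i).symm

/-- The dimensions of the generalised eigenspaces are the same. -/
lemma finrank_genTate_eq (hΦ : SameFrobTraces Φ Φ') (X : 𝒱.Obj)
    (s j : ℕ) : Module.finrank W'.K (genTate Φ' X s j) = Module.finrank W.K (genTate Φ X s j) := by
  obtain ⟨hF, L, hL, σ, σ', hσ⟩ := hΦ
  have : CharZero L := charZero_of_injective_ringHom σ.injective
  rw [finrank_genTate_on, finrank_genTate_on]
  let _ : Algebra W.K L := σ.toAlgebra
  let _ : Algebra W'.K L := σ'.toAlgebra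
  -- both are compared with the extension of scalars to `L`
  have e1 := finrank_gen_eq σ (frobOn Φ X s (2 * j)) ((frobOn Φ X s (2 * j)).baseChange L)
    (fun r => by rw [← LinearMap.baseChange_pow, LinearMap.trace_baseChange]; rfl)
    ((W534.card Φ X s : W.K) ^ j)
  have e2 := finrank_gen_eq σ' (frobOn Φ' X s (2 * j)) ((frobOn Φ' X s (2 * j)).baseChange L)
    (fun r => by rw [← LinearMap.baseChange_pow, LinearMap.trace_baseChange]; rfl)
    ((W534.card Φ' X s : W'.K) ^ j)
  rw [← e1, ← e2]
  have hcard : σ' ((W534.card Φ' X s : W'.K) ^ j) = σ ((W534.card Φ X s : W.K) ^ j) := by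
    rw [map_pow, map_natCast, map_pow, map_natCast, W534.card, W534.card, (hF X).2]
  rw [hcard]
  apply finrank_gen_eq_same
  intro r
  rw [← LinearMap.baseChange_pow, ← LinearMap.baseChange_pow, LinearMap.trace_baseChange,
    LinearMap.trace_baseChange, frobOn_pow, frobOn_pow, trace_frobOn, trace_frobOn]
  exact (hσ X (s * r) (2 * j) _ _ (traceOn_iff.2 rfl) (traceOn_iff.2 rfl)).symm

/-- The rank of the cycles modulo numerical equivalence is the dimension of the generalised
eigenspaces. -/
def RankFormula (Φ : FrobSystem W p) (X : 𝒱.Obj) (j : ℕ) : Prop :=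
  ∃ t, 0 < t ∧ ∀ s, 0 < s → t ∣ s →
    numRank ops X j = Module.finrank W.K (genTate Φ X s j)

lemma rankFormula_iff (hΦ : SameFrobTraces Φ Φ') (X : 𝒱.Obj) (j : ℕ) :
    RankFormula Φ' X j ↔ RankFormula Φ X j := by
  unfold RankFormula
  simp only [finrank_genTate_eq hΦ]

lemma poleFormula_iff_rank {X : 𝒱.Obj} (hp : 1 < p) (σ : W.K →+* ℂ) (hRH : RiemannHyp Φ σ X)
    {j : ℕ} (hj : j ≤ X.dim) : PoleFormula Φ σ X j ↔ RankFormula Φ X j := by
  rw [poleFormula_iff Φ hp σ hRH hj, RankFormula, numRank_eq (W := W) hj]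

/-- Tate's theorem, one direction. -/
theorem tate_of_rank {X : 𝒱.Obj} {j l : ℕ} (hjl : j + l = X.dim) (h : RankFormula Φ X j) :
    SemisimpleTateIn Φ X j ∧ HomEqNumIn W X j := by
  obtain ⟨t₁, ht₁, h1⟩ := exists_span_eig Φ X j
  obtain ⟨t, ht, h⟩ := h
  obtain ⟨t₃, ht₃, h3⟩ := exists_stable Φ X j
  set s := t * t₃ * t₁ with hs
  have hs0 : 0 < s := Nat.mul_pos (Nat.mul_pos ht ht₃) ht₁
  have hG : genTate Φ X s j = genTate Φ X t₃ j :=
    eq_of_stable Φ h3 hs0 ⟨t * t₁, by rw [hs]; ring⟩
  have hle : spanCycles W X j ≤ genTate Φ X s j := fun c hc =>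
    mem_genTate_of_eig Φ (H914.span_gr hc) (span_eig_mul' Φ (h1 c hc) _)
  have hr := h s hs0 ⟨t₃ * t₁, by rw [hs]; ring⟩
  rw [numRank_eq (W := W) (by omega), show X.dim - j = l by omega] at hr
  have hr2 := kRank_le (W := W) (Z := X) j l
  have hr3 := Submodule.finrank_mono hle
  have hE := Submodule.eq_of_le_of_finrank_le hle (by omega)
  constructor
  · intro s' hs' c hc
    rw [hE, hG]
    exact h3 _ hs' hc
  · exact homEqNumIn_of_pair hjl (finrank_pair_le (by omega))

lemma tateIn_of_semisimple {X : 𝒱.Obj} {j : ℕ} (h : SemisimpleTateIn Φ X j) : TateIn Φ X j := by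
  intro c hc
  obtain ⟨s', hs', h4⟩ := IsTate.mem Φ hc
  exact h s' hs' h4

end Two

end Pool.Agent.H843.Ex
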