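import Pool.Agent.H843.Ex14

/-!
# The pole formula and the Tate conjecture for all theories
-/

open CategoryTheory AlgebraicGeometry Function Filter Finset

universe u v w

set_option linter.unusedSectionVars false

namespace Pool.Agent.H843.Ex

open Pool.Agent.H914 Pool.Agent.H914.VarClass Pool.Agent.H914.VarClass.Obj
  Pool.Agent.H914.WeilCohomology Pool.Agent.R908 Pool.Agent.N180.Cf Pool.Agent.H447
  Pool.Agent.W537 Pool.Agent.W534 Pool.Agent.Y163

variable {k : Type u} [Field k] {𝒱 : VarClass k} {ops : CycleOps 𝒱}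

section One

variable {W : WeilCohomology.{u, v} ops} {X : 𝒱.Obj} {p : ℕ} {Φ : FrobSystem W p}

/-- Tate's theorem, the other direction. -/
theorem rank_of_tate {j : ℕ} (hj : j ≤ X.dim) (hT : TateIn Φ X j) (hD : HomEqNumIn W X j) :
    RankFormula Φ X j := by
  obtain ⟨l, hl⟩ := Nat.exists_eq_add_of_le hj
  have hl' : X.dim - j = l := by omega
  obtain ⟨t₁, ht₁, h1⟩ := exists_span_eig Φ X j
  obtain ⟨t₂, ht₂, h2⟩ := exists_span_eig Φ X l
  refine ⟨t₁ * t₂, Nat.mul_pos ht₁ ht₂, fun s hs hts => ?_⟩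
  rw [numRank_eq (W := W) hj, hl']
  have hrank : kRank W X j l = Module.finrank W.K (spanCycles W X j) :=
    LinearMap.finrank_range_of_inj (pair_injective hl.symm hD)
  rw [hrank]
  have hs1 : ∀ c ∈ spanCycles W X j, frob Φ X s c = ((W534.card Φ X s : W.K) ^ j) • c := by
    obtain ⟨r, rfl⟩ := hts
    intro c hc
    have := span_eig_mul Φ (h1 c hc) (t₂ * r)
    rwa [← mul_assoc] at this
  have hs2 : ∀ c ∈ spanCycles W X l, frob Φ X s c = ((W534.card Φ X s : W.K) ^ l) • c := by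
    obtain ⟨r, rfl⟩ := hts
    intro c hc
    have := span_eig_mul Φ (h2 c hc) (t₁ * r)
    rwa [← mul_assoc, mul_comm t₂ t₁] at this
  have hSG : spanCycles W X j = genTate Φ X s j := ?_
  · rw [hSG]
  apply le_antisymm
  · exact fun c hc => mem_genTate_of_eig Φ (H914.span_gr hc) (hs1 c hc)
  · intro x hx
    obtain ⟨⟨n, hn⟩, hxg⟩ := (mem_genTate Φ).1 hx
    set A := frob Φ X s - ((W534.card Φ X s : W.K) ^ j) • (1 : Module.End W.K (W.H X)) with hA
    have hAx : ∀ y, A y = 0 → frob Φ X s y = ((W534.card Φ X s : W.K) ^ j) • y := by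
      intro y hy
      rw [hA, LinearMap.sub_apply, LinearMap.smul_apply, Module.End.one_apply, sub_eq_zero] at hy
      exact hy
    have hAg : ∀ y ∈ W.gr X (2 * j), A y ∈ W.gr X (2 * j) := by
      intro y hy
      rw [hA, LinearMap.sub_apply, LinearMap.smul_apply, Module.End.one_apply]
      exact Submodule.sub_mem _ (W.map_mem _ hy) (Submodule.smul_mem _ _ hy)
    have htate : ∀ y ∈ W.gr X (2 * j), A y = 0 → y ∈ spanCycles W X j := by
      intro y hy h0
      apply hT
      refine ⟨hy, s, hs, ?_⟩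
      have := hAx y h0
      rwa [card_pow, frob_apply] at this
    apply htate x hxg
    refine ker_of_sq' hAg ?_ hxg hn
    intro y hy h0
    apply hD.span hl.symm (htate _ (hAg y hy) h0)
    intro w hw
    rw [W.even_comm (W.cl_mem hw)]
    have h5 := tr_adj Φ (Z := X) (s := s) (μ := (W534.card Φ X s : W.K) ^ j)
      (μ' := (W534.card Φ X s : W.K) ^ l) (by rw [← pow_add, hl]) y (W.cl X w)
    rw [← hA, LinearMap.sub_apply, LinearMap.smul_apply, Module.End.one_apply,
      hs2 _ (mem_span_cl hw), sub_self, mul_zero, map_zero] at h5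
    rcases mul_eq_zero.1 h5.symm with h6 | h6
    · exact absurd (neg_eq_zero.1 h6) (pow_ne_zero _ (card_ne Φ s))
    · exact h6

lemma homEqNumIn_of_all (h : HomEqNumAll W) {j : ℕ} (hj : j ≤ X.dim) : HomEqNumIn W X j :=
  fun z hz h0 => h X j hj z hz h0

/-- Frobenius commutes with the correspondences of degree zero. -/
lemma exists_comm (Φ : FrobSystem W p) (X : 𝒱.Obj) : ∃ t, 0 < t ∧
    ∀ c ∈ spanCycles W (X.prod X) X.dim, Commute (W.corr c) (frob Φ X t) := by
  obtain ⟨a₁, b₁, ha₁, hb₁, hab₁, h1⟩ := frob_comm (W := W) Φ (fst X X)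
  obtain ⟨a₂, b₂, ha₂, hb₂, hab₂, h2⟩ := frob_comm (W := W) Φ (snd X X)
  obtain ⟨t₁, ht₁, h3⟩ := exists_span_eig Φ (X.prod X) X.dim
  have hb : a₂ * b₁ = a₁ * b₂ := by
    have e1 : a₂ * b₁ * Φ.e X = a₁ * b₂ * Φ.e X := by
      calc a₂ * b₁ * Φ.e X = a₂ * (b₁ * Φ.e X) := by ring
        _ = a₂ * (a₁ * Φ.e (X.prod X)) := by rw [hab₁]
        _ = a₁ * (a₂ * Φ.e (X.prod X)) := by ring
        _ = a₁ * (b₂ * Φ.e X) := by rw [hab₂]
        _ = a₁ * b₂ * Φ.e X := by ring
    exact Nat.eq_of_mul_eq_mul_right (Φ.e_pos X) e1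
  refine ⟨b₁ * (a₂ * t₁), Nat.mul_pos hb₁ (Nat.mul_pos ha₂ ht₁), fun c hc => ?_⟩
  set T := a₁ * (a₂ * t₁) with hT
  have hT2 : a₂ * (a₁ * t₁) = T := by rw [hT]; ring
  have hb2 : b₂ * (a₁ * t₁) = b₁ * (a₂ * t₁) := by
    calc b₂ * (a₁ * t₁) = a₁ * b₂ * t₁ := by ring
      _ = a₂ * b₁ * t₁ := by rw [hb]
      _ = b₁ * (a₂ * t₁) := by ring
  -- the action on the class
  have hcT : frob Φ (X.prod X) T c = ((W534.card Φ (X.prod X) T : W.K) ^ X.dim) • c := by
    have := span_eig_mul Φ (h3 c hc) (a₁ * a₂)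
    rwa [show t₁ * (a₁ * a₂) = T by rw [hT]; ring] at this
  have hq0 : (W534.card Φ (X.prod X) T : W.K) ≠ 0 := card_ne Φ _
  apply LinearMap.ext
  intro x
  rw [Module.End.mul_apply, Module.End.mul_apply, corr_apply, corr_apply]
  have e1 := h1 (a₂ * t₁) x
  rw [← hT] at e1
  have hpush := frob_push Φ (snd X X) (s := a₁ * t₁) hab₂ h2 (c * W.map (fst X X) x)
  rw [hT2, hb2] at hpush
  have e2 : frob Φ (X.prod X) T (c * W.map (fst X X) x) =
      ((W534.card Φ (X.prod X) T : W.K) ^ X.dim) •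
        (c * W.map (fst X X) (frob Φ X (b₁ * (a₂ * t₁)) x)) := by
    rw [frob_apply, map_mul, ← frob_apply, hcT, e1, smul_mul_assoc]
    rfl
  rw [e2, map_smul, smul_smul, ← pow_add] at hpush
  have e3 : (X.prod X).dim = X.dim + X.dim := dim_prod X X
  rw [e3] at hpush
  exact (smul_right_injective _ (pow_ne_zero _ hq0) hpush).symm

/-- Nilpotent combinations of correspondences which commute with all correspondences vanish if
homological and numerical equivalence coincide. -/
lemma eq_zero_of_nilp (hD : HomEqNum W (X.prod X)) {y : Module.End W.K (W.H X)}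
    (hy : y ∈ KOp W X X 0) (hn : IsNilpotent y) (hc : ∀ u ∈ KOp W X X 0, Commute y u) :
    y = 0 := by
  rw [← mem_KS_iff] at hy
  refine (strNondeg_of_homEqNum hD).span rop_opAlg (W.isInternal X) rop_str hy (fun u hu => ?_)
  have hu' : ROp W X 0 u := by rwa [neg_zero] at hu
  have huK : u ∈ KOp W X X 0 := by
    rw [← mem_KS_iff]
    exact Submodule.subset_span hu'
  have hyu : IsHom (W.gr X) (2 * 0) (y * u) := by
    have h1 : IsHom (W.gr X) (2 * 0) y := (OpAlg.kspan rop_opAlg).hom hy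
    have h2 : IsHom (W.gr X) (2 * 0) u := rop_opAlg.hom hu'
    have := h1.mul h2
    simpa using this
  have hn1 : IsNilpotent (y * u) := (hc u huK).isNilpotent_mul_right hn
  have hpc : Commute (par (W.isInternal X)) (y * u) := hyu.par_comm (W.isInternal X)
  have hn2 : IsNilpotent (par (W.isInternal X) * (y * u)) := hpc.isNilpotent_mul_left hn1
  exact (LinearMap.isNilpotent_trace_of_isNilpotent hn2).eq_zero

/-- **Frobenius is semisimple if homological and numerical equivalence coincide.** -/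
theorem frob_semisimple (Φ : FrobSystem W p) (hD : HomEqNum W (X.prod X)) :
    Module.End.IsSemisimple (W.map (Φ.Fr X)).toLinearMap := by
  obtain ⟨t, ht, hcomm⟩ := exists_comm Φ X
  have hFt : (frob Φ X t).IsSemisimple := by
    obtain ⟨ν, hν, σ, hσ, hnil, hss, hsum⟩ := (frob Φ X t).exists_isNilpotent_isSemisimple
    have hνK : ν ∈ KAlg W X := by
      have h1 : Algebra.adjoin W.K {frob Φ X t} ≤ KAlg W X := by
        rw [Algebra.adjoin_le_iff]
        intro y hy
        rw [Set.mem_singleton_iff] at hy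
        rw [hy]
        exact map_mem_KOp _
      exact h1 hν
    have h0 : ν = 0 := by
      apply eq_zero_of_nilp hD hνK hnil
      intro u hu
      obtain ⟨γ, hγ, rfl⟩ := mem_KOp_iff.1 hu
      rw [add_zero] at hγ
      exact (Algebra.commute_of_mem_adjoin_singleton_of_commute hν (hcomm γ hγ)).symm
    rw [hsum, h0, zero_add]
    exact hss
  have h1 : frob Φ X t = (W.map (Φ.Fr X)).toLinearMap ^ t := by
    have h2 := frob_mul_eq Φ (Z := X) 1 t
    rw [one_mul] at h2
    rw [h2]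
    congr 1
  rw [h1] at hFt
  refine Q82.SF.semisimple_of_pow ?_ ht.ne' hFt
  intro x y hxy
  apply map_iter_injective Φ 1
  rw [W534.map_iter, Function.iterate_one]
  exact hxy

/-- The Riemann hypothesis implies the sign conjecture. -/
theorem sign_of_RH (hp : 1 < p) (σ : W.K →+* ℂ) (hRH : RiemannHyp Φ σ X) :
    SignOpAlgebraic W X := by
  have hF : frob Φ X 1 ∈ KAlg W X := map_mem_KOp _
  have hproj : ∀ i, proj (W.isInternal X) i ∈ KOp W X X 0 := by
    intro i
    obtain ⟨E, hE⟩ := Q82.SF.exists_proj_poly Φ hp hRH i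
    rw [← hE]
    have h1 : Polynomial.aeval (frob Φ X 1) E ∈ KAlg W X := by
      rw [Polynomial.aeval_eq_sum_range]
      exact Subalgebra.sum_mem _ fun r _ => Subalgebra.smul_mem _ (pow_mem hF r) _
    exact h1
  have hpar : par (W.isInternal X) ∈ KOp W X X 0 := by
    have h2 : par (W.isInternal X) =
        ∑ i ∈ Finset.range (2 * X.dim + 1), ((-1 : W.K) ^ i) • proj (W.isInternal X) i := by
      apply gr_ext (W.isInternal X)
      intro j a ha
      rw [par, scal_apply _ _ ha, LinearMap.sum_apply]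
      by_cases hj : j ∈ range (2 * X.dim + 1)
      · rw [Finset.sum_eq_single_of_mem j hj, LinearMap.smul_apply, proj_same _ ha]
        intro i _ hi
        rw [LinearMap.smul_apply, proj_ne _ ha (Ne.symm hi), smul_zero]
      · rw [Finset.mem_range] at hj
        rw [W.gr_eq_bot X j (by omega)] at ha
        rw [(Submodule.mem_bot _).1 ha, smul_zero]
        simp
    rw [h2]
    exact Submodule.sum_mem _ fun i _ => Submodule.smul_mem _ _ (hproj i)
  obtain ⟨γ, hγ, hγ'⟩ := mem_KOp_iff.1 hpar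
  rw [add_zero] at hγ
  refine ⟨_, ⟨γ, hγ, rfl⟩, ?_⟩
  intro i a ha
  rw [hγ', par, scal_apply _ _ ha]

end One

section Two

variable {W W' : WeilCohomology.{u, v} ops} {p : ℕ}

/-- Relations between cycle classes hold in every theory for which homological and numerical
equivalence coincide. -/
lemma cl_smul_eq (hD : HomEqNumAll W') {X : 𝒱.Obj} {j : ℕ} {z z' : X.Cycles}
    (hz : X.IsCyc j z) (hz' : X.IsCyc j z') {q : ℚ}
    (h : W.cl X z = (q : W.K) • W.cl X z') : W'.cl X z = (q : W'.K) • W'.cl X z' := by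
  have h1 : X.IsCyc j (z + (-q) • z') := SmVar.IsCyc.add hz (SmVar.IsCyc.smul _ hz')
  have h2 : W.cl X (z + (-q) • z') = 0 := by
    rw [map_add, W.cl_smul, h, Rat.cast_neg, neg_smul, add_neg_cancel]
  have h3 := homEqFiner_of_num (W := W') hD X j _ h1 h2
  rw [map_add, W'.cl_smul, Rat.cast_neg, neg_smul, add_neg_eq_zero] at h3
  exact h3

/-- The Frobenius endomorphisms in a theory for which homological and numerical equivalence
coincide. -/
theorem exists_frobSystem (Φ : FrobSystem W p) (hD : HomEqNumAll W')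
    (hdeg : ∀ X : 𝒱.Obj, ∃ z, X.IsCyc X.dim z ∧ X.V.degCycle z ≠ 0) :
    ∃ Φ' : FrobSystem W' p, SameFrob Φ Φ' := by
  refine ⟨⟨Φ.Fr, Φ.e, Φ.p_pos, Φ.e_pos, Φ.comm, ?_, ?_⟩, fun X => ⟨rfl, rfl⟩⟩
  · intro X j z hz
    obtain ⟨s, hs, h⟩ := Φ.cyc hz
    refine ⟨s, hs, ?_⟩
    rw [← W.cl_pull] at h
    have h1 := cl_smul_eq (W := W) hD (q := (p : ℚ) ^ (Φ.e X * s * j))
      (ops.pull_mem (W534.iter (Φ.Fr X) s) hz) hz (by rw [h]; push_cast; rfl)
    rw [← W'.cl_pull, h1]
    push_cast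
    rfl
  · intro X c hc
    obtain ⟨z, hz, hz0⟩ := hdeg X
    have h := Φ.deg (W.cl_mem hz)
    rw [← W.cl_pull] at h
    have h1 := cl_smul_eq (W := W) hD (q := (p : ℚ) ^ (Φ.e X * X.dim))
      (ops.pull_mem (Φ.Fr X) hz) hz (by rw [h]; push_cast; rfl)
    rw [W'.cl_pull] at h1
    push_cast at h1
    -- the top degree is spanned by the class of `z`
    have h2 : c = (W'.tr X c / (X.V.degCycle z : W'.K)) • W'.cl X z := by
      have hz1 : (X.V.degCycle z : W'.K) ≠ 0 := by exact_mod_cast hz0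
      rw [← sub_eq_zero]
      set d := c - (W'.tr X c / (X.V.degCycle z : W'.K)) • W'.cl X z with hd
      have hdg : d ∈ W'.gr X (2 * X.dim) :=
        Submodule.sub_mem _ hc (Submodule.smul_mem _ _ (W'.cl_mem hz))
      have hd0 : W'.tr X d = 0 := by
        rw [hd, map_sub, map_smul, W'.tr_cl hz, smul_eq_mul, div_mul_cancel₀ _ hz1, sub_self]
      apply W'.nondeg
      intro b
      refine gr_induction (W'.isInternal X) (p := fun b => W'.tr X (d * b) = 0) ?_ ?_ b
      · intro i b hb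
        by_cases hi : i = 0
        · subst hi
          rw [W'.gr_zero, Submodule.mem_span_singleton] at hb
          obtain ⟨r, rfl⟩ := hb
          rw [mul_smul_comm, mul_one, map_smul, hd0, smul_zero]
        · exact W'.tr_eq_zero (W'.mul_mem hdg hb) (by omega)
      · intro a b ha hb
        rw [mul_add, map_add, ha, hb, add_zero]
    rw [h2, map_smul, h1, smul_comm]

end Two

/-- **The pole formula and the Tate conjecture for all theories.** -/
theorem mainT (W : WeilCohomology.{u, max (u + 1) v} ops) (hP : ∃ P : 𝒱.Obj, P.dim = 0)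
    (hdeg : ∀ X : 𝒱.Obj, ∃ z, X.IsCyc X.dim z ∧ X.V.degCycle z ≠ 0) {p : ℕ} (hp : 1 < p)
    (Φ : FrobSystem W p) (σ : W.K →+* ℂ) (hRH : ∀ X, RiemannHyp Φ σ X) :
    ∃ (Ws : WeilCohomology.{u, max (u + 1) v} ops) (Φs : FrobSystem Ws p),
      Indistinguishable W Ws ∧ SameFrobTraces Φ Φs ∧ HomEqNumAll Ws ∧
      (∀ X, Module.End.IsSemisimple (Ws.map (Φs.Fr X)).toLinearMap) ∧
      ∀ (X : 𝒱.Obj), ∀ j ≤ X.dim, List.TFAE [
        PoleFormula Φ σ X j,
        TateIn Φs X j,
        ∀ (W' : WeilCohomology.{u, max (u + 1) v} ops) (Φ' : FrobSystem W' p),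
          SameFrobTraces Φ Φ' → TateIn Φ' X j,
        ∀ (W' : WeilCohomology.{u, max (u + 1) v} ops) (Φ' : FrobSystem W' p),
          SameFrobTraces Φ Φ' → TateIn Φ' X j ∧ HomEqNumIn W' X j,
        ∃ (W' : WeilCohomology.{u, max (u + 1) v} ops) (Φ' : FrobSystem W' p),
          SameFrobTraces Φ Φ' ∧ TateIn Φ' X j ∧ HomEqNumIn W' X j] := by
  obtain ⟨Ws, h1, h2⟩ := exists_star W (fun X => sign_of_RH hp σ (hRH X)) hP hdeg
  obtain ⟨Φs, h3⟩ := exists_frobSystem (W' := Ws) Φ h2 hdeg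
  have h4 := sameFrobTraces_of_indist h3 h1
  refine ⟨Ws, Φs, h1, h4, h2, fun X => frob_semisimple Φs (h2 _), fun X j hj => ?_⟩
  obtain ⟨l, hl⟩ := Nat.exists_eq_add_of_le hj
  tfae_have 1 → 4 := by
    intro h W' Φ' hΦ'
    have h5 := tate_of_rank hl.symm ((rankFormula_iff hΦ' X j).2
      ((poleFormula_iff_rank hp σ (hRH X) hj).1 h))
    exact ⟨tateIn_of_semisimple h5.1, h5.2⟩
  tfae_have 4 → 3 := fun h W' Φ' hΦ' => (h W' Φ' hΦ').1
  tfae_have 3 → 2 := fun h => h Ws Φs h4
  tfae_have 2 → 5 := fun h => ⟨Ws, Φs, h4, h, homEqNumIn_of_all h2 hj⟩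
  tfae_have 5 → 1 := by
    rintro ⟨W', Φ', hΦ', hT, hD⟩
    exact (poleFormula_iff_rank hp σ (hRH X) hj).2 ((rankFormula_iff hΦ' X j).1
      (rank_of_tate hj hT hD))
  tfae_finish

end Pool.Agent.H843.Ex
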