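import Pool.Agent.H843.Ex10
import Pool.Graph.R_seed8.W537.OneCycleB

/-!
# Regularity modulo numerical equivalence, and stable injectivity
-/

open Finset

set_option linter.unusedSectionVars false

namespace Pool.Agent.H843.Ex

open Pool.Agent.H914 Pool.Agent.H447

variable {K : Type*} [Field K] [CharZero K] {V : Type*} [AddCommGroup V] [Module K V]
  {gr : ℕ → Submodule K V} {R : ℤ → Module.End K V → Prop}

variable [Module.Finite K V] (h : DirectSum.IsInternal gr)

/-- The operator `y` of degree `d` is orthogonal to all operators of degree `-d`. -/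
def NTriv (R : ℤ → Module.End K V → Prop) (h : DirectSum.IsInternal gr) (d : ℤ)
    (y : Module.End K V) : Prop :=
  ∀ u, R (-d) u → LinearMap.trace K V (par h * (y * u)) = 0

variable (hR : OpAlg gr R)

lemma NTriv.span {d : ℤ} {y : Module.End K V} (hy : NTriv R h d y) {u : Module.End K V}
    (hu : u ∈ KS R (-d)) : LinearMap.trace K V (par h * (y * u)) = 0 := by
  induction hu using Submodule.span_induction with
  | mem x hx => exact hy x hx
  | zero => rw [mul_zero, mul_zero, map_zero]
  | add x z _ _ hx hz => rw [mul_add, mul_add, map_add, hx, hz, add_zero]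
  | smul a x _ hx => rw [mul_smul_comm, mul_smul_comm, map_smul, hx, smul_zero]

include hR in
/-- Elements of the radical of the algebra of operators are orthogonal to all operators. -/
lemma trace_radical {y : allOps R} (hy : y ∈ Ring.jacobson (allOps R)) {u : Module.End K V}
    (hu : u ∈ allOps R) :
    LinearMap.trace K V (par h * ((y : Module.End K V) * u)) = 0 := by
  have : IsArtinianRing (allOps R) := IsArtinianRing.of_finite K (allOps R)
  obtain ⟨N, hN⟩ : IsNilpotent (Ring.jacobson (allOps R)) := IsSemiprimaryRing.isNilpotent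
  have hyu : (y : Module.End K V) * u ∈ allOps R := Subalgebra.mul_mem _ y.2 hu
  have hmem : (⟨(y : Module.End K V) * u, hyu⟩ : allOps R) ∈ Ring.jacobson (allOps R) := by
    have := (Ring.jacobson (allOps R)).mul_mem_right ⟨u, hu⟩ hy
    exact this
  have hpow : ((y : Module.End K V) * u) ^ N = 0 := by
    have h1 := Ideal.pow_mem_pow hmem N
    rw [hN] at h1
    have h2 := congrArg (fun x : allOps R => (x : Module.End K V)) (Submodule.mem_bot _ |>.1 h1)
    simpa using h2
  have hcomm : Commute (par h) ((y : Module.End K V) * u) := by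
    have h1 : ∀ z ∈ allOps R, Commute (par h) z := by
      intro z hz
      obtain ⟨s', f', hf', -, rfl⟩ := isFinSum_of_mem hR hz
      exact Commute.sum_right _ _ _ (fun e _ => (hR.kspan.hom (hf' e)).par_comm h)
    exact h1 _ hyu
  have hnil : IsNilpotent (par h * ((y : Module.End K V) * u)) :=
    ⟨N, by rw [hcomm.mul_pow, hpow, mul_zero]⟩
  exact (LinearMap.isNilpotent_trace_of_isNilpotent hnil).eq_zero

include hR in
/-- **Von Neumann regularity modulo numerical equivalence.** -/
theorem exists_regular_mod
    (hrat : ∀ y, R 0 y → ∃ q : ℚ, LinearMap.trace K V (par h * y) = q)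
    {d : ℤ} {y : Module.End K V} (hy : R d y) :
    ∃ b, R (-d) b ∧ NTriv R h d (y * b * y - y) := by
  have : IsArtinianRing (allOps R) := IsArtinianRing.of_finite K (allOps R)
  have : IsSemisimpleRing (allOps R ⧸ Ring.jacobson (allOps R)) :=
    IsSemiprimaryRing.isSemisimpleRing
  set π := Ideal.Quotient.mk (Ring.jacobson (allOps R)) with hπ
  set yy : allOps R := ⟨y, mem_allOps hy⟩ with hyy
  obtain ⟨e, he, hspan⟩ := IsSemisimpleRing.ideal_eq_span_idempotent (Ideal.span {π yy})
  obtain ⟨b, hb⟩ := Ideal.mem_span_singleton'.1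
    (show e ∈ Ideal.span {π yy} by rw [hspan]; exact Ideal.mem_span_singleton_self e)
  obtain ⟨c, hc⟩ := Ideal.mem_span_singleton'.1
    (show π yy ∈ Ideal.span {e} by rw [← hspan]; exact Ideal.mem_span_singleton_self _)
  obtain ⟨b, rfl⟩ := Ideal.Quotient.mk_surjective b
  have h1 : yy * b * yy - yy ∈ Ring.jacobson (allOps R) := by
    rw [← Ideal.Quotient.mk_eq_mk_iff_sub_mem, map_mul, map_mul]
    change π yy * π b * π yy = π yy
    have h2 : π yy * e = π yy := by
      conv_lhs => rw [← hc, mul_assoc, he.eq]
      exact hc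
    have h3 : π b * π yy = e := hb
    rw [mul_assoc, h3, h2]
  obtain ⟨s, f, hf, hs, hfb⟩ := isFinSum_of_mem hR b.2
  have h2 : ∀ u, R (-d) u → LinearMap.trace K V (par h * ((y * f (-d) * y - y) * u)) = 0 := by
    intro u hu
    have h3 := trace_radical h hR h1 (mem_allOps hu)
    have h4 : ((yy * b * yy - yy : allOps R) : Module.End K V) = y * b * y - y := rfl
    rw [h4, sub_mul, mul_sub, map_sub] at h3
    rw [sub_mul, mul_sub, map_sub, ← h3]
    congr 1
    conv_rhs => rw [hfb]
    rw [Finset.mul_sum, Finset.sum_mul, Finset.sum_mul, Finset.mul_sum, map_sum]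
    by_cases hd : -d ∈ s
    · rw [Finset.sum_eq_single (-d)]
      · intro e' _ he'
        have h5 := hR.kspan.hom (hR.kspan.mul (hR.kspan.mul (Submodule.subset_span hy) (hf e'))
          (Submodule.subset_span hy))
        exact str_zero h (by omega) h5 (hR.hom hu)
      · intro h'; exact absurd hd h'
    · rw [hs _ hd]
      rw [mul_zero, zero_mul, zero_mul, mul_zero, map_zero]
      symm
      apply Finset.sum_eq_zero
      intro e' he'
      have hne : e' ≠ -d := by rintro rfl; exact hd he'
      have h5 := hR.kspan.hom (hR.kspan.mul (hR.kspan.mul (Submodule.subset_span hy) (hf e'))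
        (Submodule.subset_span hy))
      exact str_zero h (by omega) h5 (hR.hom hu)
  obtain ⟨ret, hret⟩ := exists_retract K
  obtain ⟨b', hb', hb2⟩ := exists_comp hR h hrat ret (hf (-d))
  refine ⟨b', hb', ?_⟩
  intro u hu
  rw [sub_mul, mul_sub, map_sub, sub_eq_zero]
  have h3 := hb2 d 0 y (y * u) hy (hR.cast (hR.mul hy hu) (by ring)) (by ring)
  have h4 := h2 u hu
  rw [sub_mul, mul_sub, map_sub, sub_eq_zero] at h4
  rw [mul_assoc (y * b') y u, h3, ← mul_assoc (y * f (-d)) y u, h4]
  obtain ⟨q, hq⟩ := hrat (y * u) (hR.cast (hR.mul hy hu) (by ring))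
  rw [hq, ret_ratCast hret]

end Pool.Agent.H843.Ex
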