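import Pool.Graph.R_pool_sql_team_seeded_63374d34.N180.CfH
import Pool.Agent.H843.Ex1

/-!
# Weight decompositions adapted to a filtration
-/

namespace Pool.Agent.H843.Ex

open Finset Pool.Agent.N180.Cf

variable {K A : Type*} [Field K] [AddCommGroup A] [Module K A] [Module.Finite K A]

/-- **Weight decompositions adapted to a filtration**, compatible with the degrees. -/
theorem exists_spl {gr : ℕ → Submodule K A} (h : DirectSum.IsInternal gr)
    {F : ℝ → Submodule K A} (hanti : Antitone F)
    (hj : ∃ S : Finset ℝ, ∀ x, x ≠ 0 → ∃ s ∈ S, x ∈ F s ∧ ∀ t, x ∈ F t → t ≤ s)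
    (hhom : ∀ t, F t = ⨆ i, F t ⊓ gr i) :
    ∃ D : Spl K A, (∀ t, D.fil t = F t) ∧ ∀ s i, ∀ a ∈ gr i, D.P s a ∈ gr i := by
  classical
  obtain ⟨S, hS⟩ := hj
  have key : ∀ i, ∃ (l : ℕ) (e : Module.Basis (Fin l) K (gr i)) (w : Fin l → ℝ),
      (∀ j, e j ∈ (F (w j)).comap (gr i).subtype) ∧
      ∀ t, ∀ x ∈ (F t).comap (gr i).subtype, ∀ j, e.coord j x ≠ 0 → t ≤ w j := by
    intro i
    apply exists_adapted (fun t => (F t).comap (gr i).subtype)
    refine ⟨S, fun x hx => ?_⟩
    obtain ⟨s, hs, h1, h2⟩ := hS (x : A) (fun h' => hx (Subtype.ext h'))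
    exact ⟨s, hs, h1, h2⟩
  choose l e w he hw using key
  set b := h.collectedBasis e with hb
  have hfin : Finite (Σ i, Fin (l i)) := Module.Finite.finite_basis b
  have : Fintype (Σ i, Fin (l i)) := Fintype.ofFinite _
  let w' : (Σ i, Fin (l i)) → ℝ := fun x => w x.1 x.2
  have hbval : ∀ x, b x = (e x.1 x.2 : A) := by
    intro x
    rw [hb, DirectSum.IsInternal.collectedBasis_coe]
  have hbF : ∀ x, b x ∈ F (w' x) := by
    intro x
    rw [hbval]
    exact he x.1 x.2
  have hbgr : ∀ x, b x ∈ gr x.1 := by
    intro x
    rw [hbval]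
    exact (e x.1 x.2).2
  have hrepr : ∀ t, ∀ x ∈ F t, ∀ y, b.repr x y ≠ 0 → t ≤ w' y := by
    intro t x hx y hy
    rw [hhom t] at hx
    refine Submodule.iSup_induction (p := fun i => F t ⊓ gr i)
      (motive := fun x => b.repr x y ≠ 0 → t ≤ w' y) hx ?_ ?_ ?_ hy
    · rintro i x ⟨hx1, hx2⟩ hne
      by_cases hi : i = y.1
      · subst hi
        apply hw y.1 t ⟨x, hx2⟩ hx1 y.2
        rw [Module.Basis.coord_apply]
        intro h0
        apply hne
        have := h.collectedBasis_repr_of_mem e (x := x) (i := y.1) (a := y.2) hx2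
        rw [← h0, ← this]
      · exact absurd (h.collectedBasis_repr_of_mem_ne e (x := x) (i := i) (j := y.1)
          (a := y.2) hi hx2) hne
    · intro h0
      rw [map_zero] at h0
      exact absurd rfl h0
    · intro x x' hx hx' hne
      by_cases h0 : b.repr x y = 0
      · apply hx'
        intro h1
        apply hne
        rw [map_add, Finsupp.add_apply, h0, h1, add_zero]
      · exact hx h0
  have hreprgr : ∀ i, ∀ x ∈ gr i, ∀ y, b.repr x y ≠ 0 → y.1 = i := by
    intro i x hx y hy
    by_contra hne
    exact hy (h.collectedBasis_repr_of_mem_ne e (x := x) (i := i) (j := y.1)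
          (a := y.2) (Ne.symm hne) hx)
  let P : ℝ → A →ₗ[K] A := fun s => b.constr K (fun x => if w' x = s then b x else 0)
  have hP : ∀ s x, P s (b x) = if w' x = s then b x else 0 := fun s x => b.constr_basis K _ x
  have hPsum : ∀ s x, P s x = ∑ y, b.repr x y • (if w' y = s then b y else 0) := by
    intro s x
    conv_lhs => rw [← b.sum_repr x, map_sum]
    exact Finset.sum_congr rfl fun y _ => by rw [map_smul, hP]
  have horth : ∀ s t, P s ∘ₗ P t = if s = t then P t else 0 := by
    intro s t
    apply b.ext
    intro x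
    rw [LinearMap.comp_apply, hP]
    by_cases h1 : w' x = t
    · rw [if_pos h1, hP]
      by_cases h2 : s = t
      · subst h2
        rw [if_pos h1, if_pos rfl, hP, if_pos h1]
      · rw [if_neg h2, if_neg (fun h3 => h2 (h3.symm.trans h1)), LinearMap.zero_apply]
    · rw [if_neg h1, map_zero]
      by_cases h2 : s = t
      · rw [if_pos h2, hP, if_neg h1]
      · rw [if_neg h2, LinearMap.zero_apply]
  let T : Finset ℝ := Finset.univ.image w'
  have hsum : ∑ s ∈ T, P s = LinearMap.id := by
    apply b.ext
    intro x
    rw [LinearMap.sum_apply, Finset.sum_eq_single_of_mem (w' x)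
      (Finset.mem_image_of_mem _ (Finset.mem_univ _)), hP, if_pos rfl, LinearMap.id_apply]
    intro s _ hs
    rw [hP, if_neg (Ne.symm hs)]
  let D : Spl K A :=
    { P := P
      S := T
      orth := by
        intro s t x
        rw [← LinearMap.comp_apply, horth]
        split_ifs
        · rfl
        · rfl
      sum := by
        intro x
        rw [← LinearMap.sum_apply, hsum]
        rfl }
  refine ⟨D, ?_, ?_⟩
  · intro t
    ext x
    constructor
    · intro hx
      rw [← D.sum x]
      apply Submodule.sum_mem
      intro s _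
      by_cases hst : s < t
      · rw [hx s hst]
        exact Submodule.zero_mem _
      · apply hanti (not_lt.1 hst)
        change P s x ∈ F s
        rw [hPsum]
        apply Submodule.sum_mem
        intro y _
        apply Submodule.smul_mem
        split_ifs with h1
        · rw [← h1]
          exact hbF y
        · exact Submodule.zero_mem _
    · intro hx s hs
      change P s x = 0
      rw [hPsum]
      apply Finset.sum_eq_zero
      intro y _
      by_cases h1 : b.repr x y = 0
      · rw [h1, zero_smul]
      · rw [if_neg, smul_zero]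
        intro h2
        exact absurd (hrepr t x hx y h1) (by rw [h2]; exact not_le.2 hs)
  · intro s i a ha
    change P s a ∈ gr i
    rw [hPsum]
    apply Submodule.sum_mem
    intro y _
    by_cases h1 : b.repr a y = 0
    · rw [h1, zero_smul]
      exact Submodule.zero_mem _
    · have h2 := hreprgr i a ha y h1
      apply Submodule.smul_mem
      split_ifs
      · rw [← h2]
        exact hbgr y
      · exact Submodule.zero_mem _

end Pool.Agent.H843.Ex
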