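import Pool.Graph.R_pool_sql_team_seeded_63374d34.N180.CfL
import Pool.Agent.H843.Ex2

/-!
# The filtrations of the varieties dominated by a variety with a weight filtration
-/

open CategoryTheory AlgebraicGeometry TensorProduct Function

universe u v

set_option linter.unusedSectionVars false

namespace Pool.Agent.H843.Ex

open Pool.Agent.H914 Pool.Agent.H914.VarClass Pool.Agent.H914.VarClass.Obj
  Pool.Agent.H914.WeilCohomology Pool.Agent.R908 Pool.Agent.N180.Cf

variable {k : Type u} [Field k] {𝒱 : VarClass k} {ops : CycleOps 𝒱}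
  {W : WeilCohomology.{u, v} ops} {X U V Z : 𝒱.Obj}

lemma span_neg {q : ℤ} (hq : q < 0) {x : W.H X} (hx : x ∈ spanCycles W X q) : x = 0 := by
  induction hx using Submodule.span_induction with
  | mem x hx =>
    obtain ⟨p, hp, _⟩ := hx
    omega
  | zero => rfl
  | add x y _ _ hx hy => rw [hx, hy, add_zero]
  | smul c x _ hx => rw [hx, smul_zero]

lemma kop_stable {F : ℝ → Submodule W.K (W.H X)} (hF : IsWeightFiltration W X F) {d : ℤ}
    {φ : W.H X →ₗ[W.K] W.H X} (hφ : φ ∈ KOp W X X d) {t : ℝ} {x : W.H X} (hx : x ∈ F t) :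
    φ x ∈ F t := by
  obtain ⟨γ, hγ, rfl⟩ := mem_KOp_iff.1 hφ
  by_cases hd : (X.dim : ℤ) + d < 0
  · rw [span_neg hd hγ, corr_zero, LinearMap.zero_apply]
    exact Submodule.zero_mem _
  · obtain ⟨p, hp⟩ := Int.eq_ofNat_of_zero_le (not_lt.1 hd)
    rw [hp] at hγ
    exact hF.corr p _ ⟨γ, hγ, rfl⟩ t x hx

lemma mulLeft_kop {p : ℤ} {w : W.H X} (hw : w ∈ spanCycles W X p) :
    LinearMap.mulLeft W.K w ∈ KOp W X X p := by
  induction hw using Submodule.span_induction with
  | mem x hx =>
    obtain ⟨q, rfl, z, hz, rfl⟩ := hx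
    rcases Realized.mulLeft (ops := ops) hz with ⟨r, hr, z', hz', h⟩ | ⟨h, _⟩
    · have h1 : LinearMap.mulLeft W.K (W.cl X z) = W.corr (W.cl _ z') := h W
      rw [h1]
      exact KOp.gen hr hz'
    · omega
  | zero =>
    rw [LinearMap.mulLeft_zero_eq_zero]
    exact Submodule.zero_mem _
  | add x y _ _ hx hy =>
    have : LinearMap.mulLeft W.K (x + y) = LinearMap.mulLeft W.K x + LinearMap.mulLeft W.K y := by
      ext a; simp [add_mul]
    rw [this]
    exact Submodule.add_mem _ hx hy
  | smul c x _ hx =>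
    have : LinearMap.mulLeft W.K (c • x) = c • LinearMap.mulLeft W.K x := by
      ext a; simp
    rw [this]
    exact Submodule.smul_mem _ _ hx

/-- The filtration of `H(V)` given by a morphism from `X` to `V`. -/
def fv (F : ℝ → Submodule W.K (W.H X)) (g : X ⟶ V) (t : ℝ) : Submodule W.K (W.H V) :=
  (F t).comap (W.map g).toLinearMap

lemma mem_fv {F : ℝ → Submodule W.K (W.H X)} {g : X ⟶ V} {t : ℝ} {a : W.H V} :
    a ∈ fv F g t ↔ W.map g a ∈ F t := Iff.rfl

section

variable {F : ℝ → Submodule W.K (W.H X)} (hF : IsWeightFiltration W X F) {g : X ⟶ V}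
  (hg : IsDominating W g) {h : X ⟶ U} (hh : IsDominating W h)

include hF in
lemma fv_push (h : X ⟶ U) {t : ℝ} {x : W.H X} (hx : x ∈ F t) : W.push h x ∈ fv F h t := by
  rw [mem_fv]
  exact kop_stable hF (KOp.comp (KOp.mapHom h) (KOp.pushHom h)) hx

include hF hh in
/-- All algebraic correspondences preserve the filtrations. -/
lemma fv_kop {d : ℤ} {φ : W.H U →ₗ[W.K] W.H V} (hφ : φ ∈ KOp W U V d) (g : X ⟶ V) {t : ℝ}
    {a : W.H U} (ha : a ∈ fv F h t) : φ a ∈ fv F g t := by
  obtain ⟨p, w, hw, c, hc, hwc⟩ := hh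
  have h1 : W.push h (w * W.map h a) = c • a := by
    rw [W.push_mul, hwc, smul_mul_assoc, one_mul]
  have h2 : (((W.map g).toLinearMap ∘ₗ φ) ∘ₗ W.push h) ∘ₗ LinearMap.mulLeft W.K w ∈
      KOp W X X _ :=
    KOp.comp (KOp.comp (KOp.comp (KOp.mapHom g) hφ) (KOp.pushHom h)) (mulLeft_kop hw)
  have h3 := kop_stable hF h2 ha
  have h4 : ((((W.map g).toLinearMap ∘ₗ φ) ∘ₗ W.push h) ∘ₗ LinearMap.mulLeft W.K w)
      (W.map h a) = c • W.map g (φ a) := by
    change W.map g (φ (W.push h (w * W.map h a))) = _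
    rw [h1, map_smul, map_smul]
  have h5 := Submodule.smul_mem (F t) c⁻¹ h3
  change c⁻¹ • ((((W.map g).toLinearMap ∘ₗ φ) ∘ₗ W.push h) ∘ₗ LinearMap.mulLeft W.K w)
    (W.map h a) ∈ F t at h5
  rw [h4, smul_smul, inv_mul_cancel₀ hc, one_smul] at h5
  exact h5

include hF in
lemma fv_anti : Antitone (fv F g) := fun _ _ hst _ ha => hF.isFiltration.antitone hst ha

include hF hg in
lemma fv_jumps : ∃ S : Finset ℝ, ∀ x, x ≠ 0 → ∃ s ∈ S, x ∈ fv F g s ∧
    ∀ t, x ∈ fv F g t → t ≤ s := by
  obtain ⟨S, hS⟩ := hF.isFiltration.jumps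
  refine ⟨S, fun x hx => ?_⟩
  have h1 : W.map g x ≠ 0 := fun h0 => hx (hg.inj h0)
  exact hS _ h1

include hF in
lemma hom_F (i : ℕ) {t : ℝ} {x : W.H X} (hx : x ∈ F t) : proj (W.isInternal X) i x ∈ F t := by
  rw [hF.isHomogeneous t] at hx
  refine Submodule.iSup_induction (p := fun i => F t ⊓ W.gr X i)
    (motive := fun x => proj (W.isInternal X) i x ∈ F t) hx ?_ ?_ ?_
  · rintro j x ⟨hx1, hx2⟩
    by_cases hij : j = i
    · subst hij
      rw [proj_same _ hx2]
      exact hx1
    · rw [proj_ne _ hx2 hij]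
      exact Submodule.zero_mem _
  · rw [map_zero]
    exact Submodule.zero_mem _
  · intro x y hx hy
    rw [map_add]
    exact Submodule.add_mem _ hx hy

lemma map_proj (g : X ⟶ V) (i : ℕ) (a : W.H V) :
    W.map g (proj (W.isInternal V) i a) = proj (W.isInternal X) i (W.map g a) := by
  refine gr_induction (W.isInternal V) (p := fun a =>
    W.map g (proj (W.isInternal V) i a) = proj (W.isInternal X) i (W.map g a)) ?_ ?_ a
  · intro j a ha
    by_cases hij : j = i
    · subst hij
      rw [proj_same _ ha, proj_same _ (W.map_mem g ha)]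
    · rw [proj_ne _ ha hij, proj_ne _ (W.map_mem g ha) hij, map_zero]
  · intro x y hx hy
    simp only [map_add, hx, hy]

include hF in
lemma fv_hom (t : ℝ) : fv F g t = ⨆ i, fv F g t ⊓ W.gr V i := by
  apply le_antisymm
  · intro a ha
    have h1 : a = ∑ i ∈ Finset.range (2 * V.dim + 1), proj (W.isInternal V) i a := by
      have h2 := sum_proj (W.isInternal V) (N := 2 * V.dim + 1)
        (fun i hi => W.gr_eq_bot V i (by omega))
      rw [← LinearMap.sum_apply, h2]
      rfl
    rw [h1]
    apply Submodule.sum_mem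
    intro i _
    refine Submodule.mem_iSup_of_mem i ⟨?_, proj_mem _ i a⟩
    change W.map g _ ∈ F t
    rw [map_proj]
    exact hom_F hF i ha
  · exact iSup_le fun i => inf_le_left

/-- Classes of positive weight have trace zero. -/
lemma tr_F {F : ℝ → Submodule W.K (W.H X)} (hF : IsWeightFiltration W X F) {s : ℝ} (hs : 0 < s)
    {x : W.H X} (hx : x ∈ F s) : W.tr X x = 0 := by
  have h1 := (hF.isSelfDual s x).1 hx 0 (by linarith) 1 hF.isMultiplicative.one_mem
  rw [one_mul] at h1
  exact h1

include hF hg in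
/-- Algebraic classes on `X` have weight at least zero. -/
lemma span_F {p : ℤ} {w : W.H X} (hw : w ∈ spanCycles W X p) : w ∈ F 0 := by
  have h1 := kop_stable hF (mulLeft_kop hw) hF.isMultiplicative.one_mem
  rw [LinearMap.mulLeft_apply, mul_one] at h1
  exact h1

include hF hg in
lemma tr_fv {s : ℝ} (hs : 0 < s) {x : W.H V} (hx : x ∈ fv F g s) : W.tr V x = 0 := by
  obtain ⟨p, w, c, hw, hc, h⟩ := hg.tr
  have h1 := h x
  have h2 : w * W.map g x ∈ F s := by
    have h3 := kop_stable hF (mulLeft_kop hw) hx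
    exact h3
  rw [tr_F hF hs h2] at h1
  exact (mul_eq_zero.1 h1).resolve_left hc

include hF in
/-- One half of the self-duality. -/
lemma dual_fv {t : ℝ} {a : W.H V}
    (ha : ∀ s, -t < s → ∀ b ∈ fv F g s, W.tr V (b * a) = 0) : a ∈ fv F g t := by
  change W.map g a ∈ F t
  rw [hF.isSelfDual]
  intro s hs y hy
  rw [← W.tr_push]
  exact ha s hs _ (fv_push hF g hy)

/-- There is a real number larger than `s` without elements of the finite set between. -/
lemma exists_gap (S : Finset ℝ) (s : ℝ) : ∃ t > s, ∀ q ∈ S, q < -s → q ≤ -t := by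
  classical
  by_cases h : (S.filter (fun q => q < -s)).Nonempty
  · refine ⟨-(S.filter (fun q => q < -s)).max' h, ?_, ?_⟩
    · have h1 := Finset.max'_mem _ h
      rw [Finset.mem_filter] at h1
      linarith [h1.2]
    · intro q hq hqs
      rw [neg_neg]
      exact Finset.le_max' _ q (Finset.mem_filter.2 ⟨hq, hqs⟩)
  · refine ⟨s + 1, by linarith, fun q hq hqs => ?_⟩
    exact absurd ⟨q, Finset.mem_filter.2 ⟨hq, hqs⟩⟩ h

/-- The operator `(-1) ^ i` commutes with homogeneous operators. -/
lemma sign_comm {κ : W.H V →ₗ[W.K] W.H V} (hκ : ∀ i, ∀ a ∈ W.gr V i, κ a = (-1 : W.K) ^ i • a)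
    {T : W.H V →ₗ[W.K] W.H V} (hT : ∀ i, ∀ a ∈ W.gr V i, T a ∈ W.gr V i) (a : W.H V) :
    κ (T a) = T (κ a) := by
  refine gr_induction (W.isInternal V) (p := fun a => κ (T a) = T (κ a)) ?_ ?_ a
  · intro i a ha
    rw [hκ i _ (hT i a ha), hκ i a ha, map_smul]
  · intro x y hx hy
    simp only [map_add, hx, hy]

include hF hg in
/-- The weight decompositions adapted to the filtration are compatible with the structure of the
cohomology. -/
lemma wt_fv {κ : W.H V →ₗ[W.K] W.H V} (hκ : IsSign W V κ) {D : Spl W.K (W.H V)}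
    (hD : ∀ t, D.fil t = fv F g t) (hhom : ∀ s i, ∀ a ∈ W.gr V i, D.P s a ∈ W.gr V i) :
    Spl.Wt (W.gr V) (W.tr V) D where
  hom := hhom
  mul := by
    intro s t a ha b hb
    rw [hD] at ha hb ⊢
    change W.map g (a * b) ∈ F (s + t)
    rw [map_mul (W.map g)]
    exact hF.isMultiplicative.mul_mem s t _ _ ha hb
  one := by
    rw [hD]
    change W.map g 1 ∈ F 0
    rw [map_one]
    exact hF.isMultiplicative.one_mem
  tr0 := by
    intro s hs x hx
    rw [hD] at hx
    exact tr_fv hF hg hs hx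
  nondeg := by
    intro s a ha hab
    -- the same with the factors exchanged
    have h1 : ∀ b, D.P (-s) b = b → W.tr V (b * κ a) = 0 := by
      intro b hb
      rw [← hκ.tr_comm]
      exact hab b hb
    have hcomm : ∀ r b, κ (D.P r b) = D.P r (κ b) :=
      fun r b => sign_comm hκ.apply (fun i a ha => hhom r i a ha) b
    have h2 : D.P s (κ a) = κ a := by rw [← hcomm, ha]
    obtain ⟨t, hts, ht⟩ := exists_gap D.S s
    have h3 : κ a ∈ D.fil t := by
      rw [hD]
      apply dual_fv hF
      intro r hr b hb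
      rw [← hD] at hb
      rw [← D.sum b, Finset.sum_mul, map_sum]
      apply Finset.sum_eq_zero
      intro q hq
      by_cases h4 : q < r
      · rw [hb q h4, zero_mul, map_zero]
      · by_cases h5 : q = -s
        · subst h5
          exact h1 _ (D.P_P _ b)
        · have h6 : -s < q := by
            by_contra h7
            have h8 := ht q hq (lt_of_le_of_ne (not_lt.1 h7) h5)
            linarith [not_lt.1 h4]
          have h7 : D.P q b * κ a ∈ fv F g (q + s) := by
            have h8 : D.P q b ∈ fv F g q := by rw [← hD]; exact Spl.P_mem q b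
            have h9 : κ a ∈ fv F g s := by rw [← hD]; exact Spl.mem_of_eq h2
            change W.map g (D.P q b * κ a) ∈ F (q + s)
            rw [map_mul (W.map g)]
            exact hF.isMultiplicative.mul_mem q s _ _ h8 h9
          exact tr_fv hF hg (by linarith) h7
    have h4 : κ a = 0 := by rw [← h2]; exact h3 s hts
    have h5 := hκ.sq a
    rw [h4, map_zero] at h5
    exact h5.symm

end

/-! ### The detection of numerical equivalence on the varieties dominated by `X` -/

section Point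

variable {P : 𝒱.Obj} (hP : P.dim = 0)

include hP in
lemma tr_one_point : W.tr P (1 : W.H P) = 1 := by
  rw [← W.cl_fund]
  have h1 : P.IsCyc P.dim P.V.fundCycle := by
    rw [hP]
    exact P.V.fundCycle_mem
  rw [W.tr_cl h1]
  have h2 : P.V.degCycle P.V.fundCycle = 1 := by
    unfold SmVar.degCycle SmVar.fundCycle
    exact Finsupp.sum_single_index rfl
  rw [h2, Rat.cast_one]

include hP in
lemma point_top (y : W.H P) : ∃ c : W.K, y = c • 1 := by
  refine gr_induction (W.isInternal P) (p := fun y => ∃ c : W.K, y = c • (1 : W.H P)) ?_ ?_ y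
  · intro i a ha
    by_cases hi : i = 0
    · subst hi
      rw [W.gr_zero, Submodule.mem_span_singleton] at ha
      obtain ⟨c, hc⟩ := ha
      exact ⟨c, hc.symm⟩
    · rw [W.gr_eq_bot P i (by rw [hP]; omega)] at ha
      exact ⟨0, by rw [(Submodule.mem_bot _).1 ha, zero_smul]⟩
  · rintro a b ⟨c, rfl⟩ ⟨d, rfl⟩
    exact ⟨c + d, by rw [add_smul]⟩

include hP in
lemma homEqNum_point : HomEqNum W P := by
  intro j hj z hz hnum
  rw [hP] at hj
  obtain rfl : j = 0 := Nat.le_zero.1 hj
  obtain ⟨c, hc⟩ := point_top (W := W) hP (W.cl P z)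
  have h1 := hnum P.V.fundCycle (by rw [hP]; exact P.V.fundCycle_mem)
  have h2 : P.IsCyc P.dim (ops.mul z P.V.fundCycle) := by
    have := ops.mul_mem hz P.V.fundCycle_mem
    rw [hP]
    exact this
  have h3 := W.tr_cl h2
  rw [h1, Rat.cast_zero, W.cl_mul, W.cl_fund, mul_one, hc, map_smul, tr_one_point hP,
    smul_eq_mul, mul_one] at h3
  rw [hc, h3, zero_smul]

lemma dim_of_product {𝒴 : Set 𝒱.Obj} (h𝒴 : ∀ Y ∈ 𝒴, Y.dim = 0) {Y : 𝒱.Obj}
    (hY : IsProductOf 𝒴 Y) : Y.dim = 0 := by
  induction hY with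
  | base h => exact h𝒴 _ h
  | prod _ _ h1 h2 => rw [dim_prod, h1, h2]

include hP in
lemma map_fst_inj {a : W.H X} (h : W.map (fst X P) a = 0) : a = 0 := by
  apply W.nondeg
  intro b
  have h1 := W.tr_prod (X := X) (Y := P) (a * b) 1
  rw [map_mul (W.map (fst X P)), h, zero_mul, zero_mul, map_zero, tr_one_point hP, mul_one] at h1
  exact h1.symm

include hP in
lemma push_fst_ext (w : W.H X) : W.push (fst X P) (W.map (fst X P) w) = w := by
  apply W.tr_ext
  intro c
  rw [W.tr_push, ← map_mul (W.map (fst X P))]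
  have h1 := W.tr_prod (X := X) (Y := P) (w * c) 1
  rw [map_one, mul_one, tr_one_point hP, mul_one] at h1
  exact h1

include hP in
/-- **A filtration of `H(X)` which detects numerical equivalence on the varieties dominated by
`X`.** -/
theorem exists_F (hX : SignOpAlgebraic W X) : ∃ F : ℝ → Submodule W.K (W.H X),
    IsWeightFiltration W X F ∧ ∀ (V : 𝒱.Obj) (g : X ⟶ V), IsDominating W g → ∀ p : ℕ,
      ∀ α ∈ spanCycles W V p, W.map g α ∈ F 0 ∧
        (NumZero W V α ↔ ∃ s > 0, W.map g α ∈ F s) := by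
  obtain ⟨F, hF, hdet, -⟩ := weightFiltration W X hX {P} (by
    intro Y hY
    exact homEqNum_point (dim_of_product (fun Y h => by rw [h]; exact hP) hY)) 3 le_rfl
  refine ⟨F, hF, ?_⟩
  intro V g hg p α hα
  have hg' : IsDominating W (X := pX X P 1) (fst X P ≫ g) := by
    obtain ⟨q, w, hw, c, hc, h⟩ := hg
    refine ⟨q, W.map (fst X P) w, span_map (fst X P) hw, c, hc, ?_⟩
    rw [W.push_comp]
    change W.push g (W.push (fst X P) (W.map (fst X P) w)) = _
    rw [push_fst_ext hP, h]
  have h1 := hdet 1 (by omega) P (IsProductOf.base rfl) V (fst X P ≫ g) hg' p α hα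
  have h2 : ∀ (t : ℝ) (a : W.H X),
      (W.map (fst X P) a : W.H (pX X P 1)) ∈ prodFil W F P 1 t ↔ a ∈ F t := by
    intro t a
    constructor
    · intro h
      have h3 : prodFil W F P 1 t ≤ (F t).map (W.map (fst X P)).toLinearMap := by
        refine Submodule.span_le.2 ?_
        rintro _ ⟨x, s, y, hx, hs, rfl⟩
        obtain ⟨c, rfl⟩ := point_top (W := W) hP y
        refine ⟨c • x 0, Submodule.smul_mem _ c ?_, ?_⟩
        · rw [Fin.sum_univ_one] at hs
          exact hF.isFiltration.antitone hs (hx 0)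
        · change W.map (fst X P) (c • x 0) = W.map (fst X P) (x 0) * W.map (snd X P) (c • 1)
          rw [map_smul, map_smul, map_one, mul_smul_comm, mul_one]
      obtain ⟨b, hb, hab⟩ := h3 h
      have h4 : W.map (fst X P) (b - a) = 0 := by
        rw [map_sub, sub_eq_zero]
        exact hab
      have h5 := map_fst_inj hP h4
      rw [sub_eq_zero] at h5
      rw [← h5]
      exact hb
    · intro h
      refine Submodule.subset_span ⟨fun _ => a, fun _ => t, 1, fun _ => h, ?_, ?_⟩
      · rw [Fin.sum_univ_one]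
      · change W.map (fst X P) a * W.map (snd X P) 1 = W.map (fst X P) a
        rw [map_one, mul_one]
  have h3 : W.map (X := pX X P 1) (fst X P ≫ g) α = W.map (fst X P) (W.map g α) :=
    W.map_comp (fst X P) g α
  rw [h3] at h1
  refine ⟨(h2 _ _).1 h1.1, h1.2.trans ?_⟩
  simp only [h2]

end Point

end Pool.Agent.H843.Ex
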