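import Mathlib

/-!
# Linear algebra over an ultrapower of a field
-/

namespace Pool.Agent.H843.Ex

open Filter

section

variable {I : Type*} (l : Filter I) {K A B C : Type*} [Field K] [AddCommGroup A] [Module K A]
  [AddCommGroup B] [Module K B] [AddCommGroup C] [Module K C]

/-- The map on germs given by a family of linear maps. -/
def gmap (T : I → A →ₗ[K] B) : Germ l A →ₗ[Germ l K] Germ l B where
  toFun := Germ.map' (fun a i => T i (a i)) (fun _ _ h => h.mono fun i hi => by
    change T i _ = T i _
    rw [hi])
  map_add' := by
    intro x y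
    induction x using Germ.inductionOn with | h x =>
    induction y using Germ.inductionOn with | h y =>
    change ((fun i => T i (x i + y i) : I → B) : Germ l B) =
      ((fun i => T i (x i) + T i (y i) : I → B) : Germ l B)
    simp only [map_add]
  map_smul' := by
    intro c x
    induction x using Germ.inductionOn with | h x =>
    induction c using Germ.inductionOn with | h c =>
    change ((fun i => T i (c i • x i) : I → B) : Germ l B) =
      ((fun i => c i • T i (x i) : I → B) : Germ l B)
    simp only [map_smul]

@[simp] lemma gmap_coe (T : I → A →ₗ[K] B) (a : I → A) :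
    gmap l T (a : Germ l A) = ((fun i => T i (a i) : I → B) : Germ l B) := rfl

/-- The bilinear map on germs given by a family of bilinear maps. -/
def gbil (T : I → A →ₗ[K] B →ₗ[K] C) : Germ l A →ₗ[Germ l K] Germ l B →ₗ[Germ l K] Germ l C :=
  LinearMap.mk₂ (Germ l K)
    (Quotient.map₂ (fun a b i => T i (a i) (b i)) (fun a a' ha b b' hb => by
      filter_upwards [ha, hb] with i h1 h2
      rw [h1, h2]))
    (by
      intro x y z
      induction x using Germ.inductionOn with | h x =>
      induction y using Germ.inductionOn with | h y =>
      induction z using Germ.inductionOn with | h z =>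
      change ((fun i => T i (x i + y i) (z i) : I → C) : Germ l C) =
        ((fun i => T i (x i) (z i) + T i (y i) (z i) : I → C) : Germ l C)
      simp only [map_add, LinearMap.add_apply])
    (by
      intro c x y
      induction x using Germ.inductionOn with | h x =>
      induction y using Germ.inductionOn with | h y =>
      induction c using Germ.inductionOn with | h c =>
      change ((fun i => T i (c i • x i) (y i) : I → C) : Germ l C) =
        ((fun i => c i • T i (x i) (y i) : I → C) : Germ l C)
      simp only [map_smul, LinearMap.smul_apply])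
    (by
      intro x y z
      induction x using Germ.inductionOn with | h x =>
      induction y using Germ.inductionOn with | h y =>
      induction z using Germ.inductionOn with | h z =>
      change ((fun i => T i (x i) (y i + z i) : I → C) : Germ l C) =
        ((fun i => T i (x i) (y i) + T i (x i) (z i) : I → C) : Germ l C)
      simp only [map_add])
    (by
      intro c x y
      induction x using Germ.inductionOn with | h x =>
      induction y using Germ.inductionOn with | h y =>
      induction c using Germ.inductionOn with | h c =>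
      change ((fun i => T i (x i) (c i • y i) : I → C) : Germ l C) =
        ((fun i => c i • T i (x i) (y i) : I → C) : Germ l C)
      simp only [map_smul])

@[simp] lemma gbil_coe (T : I → A →ₗ[K] B →ₗ[K] C) (a : I → A) (b : I → B) :
    gbil l T (a : Germ l A) (b : Germ l B) =
      ((fun i => T i (a i) (b i) : I → C) : Germ l C) := rfl

/-- The germs with values in a subspace. -/
def gsub (U : Submodule K A) : Submodule (Germ l K) (Germ l A) where
  carrier := {x | ∃ a : I → A, (∀ i, a i ∈ U) ∧ (a : Germ l A) = x}
  add_mem' := by
    rintro _ _ ⟨a, ha, rfl⟩ ⟨b, hb, rfl⟩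
    exact ⟨fun i => a i + b i, fun i => U.add_mem (ha i) (hb i), rfl⟩
  zero_mem' := ⟨fun _ => 0, fun _ => U.zero_mem, rfl⟩
  smul_mem' := by
    rintro c _ ⟨a, ha, rfl⟩
    induction c using Germ.inductionOn with | h c =>
    exact ⟨fun i => c i • a i, fun i => U.smul_mem _ (ha i), rfl⟩

lemma mem_gsub {U : Submodule K A} {x : Germ l A} :
    x ∈ gsub l U ↔ ∃ a : I → A, (∀ i, a i ∈ U) ∧ (a : Germ l A) = x := Iff.rfl

lemma gsub_bot : gsub l (⊥ : Submodule K A) = ⊥ := by
  rw [eq_bot_iff]
  rintro _ ⟨a, ha, rfl⟩
  rw [Submodule.mem_bot]
  refine congrArg _ ?_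
  funext i
  exact (Submodule.mem_bot K).1 (ha i)

lemma coe_mem_gsub {U : Submodule K A} {a : I → A} (h : ∀ᶠ i in l, a i ∈ U) :
    (a : Germ l A) ∈ gsub l U := by
  classical
  refine ⟨fun i => if a i ∈ U then a i else 0, fun i => ?_, ?_⟩
  · beta_reduce
    split_ifs with h1
    · exact h1
    · exact U.zero_mem
  · rw [Germ.coe_eq]
    filter_upwards [h] with i hi
    rw [if_pos hi]

end

section Ultra

variable {I : Type*} (l : Ultrafilter I) {K A : Type*} [Field K] [AddCommGroup A] [Module K A]

/-- A basis of the germs in a subspace. -/
noncomputable def gbasis {ι : Type*} [Fintype ι] {U : Submodule K A} (b : Module.Basis ι K U) :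
    Module.Basis ι (Germ (l : Filter I) K) (gsub (l : Filter I) U) :=
  Module.Basis.mk (v := fun j => ⟨((fun _ => (b j : A) : I → A) : Germ (l : Filter I) A),
      ⟨fun _ => b j, fun _ => (b j).2, rfl⟩⟩)
    (by
      rw [Fintype.linearIndependent_iff]
      intro c hc j
      choose f hf using fun j => (Quotient.exists_rep (c j) : ∃ f : I → K, (f : Germ _ K) = c j)
      have h1 : ((fun i => ∑ j, f j i • (b j : A) : I → A) : Germ (l : Filter I) A) = 0 := by
        have h2 := congrArg (Subtype.val) hc
        rw [AddSubmonoidClass.coe_finsetSum] at h2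
        have h3 : ((fun i => ∑ j, f j i • (b j : A) : I → A) : Germ (l : Filter I) A) =
            ∑ j, ((fun i => f j i • (b j : A) : I → A) : Germ (l : Filter I) A) := by
          have h4 := map_sum (Germ.coeAddHom (l : Filter I) (M := A))
            (fun j => (fun i => f j i • (b j : A))) Finset.univ
          rw [← Germ.coe_coeAddHom, ← h4]
          refine congrArg _ ?_
          funext i
          rw [Finset.sum_apply]
        rw [h3]
        refine Eq.trans ?_ h2
        refine Finset.sum_congr rfl fun j _ => ?_
        rw [Submodule.coe_smul, ← hf j]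
        rfl
      have h2 : ∀ᶠ i in (l : Filter I), ∑ j, f j i • (b j : A) = 0 := Germ.coe_eq.1 h1
      rw [← hf j]
      refine Germ.coe_eq.2 ?_
      filter_upwards [h2] with i hi
      have h3 : ∑ j, f j i • b j = 0 := by
        apply Subtype.ext
        rw [AddSubmonoidClass.coe_finsetSum]
        exact hi
      exact Fintype.linearIndependent_iff.1 b.linearIndependent (fun j => f j i) h3 j)
    (by
      rintro ⟨_, a, ha, rfl⟩ -
      have h1 : (⟨(a : Germ (l : Filter I) A), ⟨a, ha, rfl⟩⟩ : gsub (l : Filter I) U) =
          ∑ j, ((fun i => b.repr ⟨a i, ha i⟩ j : I → K) : Germ (l : Filter I) K) •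
            (⟨((fun _ => (b j : A) : I → A) : Germ (l : Filter I) A),
              ⟨fun _ => b j, fun _ => (b j).2, rfl⟩⟩ : gsub (l : Filter I) U) := by
        apply Subtype.ext
        rw [AddSubmonoidClass.coe_finsetSum]
        change (a : Germ (l : Filter I) A) =
          ∑ j, ((fun i => b.repr ⟨a i, ha i⟩ j • (b j : A) : I → A) : Germ (l : Filter I) A)
        have h4 := map_sum (Germ.coeAddHom (l : Filter I) (M := A))
            (fun j => (fun i => b.repr ⟨a i, ha i⟩ j • (b j : A))) Finset.univ
        rw [← Germ.coe_coeAddHom, ← h4]
        refine congrArg _ ?_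
        funext i
        rw [Finset.sum_apply]
        have h5 := congrArg Subtype.val (b.sum_repr ⟨a i, ha i⟩)
        rw [AddSubmonoidClass.coe_finsetSum] at h5
        exact h5.symm
      rw [h1]
      apply Submodule.sum_mem
      intro j _
      apply Submodule.smul_mem
      exact Submodule.subset_span ⟨j, rfl⟩)

lemma finrank_gsub [Module.Finite K A] (U : Submodule K A) :
    Module.finrank (Germ (l : Filter I) K) (gsub (l : Filter I) U) = Module.finrank K U := by
  rw [Module.finrank_eq_card_basis (gbasis l (Module.finBasis K U)), Fintype.card_fin]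

instance finite_gsub [Module.Finite K A] (U : Submodule K A) :
    Module.Finite (Germ (l : Filter I) K) (gsub (l : Filter I) U) :=
  Module.Finite.of_basis (gbasis l (Module.finBasis K U))

lemma gsub_top : gsub (l : Filter I) (⊤ : Submodule K A) = ⊤ := by
  rw [eq_top_iff]
  intro x _
  induction x using Germ.inductionOn with | h x =>
  exact ⟨x, fun _ => trivial, rfl⟩

instance finite_germ [Module.Finite K A] :
    Module.Finite (Germ (l : Filter I) K) (Germ (l : Filter I) A) := by
  have h := finite_gsub l (⊤ : Submodule K A)
  rw [gsub_top] at h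
  exact Module.Finite.equiv (Submodule.topEquiv (R := Germ (l : Filter I) K)
    (M := Germ (l : Filter I) A))

lemma finrank_germ [Module.Finite K A] :
    Module.finrank (Germ (l : Filter I) K) (Germ (l : Filter I) A) = Module.finrank K A := by
  have h := finrank_gsub l (⊤ : Submodule K A)
  rw [gsub_top, finrank_top, finrank_top] at h
  exact h

instance charZero_germ [CharZero K] : CharZero (Germ (l : Filter I) K) := by
  constructor
  intro m n h
  have h1 : ((fun _ => (m : K) : I → K) : Germ (l : Filter I) K) =
    ((fun _ => (n : K) : I → K) : Germ (l : Filter I) K) := h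
  have h2 : ∀ᶠ i in (l : Filter I), (m : K) = (n : K) := Germ.coe_eq.1 h1
  obtain ⟨i, hi⟩ := h2.exists
  exact_mod_cast hi

end Ultra

/-- A family of projectors shows that a grading is internal. -/
lemma isInternal_of_proj {K A : Type*} [Field K] [AddCommGroup A] [Module K A]
    {gr : ℕ → Submodule K A} (π : ℕ → A →ₗ[K] A) (N : ℕ) (h1 : ∀ i a, π i a ∈ gr i)
    (h2 : ∀ i, ∀ a ∈ gr i, π i a = a) (h3 : ∀ i j, i ≠ j → ∀ a ∈ gr i, π j a = 0)
    (h4 : ∀ a, ∑ i ∈ Finset.range N, π i a = a) : DirectSum.IsInternal gr := by
  classical
  rw [DirectSum.isInternal_submodule_iff_iSupIndep_and_iSup_eq_top]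
  constructor
  · rw [iSupIndep_def]
    intro i
    rw [Submodule.disjoint_def]
    intro x hx hx'
    rw [← h2 i x hx]
    have h5 : (⨆ j, ⨆ (_ : j ≠ i), gr j) ≤ LinearMap.ker (π i) := by
      refine iSup_le fun j => iSup_le fun hj => ?_
      intro a ha
      exact h3 j i hj a ha
    exact h5 hx'
  · rw [eq_top_iff]
    intro a _
    rw [← h4 a]
    apply Submodule.sum_mem
    intro i _
    exact Submodule.mem_iSup_of_mem i (h1 i a)

end Pool.Agent.H843.Ex
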