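import Pool.Graph.R_seed8.H914R2.Weil

/-!
# A criterion for the Künneth formula
-/

namespace Pool.Agent.H843.Ex

open TensorProduct Pool.Agent.H914

variable {K A B C : Type*} [Field K] [Ring A] [Algebra K A] [Ring B] [Algebra K B] [Ring C]
  [Algebra K C] [Module.Finite K A] [Module.Finite K B] [Module.Finite K C]

/-- Nondegeneracy on the right follows from nondegeneracy on the left. -/
lemma right_nondeg {tr : A →ₗ[K] K} (h : ∀ a : A, (∀ b, tr (a * b) = 0) → a = 0) {a : A}
    (ha : ∀ b, tr (b * a) = 0) : a = 0 := by
  let L : A →ₗ[K] Module.Dual K A := (LinearMap.mul K A).compr₂ tr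
  have hL : Function.Injective L := by
    rw [injective_iff_map_eq_zero]
    intro x hx
    apply h
    intro b
    exact congrArg (fun f => f b) hx
  have hs : Function.Surjective L := by
    rw [← LinearMap.injective_iff_surjective_of_finrank_eq_finrank Subspace.dual_finrank_eq.symm]
    exact hL
  rw [← Module.forall_dual_apply_eq_zero_iff K]
  intro f
  obtain ⟨b, rfl⟩ := hs f
  exact ha b

/-- **A criterion for the Künneth formula.** -/
theorem kunneth_of_finrank {p : A →ₐ[K] C} {q : B →ₐ[K] C} {trA : A →ₗ[K] K} {trB : B →ₗ[K] K}
    {trC : C →ₗ[K] K} (hA : ∀ a : A, (∀ b, trA (a * b) = 0) → a = 0)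
    (hB : ∀ a : B, (∀ b, trB (a * b) = 0) → a = 0)
    (htr : ∀ a b, trC (p a * q b) = trA a * trB b)
    (hfin : Module.finrank K C = Module.finrank K A * Module.finrank K B) :
    Function.Bijective (kunnethMap p q) := by
  have hfin' : Module.finrank K (A ⊗[K] B) = Module.finrank K C := by
    rw [Module.finrank_tensorProduct, hfin]
  have hinj : Function.Injective (kunnethMap p q) := by
    rw [injective_iff_map_eq_zero]
    intro x hx
    let bA : A →ₗ[K] Module.Dual K A := ((LinearMap.mul K A).compr₂ trA).flip
    let bB : B →ₗ[K] Module.Dual K B := (LinearMap.mul K B).compr₂ trB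
    have hbA : Function.Injective bA := by
      rw [injective_iff_map_eq_zero]
      intro a ha
      apply right_nondeg hA
      intro b
      exact congrArg (fun f => f b) ha
    have hbB : Function.Injective bB := by
      rw [injective_iff_map_eq_zero]
      intro a ha
      apply hB
      intro b
      exact congrArg (fun f => f b) ha
    have hmap : Function.Injective (TensorProduct.map bA bB) := by
      rw [← LinearMap.lTensor_comp_rTensor]
      exact (Module.Flat.lTensor_preserves_injective_linearMap _ hbB).comp
        (Module.Flat.rTensor_preserves_injective_linearMap _ hbA)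
    have hd : Function.Injective (TensorProduct.dualDistrib K A B) := by
      have h1 := (TensorProduct.dualDistribEquiv K A B).injective
      have h2 : ⇑(TensorProduct.dualDistribEquiv K A B) = ⇑(TensorProduct.dualDistrib K A B) := by
        funext y
        rfl
      rwa [h2] at h1
    apply hmap
    apply hd
    rw [map_zero, map_zero]
    apply TensorProduct.ext'
    intro a' b'
    have key : (LinearMap.applyₗ (a' ⊗ₜ[K] b')) ∘ₗ (TensorProduct.dualDistrib K A B) ∘ₗ
        (TensorProduct.map bA bB) =
        trC ∘ₗ LinearMap.mulLeft K (p a') ∘ₗ LinearMap.mulRight K (q b') ∘ₗ kunnethMap p q := by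
      apply TensorProduct.ext'
      intro a b
      have h1 : kunnethMap p q (a ⊗ₜ b) = p a * q b := by simp [kunnethMap]
      simp only [LinearMap.comp_apply, LinearMap.applyₗ_apply_apply, TensorProduct.map_tmul,
        TensorProduct.dualDistrib_apply, LinearMap.mulLeft_apply, LinearMap.mulRight_apply, h1]
      change trA (a' * a) * trB (b * b') = trC (p a' * (p a * q b * q b'))
      rw [← htr, map_mul p, map_mul q]
      simp only [mul_assoc]
    have h1 := congrArg (fun f => f x) key
    simp only [LinearMap.comp_apply, hx, map_zero] at h1
    rw [LinearMap.zero_apply]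
    exact h1
  exact ⟨hinj, (LinearMap.injective_iff_surjective_of_finrank_eq_finrank hfin').1 hinj⟩

end Pool.Agent.H843.Ex
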