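import Pool.Graph.R_seed8.H914R2.Weil

/-!
# All cycles are sums of homogeneous cycles
-/

open CategoryTheory CategoryTheory.Limits AlgebraicGeometry

universe u

namespace Pool.Agent.H843.Ex

open Pool.Agent.H914

variable {k : Type u} [Field k]

/-- Every point of a variety has a finite codimension. -/
lemma coheight_ne_top (X : SmVar k) (x : X.X) : Order.coheight x ≠ ⊤ := by
  have h1 : IsLocallyNoetherian X.X := LocallyOfFiniteType.isLocallyNoetherian X.str
  have h2 : FiniteRingKrullDim (X.X.presheaf.stalk x) := inferInstance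
  rw [finiteRingKrullDim_iff_ne_bot_and_top] at h2
  have h3 := h2.2
  rw [ringKrullDim_stalk_eq_coheight x] at h3
  intro h4
  rw [h4] at h3
  exact h3 rfl

/-- Induction over cycles. -/
lemma cyc_induction {X : SmVar k} {p : X.Cycles → Prop}
    (h : ∀ (q : ℕ) (z : X.Cycles), X.IsCyc q z → p z) (hadd : ∀ z w, p z → p w → p (z + w))
    (z : X.Cycles) : p z := by
  classical
  refine Finsupp.induction_linear (motive := p) z (h 0 _ (SmVar.IsCyc.zero X 0))
    (fun f g hf hg => hadd f g hf hg) ?_
  intro x c
  obtain ⟨q, hq⟩ := ENat.ne_top_iff_exists.1 (coheight_ne_top X x)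
  refine h q _ ?_
  intro y hy
  by_cases hxy : y = x
  · rw [hxy]
    exact hq.symm
  · exfalso
    apply hy
    exact Finsupp.single_eq_of_ne (M := ℚ) (α := X.X) hxy

end Pool.Agent.H843.Ex
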