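import Pool.Agent.H843.Ex3
import Pool.Agent.H843.Ex4
import Pool.Agent.H843.Ex5
import Pool.Agent.H843.Ex6

/-!
# The limit of the graded cohomology theories
-/

open CategoryTheory AlgebraicGeometry Function Filter

universe u v

set_option linter.unusedSectionVars false

namespace Pool.Agent.H843.Ex

open Pool.Agent.H914 Pool.Agent.H914.VarClass Pool.Agent.H914.VarClass.Obj
  Pool.Agent.H914.WeilCohomology Pool.Agent.R908 Pool.Agent.N180.Cf

variable {k : Type u} [Field k] {𝒱 : VarClass k} {ops : CycleOps 𝒱}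

/-- There is a dominating morphism from `X` to `V`. -/
def Dom (W : WeilCohomology.{u, v} ops) (X V : 𝒱.Obj) : Prop :=
  ∃ g : X ⟶ V, IsDominating W g

/-- A system of weight decompositions of the cohomology of all varieties, indexed by the
varieties. -/
structure Sys (W : WeilCohomology.{u, v} ops) where
  /-- the decompositions -/
  D : ∀ _i V : 𝒱.Obj, Spl W.K (W.H V)
  wt : ∀ i V, Spl.Wt (W.gr V) (W.tr V) (D i V)
  kop : ∀ i U V, Dom W i U → Dom W i V → ∀ (d : ℤ), ∀ φ ∈ KOp W U V d,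
    Spl.Filt (D i U) (D i V) φ
  num : ∀ i V, Dom W i V → ∀ p : ℕ, ∀ α ∈ spanCycles W V p, α ∈ (D i V).fil 0 ∧
    (NumZero W V α ↔ ∃ s > 0, α ∈ (D i V).fil s)

/-- The trivial decomposition is compatible with the structure of the cohomology. -/
lemma wt_triv (W : WeilCohomology.{u, v} ops) (V : 𝒱.Obj) :
    Spl.Wt (W.gr V) (W.tr V) (Spl.triv W.K (W.H V)) := by
  have h1 : ∀ s, s ≠ 0 → ∀ x, (Spl.triv W.K (W.H V)).P s x = 0 := by
    intro s hs x
    change (if s = 0 then LinearMap.id else (0 : W.H V →ₗ[W.K] W.H V)) x = 0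
    rw [if_neg hs]
    rfl
  have h2 : ∀ x, (Spl.triv W.K (W.H V)).P 0 x = x := by
    intro x
    change (if (0 : ℝ) = 0 then LinearMap.id else (0 : W.H V →ₗ[W.K] W.H V)) x = x
    rw [if_pos rfl]
    rfl
  have h3 : ∀ t > 0, ∀ x ∈ (Spl.triv W.K (W.H V)).fil t, x = 0 := by
    intro t ht x hx
    rw [← h2 x]
    exact hx 0 ht
  have h4 : ∀ t ≤ 0, ∀ x, x ∈ (Spl.triv W.K (W.H V)).fil t := by
    intro t ht x s hs
    exact h1 s (by linarith) x
  refine ⟨?_, ?_, h4 0 le_rfl 1, ?_, ?_⟩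
  · intro s i a ha
    by_cases hs : s = 0
    · subst hs
      rw [h2]
      exact ha
    · rw [h1 s hs]
      exact Submodule.zero_mem _
  · intro s t a ha b hb
    by_cases hst : s + t ≤ 0
    · exact h4 _ hst _
    · by_cases hs : 0 < s
      · rw [h3 s hs a ha, zero_mul]
        exact Submodule.zero_mem _
      · rw [h3 t (by linarith) b hb, mul_zero]
        exact Submodule.zero_mem _
  · intro s hs x hx
    rw [h3 s hs x hx, map_zero]
  · intro s a ha hab
    by_cases hs : s = 0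
    · subst hs
      apply W.nondeg
      intro b
      apply hab
      rw [neg_zero]
      exact h2 b
    · rw [← ha, h1 s hs]

/-- **There is a system of weight decompositions.** -/
theorem exists_sys (W : WeilCohomology.{u, v} ops) (hsign : ∀ X, SignOpAlgebraic W X)
    {P : 𝒱.Obj} (hP : P.dim = 0) : Nonempty (Sys W) := by
  classical
  choose F hF hnum using fun X => exists_F (W := W) hP (hsign X)
  have hκ : ∀ V, ∃ κ, IsSign W V κ := by
    intro V
    obtain ⟨_, ⟨γ, hγ, rfl⟩, hγs⟩ := hsign V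
    exact ⟨W.corr γ, { mem := mem_KOp_iff.2 ⟨γ, by rw [add_zero]; exact hγ, rfl⟩, apply := hγs }⟩
  have key : ∀ i V, ∃ D : Spl W.K (W.H V), Spl.Wt (W.gr V) (W.tr V) D ∧
      ∀ (h : Dom W i V), ∀ t, D.fil t = fv (F i) h.choose t := by
    intro i V
    by_cases h : Dom W i V
    · obtain ⟨D, hD, hD'⟩ := exists_spl (W.isInternal V) (fv_anti (hF i) (g := h.choose))
        (fv_jumps (hF i) h.choose_spec) (fv_hom (hF i))
      obtain ⟨κ, hκ⟩ := hκ V
      exact ⟨D, wt_fv (hF i) h.choose_spec hκ hD hD', fun _ => hD⟩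
    · exact ⟨_, wt_triv W V, fun h' => absurd h' h⟩
  choose D hwt hD using key
  refine ⟨⟨D, hwt, ?_, ?_⟩⟩
  · intro i U V hU hV d φ hφ s a ha
    rw [hD i U hU] at ha
    rw [hD i V hV]
    exact fv_kop (hF i) hU.choose_spec hφ hV.choose ha
  · intro i V hV p α hα
    obtain ⟨h1, h2⟩ := hnum i V hV.choose hV.choose_spec p α hα
    refine ⟨?_, h2.trans ?_⟩
    · rw [hD i V hV]
      exact h1
    · simp only [hD i V hV]
      rfl

/-! ### The ultrafilter -/

section Ultra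

variable (W : WeilCohomology.{u, v} ops)

lemma exists_top_class {V : 𝒱.Obj} (h : ∃ z, V.IsCyc V.dim z ∧ V.V.degCycle z ≠ 0) :
    ∃ y ∈ spanCycles W V V.dim, W.tr V y ≠ 0 := by
  obtain ⟨z, hz, hz'⟩ := h
  refine ⟨W.cl V z, Submodule.subset_span ⟨V.dim, rfl, z, hz, rfl⟩, ?_⟩
  rw [W.tr_cl hz]
  exact_mod_cast hz'

lemma push_fst_box {X Y : 𝒱.Obj} (y : W.H Y) :
    W.push (fst X Y) (W.map (snd X Y) y) = W.tr Y y • 1 := by
  apply W.tr_ext
  intro c
  rw [W.tr_push]
  have h1 : W.tr (X.prod Y) (W.map (snd X Y) y * W.map (fst X Y) c) =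
      W.tr (X.prod Y) (W.map (fst X Y) c * W.map (snd X Y) y) ∨ True := Or.inr trivial
  rw [smul_mul_assoc, one_mul, map_smul, smul_eq_mul]
  refine gr_induction (W.isInternal Y) (p := fun y =>
    W.tr (X.prod Y) (W.map (snd X Y) y * W.map (fst X Y) c) = W.tr Y y * W.tr X c) ?_ ?_ y
  · intro i y hy
    by_cases hi : i = 2 * Y.dim
    · subst hi
      rw [W.even_comm (W.map_mem (snd X Y) hy), W.tr_prod, mul_comm]
    · rw [W.tr_eq_zero hy hi, zero_mul]
      refine gr_induction (W.isInternal X) (p := fun c =>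
        W.tr (X.prod Y) (W.map (snd X Y) y * W.map (fst X Y) c) = 0) ?_ ?_ c
      · intro j c hc
        rw [W.comm (W.map_mem (snd X Y) hy) (W.map_mem (fst X Y) hc), map_smul, W.tr_prod,
          W.tr_eq_zero hy hi, mul_zero, smul_zero]
      · intro a b ha hb
        rw [map_add, mul_add, map_add, ha, hb, add_zero]
  · intro a b ha hb
    rw [map_add, add_mul, map_add, map_add, add_mul, ha, hb]

lemma dom_fst {X Y : 𝒱.Obj} (hY : ∃ z, Y.IsCyc Y.dim z ∧ Y.V.degCycle z ≠ 0) :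
    IsDominating W (fst X Y) := by
  obtain ⟨y, hy, hy'⟩ := exists_top_class W hY
  exact ⟨Y.dim, _, span_map (snd X Y) hy, _, hy', push_fst_box W y⟩

lemma push_snd_box {X Y : 𝒱.Obj} (x : W.H X) :
    W.push (snd X Y) (W.map (fst X Y) x) = W.tr X x • 1 := by
  apply W.tr_ext
  intro c
  rw [W.tr_push, W.tr_prod, smul_mul_assoc, one_mul, map_smul, smul_eq_mul]

lemma dom_snd {X Y : 𝒱.Obj} (hX : ∃ z, X.IsCyc X.dim z ∧ X.V.degCycle z ≠ 0) :
    IsDominating W (snd X Y) := by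
  obtain ⟨x, hx, hx'⟩ := exists_top_class W hX
  exact ⟨X.dim, _, span_map (fst X Y) hx, _, hx', push_snd_box W x⟩

variable {W}

lemma dom_comp {X Y Z : 𝒱.Obj} {f : X ⟶ Y} {g : Y ⟶ Z} (hf : IsDominating W f)
    (hg : IsDominating W g) : IsDominating W (f ≫ g) := by
  obtain ⟨p, w, hw, c, hc, h⟩ := hf
  obtain ⟨q, w', hw', c', hc', h'⟩ := hg
  refine ⟨p + q, w * W.map f w', ?_, c * c', mul_ne_zero hc hc', ?_⟩
  · have := span_mul hw (span_map f hw')
    push_cast
    exact this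
  · rw [W.push_comp, W.push_mul, h, smul_mul_assoc, one_mul, map_smul, h', smul_smul]

lemma Dom.trans {X Y Z : 𝒱.Obj} (h : Dom W X Y) (h' : Dom W Y Z) : Dom W X Z := by
  obtain ⟨f, hf⟩ := h
  obtain ⟨g, hg⟩ := h'
  exact ⟨f ≫ g, dom_comp hf hg⟩

/-- An ultrafilter containing the sets of varieties dominating a given one. -/
theorem exists_ultra (hdeg : ∀ X : 𝒱.Obj, ∃ z, X.IsCyc X.dim z ∧ X.V.degCycle z ≠ 0)
    (P : 𝒱.Obj) : ∃ 𝒰 : Ultrafilter 𝒱.Obj, ∀ V, ∀ᶠ i in (𝒰 : Filter 𝒱.Obj), Dom W i V := by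
  have : Nonempty 𝒱.Obj := ⟨P⟩
  let f : Filter 𝒱.Obj := ⨅ V : 𝒱.Obj, 𝓟 {i | Dom W i V}
  have hf : f.NeBot := by
    apply iInf_neBot_of_directed
    · intro U V
      refine ⟨U.prod V, ?_, ?_⟩
      · change 𝓟 _ ≤ 𝓟 _
        rw [principal_mono]
        intro i hi
        exact Dom.trans hi ⟨fst U V, dom_fst W (hdeg V)⟩
      · change 𝓟 _ ≤ 𝓟 _
        rw [principal_mono]
        intro i hi
        exact Dom.trans hi ⟨snd U V, dom_snd W (hdeg U)⟩
    · intro V
      rw [principal_neBot_iff]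
      exact ⟨V, 𝟙 V, IsDominating.id V⟩
  refine ⟨Ultrafilter.of f, fun V => ?_⟩
  have h1 : {i | Dom W i V} ∈ f := mem_iInf_of_mem V (mem_principal_self _)
  exact Ultrafilter.of_le f h1

end Ultra

end Pool.Agent.H843.Ex
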