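import Pool.Agent.H843.Ex7

/-!
# The limit theory
-/

open CategoryTheory AlgebraicGeometry Function Filter

universe u v

set_option linter.unusedSectionVars false

namespace Pool.Agent.H843.Ex

open Pool.Agent.H914 Pool.Agent.H914.VarClass Pool.Agent.H914.VarClass.Obj
  Pool.Agent.H914.WeilCohomology Pool.Agent.R908 Pool.Agent.N180.Cf

variable {k : Type u} [Field k] {𝒱 : VarClass k} {ops : CycleOps 𝒱}
  {W : WeilCohomology.{u, v} ops}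

/-- The cohomology of the limit theory: germs of families of classes. -/
def HS (_𝒟 : Sys W) (𝒰 : Ultrafilter 𝒱.Obj) (V : 𝒱.Obj) : Type (max (u + 1) v) :=
  Germ (𝒰 : Filter 𝒱.Obj) (W.H V)

/-- The coefficient field of the limit theory. -/
abbrev KS (W : WeilCohomology.{u, v} ops) (𝒰 : Ultrafilter 𝒱.Obj) : Type (max (u + 1) v) :=
  Germ (𝒰 : Filter 𝒱.Obj) W.K

variable (𝒟 : Sys W) (𝒰 : Ultrafilter 𝒱.Obj)

noncomputable instance (V : 𝒱.Obj) : AddCommGroup (HS 𝒟 𝒰 V) :=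
  inferInstanceAs (AddCommGroup (Germ (𝒰 : Filter 𝒱.Obj) (W.H V)))

noncomputable instance (V : 𝒱.Obj) : Module (KS W 𝒰) (HS 𝒟 𝒰 V) :=
  inferInstanceAs (Module (Germ (𝒰 : Filter 𝒱.Obj) W.K) (Germ (𝒰 : Filter 𝒱.Obj) (W.H V)))

/-- The class of a family of classes. -/
def mk {V : 𝒱.Obj} (a : 𝒱.Obj → W.H V) : HS 𝒟 𝒰 V := (a : Germ (𝒰 : Filter 𝒱.Obj) (W.H V))

variable {𝒟 𝒰}

lemma mk_ind {V : 𝒱.Obj} {p : HS 𝒟 𝒰 V → Prop} (h : ∀ a, p (mk 𝒟 𝒰 a)) (x : HS 𝒟 𝒰 V) : p x :=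
  Germ.inductionOn (p := p) x h

lemma mk_eq {V : 𝒱.Obj} {a b : 𝒱.Obj → W.H V} (h : ∀ᶠ i in (𝒰 : Filter 𝒱.Obj), a i = b i) :
    mk 𝒟 𝒰 a = mk 𝒟 𝒰 b := Germ.coe_eq.2 h

lemma mk_eq_iff {V : 𝒱.Obj} {a b : 𝒱.Obj → W.H V} :
    mk 𝒟 𝒰 a = mk 𝒟 𝒰 b ↔ ∀ᶠ i in (𝒰 : Filter 𝒱.Obj), a i = b i := Germ.coe_eq

lemma mk_add {V : 𝒱.Obj} (a b : 𝒱.Obj → W.H V) :
    mk 𝒟 𝒰 a + mk 𝒟 𝒰 b = mk 𝒟 𝒰 (fun i => a i + b i) := rfl

lemma mk_zero {V : 𝒱.Obj} : (0 : HS 𝒟 𝒰 V) = mk 𝒟 𝒰 (fun _ => 0) := rfl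

lemma mk_smul {V : 𝒱.Obj} (c : 𝒱.Obj → W.K) (a : 𝒱.Obj → W.H V) :
    ((c : Germ (𝒰 : Filter 𝒱.Obj) W.K) : KS W 𝒰) • mk 𝒟 𝒰 a = mk 𝒟 𝒰 (fun i => c i • a i) := rfl

variable (𝒟 𝒰)

/-- The product. -/
noncomputable def mulS (V : 𝒱.Obj) :
    HS 𝒟 𝒰 V →ₗ[KS W 𝒰] HS 𝒟 𝒰 V →ₗ[KS W 𝒰] HS 𝒟 𝒰 V :=
  gbil (𝒰 : Filter 𝒱.Obj) (fun i => Spl.gmul (𝒟.D i V))

noncomputable instance instRingHS (V : 𝒱.Obj) : Ring (HS 𝒟 𝒰 V) :=
  { (inferInstance : AddCommGroup (HS 𝒟 𝒰 V)) with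
    mul := fun a b => mulS 𝒟 𝒰 V a b
    one := mk 𝒟 𝒰 (fun _ => 1)
    left_distrib := fun a b c => map_add (mulS 𝒟 𝒰 V a) b c
    right_distrib := fun a b c => LinearMap.map_add₂ (mulS 𝒟 𝒰 V) a b c
    zero_mul := fun a => LinearMap.map_zero₂ (mulS 𝒟 𝒰 V) a
    mul_zero := fun a => map_zero (mulS 𝒟 𝒰 V a)
    mul_assoc := by
      intro a b c
      induction a using mk_ind with | h a =>
      induction b using mk_ind with | h b =>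
      induction c using mk_ind with | h c =>
      exact mk_eq (Eventually.of_forall fun i =>
        Spl.gmul_assoc (𝒟.wt i V).mul (a i) (b i) (c i))
    one_mul := by
      intro a
      induction a using mk_ind with | h a =>
      exact mk_eq (Eventually.of_forall fun i =>
        (𝒟.wt i V).one_gmul (W.gr_zero V) (W.one_mem V) (a i))
    mul_one := by
      intro a
      induction a using mk_ind with | h a =>
      exact mk_eq (Eventually.of_forall fun i =>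
        (𝒟.wt i V).gmul_one (W.gr_zero V) (W.one_mem V) (a i)) }

variable {𝒟 𝒰}

lemma mk_mul {V : 𝒱.Obj} (a b : 𝒱.Obj → W.H V) :
    mk 𝒟 𝒰 a * mk 𝒟 𝒰 b = mk 𝒟 𝒰 (fun i => Spl.gmul (𝒟.D i V) (a i) (b i)) := rfl

lemma mk_one {V : 𝒱.Obj} : (1 : HS 𝒟 𝒰 V) = mk 𝒟 𝒰 (fun _ => 1) := rfl

variable (𝒟 𝒰)

noncomputable instance instAlgebraHS (V : 𝒱.Obj) : Algebra (KS W 𝒰) (HS 𝒟 𝒰 V) :=
  Algebra.ofModule
    (fun c a b => LinearMap.map_smul₂ (mulS 𝒟 𝒰 V) c a b)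
    (fun c a b => map_smul (mulS 𝒟 𝒰 V a) c b)

/-- The operator in the limit theory given by a family of operators. -/
noncomputable def opS {U V : 𝒱.Obj} (T : 𝒱.Obj → W.H U →ₗ[W.K] W.H V) :
    HS 𝒟 𝒰 U →ₗ[KS W 𝒰] HS 𝒟 𝒰 V := gmap (𝒰 : Filter 𝒱.Obj) T

variable {𝒟 𝒰}

lemma opS_mk {U V : 𝒱.Obj} (T : 𝒱.Obj → W.H U →ₗ[W.K] W.H V) (a : 𝒱.Obj → W.H U) :
    opS 𝒟 𝒰 T (mk 𝒟 𝒰 a) = mk 𝒟 𝒰 (fun i => T i (a i)) := rfl

variable (𝒟 𝒰)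

/-- The grading. -/
def grS (V : 𝒱.Obj) (j : ℕ) : Submodule (KS W 𝒰) (HS 𝒟 𝒰 V) :=
  gsub (𝒰 : Filter 𝒱.Obj) (W.gr V j)

variable {𝒟 𝒰}

lemma mem_grS {V : 𝒱.Obj} {j : ℕ} {x : HS 𝒟 𝒰 V} :
    x ∈ grS 𝒟 𝒰 V j ↔ ∃ a : 𝒱.Obj → W.H V, (∀ i, a i ∈ W.gr V j) ∧ mk 𝒟 𝒰 a = x := Iff.rfl

variable (𝒟 𝒰)

/-- The orientation. -/
noncomputable def trS (V : 𝒱.Obj) : HS 𝒟 𝒰 V →ₗ[KS W 𝒰] KS W 𝒰 :=
  gmap (𝒰 : Filter 𝒱.Obj) (fun i => W.tr V ∘ₗ (𝒟.D i V).P 0)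

variable {𝒟 𝒰}

lemma trS_mk {V : 𝒱.Obj} (a : 𝒱.Obj → W.H V) :
    trS 𝒟 𝒰 V (mk 𝒟 𝒰 a) =
      (((fun i => W.tr V ((𝒟.D i V).P 0 (a i)) : 𝒱.Obj → W.K) : Germ _ W.K) : KS W 𝒰) := rfl

lemma germ_eq {a b : 𝒱.Obj → W.K} (h : ∀ᶠ i in (𝒰 : Filter 𝒱.Obj), a i = b i) :
    ((a : Germ (𝒰 : Filter 𝒱.Obj) W.K) : KS W 𝒰) = (b : Germ (𝒰 : Filter 𝒱.Obj) W.K) :=
  Germ.coe_eq.2 h

instance finiteS (V : 𝒱.Obj) : Module.Finite (KS W 𝒰) (HS 𝒟 𝒰 V) :=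
  finite_germ (K := W.K) (A := W.H V) 𝒰

/-- The limit algebras are Poincaré algebras. -/
lemma poincareS (V : 𝒱.Obj) : IsPoincareAlgebra (grS 𝒟 𝒰 V) V.dim (trS 𝒟 𝒰 V) where
  finite := finiteS V
  isInternal := by
    apply isInternal_of_proj (fun j => opS 𝒟 𝒰 (fun _ => proj (W.isInternal V) j))
      (2 * V.dim + 1)
    · intro j a
      induction a using mk_ind with | h a =>
      exact ⟨_, fun i => proj_mem (W.isInternal V) j (a i), rfl⟩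
    · rintro j _ ⟨a, ha, rfl⟩
      exact mk_eq (𝒟 := 𝒟) (Eventually.of_forall fun i => proj_same _ (ha i))
    · rintro i j hij _ ⟨a, ha, rfl⟩
      exact mk_eq (𝒟 := 𝒟) (Eventually.of_forall fun l => proj_ne _ (ha l) hij)
    · intro a
      induction a using mk_ind with | h a =>
      have h1 : ∀ (s : Finset ℕ) (f : ℕ → 𝒱.Obj → W.H V),
          ∑ j ∈ s, mk 𝒟 𝒰 (f j) = mk 𝒟 𝒰 (fun i => ∑ j ∈ s, f j i) := by
        classical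
        intro s f
        induction s using Finset.induction_on with
        | empty => rfl
        | insert j s hj ih =>
          rw [Finset.sum_insert hj, ih, mk_add]
          congr 1
          funext i
          rw [Finset.sum_insert hj]
      refine (h1 _ (fun j i => proj (W.isInternal V) j (a i))).trans ?_
      refine mk_eq (Eventually.of_forall fun i => ?_)
      have h2 := sum_proj (W.isInternal V) (N := 2 * V.dim + 1)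
        (fun i hi => W.gr_eq_bot V i (by omega))
      rw [← LinearMap.sum_apply, h2]
      rfl
  one_mem := ⟨fun _ => 1, fun _ => W.one_mem V, rfl⟩
  mul_mem := by
    rintro i j _ _ ⟨a, ha, rfl⟩ ⟨b, hb, rfl⟩
    exact ⟨_, fun l => Spl.gmul_mem (fun s x hx => (𝒟.wt l V).hom s i x hx)
      (fun s x hx => (𝒟.wt l V).hom s j x hx) (fun s x hx => (𝒟.wt l V).hom s (i + j) x hx)
      (fun x hx y hy => W.mul_mem hx hy) (ha l) (hb l), rfl⟩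
  comm := by
    rintro i j _ _ ⟨a, ha, rfl⟩ ⟨b, hb, rfl⟩
    have h1 : ((-1 : KS W 𝒰) ^ (i * j)) =
        (((fun _ => (-1 : W.K) ^ (i * j) : 𝒱.Obj → W.K) : Germ _ W.K) : KS W 𝒰) := rfl
    rw [h1]
    exact mk_eq (𝒟 := 𝒟) (Eventually.of_forall fun l =>
      Spl.Wt.g_comm (𝒟.wt l V) (fun ha hb => W.comm ha hb) (ha l) (hb l))
  gr_zero := by
    ext x
    rw [Submodule.mem_span_singleton]
    constructor
    · rintro ⟨a, ha, rfl⟩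
      have h1 : ∀ i, ∃ c : W.K, c • (1 : W.H V) = a i := by
        intro i
        have h2 := ha i
        rw [W.gr_zero, Submodule.mem_span_singleton] at h2
        exact h2
      choose c hc using h1
      refine ⟨((c : Germ (𝒰 : Filter 𝒱.Obj) W.K) : KS W 𝒰), ?_⟩
      rw [mk_one, mk_smul]
      exact mk_eq (Eventually.of_forall hc)
    · rintro ⟨c, rfl⟩
      exact Submodule.smul_mem _ _ ⟨fun _ => 1, fun _ => W.one_mem V, rfl⟩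
  gr_eq_bot := by
    intro i hi
    change gsub (𝒰 : Filter 𝒱.Obj) (W.gr V i) = ⊥
    rw [W.gr_eq_bot V i hi]
    exact gsub_bot _
  tr_eq_zero := by
    rintro i _ ⟨a, ha, rfl⟩ hi
    exact germ_eq (Eventually.of_forall fun l =>
      W.tr_eq_zero ((𝒟.wt l V).hom 0 i _ (ha l)) hi)
  nondeg := by
    intro a h
    induction a using mk_ind with | h a =>
    by_contra hne
    have h1 : ∀ᶠ i in (𝒰 : Filter 𝒱.Obj), a i ≠ 0 := by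
      refine Ultrafilter.eventually_not.2 ?_
      intro h2
      exact hne (mk_eq h2)
    have h2 : ∀ i, ∃ b, a i ≠ 0 → W.tr V ((𝒟.D i V).P 0 (Spl.gmul (𝒟.D i V) (a i) b)) ≠ 0 := by
      intro i
      by_cases hi : a i = 0
      · exact ⟨0, fun h => absurd hi h⟩
      · by_contra h3
        push Not at h3
        exact hi ((𝒟.wt i V).g_nondeg (a i) fun b => (h3 b).2)
    choose b hb using h2
    have h3 := h (mk 𝒟 𝒰 b)
    rw [mk_mul, trS_mk] at h3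
    have h4 : ∀ᶠ i in (𝒰 : Filter 𝒱.Obj),
        W.tr V ((𝒟.D i V).P 0 (Spl.gmul (𝒟.D i V) (a i) (b i))) = 0 := Germ.coe_eq.1 h3
    obtain ⟨i, hi1, hi2⟩ := (h1.and h4).exists
    exact hb i hi1 hi2

end Pool.Agent.H843.Ex
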