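import Pool.Graph.R_seed8.X310.Jm
import Pool.Graph.R_seed8.H914R2.Sl2Rep

/-!
# Weights of finite dimensional representations of `sl(2)`
-/

open Polynomial Module Finset

set_option linter.unusedSectionVars false

namespace Pool.Agent.H843.Ho

open Pool.Agent.H914 Pool.Agent.H447 Pool.Agent.X310.Jm

variable {K : Type*} [Field K] [CharZero K] {V : Type*} [AddCommGroup V] [Module K V]
  {h e f : End K V}

lemma two_apply (x : V) : (2 : End K V) x = (2 : K) • x := by
  rw [show (2 : End K V) = (2 : K) • 1 by rw [ofNat_smul_eq_nsmul, nsmul_eq_mul, mul_one]; rfl,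
    LinearMap.smul_apply, Module.End.one_apply]

section shift

variable (t : Sl2 h e f)
include t

lemma h_e (x : V) : h (e x) = e (h x) + (2 : K) • e x := by
  have h1 := congrArg (fun T => T x) t.he
  simp only [LinearMap.sub_apply, Module.End.mul_apply, two_apply] at h1
  rw [← h1]
  abel

lemma h_f (x : V) : h (f x) = f (h x) - (2 : K) • f x := by
  have h1 := congrArg (fun T => T x) t.hf
  simp only [LinearMap.sub_apply, Module.End.mul_apply, LinearMap.neg_apply, two_apply] at h1
  rw [sub_eq_add_neg, ← h1]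
  abel

lemma h_epow {c : K} {x : V} (hx : h x = c • x) (k : ℕ) :
    h ((e ^ k) x) = (c + 2 * k) • (e ^ k) x := by
  induction k with
  | zero => simp [hx]
  | succ k ih =>
    rw [pow_succ', Module.End.mul_apply, h_e t, ih, map_smul, ← add_smul]
    congr 1
    push_cast
    ring

lemma h_fpow {c : K} {x : V} (hx : h x = c • x) (k : ℕ) :
    h ((f ^ k) x) = (c - 2 * k) • (f ^ k) x := by
  induction k with
  | zero => simp [hx]
  | succ k ih =>
    rw [pow_succ', Module.End.mul_apply, h_f t, ih, map_smul, ← sub_smul]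
    congr 1
    push_cast
    ring

end shift

variable [Module.Finite K V]

/-- A highest weight vector of weight `m` is killed by `f ^ (m + 1)`. -/
lemma fpow_highest (t : Sl2 h e f) {v : V} {m : ℕ} (hv : e v = 0) (hm : h v = (m : K) • v) {k : ℕ}
    (hk : m < k) : (f ^ k) v = 0 := by
  have h1 := Sl2.e_pow_zero t.neg_swap (v := v) (m := m)
    (by rw [LinearMap.neg_apply, hv, neg_zero])
    (by rw [LinearMap.neg_apply, hm, neg_smul]) hk
  rw [neg_pow, Module.End.mul_apply] at h1
  rcases Nat.even_or_odd k with hk | hk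
  · rw [hk.neg_one_pow, Module.End.one_apply] at h1
    exact h1
  · rw [hk.neg_one_pow, LinearMap.neg_apply, Module.End.one_apply, neg_eq_zero] at h1
    exact h1

/-- On the genuine weight spaces of positive weight, `e f` is injective. -/
lemma ef_inj (t : Sl2 h e f) {y : V} {m : ℕ} (hy : h y = ((m + 2 : ℕ) : K) • y)
    (h0 : e (f y) = 0) : y = 0 := by
  apply f_pow_inj t hy
  rw [pow_succ, Module.End.mul_apply]
  apply fpow_highest t (m := m) h0 _ (Nat.lt_succ_self m)
  rw [h_f t, hy, map_smul, ← sub_smul]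
  congr 1
  push_cast
  ring

omit [CharZero K] [Module.Finite K V] in
lemma sub_smul_one_apply (c : K) (x : V) : (h - c • (1 : End K V)) x = h x - c • x := by
  rw [LinearMap.sub_apply, LinearMap.smul_apply, Module.End.one_apply]

/-- On the kernel of `e`, the operator `h` has no Jordan blocks. -/
lemma ss_ker (t : Sl2 h e f) {N m : ℕ} (hN : e ^ N = 0) (hmN : m < N) {x : V} (hx : e x = 0)
    (h2 : (h - (m : K) • (1 : End K V)) ((h - (m : K) • (1 : End K V)) x) = 0) :
    (h - (m : K) • (1 : End K V)) x = 0 := by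
  set u := (h - (m : K) • (1 : End K V)) x with hu
  have h3 := prod_ker t.ef t.he hN hx
  rw [← Finset.mul_prod_erase _ _ (Finset.mem_range.2 hmN), mul_comm, map_mul,
    Module.End.mul_apply, aeval_sub_C, ← sub_smul_one_apply, ← hu] at h3
  have h4 : h u = (m : K) • u := by
    rw [sub_smul_one_apply, sub_eq_zero] at h2
    exact h2
  rw [aeval_eigen h4, smul_eq_zero, eval_prod] at h3
  rcases h3 with h3 | h3
  · exfalso
    obtain ⟨i, hi, hi2⟩ := Finset.prod_eq_zero_iff.1 h3
    rw [eval_sub, eval_X, eval_C, sub_eq_zero] at hi2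
    exact (Finset.mem_erase.1 hi).1 (by exact_mod_cast hi2.symm)
  · exact h3

/-- `h` has no Jordan blocks for the eigenvalues which are natural numbers. -/
lemma ss_nat (t : Sl2 h e f) (m : ℕ) : ∀ x : V,
    (h - (m : K) • (1 : End K V)) ((h - (m : K) • (1 : End K V)) x) = 0 →
      (h - (m : K) • (1 : End K V)) x = 0 := by
  obtain ⟨N, hN⟩ := Sl2.nil_e t
  -- downward induction
  suffices key : ∀ (d m : ℕ), N ≤ m + d → ∀ x : V,
      (h - (m : K) • (1 : End K V)) ((h - (m : K) • (1 : End K V)) x) = 0 →
        (h - (m : K) • (1 : End K V)) x = 0 from key N m (by omega)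
  intro d
  induction d using Nat.strong_induction_on with
  | _ d ih =>
  intro m hmd x hx
  by_cases hmN : m < N
  swap
  · have h1 : (e ^ m) = 0 := pow_eq_zero_of_le (not_lt.1 hmN) hN
    have h2 : x = 0 := gen_ef_inj t (k := m) 2 (x := x)
      (by rw [pow_two, Module.End.mul_apply]; exact hx) (by rw [h1, LinearMap.zero_apply])
    rw [h2, map_zero]
  have hd : 0 < d := by omega
  have ih2 := ih (d - 1) (by omega) (m + 2) (by omega)
  set u := (h - (m : K) • (1 : End K V)) x with hu
  -- the shift
  have hse : ∀ y, (h - ((m + 2 : ℕ) : K) • (1 : End K V)) (e y) =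
      e ((h - (m : K) • (1 : End K V)) y) := by
    intro y
    rw [sub_smul_one_apply, sub_smul_one_apply, h_e t, map_sub, map_smul]
    push_cast
    module
  have hsf : ∀ y, (h - (m : K) • (1 : End K V)) (f y) =
      f ((h - ((m + 2 : ℕ) : K) • (1 : End K V)) y) := by
    intro y
    rw [sub_smul_one_apply, sub_smul_one_apply, h_f t, map_sub, map_smul]
    push_cast
    module
  have hex : (h - ((m + 2 : ℕ) : K) • (1 : End K V)) (e x) = 0 := by
    apply ih2
    rw [hse, hse, ← hu, hx, map_zero]
  -- `e f` is bijective on the weight space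
  set U : Submodule K V := LinearMap.ker (h - ((m + 2 : ℕ) : K) • (1 : End K V)) with hU
  have hmemU : ∀ y, y ∈ U ↔ h y = ((m + 2 : ℕ) : K) • y := by
    intro y
    rw [hU, LinearMap.mem_ker, sub_smul_one_apply, sub_eq_zero]
  have hst : ∀ y ∈ U, (e * f) y ∈ U := by
    intro y hy
    rw [hmemU] at hy ⊢
    rw [Module.End.mul_apply, h_e t, h_f t, hy, map_sub, map_smul, map_smul, map_smul]
    module
  have hinj : Function.Injective ((e * f).restrict hst) := by
    rw [← LinearMap.ker_eq_bot, LinearMap.ker_eq_bot']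
    rintro ⟨y, hy⟩ h0
    have h3 : e (f y) = 0 := congrArg Subtype.val h0
    exact Subtype.ext (ef_inj t ((hmemU y).1 hy) h3)
  obtain ⟨⟨y, hy⟩, hye⟩ := (LinearMap.injective_iff_surjective.1 hinj) ⟨e x, hex⟩
  have hye' : e (f y) = e x := congrArg Subtype.val hye
  have hfy : (h - (m : K) • (1 : End K V)) (f y) = 0 := by
    rw [hsf, LinearMap.mem_ker.1 hy, map_zero]
  have h5 : (h - (m : K) • (1 : End K V)) (x - f y) = u := by
    rw [map_sub, hfy, sub_zero]
  have h6 : e (x - f y) = 0 := by rw [map_sub, hye', sub_self]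
  have h7 := ss_ker t hN hmN h6 (by rw [h5]; exact hx)
  rw [← h5]
  exact h7

/-- `h` has no Jordan blocks for the integral eigenvalues. -/
lemma ss_int (t : Sl2 h e f) (m : ℤ) (x : V)
    (hx : (h - (m : K) • (1 : End K V)) ((h - (m : K) • (1 : End K V)) x) = 0) :
      (h - (m : K) • (1 : End K V)) x = 0 := by
  obtain ⟨m, rfl | rfl⟩ := m.eq_nat_or_neg
  · simp only [Int.cast_natCast] at hx ⊢
    exact ss_nat t m x hx
  · have h1 : ∀ y : V, (-h - (m : K) • (1 : End K V)) y =
        -(h - (((-(m : ℤ) : ℤ)) : K) • (1 : End K V)) y := by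
      intro y
      rw [LinearMap.sub_apply, LinearMap.neg_apply, LinearMap.smul_apply, sub_smul_one_apply,
        Module.End.one_apply]
      push_cast
      module
    have h2 := ss_nat t.neg_swap m x (by rw [h1, h1, map_neg, neg_neg]; exact hx)
    rw [h1, neg_eq_zero] at h2
    exact h2

/-- The weights are bounded. -/
lemma weight_le (t : Sl2 h e f) {n : ℕ} (hn : e ^ (n + 1) = 0) {m : ℤ} {x : V}
    (hx : h x = (m : K) • x) (hx0 : x ≠ 0) : |m| ≤ n := by
  by_contra hm
  rw [not_le] at hm
  apply hx0
  obtain ⟨m, rfl | rfl⟩ := m.eq_nat_or_neg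
  · rw [Nat.abs_cast] at hm
    have h1 : e ^ m = 0 := pow_eq_zero_of_le (by omega) hn
    apply gen_ef_inj t (k := m) 1 (x := x)
    · rw [pow_one, sub_smul_one_apply, hx, Int.cast_natCast, sub_self]
    · rw [h1, LinearMap.zero_apply]
  · rw [abs_neg, Nat.abs_cast] at hm
    have h0 : (-e) ^ (n + 1) = 0 := by rw [neg_pow, hn, mul_zero]
    have h1 : (-e) ^ m = 0 := pow_eq_zero_of_le (by omega) h0
    apply gen_ef_inj t.neg_swap (k := m) 1 (x := x)
    · rw [pow_one, sub_smul_one_apply, LinearMap.neg_apply, hx]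
      push_cast
      module
    · rw [h1, LinearMap.zero_apply, map_zero]

/-- Every vector is a sum of weight vectors with integral weights. -/
lemma iSup_weights (t : Sl2 h e f) :
    ⨆ m : ℤ, LinearMap.ker (h - (m : K) • (1 : End K V)) = ⊤ := by
  set 𝓔 := ⨆ m : ℤ, LinearMap.ker (h - (m : K) • (1 : End K V)) with h𝓔
  have hmem : ∀ m : ℤ, ∀ x, (h - (m : K) • (1 : End K V)) x = 0 → x ∈ 𝓔 := fun m x hx =>
    Submodule.mem_iSup_of_mem m (LinearMap.mem_ker.2 hx)
  -- one step
  have step : ∀ (m : ℤ) (x : V), (h - (m : K) • (1 : End K V)) x ∈ 𝓔 → x ∈ 𝓔 := by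
    intro m x hx
    -- a decomposition of the elements of `𝓔`
    have key : ∀ y ∈ 𝓔, ∃ z ∈ 𝓔, ∃ w, (h - (m : K) • (1 : End K V)) w = 0 ∧
        y = (h - (m : K) • (1 : End K V)) z + w := by
      intro y hy
      refine Submodule.iSup_induction _ (motive := fun y => ∃ z ∈ 𝓔, ∃ w,
        (h - (m : K) • (1 : End K V)) w = 0 ∧ y = (h - (m : K) • (1 : End K V)) z + w) hy
        ?_ ?_ ?_
      · intro l y hy
        rw [LinearMap.mem_ker] at hy
        by_cases hl : l = m
        · subst hl
          exact ⟨0, 𝓔.zero_mem, y, hy, by rw [map_zero, zero_add]⟩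
        · have hc : ((l : K) - m) ≠ 0 := by
            rw [sub_ne_zero]
            exact_mod_cast hl
          refine ⟨((l : K) - m)⁻¹ • y, 𝓔.smul_mem _ (hmem l y hy), 0, map_zero _, ?_⟩
          rw [sub_smul_one_apply, sub_eq_zero] at hy
          rw [add_zero, map_smul, sub_smul_one_apply, hy, ← sub_smul, smul_smul,
            inv_mul_cancel₀ hc, one_smul]
      · exact ⟨0, 𝓔.zero_mem, 0, map_zero _, by simp⟩
      · rintro y y' ⟨z, hz, w, hw, rfl⟩ ⟨z', hz', w', hw', rfl⟩
        refine ⟨z + z', 𝓔.add_mem hz hz', w + w', by rw [map_add, hw, hw', add_zero], ?_⟩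
        rw [map_add]
        abel
    obtain ⟨z, hz, w, hw, hzw⟩ := key _ hx
    have h1 : (h - (m : K) • (1 : End K V)) (x - z) = w := by
      rw [map_sub, hzw]
      abel
    have h2 := ss_int t m (x - z) (by rw [h1]; exact hw)
    have h3 : x = (x - z) + z := by abel
    rw [h3]
    exact 𝓔.add_mem (hmem m _ h2) hz
  -- products of linear factors
  have prod : ∀ s : Multiset ℤ, ∀ x : V,
      aeval h ((s.map (fun m : ℤ => (X - C (m : K)))).prod) x ∈ 𝓔 → x ∈ 𝓔 := by
    intro s
    induction s using Multiset.induction_on with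
    | empty => intro x hx; simpa using hx
    | cons m s ih =>
      intro x hx
      rw [Multiset.map_cons, Multiset.prod_cons, map_mul, Module.End.mul_apply, aeval_sub_C,
        ← sub_smul_one_apply] at hx
      exact ih x (step m _ hx)
  obtain ⟨N, hN⟩ := Sl2.nil_e t
  have h1 := rootPoly_zero (K := K) t.ef t.he hN
  rw [eq_top_iff]
  intro x _
  have h2 : rootPoly K N N = (((Finset.range N).val.bind fun l : ℕ => (Finset.range N).val.map
      (fun i : ℕ => ((i : ℤ) - 2 * (l : ℤ)))).map (fun m : ℤ => (X - C (m : K)))).prod := by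
    rw [Multiset.map_bind, Multiset.prod_bind, rootPoly]
    change _ = (Multiset.map _ (Finset.range N).val).prod
    rw [Finset.prod]
    congr 1
    refine Multiset.map_congr rfl fun l _ => ?_
    rw [Finset.prod, Multiset.map_map]
    congr 1
    refine Multiset.map_congr rfl fun i _ => ?_
    rw [Function.comp_apply]
    push_cast
    rfl
  apply prod _ x
  rw [← h2, h1, LinearMap.zero_apply]
  exact 𝓔.zero_mem

/-- The polynomial with the roots `0, …, 2 n`. -/
noncomputable def nodeP (K : Type*) [Field K] (n : ℕ) : K[X] :=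
  ∏ i ∈ range (2 * n + 1), (X - C (i : K))

/-- The operator `h + n` is annihilated by the polynomial with the roots `0, …, 2 n`. -/
lemma aeval_nodeP (t : Sl2 h e f) {n : ℕ} (hn : e ^ (n + 1) = 0) :
    aeval (h + (n : K) • (1 : End K V)) (nodeP K n) = 0 := by
  apply LinearMap.ext
  intro x
  have hx : x ∈ ⨆ m : ℤ, LinearMap.ker (h - (m : K) • (1 : End K V)) := by
    rw [iSup_weights t]; trivial
  refine Submodule.iSup_induction _ (motive := fun x =>
    aeval (h + (n : K) • (1 : End K V)) (nodeP K n) x = 0) hx ?_ (map_zero _) ?_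
  · intro m x hx
    rw [LinearMap.mem_ker, sub_smul_one_apply, sub_eq_zero] at hx
    by_cases hx0 : x = 0
    · rw [hx0, map_zero]
    have h1 := weight_le t hn hx hx0
    rw [abs_le] at h1
    have h2 : (h + (n : K) • (1 : End K V)) x = (((m + n).toNat : ℕ) : K) • x := by
      rw [LinearMap.add_apply, LinearMap.smul_apply, Module.End.one_apply, hx, ← add_smul]
      congr 1
      have h3 : (((m + n).toNat : ℤ) : K) = ((m + n : ℤ) : K) := by
        rw [Int.toNat_of_nonneg (by omega)]
      rw [Int.cast_natCast] at h3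
      rw [h3]
      push_cast
      ring
    rw [aeval_eigen h2, nodeP, eval_prod, Finset.prod_eq_zero (i := (m + n).toNat)
      (Finset.mem_range.2 (by omega)) (by simp), zero_smul]
  · intro x y hx hy
    rw [map_add, hx, hy, add_zero]

end Pool.Agent.H843.Ho
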