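import Pool.Agent.H843.Ho1
import Pool.Agent.H843.Ex16

/-!
# The weight operator of an algebra of operators with a Lefschetz property
-/

open Polynomial Module Finset

set_option linter.unusedSectionVars false

namespace Pool.Agent.H843.Ho

open Pool.Agent.H914 Pool.Agent.H447 Pool.Agent.X310.Jm Pool.Agent.H843.Ex

section Proj

variable {K : Type*} [Field K] [CharZero K] {V : Type*} [AddCommGroup V] [Module K V]

/-- The Lagrange polynomials for the nodes `0, …, 2 n`. -/
noncomputable def lp (n i : ℕ) : ℚ[X] :=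
  Lagrange.basis (range (2 * n + 1)) (fun i : ℕ => (i : ℚ)) i

/-- The projector onto the eigenspace of `T` for the eigenvalue `i`. -/
noncomputable def pr (T : End K V) (n i : ℕ) : End K V := ev T (lp n i)

lemma injOn_nodes (n : ℕ) :
    Set.InjOn (fun i : ℕ => (i : ℚ)) (range (2 * n + 1) : Finset ℕ) :=
  Nat.cast_injective.injOn

lemma pr_sum (T : End K V) (n : ℕ) : ∑ i ∈ range (2 * n + 1), pr T n i = 1 := by
  simp only [pr]
  rw [← map_sum]
  have h1 : ∑ i ∈ range (2 * n + 1), lp n i = 1 :=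
    Lagrange.sum_basis (injOn_nodes n) ⟨0, by simp⟩
  rw [h1, map_one]

lemma ev_nodeP (T : End K V) (n : ℕ) : ev T (nodeP ℚ n) = aeval T (nodeP K n) := by
  rw [ev_apply]
  congr 1
  rw [nodeP, nodeP, Polynomial.map_prod]
  exact Finset.prod_congr rfl fun i _ => by simp

variable {T : End K V} {n : ℕ} (hT : aeval T (nodeP K n) = 0)

include hT

lemma pr_eigen {i : ℕ} (hi : i < 2 * n + 1) (x : V) : T (pr T n i x) = (i : K) • pr T n i x := by
  have h1 : (X - C (i : ℚ)) * lp n i =
      C (∏ j ∈ (range (2 * n + 1)).erase i, ((i : ℚ) - j)⁻¹) * nodeP ℚ n := by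
    rw [lp, Lagrange.basis, nodeP]
    simp only [Lagrange.basisDivisor]
    rw [Finset.prod_mul_distrib, ← map_prod, mul_left_comm,
      Finset.mul_prod_erase _ (fun j : ℕ => (X - C (j : ℚ))) (Finset.mem_range.2 hi)]
  have h2 : ev T ((X - C (i : ℚ)) * lp n i) = 0 := by
    rw [h1, map_mul, ev_nodeP, hT, mul_zero]
  rw [map_mul, map_sub, ev_X, ev_C, Rat.cast_natCast] at h2
  have h3 := congrArg (fun A => A x) h2
  simp only [Module.End.mul_apply, LinearMap.zero_apply] at h3
  rw [sub_smul_one_apply, sub_eq_zero] at h3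
  exact h3

omit hT

lemma pr_apply {x : V} {j : ℕ} (hx : T x = (j : K) • x) (i : ℕ) :
    pr T n i x = (((lp n i).eval (j : ℚ) : ℚ) : K) • x := by
  rw [pr, ev_apply, aeval_eigen hx]
  congr 1
  have := Polynomial.eval_map_algebraMap (B := K) (lp n i) ((algebraMap ℚ K) (j : ℚ))
  rw [Polynomial.aeval_algebraMap_apply] at this
  rw [map_natCast] at this
  rw [this]
  simp

lemma pr_same {x : V} {i : ℕ} (hi : i < 2 * n + 1) (hx : T x = (i : K) • x) :
    pr T n i x = x := by
  have h1 : (lp n i).eval ((i : ℕ) : ℚ) = 1 :=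
    Lagrange.eval_basis_self (injOn_nodes n) (Finset.mem_range.2 hi)
  rw [pr_apply hx, h1, Rat.cast_one, one_smul]

lemma pr_ne {x : V} {i j : ℕ} (hij : i ≠ j) (hj : j < 2 * n + 1) (hx : T x = (j : K) • x) :
    pr T n i x = 0 := by
  have h1 : (lp n i).eval ((j : ℕ) : ℚ) = 0 :=
    Lagrange.eval_basis_of_ne hij (Finset.mem_range.2 hj)
  rw [pr_apply hx, h1, Rat.cast_zero, zero_smul]

include hT

lemma eig_lt {x : V} {c : K} (hx : T x = c • x) (hx0 : x ≠ 0) : ∃ i < 2 * n + 1, c = (i : K) := by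
  have h1 := congrArg (fun A => A x) hT
  simp only [LinearMap.zero_apply] at h1
  rw [aeval_eigen hx, smul_eq_zero] at h1
  rcases h1 with h1 | h1
  · rw [nodeP, eval_prod, Finset.prod_eq_zero_iff] at h1
    obtain ⟨i, hi, h2⟩ := h1
    refine ⟨i, Finset.mem_range.1 hi, ?_⟩
    rwa [eval_sub, eval_X, eval_C, sub_eq_zero] at h2
  · exact absurd h1 hx0

lemma mul_pr {i : ℕ} (hi : i < 2 * n + 1) : T * pr T n i = (i : K) • pr T n i :=
  LinearMap.ext fun x => pr_eigen hT hi x

lemma pr_mul {i : ℕ} (hi : i < 2 * n + 1) : pr T n i * T = (i : K) • pr T n i := by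
  have h1 : Commute T (ev T (lp n i)) := by
    rw [ev_apply]
    exact (commute_aeval (Commute.refl T) _).symm
  have h2 : pr T n i * T = T * pr T n i := h1.symm.eq
  rw [h2, mul_pr hT hi]

lemma pr_mul_self {i : ℕ} (hi : i < 2 * n + 1) : pr T n i * pr T n i = pr T n i :=
  LinearMap.ext fun x => pr_same hi (pr_eigen hT hi x)

lemma pr_mul_ne {i j : ℕ} (hij : i ≠ j) (hj : j < 2 * n + 1) : pr T n i * pr T n j = 0 :=
  LinearMap.ext fun x => pr_ne hij hj (pr_eigen hT hj x)

omit hT in
lemma commute_ev {A : End K V} (hA : Commute A T) (p : ℚ[X]) : Commute A (ev T p) := by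
  rw [ev_apply]
  exact (commute_aeval hA.symm _).symm

end Proj

/-- A nonempty bounded set of integers which is symmetric with respect to `0` and to `c / 2`. -/
lemma comb {T : ℤ → Prop} {c n : ℤ} (h0 : ∃ d, T d) (hb : ∀ d, T d → |d| ≤ n)
    (h1 : ∀ d, T d → T (-d)) (h2 : ∀ d, T d → T (c - d)) : c = 0 := by
  obtain ⟨d, hd⟩ := h0
  have hstep : ∀ d, T d → T (d + c) := fun d hd => by
    have := h2 _ (h1 _ hd)
    rwa [sub_neg_eq_add, add_comm] at this
  have hk : ∀ k : ℕ, T (d + k * c) := by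
    intro k
    induction k with
    | zero => simpa using hd
    | succ k ih =>
      have := hstep _ ih
      rwa [show d + k * c + c = d + ((k + 1 : ℕ) : ℤ) * c by push_cast; ring] at this
  by_contra hc
  have hn : 0 ≤ n := le_trans (abs_nonneg _) (hb d hd)
  have h3 := hb _ (hk (2 * n + 1).toNat)
  have h4 := hb d hd
  have h5 : (((2 * n + 1).toNat : ℕ) : ℤ) = 2 * n + 1 := Int.toNat_of_nonneg (by omega)
  rw [h5] at h3
  rw [abs_le] at h3 h4
  rcases lt_or_gt_of_ne hc with h6 | h6
  · nlinarith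
  · nlinarith

section Ad

variable {K : Type*} [Field K] [CharZero K] {V : Type*} [AddCommGroup V] [Module K V]

lemma neg_pow_zero {e : End K V} {m : ℕ} {x : V} (h0 : (e ^ m) x = 0) : ((-e) ^ m) x = 0 := by
  rw [neg_pow, Module.End.mul_apply, h0, map_zero]

/-- The `sl(2)`-triple on the endomorphism algebra in which `L` acts by `u ↦ L u + u L`. -/
lemma sl2_dbl {C L F : End K V} (t : Sl2 C L F) : Sl2 (ad K C) (dbl L) (dbl F) where
  ef := by
    apply LinearMap.ext
    intro u
    simp only [LinearMap.sub_apply, Module.End.mul_apply, dbl_apply, ad_apply]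
    rw [← t.ef]
    noncomm_ring
  he := by
    apply LinearMap.ext
    intro u
    simp only [LinearMap.sub_apply, Module.End.mul_apply, dbl_apply, ad_apply, two_apply]
    have h1 : (2 : K) • (L * u + u * L) = (2 * L) * u + u * (2 * L) := by
      rw [two_smul]
      noncomm_ring
    rw [h1, ← t.he]
    noncomm_ring
  hf := by
    apply LinearMap.ext
    intro u
    simp only [LinearMap.sub_apply, Module.End.mul_apply, dbl_apply, ad_apply,
      LinearMap.neg_apply, two_apply]
    have h1 : -((2 : K) • (F * u + u * F)) = (-(2 * F)) * u + u * (-(2 * F)) := by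
      rw [two_smul]
      noncomm_ring
    rw [h1, ← t.hf]
    noncomm_ring

variable [Module.Finite K V] {gr : ℕ → Submodule K V} {R : ℤ → End K V → Prop}
  (hR : OpAlg gr R) (h : DirectSum.IsInternal gr) {n : ℕ}
  (hbd : ∀ i, 2 * n + 1 ≤ i → gr i = ⊥)

include hR h hbd

/-- The degrees of nonzero operators are bounded. -/
lemma deg_le {d : ℤ} {u : End K V} (hu : R d u) (hu0 : u ≠ 0) : |d| ≤ n := by
  by_contra hd
  apply hu0
  apply gr_ext h
  intro i a ha
  rw [LinearMap.zero_apply]
  have h1 := hR.hom hu i a (by rw [grZ_natCast]; exact ha)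
  by_cases hi : 2 * n + 1 ≤ i
  · rw [hbd i hi] at ha
    rw [(Submodule.mem_bot _).1 ha, map_zero]
  · rw [abs_le, not_and_or, not_le, not_le] at hd
    rcases hd with hd | hd
    · rw [grZ_of_neg (by omega)] at h1
      exact (Submodule.mem_bot _).1 h1
    · obtain ⟨j, hj⟩ : ∃ j : ℕ, (j : ℤ) = i + 2 * d := ⟨(i + 2 * d).toNat, by omega⟩
      rw [← hj, grZ_natCast, hbd j (by omega)] at h1
      exact (Submodule.mem_bot _).1 h1

variable {C L F : End K V}

omit h hbd [Module.Finite K V] in
lemma dbl_pow_mem (hL : R 1 L) {d : ℤ} {u : End K V} (hu : R d u) (k : ℕ) :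
    R (d + k) ((dbl L ^ k) u) := by
  induction k with
  | zero => simpa using hu
  | succ k ih =>
    rw [pow_succ', Module.End.mul_apply, dbl_apply]
    exact hR.add (hR.cast (hR.mul hL ih) (by push_cast; ring))
      (hR.cast (hR.mul ih hL) (by push_cast; ring))

omit h hbd [Module.Finite K V] in
lemma dbl_pow_mem' (hF : R (-1) F) {d : ℤ} {u : End K V} (hu : R d u) (k : ℕ) :
    R (d - k) ((dbl F ^ k) u) := by
  induction k with
  | zero => simpa using hu
  | succ k ih =>
    rw [pow_succ', Module.End.mul_apply, dbl_apply]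
    exact hR.add (hR.cast (hR.mul hF ih) (by push_cast; ring))
      (hR.cast (hR.mul ih hF) (by push_cast; ring))

omit hbd in
/-- Duality between the weights in opposite degrees. -/
lemma dual_weight (hnd : StrNondeg R h) (hC : R 0 C)
    (hN : aeval (C + (n : K) • (1 : End K V)) (nodeP K n) = 0) {d w : ℤ} {u : End K V}
    (hu : R d u) (hu0 : u ≠ 0) (hw : ad K C u = (w : K) • u) :
    ∃ v, R (-d) v ∧ v ≠ 0 ∧ ad K C v = ((-w : ℤ) : K) • v := by
  set T := C + (n : K) • (1 : End K V) with hTdef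
  have hT : R 0 T := by
    have := hR.add hC (hR.smul (n : ℚ) hR.one)
    rwa [Rat.cast_natCast] at this
  obtain ⟨v, hv, hv0⟩ : ∃ v, R (-d) v ∧ LinearMap.trace K V (par h * (u * v)) ≠ 0 := by
    by_contra hcon
    push Not at hcon
    exact hu0 (hnd d u hu hcon)
  -- decompose `v`
  have hsum : u * v = ∑ i ∈ range (2 * n + 1), ∑ j ∈ range (2 * n + 1),
      u * (pr T n i * v * pr T n j) := by
    have h1 : v = (∑ i ∈ range (2 * n + 1), pr T n i) * v *
        ∑ j ∈ range (2 * n + 1), pr T n j := by rw [pr_sum, one_mul, mul_one]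
    conv_lhs => rw [h1]
    rw [Finset.sum_mul, Finset.sum_mul_sum, Finset.mul_sum]
    exact Finset.sum_congr rfl fun i _ => Finset.mul_sum _ _ _
  rw [hsum, Finset.mul_sum, map_sum] at hv0
  obtain ⟨i, hi, hi0⟩ := Finset.exists_ne_zero_of_sum_ne_zero hv0
  rw [Finset.mul_sum, map_sum] at hi0
  obtain ⟨j, hj, hj0⟩ := Finset.exists_ne_zero_of_sum_ne_zero hi0
  rw [Finset.mem_range] at hi hj
  set v' := pr T n i * v * pr T n j with hv'
  have hpr : ∀ i, R 0 (pr T n i) := fun i => hR.ev hT _
  have hv'R : R (-d) v' := hR.cast (hR.mul (hR.mul (hpr i) hv) (hpr j)) (by ring)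
  have hv'0 : v' ≠ 0 := by
    intro h0
    rw [h0, mul_zero, mul_zero, map_zero] at hj0
    exact hj0 rfl
  have hadT : ∀ x : End K V, ad K C x = T * x - x * T := by
    intro x
    rw [ad_apply, hTdef]
    simp only [add_mul, mul_add, smul_mul_assoc, mul_smul_comm, one_mul, mul_one]
    abel
  have hTi : T * pr T n i = (i : K) • pr T n i := mul_pr hN hi
  have hTj : pr T n j * T = (j : K) • pr T n j := pr_mul hN hj
  have hv'w : ad K C v' = ((i : K) - j) • v' := by
    rw [hadT, hv', ← mul_assoc, ← mul_assoc, hTi, mul_assoc _ (pr T n j), hTj]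
    simp only [smul_mul_assoc, mul_smul_comm, sub_smul, mul_assoc]
  -- invariance of the form
  have hinv : LinearMap.trace K V (par h * (ad K C u * v')) +
      LinearMap.trace K V (par h * (u * ad K C v')) = 0 := by
    rw [ad_apply, ad_apply, ← map_add, ← mul_add]
    have h1 : (C * u - u * C) * v' + u * (C * v' - v' * C) = C * (u * v') - (u * v') * C := by
      noncomm_ring
    rw [h1, mul_sub, map_sub, str_mul_comm h (hR.hom hC), sub_self]
  rw [hw, hv'w, smul_mul_assoc, mul_smul_comm, map_smul, mul_smul_comm, mul_smul_comm, map_smul,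
    ← add_smul, smul_eq_zero] at hinv
  have h2 : (w : K) + ((i : K) - j) = 0 := hinv.resolve_right hj0
  refine ⟨v', hv'R, hv'0, ?_⟩
  rw [hv'w]
  congr 1
  push_cast
  linear_combination h2

/-- **The weights of operators.** -/
theorem weight_eq (hnd : StrNondeg R h) (hC : R 0 C) (hL : R 1 L) (hF : R (-1) F) (t : Sl2 C L F)
    (hN : aeval (C + (n : K) • (1 : End K V)) (nodeP K n) = 0)
    (hinj : ∀ (d : ℕ) u, R (-(d : ℤ)) u → (dbl L ^ (2 * d)) u = 0 → u = 0) {d w : ℤ}
    {u : End K V} (hu : R d u) (hu0 : u ≠ 0) (hw : ad K C u = (w : K) • u) : w = 2 * d := by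
  have tt := sl2_dbl t
  set T : ℤ → ℤ → Prop := fun μ d => ∃ u, R d u ∧ u ≠ 0 ∧ ad K C u = ((2 * d - μ : ℤ) : K) • u
    with hT
  -- raising
  have h1a : ∀ μ d, d < 0 → T μ d → T μ (-d) := by
    rintro μ d hd ⟨u, hu, hu0, hw⟩
    obtain ⟨m, rfl⟩ : ∃ m : ℕ, d = -(m : ℤ) := ⟨(-d).toNat, by omega⟩
    refine ⟨(dbl L ^ (2 * m)) u, hR.cast (dbl_pow_mem hR hL hu (2 * m)) (by push_cast; ring),
      fun h0 => hu0 (hinj m u hu h0), ?_⟩
    rw [h_epow tt hw]
    congr 1
    push_cast
    ring
  -- duality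
  have hdual : ∀ μ d, T μ d → T (-μ) (-d) := by
    rintro μ d ⟨u, hu, hu0, hw⟩
    obtain ⟨v, hv, hv0, hv2⟩ := dual_weight hR h hnd hC hN hu hu0 hw
    refine ⟨v, hv, hv0, ?_⟩
    rw [hv2]
    congr 2
    ring
  have h1 : ∀ μ d, T μ d → T μ (-d) := by
    intro μ d hd
    rcases lt_trichotomy d 0 with h0 | h0 | h0
    · exact h1a μ d h0 hd
    · subst h0
      simpa using hd
    · have h2 := h1a (-μ) (-d) (by omega) (hdual μ d hd)
      have h3 := hdual _ _ h2
      rwa [neg_neg, neg_neg] at h3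
  -- the symmetry from the representation theory of `sl(2)`
  have h2 : ∀ μ d, T μ d → T μ (μ - d) := by
    rintro μ d ⟨u, hu, hu0, hw⟩
    obtain ⟨m, hm | hm⟩ := (2 * d - μ).eq_nat_or_neg
    · rw [hm, Int.cast_natCast] at hw
      refine ⟨(dbl F ^ m) u, hR.cast (dbl_pow_mem' hR hF hu m) (by omega), ?_, ?_⟩
      · intro h0
        exact hu0 (f_pow_inj tt hw h0)
      · rw [h_fpow tt hw]
        congr 1
        have : (2 * (μ - d) - μ : ℤ) = (m : ℤ) - 2 * m := by omega
        rw [this]
        push_cast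
        ring
    · rw [hm] at hw
      have hw' : (-ad K C) u = (m : K) • u := by
        rw [LinearMap.neg_apply, hw]
        push_cast
        rw [neg_smul, neg_neg]
      refine ⟨(dbl L ^ m) u, hR.cast (dbl_pow_mem hR hL hu m) (by omega), ?_, ?_⟩
      · intro h0
        apply hu0
        exact f_pow_inj tt.neg_swap hw' (neg_pow_zero h0)
      · rw [h_epow tt hw]
        congr 1
        have : (2 * (μ - d) - μ : ℤ) = -(m : ℤ) + 2 * m := by omega
        rw [this]
        push_cast
        ring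
  have h3 := comb (T := T (2 * d - w)) (c := 2 * d - w) (n := n)
    ⟨d, u, hu, hu0, by rw [hw]; congr 2; ring⟩
    (by
      rintro e ⟨v, hv, hv0, -⟩
      exact deg_le hR h hbd hv hv0)
    (h1 _) (h2 _)
  omega

/-- **The weight operator computes the degrees.** -/
theorem ad_eq (hnd : StrNondeg R h) (hC : R 0 C) (hL : R 1 L) (hF : R (-1) F) (t : Sl2 C L F)
    (hN : aeval (C + (n : K) • (1 : End K V)) (nodeP K n) = 0)
    (hinj : ∀ (d : ℕ) u, R (-(d : ℤ)) u → (dbl L ^ (2 * d)) u = 0 → u = 0) {d : ℤ}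
    {u : End K V} (hu : R d u) : ad K C u = ((2 * d : ℤ) : K) • u := by
  set T := C + (n : K) • (1 : End K V) with hTdef
  have hT : R 0 T := by
    have := hR.add hC (hR.smul (n : ℚ) hR.one)
    rwa [Rat.cast_natCast] at this
  have hpr : ∀ i, R 0 (pr T n i) := fun i => hR.ev hT _
  have hadT : ∀ x : End K V, ad K C x = T * x - x * T := by
    intro x
    rw [ad_apply, hTdef]
    simp only [add_mul, mul_add, smul_mul_assoc, mul_smul_comm, one_mul, mul_one]
    abel
  have hsum : u = ∑ i ∈ range (2 * n + 1), ∑ j ∈ range (2 * n + 1),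
      pr T n i * u * pr T n j := by
    have h1 : u = (∑ i ∈ range (2 * n + 1), pr T n i) * u *
        ∑ j ∈ range (2 * n + 1), pr T n j := by rw [pr_sum, one_mul, mul_one]
    conv_lhs => rw [h1]
    rw [Finset.sum_mul, Finset.sum_mul_sum]
  have key : ∀ i ∈ range (2 * n + 1), ∀ j ∈ range (2 * n + 1),
      ad K C (pr T n i * u * pr T n j) = ((2 * d : ℤ) : K) • (pr T n i * u * pr T n j) := by
    intro i hi j hj
    rw [Finset.mem_range] at hi hj
    set v := pr T n i * u * pr T n j with hv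
    have hTi : T * pr T n i = (i : K) • pr T n i := mul_pr hN hi
    have hTj : pr T n j * T = (j : K) • pr T n j := pr_mul hN hj
    have hvw : ad K C v = (((i : ℤ) - j : ℤ) : K) • v := by
      rw [hadT, hv, ← mul_assoc, ← mul_assoc, hTi, mul_assoc _ (pr T n j), hTj]
      push_cast
      simp only [smul_mul_assoc, mul_smul_comm, sub_smul, mul_assoc]
    by_cases hv0 : v = 0
    · rw [hv0, map_zero, smul_zero]
    · have h1 := weight_eq hR h hbd hnd hC hL hF t hN hinj
        (hR.cast (hR.mul (hR.mul (hpr i) hu) (hpr j)) (by ring)) hv0 hvw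
      rw [hvw, h1]
  conv_lhs => rw [hsum]
  conv_rhs => rw [hsum]
  rw [map_sum, Finset.smul_sum]
  refine Finset.sum_congr rfl fun i hi => ?_
  rw [map_sum, Finset.smul_sum]
  exact Finset.sum_congr rfl fun j hj => key i hi j hj

end Ad

end Pool.Agent.H843.Ho
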