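import Pool.Agent.H843.IdxDefs
import Pool.Agent.H843.Ho2
import Pool.Agent.H843.Ex12
import Pool.Graph.R_seed8.X310.JmMain
import Pool.Graph.R_seed8.Y163.GeoA

/-!
# The weight operator attached to the numerical Hodge index theorem
-/

open CategoryTheory AlgebraicGeometry Function Finset Polynomial

universe u v

set_option linter.unusedSectionVars false

namespace Pool.Agent.H843.Ho

open Pool.Agent.H914 Pool.Agent.H914.VarClass Pool.Agent.H914.VarClass.Obj
  Pool.Agent.H914.WeilCohomology Pool.Agent.R908 Pool.Agent.H447 Pool.Agent.H843.Ex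
  Pool.Agent.X310.Jm Pool.Agent.X310.Sec Pool.Agent.Y163

variable {k : Type u} [Field k] {𝒱 : VarClass k} {ops : CycleOps 𝒱}
  {W : WeilCohomology.{u, v} ops} {X Y : 𝒱.Obj}

/-- The operator `L`. -/
noncomputable abbrev Lop (W : WeilCohomology.{u, v} ops) (X : 𝒱.Obj) (D : X.Cycles) :
    Module.End W.K (W.H X) := LinearMap.mulLeft W.K (W.cl X D)

lemma divPow_mem {D : X.Cycles} (hD : X.IsCyc 1 D) {j : ℕ} {z : X.Cycles} (hz : X.IsCyc j z)
    (m : ℕ) : X.IsCyc (j + m) (divPow ops D m z) := by
  induction m with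
  | zero => exact hz
  | succ m ih =>
    have h1 : divPow ops D (m + 1) z = ops.mul D (divPow ops D m z) := by
      rw [divPow, Function.iterate_succ_apply']
      rfl
    rw [h1, show j + (m + 1) = 1 + (j + m) by ring]
    exact ops.mul_mem hD ih

lemma cl_divPow {D : X.Cycles} (m : ℕ) (z : X.Cycles) :
    W.cl X (divPow ops D m z) = (Lop W X D ^ m) (W.cl X z) := by
  induction m with
  | zero => rfl
  | succ m ih =>
    have h1 : divPow ops D (m + 1) z = ops.mul D (divPow ops D m z) := by
      rw [divPow, Function.iterate_succ_apply']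
      rfl
    rw [h1, W.cl_mul, ih, pow_succ', Module.End.mul_apply, LinearMap.mulLeft_apply]

/-- The divisor `D × X + X × D` acts on correspondences by `u ↦ L u + u L`. -/
lemma corr_box {D : X.Cycles} (hD : X.IsCyc 1 D) (c : W.H (X.prod X)) :
    W.corr (W.cl _ (ops.pull (fst X X) D + ops.pull (snd X X) D) * c) =
      dbl (Lop W X D) (W.corr c) := by
  rw [map_add, W.cl_pull, W.cl_pull, add_mul, corr_add, corr_fst _ _ (W.cl_mem hD),
    corr_snd _ _ (W.cl_mem hD), dbl_apply, add_comm]

lemma corr_box_pow {D : X.Cycles} (hD : X.IsCyc 1 D) (m : ℕ) (z : (X.prod X).Cycles) :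
    W.corr (W.cl _ (divPow ops (ops.pull (fst X X) D + ops.pull (snd X X) D) m z)) =
      (dbl (Lop W X D) ^ m) (W.corr (W.cl _ z)) := by
  rw [cl_divPow]
  induction m with
  | zero => rfl
  | succ m ih =>
    rw [pow_succ', Module.End.mul_apply, pow_succ', Module.End.mul_apply, LinearMap.mulLeft_apply,
      corr_box hD, ih]

/-- **The Hodge index theorem implies that `u ↦ L u + u L` is a Lefschetz operator.** -/
lemma dbl_inj (hW : HomEqNum W (X.prod X)) {D : X.Cycles} (hD : X.IsCyc 1 D)
    (hI : NumHodgeIndex ops (X.prod X) (ops.pull (fst X X) D + ops.pull (snd X X) D))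
    (d : ℕ) (u : Module.End W.K (W.H X)) (hu : ROp W X (-(d : ℤ)) u)
    (h0 : (dbl (Lop W X D) ^ (2 * d)) u = 0) : u = 0 := by
  by_contra hu0
  have hd := deg_le rop_opAlg (W.isInternal X) W_hbd hu hu0
  rw [abs_neg, Nat.abs_cast] at hd
  have hd' : d ≤ X.dim := by exact_mod_cast hd
  obtain ⟨z, hz, rfl⟩ := exists_of_rop (p := X.dim - d) (by omega) hu
  set DD := ops.pull (fst X X) D + ops.pull (snd X X) D with hDD
  have hDDc : (X.prod X).IsCyc 1 DD := SmVar.IsCyc.add (ops.pull_mem _ hD) (ops.pull_mem _ hD)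
  have hdim : (X.prod X).dim = X.dim + X.dim := rfl
  have hcl : ∀ m, 2 * d ≤ m → W.cl _ (divPow ops DD m z) = 0 := by
    intro m hm
    apply corr_inj
    rw [corr_box_pow hD, show m = (m - 2 * d) + 2 * d by omega, pow_add,
      Module.End.mul_apply, h0, map_zero]
  have h1 := hI (X.dim - d) (by omega) z hz ?_ ?_
  · have h2 : (X.prod X).V.degCycle (ops.mul z
        (divPow ops DD ((X.prod X).dim - 2 * (X.dim - d)) z)) = 0 := by
      have h3 := tr_mul_cl (W := W) hz (divPow_mem (ops := ops) hDDc hz
        ((X.prod X).dim - 2 * (X.dim - d))) (by omega)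
      rw [hcl _ (by omega), mul_zero, map_zero] at h3
      exact_mod_cast h3.symm
    rw [h2, mul_zero] at h1
    exact lt_irrefl _ h1
  · intro i hi w hw
    have h3 := tr_mul_cl (W := W) (divPow_mem (ops := ops) hDDc hz
        ((X.prod X).dim - 2 * (X.dim - d) + 1)) hw (by omega)
    rw [hcl _ (by omega), zero_mul, map_zero] at h3
    exact_mod_cast h3.symm
  · by_contra hcon
    apply hu0
    rw [hW (X.dim - d) (by omega) z hz ?_, corr_zero]
    intro w hw
    by_contra hne
    exact hcon ⟨w, hw, hne⟩

/-- The weight operators: `C` belongs to a rational `sl(2)`-triple containing the product with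
a divisor in `Pol X`. -/
def IsWt (W : WeilCohomology.{u, v} ops) (Pol : ∀ X : 𝒱.Obj, Set X.Cycles) (X : 𝒱.Obj)
    (C : Module.End W.K (W.H X)) : Prop :=
  ∃ D ∈ Pol X, ∃ F, ROp W X 0 C ∧ ROp W X (-1) F ∧ Sl2 C (Lop W X D) F

lemma exists_triple (hW : HomEqNum W (X.prod X)) {D : X.Cycles} (hD : X.IsCyc 1 D) :
    ∃ C F, ROp W X 0 C ∧ ROp W X (-1) F ∧ Sl2 C (Lop W X D) F := by
  obtain ⟨F, C, hF, hC, h1, h2, h3⟩ := exists_rat (W := W) hD
  have hnd := strNondeg_of_homEqNum hW
  have hz : ∀ d, ∀ x ∈ Nd (W.isInternal X) (RR W X) d, x = 0 := by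
    intro d x hx
    apply hnd.span rop_opAlg (W.isInternal X) rop_str (mem_KS_iff.2 hx.1)
    intro u hu
    exact hx.2 u (KOp.ofRop hu)
  refine ⟨C, F, hC, hF, h1, ?_, ?_⟩
  · exact sub_eq_zero.1 (hz _ _ h2)
  · exact eq_neg_of_add_eq_zero_left (hz _ _ h3)

variable {Pol : ∀ X : 𝒱.Obj, Set X.Cycles}

lemma IsWt.rop {C : Module.End W.K (W.H X)} (hC : IsWt W Pol X C) : ROp W X 0 C := by
  obtain ⟨D, hD, F, h1, -, -⟩ := hC
  exact h1

lemma IsWt.node (hPol : IsPolSystem ops Pol) {C : Module.End W.K (W.H X)}
    (hC : IsWt W Pol X C) :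
    aeval (C + (X.dim : W.K) • (1 : Module.End W.K (W.H X))) (nodeP W.K X.dim) = 0 := by
  obtain ⟨D, hD, F, h1, h2, t⟩ := hC
  exact aeval_nodeP t (mulLeft_pow_zero (hPol.isCyc X D hD))

lemma IsWt.ad (hPol : IsPolSystem ops Pol) (hW : HomEqNum W (X.prod X))
    (hI : ∀ D ∈ Pol (X.prod X), NumHodgeIndex ops (X.prod X) D) {C : Module.End W.K (W.H X)}
    (hC : IsWt W Pol X C) {d : ℤ} {u : Module.End W.K (W.H X)} (hu : ROp W X d u) :
    ad W.K C u = ((2 * d : ℤ) : W.K) • u := by
  have hN := hC.node hPol
  obtain ⟨D, hD, F, h1, h2, t⟩ := hC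
  have hDc := hPol.isCyc X D hD
  exact ad_eq rop_opAlg (W.isInternal X) W_hbd (strNondeg_of_homEqNum hW) h1
    (rop_mulLeft hDc) h2 t hN (dbl_inj hW hDc (hI _ (hPol.box X X D hD D hD))) hu

section Unique

variable {K : Type*} [Field K] [CharZero K] {V : Type*} [AddCommGroup V] [Module K V]
  [Module.Finite K V]

/-- Commutation with the powers of an operator of pure weight. -/
lemma ad_pow_apply {C u : Module.End K V} {w : K} (h : ad K C u = w • u) {c : K} {x : V}
    (hx : C x = c • x) (m : ℕ) : C ((u ^ m) x) = (c + m * w) • (u ^ m) x := by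
  induction m with
  | zero => simp [hx]
  | succ m ih =>
    have h1 : ∀ y, C (u y) = u (C y) + w • u y := by
      intro y
      have h2 := congrArg (fun A => A y) h
      simp only [ad_apply, LinearMap.sub_apply, Module.End.mul_apply, LinearMap.smul_apply] at h2
      rw [← h2]
      abel
    rw [pow_succ', Module.End.mul_apply, h1, ih, map_smul, ← add_smul]
    congr 1
    push_cast
    ring

/-- Two weight operators which compute the same weights of each other's triples are equal. -/
theorem wt_unique {C C' L L' F F' : Module.End K V} (t : Sl2 C L F) (t' : Sl2 C' L' F') {n : ℕ}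
    (hn : L ^ (n + 1) = 0) (hn' : L' ^ (n + 1) = 0)
    (h1 : ad K C C' = 0) (h2 : ad K C L' = (2 : K) • L') (h3 : ad K C F' = (-2 : K) • F')
    (h4 : ad K C' L = (2 : K) • L) (h5 : ad K C' F = (-2 : K) • F) : C = C' := by
  have hN := aeval_nodeP t hn
  have hN' := aeval_nodeP t' hn'
  -- simultaneous eigenvectors
  have key : ∀ a b : ℤ, ∀ x, x ≠ 0 → C x = (a : K) • x → C' x = (b : K) • x → a = b := by
    intro a b x hx0 hx hx'
    have h6 := comb (T := fun c : ℤ => ∃ x, x ≠ 0 ∧ C x = (c : K) • x ∧
        C' x = ((c - (a - b) : ℤ) : K) • x) (c := 2 * (a - b)) (n := n)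
      ⟨a, x, hx0, hx, by rw [hx']; congr 2; ring⟩
      (by
        rintro c ⟨x, hx0, hx, -⟩
        exact weight_le t hn hx hx0)
      (by
        rintro c ⟨x, hx0, hx, hx'⟩
        obtain ⟨m, rfl | rfl⟩ := c.eq_nat_or_neg
        · refine ⟨(F ^ m) x, fun h0 => hx0 (f_pow_inj t (by exact_mod_cast hx) h0), ?_, ?_⟩
          · rw [h_fpow t hx]
            congr 1
            push_cast
            ring
          · rw [ad_pow_apply h5 hx']
            congr 1
            push_cast
            ring
        · refine ⟨(L ^ m) x, fun h0 => hx0 (f_pow_inj t.neg_swap (c := m) ?_ (neg_pow_zero h0)),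
            ?_, ?_⟩
          · rw [LinearMap.neg_apply, hx]
            push_cast
            rw [neg_smul, neg_neg]
          · rw [h_epow t hx]
            congr 1
            push_cast
            ring
          · rw [ad_pow_apply h4 hx']
            congr 1
            push_cast
            ring)
      (by
        rintro c ⟨x, hx0, hx, hx'⟩
        obtain ⟨m, hm | hm⟩ := (c - (a - b)).eq_nat_or_neg
        · rw [hm] at hx'
          refine ⟨(F' ^ m) x, fun h0 => hx0 (f_pow_inj t' (by exact_mod_cast hx') h0), ?_, ?_⟩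
          · rw [ad_pow_apply h3 hx]
            congr 1
            have : (2 * (a - b) - c : ℤ) = c - 2 * m := by omega
            rw [this]
            push_cast
            ring
          · rw [h_fpow t' hx']
            congr 1
            have : (2 * (a - b) - c - (a - b) : ℤ) = (m : ℤ) - 2 * m := by omega
            rw [this]
            push_cast
            ring
        · rw [hm] at hx'
          refine ⟨(L' ^ m) x, fun h0 => hx0 (f_pow_inj t'.neg_swap (c := m) ?_
            (neg_pow_zero h0)), ?_, ?_⟩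
          · rw [LinearMap.neg_apply, hx']
            push_cast
            rw [neg_smul, neg_neg]
          · rw [ad_pow_apply h2 hx]
            congr 1
            have : (2 * (a - b) - c : ℤ) = c + 2 * m := by omega
            rw [this]
            push_cast
            ring
          · rw [h_epow t' hx']
            congr 1
            have : (2 * (a - b) - c - (a - b) : ℤ) = -(m : ℤ) + 2 * m := by omega
            rw [this]
            push_cast
            ring)
    omega
  -- decompose
  set T := C + (n : K) • (1 : Module.End K V) with hT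
  set T' := C' + (n : K) • (1 : Module.End K V) with hT'
  have hcomm : Commute T T' := by
    have h7 : Commute C C' := by
      rw [ad_apply, sub_eq_zero] at h1
      exact h1
    rw [hT, hT']
    exact (h7.add_right ((Commute.one_right _).smul_right _)).add_left
      (((Commute.one_left _).smul_left _))
  apply LinearMap.ext
  intro x
  have hsum : x = ∑ i ∈ range (2 * n + 1), ∑ j ∈ range (2 * n + 1),
      pr T n i (pr T' n j x) := by
    have e1 := congrArg (fun A => A x) (pr_sum T' n)
    simp only [LinearMap.sum_apply, Module.End.one_apply] at e1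
    have e2 := congrArg (fun A => A x) (pr_sum T n)
    simp only [LinearMap.sum_apply, Module.End.one_apply] at e2
    conv_lhs => rw [← e2, ← e1]
    exact Finset.sum_congr rfl fun i _ => map_sum _ _ _
  rw [hsum, map_sum, map_sum]
  refine Finset.sum_congr rfl fun i hi => ?_
  rw [map_sum, map_sum]
  refine Finset.sum_congr rfl fun j hj => ?_
  rw [Finset.mem_range] at hi hj
  set y := pr T n i (pr T' n j x) with hy
  have hTy : T y = (i : K) • y := pr_eigen hN hi _
  have hTy' : T' y = (j : K) • y := by
    have h8 : Commute T' (pr T n i) := commute_ev hcomm.symm (lp n i)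
    have h9 := congrArg (fun A => A (pr T' n j x)) h8.eq
    simp only [Module.End.mul_apply] at h9
    rw [hy, h9, pr_eigen hN' hj, map_smul]
  have hC : C y = (((i : ℤ) - n : ℤ) : K) • y := by
    have : T y = C y + (n : K) • y := rfl
    rw [this] at hTy
    push_cast
    rw [sub_smul, ← hTy, add_sub_cancel_right]
  have hC' : C' y = (((j : ℤ) - n : ℤ) : K) • y := by
    have : T' y = C' y + (n : K) • y := rfl
    rw [this] at hTy'
    push_cast
    rw [sub_smul, ← hTy', add_sub_cancel_right]
  by_cases hy0 : y = 0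
  · rw [hy0, map_zero, map_zero]
  · have h10 := key _ _ y hy0 hC hC'
    rw [hC, hC', h10]

end Unique

/-- **Uniqueness of the weight operator.** -/
lemma IsWt.unique (hPol : IsPolSystem ops Pol) (hW : HomEqNum W (X.prod X))
    (hI : ∀ D ∈ Pol (X.prod X), NumHodgeIndex ops (X.prod X) D) {C C' : Module.End W.K (W.H X)}
    (hC : IsWt W Pol X C) (hC' : IsWt W Pol X C') : C = C' := by
  have had := fun {d : ℤ} {u : Module.End W.K (W.H X)} (hu : ROp W X d u) =>
    hC.ad hPol hW hI hu
  have had' := fun {d : ℤ} {u : Module.End W.K (W.H X)} (hu : ROp W X d u) =>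
    hC'.ad hPol hW hI hu
  obtain ⟨D, hD, F, h1, h2, t⟩ := hC
  obtain ⟨D', hD', F', h1', h2', t'⟩ := hC'
  have hDc := hPol.isCyc X D hD
  have hDc' := hPol.isCyc X D' hD'
  refine wt_unique t t' (mulLeft_pow_zero hDc) (mulLeft_pow_zero hDc') ?_ ?_ ?_ ?_ ?_
  · rw [had h1']; simp
  · rw [had (rop_mulLeft hDc')]; simp
  · rw [had h2']; simp
  · rw [had' (rop_mulLeft hDc)]; simp
  · rw [had' h2]; simp

end Pool.Agent.H843.Ho
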