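import Pool.Agent.H843.Ho4

/-!
# The parity of the weights
-/

open CategoryTheory AlgebraicGeometry Function Finset Polynomial

universe u v

set_option linter.unusedSectionVars false

namespace Pool.Agent.H843.Ho

open Pool.Agent.H914 Pool.Agent.H914.VarClass Pool.Agent.H914.VarClass.Obj
  Pool.Agent.H914.WeilCohomology Pool.Agent.R908 Pool.Agent.H447 Pool.Agent.H843.Ex
  Pool.Agent.X310.Jm Pool.Agent.X310.Sec Pool.Agent.Y163

section Lin

variable {K : Type*} [Field K] [CharZero K] {V : Type*} [AddCommGroup V] [Module K V]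
  {T : Module.End K V} {n : ℕ}

lemma ext_eig (hT : aeval T (nodeP K n) = 0) {U : Type*} [AddCommGroup U] [Module K U]
    {A B : V →ₗ[K] U} (h : ∀ i < 2 * n + 1, ∀ x, T x = (i : K) • x → A x = B x) : A = B := by
  apply LinearMap.ext
  intro x
  have e1 := congrArg (fun A => A x) (pr_sum T n)
  simp only [LinearMap.sum_apply, Module.End.one_apply] at e1
  rw [← e1, map_sum, map_sum]
  exact Finset.sum_congr rfl fun i hi =>
    h i (Finset.mem_range.1 hi) _ (pr_eigen hT (Finset.mem_range.1 hi) x)

/-- The parity operator attached to `T`. -/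
noncomputable def pp (T : Module.End K V) (n : ℕ) : Module.End K V :=
  ∑ i ∈ range (2 * n + 1), (-1 : K) ^ i • pr T n i

lemma pp_apply {x : V} {j : ℕ} (hj : j < 2 * n + 1) (hx : T x = (j : K) • x) :
    pp T n x = (-1 : K) ^ j • x := by
  rw [pp, LinearMap.sum_apply, Finset.sum_eq_single j]
  · rw [LinearMap.smul_apply, pr_same hj hx]
  · intro i _ hij
    rw [LinearMap.smul_apply, pr_ne hij hj hx, smul_zero]
  · intro h
    exact absurd (Finset.mem_range.2 hj) h

lemma pp_mul_pp (hT : aeval T (nodeP K n) = 0) : pp T n * pp T n = 1 := by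
  refine ext_eig hT fun i hi x hx => ?_
  rw [Module.End.mul_apply, pp_apply hi hx, map_smul, pp_apply hi hx, smul_smul, ← mul_pow,
    Module.End.one_apply]
  simp

lemma pp_comm (hT : aeval T (nodeP K n) = 0) {u : Module.End K V} {d : ℤ}
    (hu : T * u - u * T = ((2 * d : ℤ) : K) • u) : pp T n * u = u * pp T n := by
  refine ext_eig hT fun i hi x hx => ?_
  rw [Module.End.mul_apply, Module.End.mul_apply, pp_apply hi hx, map_smul]
  by_cases h0 : u x = 0
  · rw [h0, map_zero, smul_zero]
  have h1 : T (u x) = ((i : K) + ((2 * d : ℤ) : K)) • u x := by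
    have h2 := congrArg (fun A => A x) hu
    simp only [LinearMap.sub_apply, Module.End.mul_apply, LinearMap.smul_apply, hx,
      map_smul] at h2
    rw [sub_eq_iff_eq_add] at h2
    rw [h2, add_smul, add_comm]
  obtain ⟨j, hj, hj2⟩ := eig_lt hT h1 h0
  have h3 : T (u x) = (j : K) • u x := by rw [h1, hj2]
  rw [pp_apply hj h3]
  have h4 : (i : ℤ) + 2 * d = j := by
    have : ((i + 2 * d : ℤ) : K) = ((j : ℤ) : K) := by
      push_cast
      push_cast at hj2
      exact hj2
    exact_mod_cast this
  congr 1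
  rcases Nat.even_or_odd i with h5 | h5
  · have h6 : Even j := by
      rcases h5 with ⟨a, ha⟩
      exact (Int.even_coe_nat j).1 ⟨a + d, by omega⟩
    rw [h5.neg_one_pow, h6.neg_one_pow]
  · have h6 : Odd j := by
      rcases h5 with ⟨a, ha⟩
      exact (Int.odd_coe_nat j).1 ⟨a + d, by omega⟩
    rw [h5.neg_one_pow, h6.neg_one_pow]

end Lin

section Top

variable {K : Type*} [Field K] [CharZero K] {V : Type*} [AddCommGroup V] [Module K V]
  [Module.Finite K V] {C L F σ : Module.End K V} {n : ℕ}

omit [Module.Finite K V] in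
lemma pr_lpow (t : Sl2 C L F)
    (hN : aeval (C + (n : K) • (1 : Module.End K V)) (nodeP K n) = 0) {i j k : ℕ}
    (hij : i = j + 2 * k) (hi : i < 2 * n + 1) :
    pr (C + (n : K) • (1 : Module.End K V)) n i * L ^ k =
      L ^ k * pr (C + (n : K) • (1 : Module.End K V)) n j := by
  set T := C + (n : K) • (1 : Module.End K V) with hT
  have hTa : ∀ a, T a = C a + (n : K) • a := fun a => rfl
  refine ext_eig hN fun l hl x hx => ?_
  rw [Module.End.mul_apply, Module.End.mul_apply]
  have h1 : T ((L ^ k) x) = ((l + 2 * k : ℕ) : K) • (L ^ k) x := by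
    have h2 : C x = ((l : K) - n) • x := by
      rw [sub_smul, ← hx, hTa, add_sub_cancel_right]
    rw [hTa, h_epow t h2, ← add_smul]
    congr 1
    push_cast
    ring
  by_cases hlj : l = j
  · subst hlj
    rw [pr_same hl hx, hij, pr_same (by omega) h1]
  · rw [pr_ne (Ne.symm hlj) hl hx, map_zero]
    by_cases h0 : (L ^ k) x = 0
    · rw [h0, map_zero]
    · obtain ⟨m, hm, hm2⟩ := eig_lt hN h1 h0
      have h3 : l + 2 * k = m := by exact_mod_cast hm2
      exact pr_ne (by omega) (by omega) h1

omit [Module.Finite K V] in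
lemma pr_fpow (t : Sl2 C L F)
    (hN : aeval (C + (n : K) • (1 : Module.End K V)) (nodeP K n) = 0) {i j k : ℕ}
    (hij : i = j + 2 * k) (hi : i < 2 * n + 1) :
    pr (C + (n : K) • (1 : Module.End K V)) n j * F ^ k =
      F ^ k * pr (C + (n : K) • (1 : Module.End K V)) n i := by
  set T := C + (n : K) • (1 : Module.End K V) with hT
  have hTa : ∀ a, T a = C a + (n : K) • a := fun a => rfl
  refine ext_eig hN fun l hl x hx => ?_
  rw [Module.End.mul_apply, Module.End.mul_apply]
  have h1 : T ((F ^ k) x) = ((l : K) - 2 * k) • (F ^ k) x := by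
    have h2 : C x = ((l : K) - n) • x := by
      rw [sub_smul, ← hx, hTa, add_sub_cancel_right]
    rw [hTa, h_fpow t h2, ← add_smul]
    congr 1
    ring
  by_cases hlj : l = i
  · subst hlj
    have h2 : T ((F ^ k) x) = (j : K) • (F ^ k) x := by
      rw [h1]
      congr 1
      rw [hij]
      push_cast
      ring
    rw [pr_same hl hx, pr_same (by omega) h2]
  · rw [pr_ne (Ne.symm hlj) hl hx, map_zero]
    by_cases h0 : (F ^ k) x = 0
    · rw [h0, map_zero]
    · obtain ⟨m, hm, hm2⟩ := eig_lt hN h1 h0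
      have h3 : (l : ℤ) - 2 * k = m := by
        have : ((l - 2 * k : ℤ) : K) = ((m : ℤ) : K) := by
          push_cast
          exact hm2
        exact_mod_cast this
      have h4 : T ((F ^ k) x) = (m : K) • (F ^ k) x := by rw [h1, hm2]
      exact pr_ne (by omega) hm h4

/-- `e ^ k f ^ k` on highest weight vectors of weight `k`. -/
lemma ef_pow (t : Sl2 C L F) {x : V} {k : ℕ} (hx : L x = 0) (hk : C x = (k : K) • x) :
    (L ^ k) ((F ^ k) x) = ((k.factorial : K) ^ 2) • x := by
  have h1 := Sl2.f_pow_e_pow t.neg_swap (v := x) (m := k)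
    (by rw [LinearMap.neg_apply, hx, neg_zero])
    (by rw [LinearMap.neg_apply, hk, neg_smul]) (le_refl k)
  rw [Nat.sub_self, pow_zero, Module.End.one_apply, Nat.factorial_zero, Nat.cast_one, inv_one,
    mul_one, neg_pow L, neg_pow F, Module.End.mul_apply, Module.End.mul_apply] at h1
  rw [pow_two]
  rcases Nat.even_or_odd k with h2 | h2
  · rw [h2.neg_one_pow, Module.End.one_apply, Module.End.one_apply] at h1
    exact h1
  · rw [h2.neg_one_pow, LinearMap.neg_apply, LinearMap.neg_apply, Module.End.one_apply,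
      Module.End.one_apply, map_neg, neg_neg] at h1
    exact h1

/-- The highest weight on the part where `σ = -1`. -/
lemma exists_top (t : Sl2 C L F) (hn : L ^ (n + 1) = 0) (hs : σ * σ = 1) (hC : Commute σ C)
    (hL : Commute σ L) (h1 : σ ≠ 1) :
    ∃ k ≤ n, (∃ x, x ≠ 0 ∧ σ x = -x ∧ C x = (k : K) • x) ∧
      ∀ m : ℤ, (k : ℤ) < |m| → ∀ x, σ x = -x → C x = (m : K) • x → x = 0 := by
  classical
  set Q : ℕ → Prop := fun k => ∃ x, x ≠ 0 ∧ σ x = -x ∧ C x = (k : K) • x with hQ
  have hN := aeval_nodeP t hn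
  set T := C + (n : K) • (1 : Module.End K V) with hT
  have hTa : ∀ a, T a = C a + (n : K) • a := fun a => rfl
  have hneg : ∀ (m : ℕ) x, x ≠ 0 → σ x = -x → C x = ((-(m : ℤ) : ℤ) : K) • x → Q m := by
    intro m x hx0 hx hCx
    refine ⟨(L ^ m) x, fun h0 => hx0 (f_pow_inj t.neg_swap (c := m) ?_ (neg_pow_zero h0)), ?_, ?_⟩
    · rw [LinearMap.neg_apply, hCx]
      push_cast
      rw [neg_smul, neg_neg]
    · have h2 := congrArg (fun A => A x) (hL.pow_right m).eq
      simp only [Module.End.mul_apply] at h2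
      rw [h2, hx, map_neg]
    · rw [h_epow t hCx]
      congr 1
      push_cast
      ring
  have hbd : ∀ k, Q k → k ≤ n := by
    rintro k ⟨x, hx0, -, hx⟩
    have := weight_le t hn (m := k) (by exact_mod_cast hx) hx0
    rw [Nat.abs_cast] at this
    exact_mod_cast this
  have hex : ∃ k, Q k := by
    obtain ⟨y, hy⟩ : ∃ y, σ y ≠ y := by
      by_contra hcon
      push Not at hcon
      exact h1 (LinearMap.ext hcon)
    have hx0 : y - σ y ≠ 0 := sub_ne_zero.2 (Ne.symm hy)
    set x := y - σ y with hxdef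
    have hx : σ x = -x := by
      have h2 := congrArg (fun A => A y) hs
      simp only [Module.End.mul_apply, Module.End.one_apply] at h2
      rw [hxdef, map_sub, h2]
      abel
    have e1 := congrArg (fun A => A x) (pr_sum T n)
    simp only [LinearMap.sum_apply, Module.End.one_apply] at e1
    rw [← e1] at hx0
    obtain ⟨i, hi, hi0⟩ := Finset.exists_ne_zero_of_sum_ne_zero hx0
    rw [Finset.mem_range] at hi
    have hTi := pr_eigen hN hi x
    have hσT : Commute σ T := by
      rw [hT]
      exact hC.add_right ((Commute.one_right _).smul_right _)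
    have hσi : σ (pr T n i x) = -pr T n i x := by
      have h3 : Commute σ (pr T n i) := commute_ev hσT (lp n i)
      have h4 := congrArg (fun A => A x) h3.eq
      simp only [Module.End.mul_apply] at h4
      rw [h4, hx, map_neg]
    have hCi : C (pr T n i x) = (((i : ℤ) - n : ℤ) : K) • pr T n i x := by
      rw [hTa] at hTi
      push_cast
      rw [sub_smul, ← hTi, add_sub_cancel_right]
    obtain ⟨m, hm | hm⟩ := ((i : ℤ) - n).eq_nat_or_neg
    · rw [hm, Int.cast_natCast] at hCi
      exact ⟨m, _, hi0, hσi, hCi⟩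
    · rw [hm] at hCi
      exact ⟨m, hneg m _ hi0 hσi hCi⟩
  obtain ⟨k₀, hk₀⟩ := hex
  refine ⟨Nat.findGreatest Q n, Nat.findGreatest_le n,
    Nat.findGreatest_spec (hbd _ hk₀) hk₀, ?_⟩
  intro m hm x hx hCx
  by_contra hx0
  have hnot : ∀ j, Nat.findGreatest Q n < j → ¬ Q j := fun j hj hQj =>
    Nat.findGreatest_is_greatest hj (hbd j hQj) hQj
  obtain ⟨j, rfl | rfl⟩ := m.eq_nat_or_neg
  · rw [Nat.abs_cast] at hm
    exact hnot j (by exact_mod_cast hm) ⟨x, hx0, hx, by exact_mod_cast hCx⟩
  · rw [abs_neg, Nat.abs_cast] at hm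
    exact hnot j (by exact_mod_cast hm) (hneg j x hx0 hx hCx)

lemma dbl_pow_apply (L u : Module.End K V) (m : ℕ) :
    (dbl L ^ m) u = ∑ a ∈ range (m + 1), (m.choose a : K) • (L ^ a * u * L ^ (m - a)) := by
  have h1 : Commute (LinearMap.mulLeft K L) (LinearMap.mulRight K L) := by
    apply LinearMap.ext
    intro y
    simp only [Module.End.mul_apply, LinearMap.mulLeft_apply, LinearMap.mulRight_apply, mul_assoc]
  rw [dbl, h1.add_pow, LinearMap.sum_apply]
  refine Finset.sum_congr rfl fun a _ => ?_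
  rw [← Nat.cast_comm, Module.End.mul_apply, Module.End.mul_apply, Module.End.natCast_apply,
    LinearMap.pow_mulLeft, LinearMap.pow_mulRight, LinearMap.mulLeft_apply,
    LinearMap.mulRight_apply, mul_assoc, Nat.cast_smul_eq_nsmul]

/-- The operator `u` from the top weight space to the lowest weight space. -/
theorem top_op (t : Sl2 C L F) (hn : L ^ (n + 1) = 0) (hs : σ * σ = 1) (hC : Commute σ C)
    (hL : Commute σ L) (hF : Commute σ F) {k : ℕ} (hk : k ≤ n)
    (hmax : ∀ m : ℤ, (k : ℤ) < |m| → ∀ x, σ x = -x → C x = (m : K) • x → x = 0)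
    {P κ κ' : Module.End K V} (hP : P = (2 : K)⁻¹ • (1 - σ))
    (hκ : κ = pr (C + (n : K) • (1 : Module.End K V)) n (n + k))
    (hκ' : κ' = pr (C + (n : K) • (1 : Module.End K V)) n (n - k)) :
    (dbl L ^ (2 * k + 1)) (F ^ k * (P * κ)) = 0 ∧
    (dbl L ^ (2 * k)) (F ^ k * (P * κ)) * (κ' * P * F ^ k) =
      (((2 * k).choose k : K) * (k.factorial : K) ^ 2 * (k.factorial : K) ^ 2) • (P * κ) ∧
    (P * κ) * (P * κ) = P * κ := by
  have hN := aeval_nodeP t hn
  set T := C + (n : K) • (1 : Module.End K V) with hT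
  have hTa : ∀ a, T a = C a + (n : K) • a := fun a => rfl
  have hσT : Commute σ T := by
    rw [hT]
    exact hC.add_right ((Commute.one_right _).smul_right _)
  have hcomm : ∀ {A : Module.End K V}, Commute σ A → Commute P A := by
    intro A hA
    rw [hP]
    exact ((Commute.one_left A).sub_left hA).smul_left _
  have hPL := hcomm hL
  have hPF := hcomm hF
  have hPκ : Commute P κ := by
    rw [hκ]
    exact hcomm (commute_ev hσT _)
  have hPκ' : Commute P κ' := by
    rw [hκ']
    exact hcomm (commute_ev hσT _)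
  have hPP : P * P = P := by
    have h3 : (1 - σ) * (1 - σ) = (2 : K) • (1 - σ) := by
      rw [sub_mul, mul_sub, mul_sub, one_mul, mul_one, one_mul, hs, two_smul]
      abel
    rw [hP, smul_mul_smul_comm, h3, smul_smul]
    congr 1
    norm_num
  have hσP : ∀ x, σ (P x) = -P x := by
    intro x
    have h2 := congrArg (fun A => A x) hs
    simp only [Module.End.mul_apply, Module.End.one_apply] at h2
    rw [hP, LinearMap.smul_apply, map_smul, LinearMap.sub_apply, map_sub, h2,
      Module.End.one_apply, ← smul_neg]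
    congr 1
    abel
  -- the powers of `L` on the image of `P`
  have hLP : L ^ (k + 1) * P = 0 := by
    rw [← (hPL.pow_right (k + 1)).eq]
    refine ext_eig hN fun l hl x hx => ?_
    rw [Module.End.mul_apply, LinearMap.zero_apply]
    have h2 : C x = (((l : ℤ) - n : ℤ) : K) • x := by
      push_cast
      rw [sub_smul, ← hx, hTa, add_sub_cancel_right]
    have h3 := congrArg (fun A => A x) (hPL.pow_right (k + 1)).eq
    simp only [Module.End.mul_apply] at h3
    have hCP : Commute P C := hcomm hC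
    have h4 : C (P x) = (((l : ℤ) - n : ℤ) : K) • P x := by
      have h5 := congrArg (fun A => A x) hCP.eq
      simp only [Module.End.mul_apply] at h5
      rw [← h5, h2, map_smul]
    rcases lt_or_ge (k : ℤ) |(l : ℤ) - n| with h6 | h6
    · rw [h3, hmax _ h6 _ (hσP x) h4, map_zero]
    · rw [abs_le] at h6
      apply hmax ((l : ℤ) - n + 2 * (k + 1)) (lt_abs.2 (Or.inl (by omega)))
      · exact hσP _
      · rw [h3, h_epow t h4]
        congr 1
        push_cast
        ring
  have hPLk : P * L ^ (k + 1) = 0 := by rw [(hPL.pow_right (k + 1)).eq, hLP]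
  set u := F ^ k * (P * κ) with hu
  have hLu : L ^ (k + 1) * u = 0 := by
    rw [hu, ← mul_assoc (F ^ k), ← (hPF.pow_right k).eq, mul_assoc, ← mul_assoc, hLP, zero_mul]
  have huL : u * L ^ (k + 1) = 0 := by
    rw [hu, hPκ.eq, mul_assoc, mul_assoc, hPLk, mul_zero, mul_zero]
  have hLu' : ∀ a, k + 1 ≤ a → L ^ a * u = 0 := by
    intro a ha
    obtain ⟨b, rfl⟩ := Nat.exists_eq_add_of_le' ha
    rw [pow_add, mul_assoc, hLu, mul_zero]
  have huL' : ∀ a, k + 1 ≤ a → u * L ^ a = 0 := by
    intro a ha
    obtain ⟨b, rfl⟩ := Nat.exists_eq_add_of_le ha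
    rw [pow_add, ← mul_assoc, huL, zero_mul]
  have hsum : ∀ m a, k < a ∨ k < m - a → L ^ a * u * L ^ (m - a) = 0 := by
    rintro m a (h2 | h2)
    · rw [hLu' a (by omega), zero_mul]
    · rw [mul_assoc, huL' _ (by omega), mul_zero]
  -- the product `L ^ k F ^ k` on the top weight space
  have hef : L ^ k * F ^ k * (P * κ) = ((k.factorial : K) ^ 2) • (P * κ) := by
    apply LinearMap.ext
    intro x
    rw [Module.End.mul_apply, Module.End.mul_apply, LinearMap.smul_apply]
    have h2 : C ((P * κ) x) = (k : K) • (P * κ) x := by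
      rw [hPκ.eq, Module.End.mul_apply]
      have h3 := pr_eigen hN (i := n + k) (by omega) (P x)
      rw [← hκ, hTa] at h3
      push_cast at h3
      rw [add_smul, add_comm ((n : K) • κ (P x)), add_left_inj] at h3
      exact h3
    have h4 : L ((P * κ) x) = 0 := by
      apply hmax (k + 2) (lt_abs.2 (Or.inl (by omega)))
      · have h5 := congrArg (fun A => A ((P * κ) x)) hL.eq
        simp only [Module.End.mul_apply] at h5
        rw [Module.End.mul_apply, h5, hσP, map_neg]
      · rw [h_e t, h2, map_smul, ← add_smul]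
        push_cast
        rfl
    exact ef_pow t h4 h2
  have hκL : κ * L ^ k = L ^ k * κ' := by
    rw [hκ, hκ']
    exact pr_lpow t hN (by omega) (by omega)
  have hκF : κ' * F ^ k = F ^ k * κ := by
    rw [hκ, hκ']
    exact pr_fpow t hN (by omega) (by omega)
  have hκκ : κ * κ = κ := by
    rw [hκ]
    exact pr_mul_self hN (by omega)
  have hid : (P * κ) * (P * κ) = P * κ := by
    rw [mul_assoc, ← mul_assoc κ, ← hPκ.eq, mul_assoc P κ κ, hκκ, ← mul_assoc, hPP]
  refine ⟨?_, ?_, hid⟩
  · rw [dbl_pow_apply]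
    refine Finset.sum_eq_zero fun a ha => ?_
    rw [hsum _ _ (by omega), smul_zero]
  · have h2 : (dbl L ^ (2 * k)) u = (((2 * k).choose k : K) * (k.factorial : K) ^ 2) •
        ((P * κ) * L ^ k) := by
      rw [dbl_pow_apply, Finset.sum_eq_single k]
      · have h3 : L ^ k * u = ((k.factorial : K) ^ 2) • (P * κ) := by
          rw [← hef, hu, mul_assoc]
        rw [h3, show 2 * k - k = k by omega, smul_mul_assoc, smul_smul]
      · intro a _ ha
        rw [hsum _ _ (by omega), smul_zero]
      · intro h3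
        exact absurd (Finset.mem_range.2 (by omega)) h3
    rw [h2, smul_mul_assoc, ← smul_smul (((2 * k).choose k : K) * (k.factorial : K) ^ 2)]
    congr 1
    rw [← hef]
    -- `(P κ L^k) (κ' P F^k) = L^k F^k (P κ)`
    have h4 : L ^ k * κ' * κ' = L ^ k * κ' := by
      rw [← hκL, mul_assoc, ← hκL, ← mul_assoc, hκκ]
    have hPFk := (hPF.pow_right k).eq
    have hPLk' := (hPL.pow_right k).eq
    calc P * κ * L ^ k * (κ' * P * F ^ k)
        = P * (κ * L ^ k) * κ' * P * F ^ k := by simp only [mul_assoc]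
      _ = P * (L ^ k * κ') * κ' * P * F ^ k := by rw [hκL]
      _ = P * (L ^ k * κ' * κ') * P * F ^ k := by simp only [mul_assoc]
      _ = P * (L ^ k * κ') * P * F ^ k := by rw [h4]
      _ = P * L ^ k * (κ' * (P * F ^ k)) := by simp only [mul_assoc]
      _ = P * L ^ k * (κ' * (F ^ k * P)) := by rw [hPFk]
      _ = P * L ^ k * (κ' * F ^ k) * P := by simp only [mul_assoc]
      _ = P * L ^ k * (F ^ k * κ) * P := by rw [hκF]
      _ = (P * L ^ k) * F ^ k * (κ * P) := by simp only [mul_assoc]
      _ = (L ^ k * P) * F ^ k * (P * κ) := by rw [hPLk', hPκ.eq]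
      _ = L ^ k * (P * F ^ k) * (P * κ) := by simp only [mul_assoc]
      _ = L ^ k * (F ^ k * P) * (P * κ) := by rw [hPFk]
      _ = L ^ k * F ^ k * ((P * P) * κ) := by simp only [mul_assoc]
      _ = L ^ k * F ^ k * (P * κ) := by rw [hPP]

end Top

end Pool.Agent.H843.Ho
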