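import Pool.Agent.H843.Ho5

/-!
# The parity operator is the parity of the weights
-/

open CategoryTheory AlgebraicGeometry Function Finset Polynomial

universe u v

set_option linter.unusedSectionVars false

namespace Pool.Agent.H843.Ho

open Pool.Agent.H914 Pool.Agent.H914.VarClass Pool.Agent.H914.VarClass.Obj
  Pool.Agent.H914.WeilCohomology Pool.Agent.R908 Pool.Agent.H447 Pool.Agent.H843.Ex
  Pool.Agent.X310.Jm Pool.Agent.X310.Sec Pool.Agent.Y163

variable {k : Type u} [Field k] {𝒱 : VarClass k} {ops : CycleOps 𝒱}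
  {W : WeilCohomology.{u, v} ops} {X Y Z : 𝒱.Obj} {Pol : ∀ X : 𝒱.Obj, Set X.Cycles}

lemma adj_par : adj (par (W.isInternal X)) = par (W.isInternal X) := by
  symm
  apply adj_unique
  intro a b
  refine gr_induction (W.isInternal X) (p := fun a => W.tr X (par (W.isInternal X) a * b) =
    W.tr X (a * par (W.isInternal X) b)) ?_ ?_ a
  · intro i a ha
    refine gr_induction (W.isInternal X) (p := fun b => W.tr X (par (W.isInternal X) a * b) =
      W.tr X (a * par (W.isInternal X) b)) ?_ ?_ b
    · intro j b hb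
      rw [par, scal_apply _ _ ha, scal_apply _ _ hb, smul_mul_assoc, mul_smul_comm, map_smul,
        map_smul]
      by_cases hij : i + j = 2 * X.dim
      · congr 1
        rcases Nat.even_or_odd i with h1 | h1
        · have h2 : Even j := by
            rcases h1 with ⟨c, hc⟩
            exact ⟨X.dim - c, by omega⟩
          rw [h1.neg_one_pow, h2.neg_one_pow]
        · have h2 : Odd j := by
            rcases h1 with ⟨c, hc⟩
            exact ⟨X.dim - c - 1, by omega⟩
          rw [h1.neg_one_pow, h2.neg_one_pow]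
      · rw [W.tr_eq_zero (W.mul_mem ha hb) hij, smul_zero, smul_zero]
    · intro b b' hb hb'
      rw [mul_add, map_add (par _), mul_add, map_add, map_add, hb, hb']
  · intro a a' ha ha'
    rw [map_add (par _), add_mul, add_mul, map_add, map_add, ha, ha']

lemma adj_pow (f : Module.End W.K (W.H X)) (m : ℕ) : adj (f ^ m) = adj f ^ m := by
  induction m with
  | zero => rw [pow_zero, pow_zero, adj_one]
  | succ m ih => rw [pow_succ, adj_mul, ih, ← pow_succ']

lemma adj_aeval (f : Module.End W.K (W.H X)) (p : W.K[X]) :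
    adj (aeval f p) = aeval (adj f) p := by
  induction p using Polynomial.induction_on with
  | C a =>
    rw [aeval_C, aeval_C, Algebra.algebraMap_eq_smul_one, adj_smul, adj_one]
  | add p q hp hq => rw [map_add, map_add, adj_add, hp, hq]
  | monomial m a _ =>
    rw [map_mul, map_mul, aeval_C, aeval_C, map_pow, map_pow, aeval_X, aeval_X,
      Algebra.algebraMap_eq_smul_one, smul_mul_assoc, smul_mul_assoc, one_mul, one_mul,
      adj_smul, adj_pow]

lemma adj_ev (f : Module.End W.K (W.H X)) (p : ℚ[X]) : adj (ev f p) = ev (adj f) p := by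
  rw [ev_apply, ev_apply, adj_aeval]

section

variable (hPol : IsPolSystem ops Pol) (hW : HomEqNum W (X.prod X))
  (hI : ∀ D ∈ Pol (X.prod X), NumHodgeIndex ops (X.prod X) D) {C : Module.End W.K (W.H X)}
  (hC : IsWt W Pol X C)
include hPol hW hI hC

lemma IsWt.adj_eq : Y163.adj C = -C := by
  have := hC.unique hPol hW hI (hC.adj hPol)
  rw [this, neg_neg]
  rw [← this]

lemma IsWt.adj_T : Y163.adj (C + (X.dim : W.K) • (1 : Module.End W.K (W.H X))) =
    -C + (X.dim : W.K) • (1 : Module.End W.K (W.H X)) := by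
  rw [adj_add, adj_smul, adj_one, hC.adj_eq hPol hW hI]

lemma IsWt.adj_pr {i j : ℕ} (hij : i + j = 2 * X.dim) :
    Y163.adj (pr (C + (X.dim : W.K) • (1 : Module.End W.K (W.H X))) X.dim i) =
      pr (C + (X.dim : W.K) • (1 : Module.End W.K (W.H X))) X.dim j := by
  have hN := hC.node hPol
  have h1 : Y163.adj (pr (C + (X.dim : W.K) • (1 : Module.End W.K (W.H X))) X.dim i) =
      pr (-C + (X.dim : W.K) • (1 : Module.End W.K (W.H X))) X.dim i := by
    rw [pr, adj_ev, hC.adj_T hPol hW hI, pr]
  rw [h1]
  set T := C + (X.dim : W.K) • (1 : Module.End W.K (W.H X)) with hT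
  have hTa : ∀ a, T a = C a + (X.dim : W.K) • a := fun a => rfl
  refine ext_eig hN fun l hl x hx => ?_
  have h2 : (-C + (X.dim : W.K) • (1 : Module.End W.K (W.H X))) x =
      ((2 * X.dim - l : ℕ) : W.K) • x := by
    have h3 : C x = ((l : W.K) - X.dim) • x := by
      rw [sub_smul, ← hx, hTa, add_sub_cancel_right]
    rw [LinearMap.add_apply, LinearMap.neg_apply, LinearMap.smul_apply, Module.End.one_apply, h3,
      ← neg_smul, ← add_smul]
    congr 1
    rw [Nat.cast_sub (by omega)]
    push_cast
    ring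
  by_cases hlj : l = j
  · subst hlj
    rw [pr_same hl hx]
    apply pr_same (by omega)
    rw [h2]
    congr 2
    omega
  · rw [pr_ne (Ne.symm hlj) hl hx]
    exact pr_ne (by omega) (by omega) h2

lemma IsWt.adj_pp :
    Y163.adj (pp (C + (X.dim : W.K) • (1 : Module.End W.K (W.H X))) X.dim) =
      pp (C + (X.dim : W.K) • (1 : Module.End W.K (W.H X))) X.dim := by
  have hN := hC.node hPol
  have h0 : ∀ (s : Finset ℕ) (g : ℕ → Module.End W.K (W.H X)),
      Y163.adj (∑ i ∈ s, g i) = ∑ i ∈ s, Y163.adj (g i) := by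
    intro s g
    classical
    induction s using Finset.induction_on with
    | empty => rw [Finset.sum_empty, Finset.sum_empty, adj_zero]
    | insert a s ha ih => rw [Finset.sum_insert ha, Finset.sum_insert ha, adj_add, ih]
  set T := C + (X.dim : W.K) • (1 : Module.End W.K (W.H X)) with hT
  rw [pp, h0]
  have h1 : ∀ i ∈ range (2 * X.dim + 1), Y163.adj ((-1 : W.K) ^ i • pr T X.dim i) =
      (-1 : W.K) ^ (2 * X.dim - i) • pr T X.dim (2 * X.dim - i) := by
    intro i hi
    rw [Finset.mem_range] at hi
    rw [adj_smul, hC.adj_pr hPol hW hI (j := 2 * X.dim - i) (by omega)]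
    congr 1
    rcases Nat.even_or_odd i with h1 | h1
    · have h2 : Even (2 * X.dim - i) := by
        rcases h1 with ⟨c, hc⟩
        exact ⟨X.dim - c, by omega⟩
      rw [h1.neg_one_pow, h2.neg_one_pow]
    · have h2 : Odd (2 * X.dim - i) := by
        rcases h1 with ⟨c, hc⟩
        exact ⟨X.dim - c - 1, by omega⟩
      rw [h1.neg_one_pow, h2.neg_one_pow]
  rw [Finset.sum_congr rfl h1]
  exact Finset.sum_range_reflect (fun i => (-1 : W.K) ^ i • pr T X.dim i) (2 * X.dim + 1)

/-- Rational operators commute with the parity of the weights. -/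
lemma IsWt.pp_comm {d : ℤ} {u : Module.End W.K (W.H X)} (hu : ROp W X d u) :
    Commute (pp (C + (X.dim : W.K) • (1 : Module.End W.K (W.H X))) X.dim) u := by
  have hN := hC.node hPol
  apply Ho.pp_comm hN (d := d)
  have h1 := hC.ad hPol hW hI hu
  rw [ad_apply] at h1
  rw [← h1]
  simp only [add_mul, mul_add, smul_mul_assoc, mul_smul_comm, one_mul, mul_one]
  abel

/-- **The parity operator is the parity of the weights.** -/
theorem IsWt.par_eq (hpar : ROp W X 0 (par (W.isInternal X))) :
    par (W.isInternal X) = pp (C + (X.dim : W.K) • (1 : Module.End W.K (W.H X))) X.dim := by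
  have hN := hC.node hPol
  have hCr := hC.rop
  have hadjC := hC.adj_eq hPol hW hI
  have hadjpp := hC.adj_pp hPol hW hI
  have hpp := fun {d : ℤ} {u : Module.End W.K (W.H X)} (hu : ROp W X d u) =>
    hC.pp_comm hPol hW hI hu
  have hadjpr := fun {i j : ℕ} (hij : i + j = 2 * X.dim) => hC.adj_pr hPol hW hI hij
  have hCC := hC.unique hPol hW hI (hC.adj hPol)
  obtain ⟨D, hD, F, hC0, hF, t⟩ := hC
  have hDc := hPol.isCyc X D hD
  have hL : ROp W X 1 (Lop W X D) := rop_mulLeft hDc
  have hLn : Lop W X D ^ (X.dim + 1) = 0 := mulLeft_pow_zero hDc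
  have hadjL : Y163.adj (Lop W X D) = Lop W X D := adj_mulLeft (W.cl_mem hDc)
  have hadjF : Y163.adj F = F := by
    have t2 := sl2_adj t hadjL
    rw [hadjC, neg_neg] at t2
    exact unique_f (K := W.K) t t2.ef t2.he t2.hf
  set L := Lop W X D with hLdef
  set n := X.dim with hn
  set T := C + (n : W.K) • (1 : Module.End W.K (W.H X)) with hT
  have hTa : ∀ a, T a = C a + (n : W.K) • a := fun a => rfl
  set p := par (W.isInternal X) with hp
  set q := pp T n with hq
  set σ := p * q with hσ
  have hpcomm : ∀ {d : ℤ} {u : Module.End W.K (W.H X)}, ROp W X d u → Commute p u :=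
    fun {d u} hu => IsHom.par_comm (W.isInternal X) (rop_opAlg.hom hu)
  have hTr : ROp W X 0 T := by
    have := rop_opAlg.add hCr (rop_opAlg.smul (n : ℚ) rop_opAlg.one)
    rwa [Rat.cast_natCast] at this
  have hprr : ∀ i, ROp W X 0 (pr T n i) := fun i => rop_opAlg.ev hTr _
  have hqp : p * q = q * p := (hpp hpar).symm.eq
  have hpp2 : p * p = 1 := par_mul_par _
  have hqq : q * q = 1 := pp_mul_pp hN
  have hσσ : σ * σ = 1 := by
    rw [hσ]
    nth_rewrite 2 [hqp]
    rw [mul_assoc, ← mul_assoc q, hqq, one_mul, hpp2]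
  have hσcomm : ∀ {d : ℤ} {u : Module.End W.K (W.H X)}, ROp W X d u → Commute σ u :=
    fun {d u} hu => (hpcomm hu).mul_left (hpp hu)
  suffices h1 : σ = 1 by
    have h2 : p * (q * q) = q := by rw [← mul_assoc, ← hσ, h1, one_mul]
    rw [hqq, mul_one] at h2
    exact h2
  by_contra hne
  obtain ⟨k, hk, ⟨x₀, hx₀, hσx₀, hCx₀⟩, hmax⟩ :=
    exists_top t hLn hσσ (hσcomm hCr) (hσcomm hL) hne
  set P := (2 : W.K)⁻¹ • (1 - σ) with hP
  set κ := pr T n (n + k) with hκ
  set κ' := pr T n (n - k) with hκ'
  obtain ⟨h3, h4, h5⟩ := top_op t hLn hσσ (hσcomm hCr) (hσcomm hL) (hσcomm hF) hk hmax hP hκ hκ'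
  set u := F ^ k * (P * κ) with hu
  -- rationality
  have hqr : ROp W X 0 q := by
    rw [hq, pp]
    have h6 : ∀ s : Finset ℕ, ROp W X 0 (∑ i ∈ s, (-1 : W.K) ^ i • pr T n i) := by
      intro s
      classical
      induction s using Finset.induction_on with
      | empty => rw [Finset.sum_empty]; exact rop_opAlg.zero 0
      | insert a s ha ih =>
        rw [Finset.sum_insert ha]
        refine rop_opAlg.add ?_ ih
        have := rop_opAlg.smul (((-1 : ℚ)) ^ a) (hprr a)
        push_cast at this
        exact this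
    exact h6 _
  have hσr : ROp W X 0 σ := rop_opAlg.cast (rop_opAlg.mul hpar hqr) (by ring)
  have hPr : ROp W X 0 P := by
    have h6 := rop_opAlg.smul ((2 : ℚ)⁻¹) (rop_opAlg.add rop_opAlg.one (rop_opAlg.neg hσr))
    push_cast at h6
    rwa [← sub_eq_add_neg] at h6
  have hFk : ∀ m : ℕ, ROp W X (-(m : ℤ)) (F ^ m) := by
    intro m
    induction m with
    | zero => rw [pow_zero]; exact rop_opAlg.cast rop_opAlg.one (by simp)
    | succ m ih => rw [pow_succ]; exact rop_opAlg.cast (rop_opAlg.mul ih hF) (by push_cast; ring)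
  have hur : ROp W X (-(k : ℤ)) u := by
    rw [hu]
    exact rop_opAlg.cast (rop_opAlg.mul (hFk k) (rop_opAlg.mul hPr (hprr _))) (by ring)
  -- the adjoint of `u`
  have hadjσ : Y163.adj σ = σ := by
    rw [hσ, adj_mul, hadjpp, adj_par, hqp]
  have hadjP : Y163.adj P = P := by
    rw [hP, adj_smul, adj_sub, adj_one, hadjσ]
  have hadju : Y163.adj u = κ' * P * F ^ k := by
    rw [hu, adj_mul, adj_mul, adj_pow, hadjF, hadjP, hadjpr (j := n - k) (by omega)]
  -- the cycle
  obtain ⟨z, hz, hzu⟩ := exists_of_rop (p := n - k) (by omega) hur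
  set DD := ops.pull (fst X X) D + ops.pull (snd X X) D with hDD
  have hDDc : (X.prod X).IsCyc 1 DD := SmVar.IsCyc.add (ops.pull_mem _ hDc) (ops.pull_mem _ hDc)
  have hdim : (X.prod X).dim = n + n := rfl
  have hcorr : ∀ m, W.corr (W.cl _ (divPow ops DD m z)) = (dbl L ^ m) u := by
    intro m
    rw [corr_box_pow hDc, hzu]
  have hPκ0 : P * κ ≠ 0 := by
    intro h0
    apply hx₀
    have h6 := congrArg (fun A => A x₀) h0
    have h7 : κ x₀ = x₀ := by
      apply pr_same (by omega)
      rw [hTa, hCx₀, ← add_smul]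
      congr 1
      push_cast
      ring
    have h8 : P x₀ = x₀ := by
      rw [hP, LinearMap.smul_apply, LinearMap.sub_apply, Module.End.one_apply, hσx₀,
        sub_neg_eq_add, ← two_smul W.K, smul_smul, inv_mul_cancel₀ two_ne_zero, one_smul]
    simp only [Module.End.mul_apply, LinearMap.zero_apply] at h6
    rwa [h7, h8] at h6
  set c : ℚ := ((2 * k).choose k : ℚ) * (k.factorial : ℚ) ^ 2 * (k.factorial : ℚ) ^ 2 with hc
  have hc0 : 0 < c := by
    have h6 : 0 < (2 * k).choose k := Nat.choose_pos (by omega)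
    have h7 : 0 < k.factorial := Nat.factorial_pos k
    positivity
  have hu0 : u ≠ 0 := by
    intro h0
    rw [h0, map_zero, zero_mul] at h4
    have h6 := h4.symm
    rw [smul_eq_zero] at h6
    rcases h6 with h6 | h6
    · have h7 : ((c : ℚ) : W.K) = 0 := by
        rw [hc]
        push_cast
        exact h6
      have h8 : c = 0 := by exact_mod_cast h7
      exact hc0.ne' h8
    · exact hPκ0 h6
  have hidx := hI _ (hPol.box X X D hD D hD) (n - k) (by omega) z hz ?_ ?_
  · -- the trace
    have h6 := tr_mul_cl (W := W) hz (divPow_mem (ops := ops) hDDc hz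
      ((X.prod X).dim - 2 * (n - k))) (by omega)
    have e2k : (X.prod X).dim - 2 * (n - k) = 2 * k := by omega
    rw [e2k] at h6 hidx
    have hmem : W.cl _ (divPow ops DD (2 * k) z) ∈ W.gr (X.prod X) (2 * (n - k + 2 * k)) :=
      W.cl_mem (divPow_mem (ops := ops) hDDc hz (2 * k))
    rw [← W.even_comm hmem, tr_mul_eq_trace hmem, hcorr, ← adj_corr (W.cl_mem hz), hzu,
      hadju, mul_assoc, h4, mul_smul_comm] at h6
    have h7 : p * (P * κ) = (-(-1 : W.K) ^ (n + k)) • (P * κ) := by
      apply LinearMap.ext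
      intro x
      rw [Module.End.mul_apply, LinearMap.smul_apply]
      set y := (P * κ) x with hy
      have hσP : ∀ a, σ (P a) = -P a := by
        intro a
        have h2 := congrArg (fun A => A a) hσσ
        simp only [Module.End.mul_apply, Module.End.one_apply] at h2
        rw [hP, LinearMap.smul_apply, map_smul, LinearMap.sub_apply, map_sub, h2,
          Module.End.one_apply, ← smul_neg]
        congr 1
        abel
      have hσy : σ y = -y := hσP (κ x)
      have hTy : T y = ((n + k : ℕ) : W.K) • y := by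
        have h8 : Commute P κ := (((Commute.one_left κ).sub_left
          (hσcomm (hprr (n + k)))).smul_left _)
        rw [hy, h8.eq, Module.End.mul_apply]
        exact pr_eigen hN (by omega) _
      have hqy : q y = (-1 : W.K) ^ (n + k) • y := pp_apply (by omega) hTy
      have h8 : σ y = p (q y) := rfl
      rw [hσy, hqy, map_smul] at h8
      have h9 : (-1 : W.K) ^ (n + k) * (-1 : W.K) ^ (n + k) = 1 := by
        rw [← mul_pow]
        simp
      rw [neg_smul, ← smul_neg, h8, smul_smul, h9, one_smul]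
    have h8 : LinearMap.trace W.K (W.H X) (P * κ) =
        (Module.finrank W.K (LinearMap.range (P * κ)) : W.K) :=
      LinearMap.IsProj.trace (LinearMap.isProj_range_iff_isIdempotentElem _ |>.2 h5)
    have h9 : 0 < Module.finrank W.K (LinearMap.range (P * κ)) := by
      rw [Module.finrank_pos_iff]
      by_contra hcon
      rw [not_nontrivial_iff_subsingleton, Submodule.subsingleton_iff_eq_bot,
        LinearMap.range_eq_bot] at hcon
      exact hPκ0 hcon
    rw [map_smul, h7, map_smul, h8, smul_eq_mul, smul_eq_mul] at h6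
    set r := Module.finrank W.K (LinearMap.range (P * κ)) with hr
    have h10 : ((c * (-(-1 : ℚ) ^ (n + k) * r) : ℚ) : W.K) =
        (((X.prod X).V.degCycle (ops.mul z (divPow ops DD (2 * k) z)) : ℚ) : W.K) := by
      rw [← h6, hc]
      push_cast
      ring
    have h11 : c * (-(-1 : ℚ) ^ (n + k) * r) =
        (X.prod X).V.degCycle (ops.mul z (divPow ops DD (2 * k) z)) := by
      exact_mod_cast h10
    rw [← h11] at hidx
    have h12 : (-1 : ℚ) ^ (n - k) * (-1 : ℚ) ^ (n + k) = 1 := by
      rw [← pow_add, show n - k + (n + k) = 2 * n by omega, pow_mul]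
      simp
    have h13 : (-1 : ℚ) ^ (n - k) * (c * (-(-1 : ℚ) ^ (n + k) * r)) = -(c * r) := by
      linear_combination (-(c * r)) * h12
    rw [h13] at hidx
    have h14 : 0 < c * (r : ℚ) := mul_pos hc0 (by exact_mod_cast h9)
    linarith
  · intro i hi w hw
    have h6 := tr_mul_cl (W := W) (divPow_mem (ops := ops) hDDc hz
      ((X.prod X).dim - 2 * (n - k) + 1)) hw (by omega)
    have h7 : W.cl _ (divPow ops DD ((X.prod X).dim - 2 * (n - k) + 1) z) = 0 := by
      apply corr_inj
      rw [hcorr, show (X.prod X).dim - 2 * (n - k) + 1 = 2 * k + 1 by omega, h3]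
    rw [h7, zero_mul, map_zero] at h6
    exact_mod_cast h6.symm
  · by_contra hcon
    apply hu0
    rw [← hzu, hW (n - k) (by omega) z hz ?_, corr_zero]
    intro w hw
    by_contra hne
    exact hcon ⟨w, hw, hne⟩

end

end Pool.Agent.H843.Ho
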