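import Pool.Agent.H843.Ho6

/-!
# The theory graded by the weights
-/

open CategoryTheory AlgebraicGeometry Function Finset Polynomial

universe u v

set_option linter.unusedSectionVars false

namespace Pool.Agent.H843.Ho

open Pool.Agent.H914 Pool.Agent.H914.VarClass Pool.Agent.H914.VarClass.Obj
  Pool.Agent.H914.WeilCohomology Pool.Agent.R908 Pool.Agent.H447 Pool.Agent.H843.Ex
  Pool.Agent.X310.Jm Pool.Agent.X310.Sec Pool.Agent.Y163

variable {k : Type u} [Field k] {𝒱 : VarClass k} {ops : CycleOps 𝒱}
  {W : WeilCohomology.{u, v} ops} {X Y Z : 𝒱.Obj} {Pol : ∀ X : 𝒱.Obj, Set X.Cycles}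

/-! ### Parity and commutation -/

lemma par_gr {i : ℕ} {a : W.H X} (ha : a ∈ W.gr X i) :
    par (W.isInternal X) a = (-1 : W.K) ^ i • a := by
  rw [par, scal_apply _ _ ha]

lemma even_aux (a b : W.H X) :
    (a + par (W.isInternal X) a) * b = b * (a + par (W.isInternal X) a) := by
  refine gr_induction (W.isInternal X) (p := fun a => (a + par (W.isInternal X) a) * b =
    b * (a + par (W.isInternal X) a)) ?_ ?_ a
  · intro i a ha
    refine gr_induction (W.isInternal X) (p := fun b => (a + par (W.isInternal X) a) * b =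
      b * (a + par (W.isInternal X) a)) ?_ ?_ b
    · intro j b hb
      rw [par_gr ha]
      rcases Nat.even_or_odd i with hi | hi
      · have h1 := W.comm ha hb
        rw [(hi.mul_right j).neg_one_pow, one_smul] at h1
        rw [hi.neg_one_pow, one_smul, add_mul, mul_add, h1]
      · rw [hi.neg_one_pow, neg_one_smul, add_neg_cancel, zero_mul, mul_zero]
    · intro b b' hb hb'
      rw [mul_add, hb, hb', ← add_mul]
  · intro a a' ha ha'
    have h1 : a + a' + par (W.isInternal X) (a + a') =
        (a + par (W.isInternal X) a) + (a' + par (W.isInternal X) a') := by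
      rw [map_add]
      abel
    rw [h1, add_mul, mul_add, ha, ha']

lemma odd_aux (a b : W.H X) :
    (a - par (W.isInternal X) a) * (b - par (W.isInternal X) b) =
      -((b - par (W.isInternal X) b) * (a - par (W.isInternal X) a)) := by
  refine gr_induction (W.isInternal X) (p := fun a => (a - par (W.isInternal X) a) *
    (b - par (W.isInternal X) b) = -((b - par (W.isInternal X) b) *
      (a - par (W.isInternal X) a))) ?_ ?_ a
  · intro i a ha
    refine gr_induction (W.isInternal X) (p := fun b => (a - par (W.isInternal X) a) *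
      (b - par (W.isInternal X) b) = -((b - par (W.isInternal X) b) *
        (a - par (W.isInternal X) a))) ?_ ?_ b
    · intro j b hb
      rw [par_gr ha, par_gr hb]
      rcases Nat.even_or_odd i with hi | hi
      · rw [hi.neg_one_pow, one_smul, sub_self, zero_mul, mul_zero, neg_zero]
      rcases Nat.even_or_odd j with hj | hj
      · rw [hj.neg_one_pow, one_smul, sub_self, zero_mul, mul_zero, neg_zero]
      have h1 := W.comm ha hb
      rw [(hi.mul hj).neg_one_pow, neg_one_smul] at h1
      rw [hi.neg_one_pow, hj.neg_one_pow, neg_one_smul, neg_one_smul, sub_neg_eq_add,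
        sub_neg_eq_add]
      simp only [add_mul, mul_add, h1]
      abel
    · intro b b' hb hb'
      have h1 : b + b' - par (W.isInternal X) (b + b') =
          (b - par (W.isInternal X) b) + (b' - par (W.isInternal X) b') := by
        rw [map_add]
        abel
      rw [h1, mul_add, add_mul, hb, hb', neg_add]
  · intro a a' ha ha'
    have h1 : a + a' - par (W.isInternal X) (a + a') =
        (a - par (W.isInternal X) a) + (a' - par (W.isInternal X) a') := by
      rw [map_add]
      abel
    rw [h1, add_mul, mul_add, ha, ha', neg_add]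

lemma even_of_par {a : W.H X} (ha : par (W.isInternal X) a = a) (b : W.H X) :
    a * b = b * a := by
  have h1 := even_aux a b
  rw [ha, ← two_smul W.K a, smul_mul_assoc, mul_smul_comm] at h1
  exact smul_right_injective _ (two_ne_zero (α := W.K)) h1

lemma odd_of_par {a b : W.H X} (ha : par (W.isInternal X) a = -a)
    (hb : par (W.isInternal X) b = -b) : a * b = -(b * a) := by
  have h1 := odd_aux a b
  rw [ha, hb, sub_neg_eq_add, sub_neg_eq_add, ← two_smul W.K a, ← two_smul W.K b,
    smul_mul_smul_comm, smul_mul_smul_comm, ← smul_neg] at h1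
  exact smul_right_injective _ (mul_ne_zero (two_ne_zero (α := W.K)) two_ne_zero) h1

/-! ### The weights -/

/-- The operator `T = C + n`. -/
noncomputable def Tt (W : WeilCohomology.{u, v} ops) (Cs : ∀ X, Module.End W.K (W.H X))
    (X : 𝒱.Obj) : Module.End W.K (W.H X) :=
  Cs X + (X.dim : W.K) • (1 : Module.End W.K (W.H X))

/-- The grading by the weights. -/
noncomputable def wgr (W : WeilCohomology.{u, v} ops) (Cs : ∀ X, Module.End W.K (W.H X))
    (X : 𝒱.Obj) (i : ℕ) : Submodule W.K (W.H X) :=
  LinearMap.ker (Tt W Cs X - (i : W.K) • (1 : Module.End W.K (W.H X)))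

variable {Cs : ∀ X, Module.End W.K (W.H X)}

lemma mem_wgr {i : ℕ} {a : W.H X} : a ∈ wgr W Cs X i ↔ Tt W Cs X a = (i : W.K) • a := by
  rw [wgr, LinearMap.mem_ker, sub_smul_one_apply, sub_eq_zero]

lemma Tt_apply (a : W.H X) : Tt W Cs X a = Cs X a + (X.dim : W.K) • a := rfl

section

variable (hPol : IsPolSystem ops Pol) (hW : ∀ X, HomEqNum W X)
  (hI : ∀ X, ∀ D ∈ Pol X, NumHodgeIndex ops X D) (hC : ∀ X, IsWt W Pol X (Cs X))
include hPol hW hI hC

lemma Tt_map (f : X ⟶ Y) (b : W.H Y) : Tt W Cs X (W.map f b) = W.map f (Tt W Cs Y b) := by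
  have h1 := wt_corr hPol hW hI (hC Y) (hC X) (KOp.mapHom (W := W) f)
  have h2 := congrArg (fun A => A b) h1
  simp only [LinearMap.sub_apply, LinearMap.comp_apply, LinearMap.smul_apply,
    AlgHom.toLinearMap_apply] at h2
  rw [Tt_apply, Tt_apply, map_add, map_smul]
  rw [sub_eq_iff_eq_add] at h2
  rw [h2]
  push_cast
  module

lemma Tt_mul (a b : W.H X) :
    Tt W Cs X (a * b) = Tt W Cs X a * b + a * Tt W Cs X b := by
  have h1 : a * b = W.map (Obj.diag X) (W.map (fst X X) a * W.map (snd X X) b) := by
    rw [map_mul (W.map (Obj.diag X)), ← W.map_comp, ← W.map_comp, Obj.diag, lift_fst, lift_snd, W.map_id,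
      W.map_id]
  have h2 : ∀ a b : W.H X, W.map (Obj.diag X) (W.map (fst X X) a * W.map (snd X X) b) = a * b := by
    intro a b
    rw [map_mul (W.map (Obj.diag X)), ← W.map_comp, ← W.map_comp, Obj.diag, lift_fst, lift_snd, W.map_id,
      W.map_id]
  rw [h1, Tt_map hPol hW hI hC, Tt_apply (X := X.prod X),
    (hC (X.prod X)).unique hPol (hW _) (hI _) ((hC X).prod hPol (hC X)), LinearMap.add_apply,
    extOp_tmul, extOp_tmul, Module.End.one_apply, Module.End.one_apply, map_add, map_add,
    map_smul, h2, h2, h2, Tt_apply, Tt_apply, dim_prod, add_mul, mul_add, smul_mul_assoc,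
    mul_smul_comm]
  push_cast
  module

omit hW hI in
lemma Tt_one : Tt W Cs X 1 = 0 := by
  rw [Tt_apply, (hC X).one hPol, ← add_smul, neg_add_cancel, zero_smul]

omit hW hI in
lemma Tt_node : aeval (Tt W Cs X) (nodeP W.K X.dim) = 0 := (hC X).node hPol

lemma tr_Tt (a : W.H X) : W.tr X (Tt W Cs X a) = (2 * X.dim : W.K) * W.tr X a := by
  have h1 := (hC X).adj_T hPol (hW _) (hI _)
  have h2 := adj_spec (Tt W Cs X) a 1
  rw [mul_one] at h2
  rw [h2]
  have h3 : Y163.adj (Tt W Cs X) 1 = (2 * X.dim : W.K) • (1 : W.H X) := by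
    rw [Tt, h1, LinearMap.add_apply, LinearMap.neg_apply, (hC X).one hPol, LinearMap.smul_apply,
      Module.End.one_apply]
    module
  rw [h3, mul_smul_comm, mul_one, map_smul, smul_eq_mul]

lemma wgr_map_mem (f : X ⟶ Y) {i : ℕ} {b : W.H Y} (hb : b ∈ wgr W Cs Y i) :
    W.map f b ∈ wgr W Cs X i := by
  rw [mem_wgr] at hb ⊢
  rw [Tt_map hPol hW hI hC, hb, map_smul]

lemma wgr_cl_mem {p : ℕ} {z : X.Cycles} (hz : X.IsCyc p z) :
    W.cl X z ∈ wgr W Cs X (2 * p) := by
  rw [mem_wgr, Tt_apply, (hC X).cl hPol (hW _) (hI _) hz, ← add_smul]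
  congr 1
  push_cast
  ring

lemma wgr_isInternal : DirectSum.IsInternal (wgr W Cs X) := by
  have hN := Tt_node hPol hC (X := X)
  refine isInternal_of_proj (fun i => if i < 2 * X.dim + 1 then pr (Tt W Cs X) X.dim i else 0)
    (2 * X.dim + 1) ?_ ?_ ?_ ?_
  · intro i a
    rw [mem_wgr]
    by_cases hi : i < 2 * X.dim + 1
    · simp only [if_pos hi]
      exact pr_eigen hN hi a
    · simp only [if_neg hi, LinearMap.zero_apply, map_zero, smul_zero]
  · intro i a ha
    rw [mem_wgr] at ha
    by_cases hi : i < 2 * X.dim + 1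
    · simp only [if_pos hi]
      exact pr_same hi ha
    · simp only [if_neg hi, LinearMap.zero_apply]
      by_contra h0
      obtain ⟨j, hj, hj2⟩ := eig_lt hN ha (Ne.symm h0)
      have : i = j := by exact_mod_cast hj2
      omega
  · intro i j hij a ha
    rw [mem_wgr] at ha
    by_cases hj : j < 2 * X.dim + 1
    · simp only [if_pos hj]
      by_cases h0 : a = 0
      · rw [h0, map_zero]
      · obtain ⟨l, hl, hl2⟩ := eig_lt hN ha h0
        have : i = l := by exact_mod_cast hl2
        subst this
        exact pr_ne (Ne.symm hij) hl ha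
    · simp only [if_neg hj, LinearMap.zero_apply]
  · intro a
    have e1 := congrArg (fun A => A a) (pr_sum (Tt W Cs X) X.dim)
    simp only [LinearMap.sum_apply, Module.End.one_apply] at e1
    conv_rhs => rw [← e1]
    refine Finset.sum_congr rfl fun i hi => ?_
    simp only [if_pos (Finset.mem_range.1 hi)]

lemma wgr_zero : wgr W Cs X 0 = Submodule.span W.K {1} := by
  apply le_antisymm
  · intro a ha
    rw [mem_wgr, Nat.cast_zero, zero_smul] at ha
    obtain ⟨D, hD⟩ := hPol.nonempty X
    -- the weight operator belongs to the divisor `D`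
    obtain ⟨D, hD, F, h1, h2, t⟩ := hC X
    have hDc := hPol.isCyc X D hD
    -- the component of degree zero
    set a₀ := proj (W.isInternal X) 0 a with ha₀
    have ha₀m : a₀ ∈ W.gr X 0 := proj_mem _ _ _
    rw [W.gr_zero, Submodule.mem_span_singleton] at ha₀m
    obtain ⟨c, hc⟩ := ha₀m
    have hL : ∀ b : W.H X, proj (W.isInternal X) 0 b = 0 → (Lop W X D ^ X.dim) b = 0 := by
      intro b hb
      have h3 : (Lop W X D ^ X.dim) b =
          (Lop W X D ^ X.dim) (proj (W.isInternal X) 0 b) := by
        refine gr_induction (W.isInternal X) (p := fun b => (Lop W X D ^ X.dim) b =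
          (Lop W X D ^ X.dim) (proj (W.isInternal X) 0 b)) ?_ ?_ b
        · intro i b hb
          by_cases hi : i = 0
          · subst hi
            rw [proj_same _ hb]
          · rw [proj_ne _ hb hi, map_zero]
            have h4 := lefPow_mem hDc (m := X.dim) hb
            rw [W.gr_eq_bot X _ (by omega)] at h4
            have h5 := (Submodule.mem_bot _).1 h4
            rw [← LL_pow_eq] at h5
            exact h5
        · intro b b' hb hb'
          rw [map_add, hb, hb', map_add, map_add]
      rw [h3, hb, map_zero]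
    have h3 : (Lop W X D ^ X.dim) (a - c • 1) = 0 := by
      apply hL
      rw [map_sub, ← ha₀, ← hc]
      have h4 : c • (1 : W.H X) ∈ W.gr X 0 := Submodule.smul_mem _ _ (W.one_mem X)
      rw [proj_same _ h4, sub_self]
    have h4 : (-Cs X) (a - c • 1) = (X.dim : W.K) • (a - c • 1) := by
      have h5 := Tt_one hPol hC (X := X)
      rw [Tt_apply] at ha h5
      rw [LinearMap.neg_apply, map_sub, map_smul, eq_neg_of_add_eq_zero_left ha,
        eq_neg_of_add_eq_zero_left h5]
      module
    have h5 := f_pow_inj t.neg_swap h4 (neg_pow_zero h3)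
    rw [sub_eq_zero] at h5
    rw [h5]
    exact Submodule.smul_mem _ _ (Submodule.mem_span_singleton_self 1)
  · rw [Submodule.span_singleton_le_iff_mem, mem_wgr, Tt_one hPol hC, Nat.cast_zero, zero_smul]

variable (hpar : ∀ X, ROp W X 0 (par (W.isInternal X)))
include hpar

lemma par_wgr {i : ℕ} {a : W.H X} (ha : a ∈ wgr W Cs X i) :
    par (W.isInternal X) a = (-1 : W.K) ^ i • a := by
  have hN := Tt_node hPol hC (X := X)
  rw [mem_wgr] at ha
  by_cases h0 : a = 0
  · rw [h0, map_zero, smul_zero]
  obtain ⟨l, hl, hl2⟩ := eig_lt hN ha h0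
  have : i = l := by exact_mod_cast hl2
  subst this
  rw [(hC X).par_eq hPol (hW _) (hI _) (hpar X)]
  exact pp_apply hl ha

lemma wgr_comm {i j : ℕ} {a b : W.H X} (ha : a ∈ wgr W Cs X i) (hb : b ∈ wgr W Cs X j) :
    a * b = (-1 : W.K) ^ (i * j) • (b * a) := by
  have h1 := par_wgr hPol hW hI hC hpar ha
  have h2 := par_wgr hPol hW hI hC hpar hb
  rcases Nat.even_or_odd i with hi | hi
  · rw [hi.neg_one_pow, one_smul] at h1
    rw [(hi.mul_right j).neg_one_pow, one_smul]
    exact even_of_par h1 b
  rcases Nat.even_or_odd j with hj | hj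
  · rw [hj.neg_one_pow, one_smul] at h2
    rw [(hj.mul_left i).neg_one_pow, one_smul]
    exact (even_of_par h2 a).symm
  · rw [hi.neg_one_pow, neg_one_smul] at h1
    rw [hj.neg_one_pow, neg_one_smul] at h2
    rw [(hi.mul hj).neg_one_pow, neg_one_smul]
    exact odd_of_par h1 h2

lemma wgr_poincare : IsPoincareAlgebra (wgr W Cs X) X.dim (W.tr X) where
  finite := W.finite X
  isInternal := wgr_isInternal hPol hW hI hC
  one_mem := by rw [mem_wgr, Tt_one hPol hC, Nat.cast_zero, zero_smul]
  mul_mem := by
    intro i j a b ha hb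
    rw [mem_wgr] at ha hb ⊢
    rw [Tt_mul hPol hW hI hC, ha, hb, smul_mul_assoc, mul_smul_comm, ← add_smul]
    push_cast
    rfl
  comm := fun ha hb => wgr_comm hPol hW hI hC hpar ha hb
  gr_zero := wgr_zero hPol hW hI hC
  gr_eq_bot := by
    intro i hi
    rw [eq_bot_iff]
    intro a ha
    rw [mem_wgr] at ha
    rw [Submodule.mem_bot]
    by_contra h0
    obtain ⟨l, hl, hl2⟩ := eig_lt (Tt_node hPol hC (X := X)) ha h0
    have : i = l := by exact_mod_cast hl2
    omega
  tr_eq_zero := by
    intro i a ha hi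
    rw [mem_wgr] at ha
    have h1 := tr_Tt hPol hW hI hC a
    rw [ha, map_smul, smul_eq_mul] at h1
    have h2 : ((i : W.K) - 2 * X.dim) * W.tr X a = 0 := by rw [sub_mul, h1, sub_self]
    rcases mul_eq_zero.1 h2 with h3 | h3
    · exfalso
      apply hi
      rw [sub_eq_zero] at h3
      exact_mod_cast h3
    · exact h3
  nondeg := fun a h => W.nondeg a h

end

/-- The data of the theory graded by the weights. -/
noncomputable def newData (W : WeilCohomology.{u, v} ops) (Cs : ∀ X, Module.End W.K (W.H X)) :
    WeilData.{u, v} 𝒱 :=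
  { W.toWeilData with gr := wgr W Cs }

/-- **The theory graded by the weights.** -/
noncomputable def newTheory (W : WeilCohomology.{u, v} ops) (Cs : ∀ X, Module.End W.K (W.H X))
    (hPol : IsPolSystem ops Pol) (hW : ∀ X, HomEqNum W X)
    (hI : ∀ X, ∀ D ∈ Pol X, NumHodgeIndex ops X D) (hC : ∀ X, IsWt W Pol X (Cs X))
    (hpar : ∀ X, ROp W X 0 (par (W.isInternal X))) : WeilCohomology.{u, v} ops where
  toWeilData := newData W Cs
  isPoincareAlgebra X := wgr_poincare hPol hW hI hC hpar
  isFunctorial :=
    { map_id := W.isFunctorial.map_id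
      map_comp := W.isFunctorial.map_comp
      isPullPush := fun {X Y} f =>
        { map_mem := fun hb => wgr_map_mem hPol hW hI hC f hb
          tr_push := (W.isFunctorial.isPullPush f).tr_push } }
  isKunneth := W.isKunneth
  isCycleMap X :=
    { cl_mem := fun hz => wgr_cl_mem hPol hW hI hC hz
      cl_fund := (W.isCycleMap X).cl_fund
      tr_cl := (W.isCycleMap X).tr_cl }
  isCompatible :=
    { cl_mul := W.isCompatible.cl_mul
      cl_pull := W.isCompatible.cl_pull
      cl_push := W.isCompatible.cl_push }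

end Pool.Agent.H843.Ho
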