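import Pool.Agent.H843.Ho7
import Pool.Graph.R_seed8.TH133.PW.Ev
import Pool.Graph.R_seed8.H447R3.SpC

/-!
# The standard conjectures for the theory graded by the weights
-/

open CategoryTheory AlgebraicGeometry Function Filter Finset Polynomial

universe u v

set_option linter.unusedSectionVars false

namespace Pool.Agent.H843.Ho

open Pool.Agent.H914 Pool.Agent.H914.VarClass Pool.Agent.H914.VarClass.Obj
  Pool.Agent.H914.WeilCohomology Pool.Agent.R908 Pool.Agent.H447 Pool.Agent.H843.Ex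
  Pool.Agent.X310.Jm Pool.Agent.X310.Sec Pool.Agent.Y163 Pool.Agent.N180.Cf Pool.Agent.W537

variable {k : Type u} [Field k] {𝒱 : VarClass k} {ops : CycleOps 𝒱}
  {W : WeilCohomology.{u, v} ops} {X Y Z : 𝒱.Obj} {Pol : ∀ X : 𝒱.Obj, Set X.Cycles}
  {Cs : ∀ X, Module.End W.K (W.H X)}

section

variable (hPol : IsPolSystem ops Pol) (hW : ∀ X, HomEqNum W X)
  (hI : ∀ X, ∀ D ∈ Pol X, NumHodgeIndex ops X D) (hC : ∀ X, IsWt W Pol X (Cs X))
include hPol hW hI hC

lemma exists_F {D : X.Cycles} (hD : D ∈ Pol X) : ∃ F, Sl2 (Cs X) (Lop W X D) F := by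
  obtain ⟨C, F, h1, h2, t⟩ := exists_triple (hW _) (hPol.isCyc X D hD)
  have h3 : IsWt W Pol X C := ⟨D, hD, F, h1, h2, t⟩
  have h4 := h3.unique hPol (hW _) (hI _) (hC X)
  subst h4
  exact ⟨F, t⟩

omit hPol hW hI hC in
lemma wgr_weight {i : ℕ} {a : W.H X} (ha : a ∈ wgr W Cs X i) :
    Cs X a = ((i : W.K) - X.dim) • a := by
  rw [mem_wgr, Tt_apply] at ha
  rw [sub_smul, ← ha, add_sub_cancel_right]

omit hPol hW hI hC in
lemma weight_wgr {i : ℕ} {a : W.H X} (ha : Cs X a = ((i : W.K) - X.dim) • a) :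
    a ∈ wgr W Cs X i := by
  rw [mem_wgr, Tt_apply, ha, ← add_smul, sub_add_cancel]

/-- Hard Lefschetz for the grading by the weights. -/
lemma wgr_hardLef {D : X.Cycles} (hD : D ∈ Pol X) :
    HardLef (wgr W Cs X) X.dim (Lop W X D) := by
  obtain ⟨F, t⟩ := exists_F hPol hW hI hC hD
  intro i hi
  have hinj : ∀ a ∈ wgr W Cs X i, (Lop W X D ^ (X.dim - i)) a = 0 → a = 0 := by
    intro a ha h0
    have h1 := wgr_weight ha
    refine f_pow_inj t.neg_swap (c := X.dim - i) ?_ (neg_pow_zero h0)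
    rw [LinearMap.neg_apply, h1, ← neg_smul]
    congr 1
    rw [Nat.cast_sub hi]
    ring
  refine ⟨hinj, ?_⟩
  set U := wgr W Cs X (2 * X.dim - i) with hU
  set m := X.dim - i with hm
  have hF : ∀ b ∈ U, (F ^ m) b ∈ wgr W Cs X i := by
    intro b hb
    apply weight_wgr
    rw [h_fpow t (wgr_weight hb)]
    congr 1
    rw [Nat.cast_sub (by omega : i ≤ 2 * X.dim), hm, Nat.cast_sub hi]
    push_cast
    ring
  have hL : ∀ a ∈ wgr W Cs X i, (Lop W X D ^ m) a ∈ U := by
    intro a ha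
    apply weight_wgr
    rw [h_epow t (wgr_weight ha)]
    congr 1
    rw [Nat.cast_sub (by omega : i ≤ 2 * X.dim), hm, Nat.cast_sub hi]
    push_cast
    ring
  have hst : ∀ b ∈ U, (Lop W X D ^ m * F ^ m) b ∈ U := fun b hb => hL _ (hF b hb)
  have hinjE : Function.Injective ((Lop W X D ^ m * F ^ m).restrict hst) := by
    rw [← LinearMap.ker_eq_bot, LinearMap.ker_eq_bot']
    rintro ⟨b, hb⟩ h0
    have h1 : (Lop W X D ^ m) ((F ^ m) b) = 0 := congrArg Subtype.val h0
    have h2 := hinj _ (hF b hb) h1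
    refine Subtype.ext (f_pow_inj t (c := m) ?_ h2)
    rw [wgr_weight hb]
    congr 1
    rw [Nat.cast_sub (by omega : i ≤ 2 * X.dim), hm, Nat.cast_sub hi]
    push_cast
    ring
  intro b hb
  obtain ⟨⟨y, hy⟩, hye⟩ := (LinearMap.injective_iff_surjective.1 hinjE) ⟨b, hb⟩
  exact ⟨(F ^ m) y, hF y hy, congrArg Subtype.val hye⟩

/-- The projectors of the grading by the weights are algebraic. -/
lemma wgr_projector (i : ℕ) : ∃ P, (X.prod X).IsCyc X.dim P ∧
    IsProjector (wgr W Cs X) i (W.corr (W.cl (X.prod X) P)) := by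
  have hN := Tt_node hPol hC (X := X)
  have hT : ROp W X 0 (Tt W Cs X) := by
    have := rop_opAlg.add (hC X).rop (rop_opAlg.smul (X.dim : ℚ) rop_opAlg.one)
    rwa [Rat.cast_natCast] at this
  by_cases hi : i < 2 * X.dim + 1
  · obtain ⟨z, hz, hz'⟩ := exists_of_rop (p := X.dim) (by simp)
      (rop_opAlg.ev hT (lp X.dim i))
    refine ⟨z, hz, fun j a ha => ?_⟩
    rw [hz']
    have ha' := mem_wgr.1 ha
    change pr (Tt W Cs X) X.dim i a = _
    split_ifs with hj
    · subst hj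
      exact pr_same hi ha'
    · by_cases h0 : a = 0
      · rw [h0, map_zero]
      obtain ⟨l, hl, hl2⟩ := eig_lt hN ha' h0
      have : j = l := by exact_mod_cast hl2
      subst this
      exact pr_ne (Ne.symm hj) hl ha'
  · refine ⟨0, SmVar.IsCyc.zero _ _, fun j a ha => ?_⟩
    rw [map_zero, corr_zero, LinearMap.zero_apply]
    split_ifs with hj
    · subst hj
      have ha' := mem_wgr.1 ha
      by_contra h0
      obtain ⟨l, hl, hl2⟩ := eig_lt hN ha' (Ne.symm h0)
      have : j = l := by exact_mod_cast hl2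
      omega
    · rfl

end

/-- Numerically primitive cycles have primitive classes, if homological and numerical equivalence
agree. -/
lemma numPrimitive_iff (hW : HomEqNum W X) {D : X.Cycles} (hD : X.IsCyc 1 D) {j : ℕ}
    (hj : 2 * j ≤ X.dim) {z : X.Cycles} (hz : X.IsCyc j z) :
    NumPrimitive ops X D j z ↔ W.cl X (divPow ops D (X.dim - 2 * j + 1) z) = 0 := by
  have hmem := divPow_mem (ops := ops) hD hz (X.dim - 2 * j + 1)
  constructor
  · intro h
    rcases j.eq_zero_or_pos with rfl | hj0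
    · have h1 := W.cl_mem hmem
      rw [W.gr_eq_bot X _ (by omega)] at h1
      exact (Submodule.mem_bot _).1 h1
    · refine hW _ (by omega) _ hmem fun w hw => ?_
      exact h (j - 1) (by omega) w (by
        rwa [show X.dim - (j + (X.dim - 2 * j + 1)) = j - 1 by omega] at hw)
  · intro h i hi w hw
    have h3 := tr_mul_cl (W := W) hmem hw (by omega)
    rw [h, zero_mul, map_zero] at h3
    exact_mod_cast h3.symm

lemma numNonzero_iff (hW : HomEqNum W X) {j : ℕ} (hj : j ≤ X.dim) {z : X.Cycles}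
    (hz : X.IsCyc j z) : NumNonzero ops X (X.dim - j) z ↔ W.cl X z ≠ 0 := by
  constructor
  · rintro ⟨w, hw, h⟩ h0
    apply h
    have h3 := tr_mul_cl (W := W) hz hw (by omega)
    rw [h0, zero_mul, map_zero] at h3
    exact_mod_cast h3.symm
  · intro h
    by_contra hcon
    apply h
    refine hW j hj z hz fun w hw => ?_
    by_contra hne
    exact hcon ⟨w, hw, hne⟩

/-- If homological and numerical equivalence agree, the conjecture of Hodge type is the numerical
Hodge index theorem. -/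
lemma hodgeType_iff (hW : HomEqNum W X) {D : X.Cycles} (hD : X.IsCyc 1 D) :
    HodgeType W X D ↔ NumHodgeIndex ops X D := by
  constructor
  · intro h j hj z hz h1 h2
    exact h j hj z hz ((numPrimitive_iff hW hD hj hz).1 h1)
      ((numNonzero_iff hW (by omega) hz).1 h2)
  · intro h j hj z hz h1 h2
    exact h j hj z hz ((numPrimitive_iff hW hD hj hz).2 h1)
      ((numNonzero_iff hW (by omega) hz).2 h2)

/-- **All standard conjectures for the theory graded by the weights.** -/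
theorem allStandard_new (hPol : IsPolSystem ops Pol) (hW : ∀ X, HomEqNum W X)
    (hI : ∀ X, ∀ D ∈ Pol X, NumHodgeIndex ops X D) (hC : ∀ X, IsWt W Pol X (Cs X))
    (hpar : ∀ X, ROp W X 0 (par (W.isInternal X))) :
    AllStandard (newTheory W Cs hPol hW hI hC hpar) Pol := by
  have hnum : ∀ X, HomEqNum (newTheory W Cs hPol hW hI hC hpar) X := fun X => hW X
  intro X
  refine ⟨fun i => wgr_projector hPol hW hI hC i, hnum X, fun D hD => ?_⟩
  have hDc := hPol.isCyc X D hD
  have hHL : HardLefschetz (newTheory W Cs hPol hW hI hC hpar) X D :=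
    wgr_hardLef hPol hW hI hC hD
  exact ⟨hHL, lefschetzB_of_inverts hDc hHL fun i hi => exists_inverts hDc (hnum _) hi
    (inj_of_lefschetzIn ((hardLefschetz_iff hDc).1 hHL i hi)),
    (hodgeType_iff (hnum X) hDc).2 (hI X D hD)⟩

/-! ### The sign conjecture for the limit theory -/

lemma signStd_of_alg (h : SignOpAlgebraic W X) : SignStd W X := by
  obtain ⟨φ, ⟨γ, hγ, rfl⟩, hφ⟩ := h
  apply Pool.Agent.TH133.PW.signStd_of_span
  refine ⟨(2 : W.K)⁻¹ • (1 + W.corr γ), ?_, ?_⟩
  · rw [Pool.Agent.TH133.PW.span_cycleOperators0]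
    refine Submodule.smul_mem _ _ (Submodule.add_mem _ (KOp.id X) ?_)
    rw [mem_KOp_iff]
    exact ⟨γ, by rw [add_zero]; exact hγ, rfl⟩
  · intro j a ha
    rw [LinearMap.smul_apply, LinearMap.add_apply, Module.End.one_apply, hφ j a ha]
    split_ifs with hj
    · rw [hj.neg_one_pow, one_smul, ← two_smul W.K a, smul_smul, inv_mul_cancel₀ two_ne_zero,
        one_smul]
    · rw [(Nat.not_even_iff_odd.1 hj).neg_one_pow, neg_one_smul, add_neg_cancel, smul_zero]

lemma alg_of_signStd (h : SignStd W X) : SignOpAlgebraic W X := by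
  have h1 := KOp.ofRop (par_rop_of_sign h)
  obtain ⟨γ, hγ, hγ'⟩ := mem_KOp_iff.1 h1
  rw [add_zero] at hγ
  refine ⟨_, ⟨γ, hγ, rfl⟩, ?_⟩
  intro i a ha
  rw [hγ', par, scal_apply _ _ ha]

section Star

variable {𝒟 : Sys W} {𝒰 : Ultrafilter 𝒱.Obj}
  (h𝒰 : ∀ V, ∀ᶠ i in (𝒰 : Filter 𝒱.Obj), Dom W i V)

theorem sign_star (h : SignStd W X) : SignStd (Ex.star 𝒟 h𝒰) X := by
  obtain ⟨z, hz, hz'⟩ := h
  refine ⟨z, hz, ?_⟩
  rintro j _ ⟨a, ha, rfl⟩
  refine (corr_star h𝒰 z a).trans ?_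
  -- the projector commutes with the projectors onto the weights
  have hg : ∀ i, Dom W i X → ∀ x ∈ W.gr X j,
      Spl.grL (𝒟.D i X) (𝒟.D i X) (W.corr (W.cl (X.prod X) z)) x = if Even j then x else 0 := by
    intro i hi x hx
    have h1 : Spl.grL (𝒟.D i X) (𝒟.D i X) (W.corr (W.cl (X.prod X) z)) x =
        ∑ s ∈ (𝒟.D i X).S, if Even j then (𝒟.D i X).P s x else 0 := by
      rw [Spl.grL, LinearMap.sum_apply]
      refine Finset.sum_congr rfl fun s _ => ?_
      have h2 := (𝒟.wt i X).hom s j x hx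
      rw [LinearMap.comp_apply, LinearMap.comp_apply, hz' j _ h2]
      split_ifs
      · rw [(𝒟.D i X).P_P]
      · rw [map_zero]
    rw [h1]
    split_ifs
    · exact (𝒟.D i X).sum x
    · exact Finset.sum_const_zero
  by_cases hj : Even j
  · refine Eq.trans ?_ (if_pos hj).symm
    apply mk_eq
    filter_upwards [h𝒰 X] with i hi
    rw [hg i hi _ (ha i), if_pos hj]
  · refine Eq.trans ?_ (if_neg hj).symm
    apply mk_eq
    filter_upwards [h𝒰 X] with i hi
    rw [hg i hi _ (ha i), if_neg hj]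

end Star

/-- **Main theorem.** -/
theorem main (hPol : IsPolSystem ops Pol) (hP : ∃ P : 𝒱.Obj, P.dim = 0) :
    ((∃ W : WeilCohomology.{u, max (u + 1) v} ops, SignAll W) ∧
      ∀ X, ∀ D ∈ Pol X, NumHodgeIndex ops X D) ↔
    ∃ W : WeilCohomology.{u, max (u + 1) v} ops, AllStandard W Pol := by
  constructor
  · rintro ⟨⟨W, hsign⟩, hI⟩
    obtain ⟨P, hP⟩ := hP
    have hdeg : ∀ X : 𝒱.Obj, ∃ z, X.IsCyc X.dim z ∧ X.V.degCycle z ≠ 0 := by
      intro X
      obtain ⟨D, hD⟩ := hPol.nonempty X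
      have h1 := divPow_mem (ops := ops) (hPol.isCyc X D hD) X.V.fundCycle_mem X.dim
      rw [zero_add] at h1
      exact ⟨_, h1, (hPol.degree_pos X D hD).ne'⟩
    obtain ⟨𝒟⟩ := exists_sys W hsign hP
    obtain ⟨𝒰, h𝒰⟩ := exists_ultra (W := W) hdeg P
    have hnum := fun X => homEqNum_star.{u, max (u + 1) v} (𝒟 := 𝒟) h𝒰 X
    have hpar : ∀ X, ROp (Ex.star.{u, max (u + 1) v} 𝒟 h𝒰) X 0
        (par ((Ex.star.{u, max (u + 1) v} 𝒟 h𝒰).isInternal X)) := fun X =>
      par_rop_of_sign (sign_star h𝒰 (signStd_of_alg (hsign X)))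
    have hex : ∀ X, ∃ C, IsWt (Ex.star.{u, max (u + 1) v} 𝒟 h𝒰) Pol X C := by
      intro X
      obtain ⟨D, hD⟩ := hPol.nonempty X
      obtain ⟨C, F, h1, h2, t⟩ := exists_triple (hnum _) (hPol.isCyc X D hD)
      exact ⟨C, D, hD, F, h1, h2, t⟩
    choose Cs hC using hex
    exact ⟨_, allStandard_new hPol hnum hI hC hpar⟩
  · rintro ⟨W, hW⟩
    refine ⟨⟨W, fun X => alg_of_signStd (sign_of_kunneth fun i => ?_)⟩, fun X D hD => ?_⟩
    · exact kunneth_rop (hW X).1 i
    · exact (hodgeType_iff (hW X).2.1 (hPol.isCyc X D hD)).1 ((hW X).2.2 D hD).2.2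

/-- For a theory and a divisor, hard Lefschetz and the conjecture B are a statement about Betti
numbers, once some theory satisfies them. -/
theorem lef_iff_betti {W₀ W : WeilCohomology.{u, v} ops} {D : X.Cycles} (hD : X.IsCyc 1 D)
    (h₀ : HardLefschetz W₀ X D ∧ LefschetzB W₀ X D) :
    (HardLefschetz W X D ∧ LefschetzB W X D) ↔ ∀ i ≤ X.dim, W.betti X i = W₀.betti X i := by
  obtain ⟨Λ, hΛ⟩ := oneCycle hD le_rfl W₀
    (fun i hi => inverts_of_lefschetzB hD h₀.1 h₀.2 hi)
  constructor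
  · rintro ⟨h1, h2⟩
    exact ((hΛ W).out 0 3).2 (fun i hi => inverts_of_lefschetzB hD h1 h2 hi)
  · intro h
    have h1 := ((hΛ W).out 0 3).1 h
    have hHL : HardLefschetz W X D := by
      rw [hardLefschetz_iff hD]
      intro i hi
      obtain ⟨z, hz⟩ := h1 i hi
      exact lefschetzIn_of_inverts hD hi hz
    exact ⟨hHL, lefschetzB_of_inverts hD hHL h1⟩

end Pool.Agent.H843.Ho
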