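import Pool.Graph.R_seed8.H914R2.DDefs
import Pool.Graph.R_pool_sql_team_seeded_63374d34.N180.CfDefs

/-!
# The numerical Hodge index theorem: definitions
-/

open CategoryTheory AlgebraicGeometry

universe u v

namespace Pool.Agent.H843

open Pool.Agent.H914 Pool.Agent.H914.VarClass Pool.Agent.H914.VarClass.Obj
  Pool.Agent.H914.WeilCohomology

variable {k : Type u} [Field k] {𝒱 : VarClass k}

/-- The sets `Pol X` of divisors on the varieties `X` of the class behave like the sets of all
ample divisors: they are not empty, the degree of `D ^ dim X` is positive for `D` in `Pol X`, and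
the divisor `D × Y + X × E` on `X × Y` is in `Pol (X × Y)` for `D` in `Pol X` and `E` in
`Pol Y`. -/
structure IsPolSystem (ops : CycleOps 𝒱) (Pol : ∀ X : 𝒱.Obj, Set X.Cycles) : Prop where
  nonempty : ∀ X, (Pol X).Nonempty
  isCyc : ∀ X, ∀ D ∈ Pol X, X.IsCyc 1 D
  degree_pos : ∀ X, ∀ D ∈ Pol X, 0 < X.V.degCycle (divPow ops D X.dim X.V.fundCycle)
  box : ∀ X Y, ∀ D ∈ Pol X, ∀ E ∈ Pol Y,
    ops.pull (fst X Y) D + ops.pull (snd X Y) E ∈ Pol (X.prod Y)

/-- The cycle `z` of codimension `j` on `X` is numerically primitive for the divisor `D`: the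
intersection numbers of `D ^ (n - 2 j + 1) · z`, `n = dim X`, with all cycles of the complementary
codimension `j - 1` vanish (no condition if `j = 0`). -/
def NumPrimitive (ops : CycleOps 𝒱) (X : 𝒱.Obj) (D : X.Cycles) (j : ℕ) (z : X.Cycles) : Prop :=
  ∀ i, i + 1 = j → ∀ w, X.IsCyc i w →
    X.V.degCycle (ops.mul (divPow ops D (X.dim - 2 * j + 1) z) w) = 0

/-- The cycle `z` is not numerically equivalent to zero: some intersection number with a cycle of
codimension `q` (the complementary codimension) is not zero. -/
def NumNonzero (ops : CycleOps 𝒱) (X : 𝒱.Obj) (q : ℕ) (z : X.Cycles) : Prop :=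
  ∃ w, X.IsCyc q w ∧ X.V.degCycle (ops.mul z w) ≠ 0

/-- The numerical Hodge index theorem (the standard conjecture of Hodge type for numerical
equivalence) for the variety `X` of dimension `n` and the divisor `D`: for `2 j ≤ n` and every
numerically primitive cycle `z` of codimension `j` which is not numerically equivalent to zero,
the sign of the intersection number `z · z · D ^ (n - 2 j)` is `(-1) ^ j`. No cohomology occurs in
this statement. -/
def NumHodgeIndex (ops : CycleOps 𝒱) (X : 𝒱.Obj) (D : X.Cycles) : Prop :=
  ∀ j, 2 * j ≤ X.dim → ∀ z, X.IsCyc j z → NumPrimitive ops X D j z →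
    NumNonzero ops X (X.dim - j) z →
    0 < (-1 : ℚ) ^ j * X.V.degCycle (ops.mul z (divPow ops D (X.dim - 2 * j) z))

variable {ops : CycleOps 𝒱}

/-- The Weil cohomology theory `W` satisfies all standard conjectures of Grothendieck on all
varieties of the class, for the divisors in `Pol X`: the conjecture C (the Kunneth projectors are
algebraic), the conjecture D (homological and numerical equivalence coincide), the hard Lefschetz
theorem and the conjecture B (the operator `Λ` is algebraic) for all `D` in `Pol X`, and the
conjecture of Hodge type for all `D` in `Pol X`. -/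
def AllStandard (W : WeilCohomology.{u, v} ops) (Pol : ∀ X : 𝒱.Obj, Set X.Cycles) : Prop :=
  ∀ X : 𝒱.Obj, KunnethStd W X ∧ HomEqNum W X ∧
    ∀ D ∈ Pol X, HardLefschetz W X D ∧ LefschetzB W X D ∧ HodgeType W X D

end Pool.Agent.H843
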