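import Pool.Graph.R_pool_sql_team_seeded_ab47071d.TH90.Kim.Light

/-!
# The numerical dimension of an object of a rigid category: definitions
-/

open CategoryTheory MonoidalCategory Limits BraidedCategory

universe u v

set_option autoImplicit false

namespace Pool.Agent.H843.Km

open Pool.Agent.TH90.Kim Pool.Agent.TH90.AB

noncomputable section

variable {𝒜 : Type u} [Category.{v} 𝒜] [MonoidalCategory 𝒜] [SymmetricCategory 𝒜]
  [Preadditive 𝒜] [MonoidalPreadditive 𝒜] [Linear ℚ 𝒜] [MonoidalLinear ℚ 𝒜]
  [hdual : ∀ X : 𝒜, HasRightDual X]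

/-- The morphism is numerically trivial: all its compositions with morphisms in the other direction
have trace zero. -/
def NumTrivial {X Y : 𝒜} (f : X ⟶ Y) : Prop := ∀ g : Y ⟶ X, tr (f ≫ g) = 0

/-- `T ∘ T` is numerically equal to the identity. -/
def NumInvolution {M : 𝒜} (S : M ⟶ M) : Prop := NumTrivial (S ≫ S - 𝟙 M)

/-- The numerical dimension: the largest trace of an endomorphism `S` of `M` for which `S ∘ S` is
numerically equal to the identity. -/
def numDim (M : 𝒜) : ℕ :=
  sSup {n : ℕ | ∃ S : M ⟶ M, NumInvolution S ∧ tr S = (n : ℚ) • 𝟙 (𝟙_ 𝒜)}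

/-- The numerically trivial endomorphisms of `M` are nilpotent. -/
def NumNilpotent (M : 𝒜) : Prop := ∀ f : End M, NumTrivial (show M ⟶ M from f) → IsNilpotent f

/-- The `n`-th symmetric (`ε = 1`) or exterior (`ε = -1`) power of `P` is numerically zero: all
symmetric or alternating endomorphisms of the `n`-th tensor power have trace zero. -/
def NumPowZero (ε : ℚ) (P : 𝒜) (n : ℕ) : Prop := ∀ g : T P n ⟶ T P n, Signed ε g → tr g = 0

/-- No direct summand of `M` has an `n`-th exterior or symmetric power which is not zero but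
numerically zero. -/
def NoPhantomPowers (M : 𝒜) (n : ℕ) : Prop :=
  ∀ (P : 𝒜) (i : P ⟶ M) (r : M ⟶ P), i ≫ r = 𝟙 P →
    (NumPowZero (-1) P n → PowZero (-1) P n) ∧ (NumPowZero 1 P n → PowZero 1 P n)

/-- The decomposition of the numerical motive of `M`: `e` is an endomorphism of `M` which is
idempotent modulo numerical equivalence, the `n`-th exterior power of its image and the `n`-th
symmetric power of its kernel are numerically zero. -/
def NumKimura (M : 𝒜) (n : ℕ) : Prop :=
  ∃ e : M ⟶ M, NumTrivial (e ≫ e - e) ∧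
    (∀ g : T M n ⟶ T M n, Signed (-1) g → tr (Tm e n ≫ g) = 0) ∧
    ∀ g : T M n ⟶ T M n, Signed 1 g → tr (Tm (𝟙 M - e) n ≫ g) = 0

end

end Pool.Agent.H843.Km
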