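import Pool.Agent.H843.Nd5
import Pool.Graph.R_pool_sql_team_seeded_3997aac3.Q57.ND.Lin

/-!
# Trace functions of super representations: involutions and corners
-/

set_option autoImplicit false
set_option linter.unusedSectionVars false

namespace Pool.Agent.H843.Km

open Module Polynomial Pool.Agent.H843.Nd

/-- The function `t` is the super trace of a super representation of the algebra. -/
structure SRep {R : Type*} [Ring R] [Algebra ℚ R] (t : R →ₗ[ℚ] ℚ) (K V : Type*) [Field K]
    [AddCommGroup V] [Module K V] where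
  ρ : R →+* Module.End K V
  ε : Module.End K V
  sq : ε * ε = 1
  comm : ∀ x, ρ x * ε = ε * ρ x
  tr : ∀ x, LinearMap.trace K V (ε * ρ x) = (t x : K)

section

variable {R : Type*} [Ring R] [Algebra ℚ R] {t : R →ₗ[ℚ] ℚ} {K V : Type*} [Field K] [CharZero K]
  [AddCommGroup V] [Module K V] [Module.Finite K V] (S : SRep t K V)

include S

lemma SRep.cyc (a b : R) : t (a * b) = t (b * a) := by
  have h1 := S.tr (a * b)
  have h2 := S.tr (b * a)
  have h3 : LinearMap.trace K V (S.ε * S.ρ (a * b)) = LinearMap.trace K V (S.ε * S.ρ (b * a)) := by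
    rw [map_mul S.ρ, map_mul S.ρ, ← mul_assoc, ← S.comm, mul_assoc, LinearMap.trace_mul_comm,
      mul_assoc]
  rw [h1, h2] at h3
  exact_mod_cast h3

lemma SRep.smul (q : ℚ) (x : R) : S.ρ (q • x) = (q : K) • S.ρ x := by
  have h := map_ratCast_smul (S.ρ : R →+ Module.End K V) ℚ K q x
  rw [Rat.cast_id] at h
  exact h

lemma SRep.aeval (x : R) (p : ℚ[X]) : S.ρ (aeval x p) = ev (S.ρ x) p := by
  rw [ev]
  induction p using Polynomial.induction_on' with
  | add p q hp hq =>
    rw [map_add, map_add, hp, hq, Polynomial.map_add, map_add]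
  | monomial n a =>
    rw [aeval_monomial, Polynomial.map_monomial, aeval_monomial, Algebra.algebraMap_eq_smul_one,
      Algebra.algebraMap_eq_smul_one, smul_mul_assoc, smul_mul_assoc, one_mul, one_mul, S.smul,
      map_pow]
    rfl

lemma SRep.hasTraces : HasTraces (AlgebraicClosure K) t := by
  intro x
  obtain ⟨s, hs⟩ := strace_ev (E := AlgebraicClosure K) (T := S.ρ x) S.sq (S.comm x)
  refine ⟨s, fun p => ?_⟩
  rw [← hs p]
  change _ = algebraMap K (AlgebraicClosure K) (LinearMap.trace K V (S.ε * ev _ p))
  rw [← S.aeval, S.tr]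
  exact (RingHom.congr_fun (Subsingleton.elim ((algebraMap K (AlgebraicClosure K)).comp
    (algebraMap ℚ K)) (algebraMap ℚ (AlgebraicClosure K))) _).symm

lemma SRep.finite : Module.Finite ℚ (LinearMap.range (form t)) := by
  classical
  have hb : ∀ s : Finset (LinearMap.range (form t)),
      (LinearIndependent ℚ fun i : s => (i : LinearMap.range (form t))) →
      s.card ≤ finrank K (Module.Dual K (Module.End K V)) := by
    intro s hs
    choose a ha using fun i : s => (i : LinearMap.range (form t)).2
    let Φ : s → Module.Dual K (Module.End K V) := fun i =>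
      (LinearMap.trace K V) ∘ₗ LinearMap.mulLeft K (S.ε * S.ρ (a i))
    have hΦ : ∀ (i : s) (b : R), Φ i (S.ρ b) = ((form t (a i) b : ℚ) : K) := by
      intro i b
      rw [form_apply, ← S.tr, map_mul S.ρ]
      change LinearMap.trace K V (S.ε * S.ρ (a i) * S.ρ b) = _
      rw [mul_assoc]
    have h1 : LinearIndependent ℚ (fun i : s => fun b : R => form t (a i) b) := by
      rw [Fintype.linearIndependent_iff] at hs ⊢
      intro g hg
      apply hs g
      apply Subtype.ext
      rw [AddSubmonoidClass.coe_finsetSum, ZeroMemClass.coe_zero]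
      apply LinearMap.ext
      intro b
      have := congrFun hg b
      rw [Finset.sum_apply] at this
      rw [LinearMap.sum_apply, LinearMap.zero_apply]
      rw [Pi.zero_apply] at this
      rw [← this]
      apply Finset.sum_congr rfl
      intro i _
      rw [Submodule.coe_smul, LinearMap.smul_apply, Pi.smul_apply, ← ha i]
    have h2 : LinearIndependent K Φ := by
      rw [Fintype.linearIndependent_iff]
      intro c hc i
      have h3 := Pool.Agent.W534.lin_ext (K := K) h1 (c := c) (by
        intro b
        have h4 := LinearMap.congr_fun hc (S.ρ b)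
        rw [LinearMap.sum_apply, LinearMap.zero_apply] at h4
        rw [← h4]
        apply Finset.sum_congr rfl
        intro j _
        rw [LinearMap.smul_apply, smul_eq_mul, hΦ])
      rw [h3]
      rfl
    have h3 := h2.fintype_card_le_finrank
    rwa [Fintype.card_coe] at h3
  have : Module.Free ℚ (LinearMap.range (form t)) := Module.Free.of_divisionRing ℚ _
  rw [← Module.rank_lt_aleph0_iff]
  exact lt_of_le_of_lt (rank_le hb) Cardinal.natCast_lt_aleph0

/-- The trace of a numerical involution. -/
lemma SRep.involution_le {v : R} (hv : ∀ b, t (v * v * b) = t b) :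
    ∃ n : ℕ, t v + 2 * n = finrank K V := by
  have h0 : ∀ y, t ((v * v - 1) * y) = 0 := by
    intro y
    rw [sub_mul, map_sub, hv, one_mul, sub_self]
  have hK : ∀ p : K[X], LinearMap.trace K V (S.ε * ((S.ρ v * S.ρ v - 1) *
      Polynomial.aeval (S.ρ v) p)) = 0 := by
    intro p
    induction p using Polynomial.induction_on' with
    | add p q hp hq => rw [map_add, mul_add, mul_add, map_add, hp, hq, add_zero]
    | monomial n a =>
      rw [aeval_monomial, Algebra.algebraMap_eq_smul_one, smul_mul_assoc, one_mul, mul_smul_comm,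
        mul_smul_comm, map_smul]
      have h1 := S.tr ((v * v - 1) * v ^ n)
      rw [h0, map_mul S.ρ, map_sub S.ρ, map_mul S.ρ, map_one, map_pow S.ρ, Rat.cast_zero] at h1
      rw [h1, smul_zero]
  obtain ⟨n, hn, -⟩ := Pool.Agent.Q57.ND.str_rank S.sq (S.comm v) hK
  refine ⟨n, ?_⟩
  rw [S.tr] at hn
  exact_mod_cast hn

end

section corner

variable {E : Type*} [Field E] [Algebra ℚ E]

/-- The trace of an idempotent is an integer. -/
lemma idem_int {A : Type*} [Ring A] [Algebra ℚ A] {t : A →ₗ[ℚ] ℚ} (hE : HasTraces E t) {e : A}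
    (he : e * e = e) : ∃ m : ℤ, t e = m := by
  classical
  obtain ⟨s, hs⟩ := hE e
  refine ⟨s 1, ?_⟩
  have hpow : ∀ k : ℕ, e ^ (k + 1) = e := by
    intro k
    induction k with
    | zero => rw [zero_add, pow_one]
    | succ k ih => rw [pow_succ, ih, he]
  have hvan : ∀ a ∈ s.support, (s a : E) * (a ^ 2 - a) = 0 := by
    apply vander s.support (fun a => (s a : E) * (a ^ 2 - a))
    intro k
    have h1 := hs (X ^ (k + 2) - X ^ (k + 1))
    rw [map_sub, map_pow, map_pow, aeval_X, hpow, hpow, sub_self, map_zero, map_zero,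
      Finsupp.sum] at h1
    refine Eq.trans ?_ h1.symm
    apply Finset.sum_congr rfl
    intro a _
    rw [map_sub, map_pow, map_pow, aeval_X]
    ring
  have h2 := hs X
  rw [aeval_X, Finsupp.sum] at h2
  have h3 : ∑ a ∈ s.support, (s a : E) * aeval a (X : ℚ[X]) = (s 1 : E) := by
    rw [Finset.sum_subset (Finset.subset_insert 1 s.support)
      (f := fun a => (s a : E) * aeval a (X : ℚ[X]))]
    · rw [Finset.sum_eq_single (1 : E)]
      · rw [aeval_X, mul_one]
      · intro a ha ha1
        rw [aeval_X]
        rcases Finset.mem_insert.1 ha with rfl | ha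
        · exact absurd rfl ha1
        · rcases mul_eq_zero.1 (hvan a ha) with h | h
          · rw [h, zero_mul]
          · have h4 : a * (a - 1) = 0 := by rw [← h]; ring
            rcases mul_eq_zero.1 h4 with h | h
            · rw [h, mul_zero]
            · exact absurd (sub_eq_zero.1 h) ha1
      · intro h
        exact absurd (Finset.mem_insert_self _ _) h
    · intro a _ ha
      rw [Finsupp.notMem_support_iff.1 ha, Int.cast_zero, zero_mul]
  rw [h3] at h2
  apply (algebraMap ℚ E).injective
  rw [h2, map_intCast]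

/-- **Corners**: for a nonzero idempotent `π` there is an involution of the corner of `π` with
positive trace. -/
lemma corner_fin [IsAlgClosed E] {A : Type*} [Ring A] [Algebra ℚ A] [Module.Finite ℚ A]
    {t : A →ₗ[ℚ] ℚ} (hc : ∀ a b, t (a * b) = t (b * a)) (hE : HasTraces E t)
    (hnd : ∀ a, (∀ b, t (a * b) = 0) → a = 0) {π : A} (hπ : π * π = π) (h0 : π ≠ 0) :
    ∃ u : A, u * π = u ∧ π * u = u ∧ (∀ b, t (u * u * b) = t (π * b)) ∧
      ∃ n : ℕ, t u = n ∧ 1 ≤ n := by
  classical
  let B : Subalgebra ℚ A := Subalgebra.centralizer ℚ {π}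
  have hB : ∀ x : B, (x : A) * π = π * x := by
    intro x
    have := (Subalgebra.mem_centralizer_iff ℚ).1 x.2 π rfl
    exact this.symm
  let t' : B →ₗ[ℚ] ℚ := t ∘ₗ (LinearMap.mulLeft ℚ π) ∘ₗ B.val.toLinearMap
  have ht' : ∀ x : B, t' x = t (π * x) := fun _ => rfl
  have hc' : ∀ a b : B, t' (a * b) = t' (b * a) := by
    intro a b
    rw [ht', ht', Subalgebra.coe_mul, Subalgebra.coe_mul, ← mul_assoc, hc, ← mul_assoc, hB b,
      mul_assoc]
  obtain ⟨m, hm⟩ := idem_int hE (e := 1 - π) (by
    have : (1 - π) * (1 - π) = 1 - π - π + π * π := by noncomm_ring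
    rw [this, hπ, sub_add_cancel])
  have haev : ∀ (y : A), y * π = π * y → ∀ p : ℚ[X],
      aeval (π * y) p = π * aeval y p + p.eval 0 • (1 - π) := by
    intro y hy p
    induction p using Polynomial.induction_on' with
    | add p q hp hq =>
      rw [map_add, hp, hq, map_add, mul_add, eval_add, add_smul]
      abel
    | monomial n a =>
      rw [aeval_monomial, aeval_monomial, eval_monomial, Algebra.algebraMap_eq_smul_one,
        smul_mul_assoc, smul_mul_assoc, one_mul, one_mul, mul_smul_comm]
      rcases Nat.eq_zero_or_pos n with rfl | hn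
      · rw [pow_zero, pow_zero, pow_zero, mul_one, mul_one, ← smul_add]
        congr 1
        abel
      · rw [zero_pow hn.ne', mul_zero, zero_smul, add_zero]
        congr 1
        have hcm : Commute π y := hy.symm
        rw [hcm.mul_pow]
        congr 1
        clear a
        induction n, hn using Nat.le_induction with
        | base => rw [pow_one]
        | succ m _ ih => rw [pow_succ, ih, hπ]
  have hE' : HasTraces E t' := by
    intro y
    obtain ⟨s, hs⟩ := hE (π * (y : A))
    refine ⟨s - Finsupp.single 0 m, fun p => ?_⟩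
    have h1 := hs p
    rw [haev y (hB y), map_add, map_smul, hm] at h1
    have h2 : t' (aeval y p) = t (π * aeval (y : A) p) := by
      rw [ht']
      congr 2
      exact (aeval_algHom_apply B.val y p).symm
    rw [h2, Finsupp.sum_sub_index (by intros; push_cast; ring), ← h1,
      Finsupp.sum_single_index (by push_cast; ring), map_add, smul_eq_mul,
      map_mul (algebraMap ℚ E), map_intCast]
    have h3 : aeval (0 : E) p = algebraMap ℚ E (p.eval 0) := by
      rw [← (algebraMap ℚ E).map_zero, aeval_algebraMap_apply]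
      congr 1
    rw [h3]
    ring
  have hfin : Module.Finite ℚ (LinearMap.range (form t')) := by
    have : Module.Finite ℚ B := inferInstance
    infer_instance
  obtain ⟨v, hv, n, hn, hle⟩ := exists_inv (E := E) t' hc' hE'
  have hpv : π * (v : A) = v * π := (hB v).symm
  have hred : ∀ b : A, ∃ b' : B, (b' : A) = π * b * π := by
    intro b
    refine ⟨⟨π * b * π, ?_⟩, rfl⟩
    rw [Subalgebra.mem_centralizer_iff]
    intro x hx
    rw [Set.mem_singleton_iff] at hx
    rw [hx, ← mul_assoc, ← mul_assoc, hπ, mul_assoc (π * b), hπ]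
  refine ⟨π * v, ?_, ?_, ?_, n, ?_, ?_⟩
  · rw [mul_assoc, ← hpv, ← mul_assoc, hπ]
  · rw [← mul_assoc, hπ]
  · intro b
    obtain ⟨b', hb'⟩ := hred b
    have h1 := hv b'
    rw [ht', ht', Subalgebra.coe_mul, Subalgebra.coe_mul, hb'] at h1
    have h2 : t (π * (π * b * π)) = t (π * b) := by
      rw [hc, mul_assoc, hπ, mul_assoc, hc, mul_assoc, hπ, hc]
    have h3 : t (π * (v * v * (π * b * π))) = t (π * v * (π * v) * b) := by
      have e1 : π * ((v : A) * v * (π * b * π)) = π * v * (π * v) * b * π := by
        have : (v : A) * π = π * v := hB v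
        calc π * ((v : A) * v * (π * b * π)) = π * v * (v * π) * b * π := by
              simp only [mul_assoc]
          _ = π * v * (π * v) * b * π := by rw [this]
      rw [e1, hc]
      have e2 : π * (π * v * (π * v) * b) = π * v * (π * v) * b := by
        simp only [← mul_assoc, hπ]
      rw [e2]
    rw [h2, h3] at h1
    exact h1
  · rw [← ht', hn]
  · by_contra hlt
    have hn0 : n = 0 := by omega
    rw [hn0] at hle
    have h1 : finrank ℚ (LinearMap.range (form t')) = 0 := by simpa using hle
    have h2 : LinearMap.range (form t') = ⊥ := Submodule.finrank_eq_zero.1 h1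
    have h3 : form t' = 0 := LinearMap.range_eq_bot.1 h2
    apply h0
    apply hnd
    intro b
    obtain ⟨b', hb'⟩ := hred b
    have h4 := LinearMap.congr_fun (LinearMap.congr_fun h3 1) b'
    rw [form_apply, one_mul, ht', hb', LinearMap.zero_apply, LinearMap.zero_apply] at h4
    rw [← h4, hc π (π * b * π), mul_assoc, hπ, mul_assoc, hc π (b * π), mul_assoc, hπ, hc]

/-- **Corners modulo the radical of the trace form.** -/
theorem corner [IsAlgClosed E] {R : Type*} [Ring R] [Algebra ℚ R] {t : R →ₗ[ℚ] ℚ}
    (hc : ∀ a b, t (a * b) = t (b * a)) (hE : HasTraces E t)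
    [Module.Finite ℚ (LinearMap.range (form t))] {q : R} (hq : ∀ b, t (q * q * b) = t (q * b))
    (h0 : ∃ b, t (q * b) ≠ 0) :
    ∃ u : R, (∀ b, t (u * q * b) = t (u * b)) ∧ (∀ b, t (q * u * b) = t (u * b)) ∧
      (∀ b, t (u * u * b) = t (q * b)) ∧ ∃ n : ℕ, t u = n ∧ 1 ≤ n := by
  have := radI_two t hc
  set I := radI t hc with hI
  let π : R →ₐ[ℚ] R ⧸ I := Ideal.Quotient.mkₐ ℚ I
  have hπ : Function.Surjective π := Ideal.Quotient.mkₐ_surjective ℚ I
  have hker : ∀ a, π a = 0 ↔ ∀ b, t (a * b) = 0 := fun a => Ideal.Quotient.eq_zero_iff_mem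
  have hkt : ∀ a b, π a = π b → t a = t b := by
    intro a b h
    have h1 := (hker (a - b)).1 (by rw [map_sub, h, sub_self]) 1
    rw [mul_one, map_sub, sub_eq_zero] at h1
    exact h1
  have hke : ∀ a b, (∀ c, t (a * c) = t (b * c)) → π a = π b := by
    intro a b h
    rw [← sub_eq_zero, ← map_sub, hker]
    intro c
    rw [sub_mul, map_sub, h, sub_self]
  let t' : R ⧸ I →ₗ[ℚ] ℚ :=
    { toFun := fun z => t (Function.surjInv hπ z)
      map_add' := fun a b => by
        rw [← map_add]
        apply hkt
        rw [map_add, Function.surjInv_eq hπ, Function.surjInv_eq hπ, Function.surjInv_eq hπ]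
      map_smul' := fun q a => by
        rw [← map_smul]
        apply hkt
        rw [map_smul, Function.surjInv_eq hπ, Function.surjInv_eq hπ, RingHom.id_apply] }
  have ht' : ∀ a, t' (π a) = t a := fun a => hkt _ _ (Function.surjInv_eq hπ _)
  have hkk : LinearMap.ker π.toLinearMap = LinearMap.ker (form t) := by
    ext a
    rw [LinearMap.mem_ker, LinearMap.mem_ker, LinearMap.ext_iff]
    exact hker a
  let e : (R ⧸ I) ≃ₗ[ℚ] LinearMap.range (form t) :=
    ((LinearMap.quotKerEquivOfSurjective π.toLinearMap hπ).symm.trans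
      (Submodule.quotEquivOfEq _ _ hkk)).trans (form t).quotKerEquivRange
  have hfin : Module.Finite ℚ (R ⧸ I) := Module.Finite.equiv e.symm
  obtain ⟨u, hu1, hu2, hu3, n, hn, hn1⟩ := corner_fin (E := E) (t := t') (π := π q)
    (by
      intro a b
      obtain ⟨a, rfl⟩ := hπ a
      obtain ⟨b, rfl⟩ := hπ b
      rw [← map_mul, ← map_mul, ht', ht', hc])
    (by
      intro x
      obtain ⟨x, rfl⟩ := hπ x
      obtain ⟨s, hs⟩ := hE x
      refine ⟨s, fun p => ?_⟩
      rw [aeval_algHom_apply, ht', hs])
    (by
      intro a ha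
      obtain ⟨a, rfl⟩ := hπ a
      rw [hker]
      intro b
      have := ha (π b)
      rwa [← map_mul, ht'] at this)
    (by
      rw [← map_mul]
      exact hke _ _ hq)
    (by
      intro h
      obtain ⟨b, hb⟩ := h0
      exact hb ((hker q).1 h b))
  obtain ⟨u, rfl⟩ := hπ u
  refine ⟨u, fun b => ?_, fun b => ?_, fun b => ?_, n, by rw [← hn, ht'], hn1⟩
  · apply hkt
    rw [map_mul, map_mul, hu1, map_mul]
  · apply hkt
    rw [map_mul, map_mul, hu2, map_mul]
  · have := hu3 (π b)
    rw [← map_mul, ← map_mul, ← map_mul, ht', ht'] at this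
    exact this

end corner

end Pool.Agent.H843.Km
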