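import Pool.Agent.H843.Km1
import Pool.Graph.R_pool_sql_team_seeded_ab47071d.TH90.Kim.Light

/-!
# Traces in rigid categories with a super realisation
-/

open CategoryTheory MonoidalCategory Limits BraidedCategory

universe u v w

set_option autoImplicit false
set_option linter.unusedSectionVars false

namespace Pool.Agent.H843.Km

open Pool.Agent.TH90.Kim Pool.Agent.TH90.AB

/-- The trace in terms of a dual pair. -/
lemma trace_dual {K V : Type*} [Field K] [AddCommGroup V] [Module K V] [Module.Finite K V]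
    {ι : Type*} [Fintype ι] {a : ι → V} {φ : ι → Module.Dual K V} (h : ∀ v, ∑ i, φ i v • a i = v)
    (A : Module.End K V) : LinearMap.trace K V A = ∑ i, φ i (A (a i)) := by
  have h1 : A = ∑ i, dualTensorHom K V V (φ i ⊗ₜ[K] A (a i)) := by
    apply LinearMap.ext
    intro v
    rw [LinearMap.sum_apply]
    simp only [dualTensorHom_apply]
    conv_lhs => rw [← h v]
    rw [map_sum]
    simp only [map_smul]
  conv_lhs => rw [h1]
  rw [map_sum]
  refine Finset.sum_congr rfl fun i _ => ?_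
  rw [LinearMap.trace_eq_contract_apply]
  simp

noncomputable section

variable {𝒜 : Type u} [Category.{v} 𝒜] [MonoidalCategory 𝒜] [SymmetricCategory 𝒜]
  [Preadditive 𝒜] [MonoidalPreadditive 𝒜] [Linear ℚ 𝒜] [MonoidalLinear ℚ 𝒜]
  {K : Type w} [Field K] [CharZero K] (F : Realisation 𝒜 K) [hdual : ∀ X : 𝒜, HasRightDual X]

/-- Dual pairs. -/
lemma exists_dual (P : 𝒜) : ∃ (n : ℕ) (a : Fin n → F.V P) (b : Fin n → F.V Pᘁ)
    (φ : Fin n → Module.Dual K (F.V P)), F.map (η_ P Pᘁ) F.one = ∑ i, F.ext (a i) (b i) ∧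
      (∀ i v, F.map (ε_ P Pᘁ) (F.ext (b i) v) = φ i v • F.one) ∧
      ∀ v, ∑ i, φ i v • a i = v := by
  obtain ⟨n, a, b, h⟩ := F.exists_sum (F.map (η_ P Pᘁ) F.one)
  have hc : ∀ (i : Fin n) (v : F.V P), ∃ c : K, F.map (ε_ P Pᘁ) (F.ext (b i) v) = c • F.one :=
    fun i v => F.span_one _
  choose c hc using hc
  have inj : ∀ x y : K, x • F.one = y • F.one → x = y := fun x y hxy =>
    smul_left_injective K F.one_ne hxy
  let φ : Fin n → Module.Dual K (F.V P) := fun i =>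
    { toFun := c i
      map_add' := by
        intro x y
        apply inj
        rw [← hc, add_smul, ← hc, ← hc, _root_.map_add, _root_.map_add]
      map_smul' := by
        intro r x
        apply inj
        rw [← hc, _root_.map_smul, _root_.map_smul, hc, smul_smul]
        rfl }
  refine ⟨n, a, b, φ, h, hc, ?_⟩
  intro v
  have e1 := ExactPairing.evaluation_coevaluation P Pᘁ
  have e2 := congrArg (fun f => F.map f (F.ext F.one v)) e1
  simp only [F.map_comp, F.whiskerRight, F.left_unit] at e2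
  rw [h, map_sum, LinearMap.sum_apply, map_sum, map_sum] at e2
  simp only [F.assoc, F.whiskerLeft, hc, _root_.map_smul] at e2
  have e3 := congrArg (F.map (ρ_ P).hom) e2
  rw [map_sum] at e3
  simp only [_root_.map_smul, F.right_unit] at e3
  rw [← F.map_comp, Iso.inv_hom_id, F.map_id] at e3
  exact e3

/-- The trace is the super trace of the realisation. -/
lemma map_tr_eq {M : 𝒜} (g : M ⟶ M) : F.map (tr g) F.one =
    (LinearMap.trace K (F.V M) (F.par M * F.map g)) • F.one := by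
  obtain ⟨n, a, b, φ, h, hφ, hz⟩ := exists_dual F M
  rw [F.map_tr g a b h, trace_dual hz, Finset.sum_smul]
  refine Finset.sum_congr rfl fun i _ => ?_
  have h1 : F.map g (a i) = F.par M (F.par M (F.map g (a i))) := (F.par_par _ _).symm
  rw [h1, F.ev_par, hφ]
  rfl

/-- The contraction with an element of the realisation of the dual. -/
def ctr (X P : 𝒜) (b : F.V Pᘁ) : F.V (X ⊗ P) →ₗ[K] F.V X :=
  F.map ((α_ X P Pᘁ).hom ≫ X ◁ ev P ≫ (ρ_ X).hom) ∘ₗ F.ext.flip b

lemma ctr_ext {X P : 𝒜} {b : F.V Pᘁ} {φ : Module.Dual K (F.V P)}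
    (hφ : ∀ v, F.map (ε_ P Pᘁ) (F.ext b v) = φ v • F.one) (x : F.V X) (p : F.V P) :
    ctr F X P b (F.ext x p) = φ (F.par P p) • x := by
  change F.map ((α_ X P Pᘁ).hom ≫ X ◁ ev P ≫ (ρ_ X).hom) (F.ext (F.ext x p) b) = _
  rw [F.map_comp, F.map_comp, F.assoc, F.whiskerLeft]
  have h1 : F.map (ev P) (F.ext p b) = φ (F.par P p) • F.one := by
    have h2 : F.ext p b = F.ext (F.par P (F.par P p)) b := by rw [F.par_par]
    rw [h2, F.ev_par, hφ]
  rw [h1, _root_.map_smul, _root_.map_smul, F.right_unit]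

lemma map_ptr_eq {X P : 𝒜} (g : X ⊗ P ⟶ X ⊗ P) {n : ℕ} {a : Fin n → F.V P}
    {b : Fin n → F.V Pᘁ} (h : F.map (η_ P Pᘁ) F.one = ∑ i, F.ext (a i) (b i)) (x : F.V X) :
    F.map (ptr g) x = ∑ i, ctr F X P (b i) (F.map g (F.ext x (a i))) := by
  have e1 : F.map (ρ_ X).inv x = F.ext x F.one := F.map_inv _ (F.right_unit x)
  simp only [ptr, F.map_comp]
  rw [e1, F.whiskerLeft, h]
  simp only [map_sum, F.assoc_inv, F.whiskerRight]
  refine Finset.sum_congr rfl fun i _ => ?_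
  change _ = F.map ((α_ X P Pᘁ).hom ≫ X ◁ ev P ≫ (ρ_ X).hom) (F.ext (F.map g (F.ext x (a i))) (b i))
  simp only [F.map_comp]

/-- The super trace of a partial trace. -/
lemma trace_ptr {X P : 𝒜} (g : X ⊗ P ⟶ X ⊗ P) :
    LinearMap.trace K (F.V X) (F.par X * F.map (ptr g)) =
      LinearMap.trace K (F.V (X ⊗ P)) (F.par (X ⊗ P) * F.map g) := by
  obtain ⟨n, a, b, φ, h, hφ, hz⟩ := exists_dual F P
  obtain ⟨m, c, d, ψ, h', hψ, hz'⟩ := exists_dual F X
  let θ : Fin m × Fin n → Module.Dual K (F.V (X ⊗ P)) := fun k =>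
    ψ k.1 ∘ₗ F.par X ∘ₗ ctr F X P (b k.2) ∘ₗ F.par (X ⊗ P)
  have hθ : ∀ z, ∑ k, θ k z • F.ext (c k.1) (a k.2) = z := by
    intro z
    obtain ⟨r, x, p, rfl⟩ := F.exists_sum z
    simp only [map_sum, Finset.sum_smul]
    rw [Finset.sum_comm]
    refine Finset.sum_congr rfl fun j _ => ?_
    have h1 : ∀ k, θ k (F.ext (x j) (p j)) = ψ k.1 (x j) * φ k.2 (p j) := by
      intro k
      change ψ k.1 (F.par X (ctr F X P (b k.2) (F.par (X ⊗ P) (F.ext (x j) (p j))))) = _
      rw [F.par_ext, ctr_ext F (hφ k.2), F.par_par, _root_.map_smul, _root_.map_smul, F.par_par,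
        smul_eq_mul, mul_comm]
    simp only [h1]
    rw [Fintype.sum_prod_type]
    conv_rhs => rw [← hz' (x j), ← hz (p j)]
    rw [map_sum, Finset.sum_comm]
    refine Finset.sum_congr rfl fun l _ => ?_
    rw [map_sum, LinearMap.sum_apply]
    refine Finset.sum_congr rfl fun i _ => ?_
    rw [_root_.map_smul, _root_.map_smul F.ext, LinearMap.smul_apply, smul_smul,
      mul_comm (φ l (p j))]
  rw [trace_dual hθ, trace_dual hz', Fintype.sum_prod_type]
  refine Finset.sum_congr rfl fun i _ => ?_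
  change ψ i (F.par X (F.map (ptr g) (c i))) = _
  rw [map_ptr_eq F g h, map_sum, map_sum]
  refine Finset.sum_congr rfl fun j _ => ?_
  change _ = ψ i (F.par X (ctr F X P (b j) (F.par (X ⊗ P) (F.par (X ⊗ P)
    (F.map g (F.ext (c i) (a j)))))))
  rw [F.par_par]

variable (hunit : ∀ f : 𝟙_ 𝒜 ⟶ 𝟙_ 𝒜, ∃ q : ℚ, f = q • 𝟙 (𝟙_ 𝒜))

include F hunit

lemma unit_ne {q r : ℚ} (h : q • 𝟙 (𝟙_ 𝒜) = r • 𝟙 (𝟙_ 𝒜)) : q = r := by
  have h1 : F.map (q • 𝟙 (𝟙_ 𝒜)) F.one = (r : K) • F.one := by rw [h, F.map_smul, F.map_id]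
  have h2 := F.unit_inj rfl h1
  exact_mod_cast h2

lemma unit_ext {f g : 𝟙_ 𝒜 ⟶ 𝟙_ 𝒜} (h : F.map f F.one = F.map g F.one) : f = g := by
  obtain ⟨q, rfl⟩ := hunit f
  obtain ⟨r, rfl⟩ := hunit g
  rw [F.map_smul, F.map_smul, F.map_id] at h
  have h1 : (q : K) = r := smul_left_injective K F.one_ne h
  have h2 : q = r := by exact_mod_cast h1
  rw [h2]

/-- The trace of a partial trace. -/
lemma tr_ptr {X P : 𝒜} (g : X ⊗ P ⟶ X ⊗ P) : tr (ptr g) = tr g := by
  apply unit_ext F hunit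
  rw [map_tr_eq, map_tr_eq, trace_ptr]

end

end Pool.Agent.H843.Km
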