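import Pool.Agent.H843.Km2
import Pool.Agent.H843.KimDefs

/-!
# The numerical ideal and the numerical dimension
-/

open CategoryTheory MonoidalCategory Limits BraidedCategory

universe u v w

set_option autoImplicit false
set_option linter.unusedSectionVars false

namespace Pool.Agent.H843.Km

open Pool.Agent.TH90.Kim Pool.Agent.TH90.AB Pool.Agent.H843.Nd

noncomputable section

variable {𝒜 : Type u} [Category.{v} 𝒜] [MonoidalCategory 𝒜] [SymmetricCategory 𝒜]
  [Preadditive 𝒜] [MonoidalPreadditive 𝒜] [Linear ℚ 𝒜] [MonoidalLinear ℚ 𝒜]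
  [hdual : ∀ X : 𝒜, HasRightDual X]

lemma sub_ten {X Y P Q : 𝒜} (f g : X ⟶ Y) (h : P ⟶ Q) : (f - g) ⊗ₘ h = f ⊗ₘ h - g ⊗ₘ h := by
  rw [eq_sub_iff_add_eq, ← MonoidalPreadditive.add_tensor, sub_add_cancel]

lemma ten_sub {X Y P Q : 𝒜} (f g : X ⟶ Y) (h : P ⟶ Q) : h ⊗ₘ (f - g) = h ⊗ₘ f - h ⊗ₘ g := by
  rw [eq_sub_iff_add_eq, ← MonoidalPreadditive.tensor_add, sub_add_cancel]

lemma tr_add' {M : 𝒜} (f g : M ⟶ M) : tr (f + g) = tr f + tr g := by
  rw [tr_eq, tr_eq, tr_eq, MonoidalPreadditive.add_whiskerRight, Preadditive.add_comp,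
    Preadditive.comp_add]

lemma tr_smul' {M : 𝒜} (q : ℚ) (f : M ⟶ M) : tr (q • f) = q • tr f := by
  rw [tr_eq, tr_eq, MonoidalLinear.smul_whiskerRight, Linear.smul_comp, Linear.comp_smul]

lemma tr_zero' {M : 𝒜} : tr (0 : M ⟶ M) = 0 := by
  have := tr_smul' (0 : ℚ) (0 : M ⟶ M)
  rwa [zero_smul, zero_smul] at this

lemma tr_neg' {M : 𝒜} (f : M ⟶ M) : tr (-f) = -tr f := by
  have h := tr_smul' (-1 : ℚ) f
  rwa [neg_one_smul, neg_one_smul] at h

lemma tr_sub' {M : 𝒜} (f g : M ⟶ M) : tr (f - g) = tr f - tr g := by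
  rw [sub_eq_add_neg, tr_add', tr_neg', sub_eq_add_neg]

namespace NumTrivial

variable {X Y Z P : 𝒜}

lemma tr {f : X ⟶ X} (h : NumTrivial f) : Pool.Agent.TH90.AB.tr f = 0 := by
  have := h (𝟙 X)
  rwa [Category.comp_id] at this

lemma comp_right {f : X ⟶ Y} (h : NumTrivial f) (g : Y ⟶ Z) : NumTrivial (f ≫ g) := by
  intro k
  rw [Category.assoc]
  exact h _

lemma comp_left {f : X ⟶ Y} (h : NumTrivial f) (g : Z ⟶ X) : NumTrivial (g ≫ f) := by
  intro k
  rw [Category.assoc, tr_comm, Category.assoc]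
  exact h _

lemma zero : NumTrivial (0 : X ⟶ Y) := by
  intro k
  rw [zero_comp, tr_zero']

lemma add {f g : X ⟶ Y} (hf : NumTrivial f) (hg : NumTrivial g) : NumTrivial (f + g) := by
  intro k
  rw [Preadditive.add_comp, tr_add', hf, hg, add_zero]

lemma neg {f : X ⟶ Y} (hf : NumTrivial f) : NumTrivial (-f) := by
  intro k
  rw [Preadditive.neg_comp, tr_neg', hf, neg_zero]

lemma sub {f g : X ⟶ Y} (hf : NumTrivial f) (hg : NumTrivial g) : NumTrivial (f - g) := by
  rw [sub_eq_add_neg]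
  exact hf.add hg.neg

lemma smul {f : X ⟶ Y} (hf : NumTrivial f) (q : ℚ) : NumTrivial (q • f) := by
  intro k
  rw [Linear.smul_comp, tr_smul', hf, smul_zero]

end NumTrivial

variable {K : Type w} [Field K] [CharZero K] (F : Realisation 𝒜 K)
  (hunit : ∀ f : 𝟙_ 𝒜 ⟶ 𝟙_ 𝒜, ∃ q : ℚ, f = q • 𝟙 (𝟙_ 𝒜))

include F hunit

section ideal

variable {X Y Z P : 𝒜}

lemma num_whiskerRight {f : X ⟶ Y} (h : NumTrivial f) (P : 𝒜) : NumTrivial (f ▷ P) := by
  intro g
  rw [← tr_ptr F hunit, ptr_left]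
  exact h _

lemma num_whiskerLeft {f : X ⟶ Y} (h : NumTrivial f) (P : 𝒜) : NumTrivial (P ◁ f) := by
  have h1 : P ◁ f = (β_ P X).hom ≫ f ▷ P ≫ (β_ P Y).inv := by
    rw [← braiding_naturality_right_assoc, Iso.hom_inv_id, Category.comp_id]
  rw [h1]
  exact ((num_whiskerRight F hunit h P).comp_right _).comp_left _

lemma num_tensor {f : X ⟶ Y} (h : NumTrivial f) {P Q : 𝒜} (g : P ⟶ Q) :
    NumTrivial (f ⊗ₘ g) := by
  rw [MonoidalCategory.tensorHom_def]
  exact (num_whiskerRight F hunit h P).comp_right _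

lemma num_tensor' {f : X ⟶ Y} (h : NumTrivial f) {P Q : 𝒜} (g : P ⟶ Q) :
    NumTrivial (g ⊗ₘ f) := by
  rw [MonoidalCategory.tensorHom_def]
  exact (num_whiskerLeft F hunit h Q).comp_left _

lemma num_ptr {g : X ⊗ P ⟶ X ⊗ P} (h : NumTrivial g) : NumTrivial (ptr g) := by
  intro k
  rw [← ptr_right, tr_ptr F hunit]
  exact h _

lemma num_Tm {f g : X ⟶ Y} (h : NumTrivial (f - g)) (n : ℕ) : NumTrivial (Tm f n - Tm g n) := by
  induction n with
  | zero =>
    change NumTrivial (𝟙 _ - 𝟙 _)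
    rw [sub_self]
    exact NumTrivial.zero
  | succ n ih =>
    have h1 : Tm f (n + 1) - Tm g (n + 1) =
        (Tm f n - Tm g n) ⊗ₘ f + Tm g n ⊗ₘ (f - g) := by
      change Tm f n ⊗ₘ f - Tm g n ⊗ₘ g = _
      rw [sub_ten, ten_sub]
      abel
    rw [h1]
    exact (num_tensor F hunit ih f).add (num_tensor' F hunit h _)

/-- A morphism with realisation zero is numerically trivial. -/
lemma num_of_inv {f : X ⟶ Y} (h : F.Inv f) : NumTrivial f := by
  intro g
  exact F.tr_inv hunit (F.inv_comp_left g h)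

end ideal

/-- The rational trace. -/
def tL (M : 𝒜) : End M →ₗ[ℚ] ℚ where
  toFun f := (hunit (tr (show M ⟶ M from f))).choose
  map_add' f g := by
    apply unit_ne F hunit
    rw [add_smul, ← (hunit (tr (show M ⟶ M from f))).choose_spec,
      ← (hunit (tr (show M ⟶ M from g))).choose_spec, ← tr_add']
    exact (hunit (tr (show M ⟶ M from f + g))).choose_spec.symm
  map_smul' q f := by
    apply unit_ne F hunit
    rw [RingHom.id_apply, smul_eq_mul, mul_smul,
      ← (hunit (tr (show M ⟶ M from f))).choose_spec, ← tr_smul']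
    exact (hunit (tr (show M ⟶ M from q • f))).choose_spec.symm

lemma tL_spec {M : 𝒜} (f : M ⟶ M) : tr f = tL F hunit M f • 𝟙 (𝟙_ 𝒜) :=
  (hunit (tr f)).choose_spec

lemma tL_eq {M : 𝒜} {f : M ⟶ M} {q : ℚ} (h : tr f = q • 𝟙 (𝟙_ 𝒜)) : tL F hunit M f = q := by
  apply unit_ne F hunit
  rw [← h, ← tL_spec]

lemma tL_congr {M N : 𝒜} {f : M ⟶ M} {g : N ⟶ N} (h : tr f = tr g) :
    tL F hunit M f = tL F hunit N g := tL_eq F hunit (h.trans (tL_spec F hunit g))

lemma tr_zero_iff {M : 𝒜} {f : M ⟶ M} : tr f = 0 ↔ tL F hunit M f = 0 := by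
  constructor
  · intro h
    apply tL_eq F hunit
    rw [h, zero_smul]
  · intro h
    rw [tL_spec F hunit, h, zero_smul]

lemma num_iff {M : 𝒜} {f : M ⟶ M} :
    NumTrivial f ↔ ∀ b : End M, tL F hunit M ((show End M from f) * b) = 0 := by
  constructor
  · intro h b
    rw [← tr_zero_iff F hunit]
    change tr ((show M ⟶ M from b) ≫ f) = 0
    rw [tr_comm]
    exact h _
  · intro h g
    rw [tr_comm, tr_zero_iff F hunit]
    exact h g

/-- The super representation of the endomorphism ring. -/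
def srep (M : 𝒜) : SRep (tL F hunit M) K (F.V M) where
  ρ := F.toEnd M
  ε := F.par M
  sq := LinearMap.ext fun x => F.par_par M x
  comm x := LinearMap.ext fun y => (F.par_map (show M ⟶ M from x) y).symm
  tr x := by
    have h := map_tr_eq F (show M ⟶ M from x)
    exact (F.unit_inj (tL_spec F hunit (show M ⟶ M from x)) h).symm

lemma inv_iff {M : 𝒜} {S : M ⟶ M} : NumInvolution S ↔
    ∀ b : End M, tL F hunit M ((show End M from S) * (show End M from S) * b) = tL F hunit M b := by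
  rw [NumInvolution, num_iff F hunit]
  have h : ∀ b : End M, tL F hunit M ((show End M from (S ≫ S - 𝟙 M)) * b) =
      tL F hunit M ((show End M from S) * (show End M from S) * b) - tL F hunit M b := by
    intro b
    have e : (show End M from (S ≫ S - 𝟙 M)) * b = (show End M from S) * (show End M from S) * b - b := by
      change ((show End M from S) * (show End M from S) - 1) * b = _
      rw [sub_mul, one_mul]
    rw [e, map_sub]
  constructor
  · intro h1 b
    have := h1 b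
    rw [h] at this
    exact sub_eq_zero.1 this
  · intro h1 b
    rw [h, h1, sub_self]

lemma involution_le {M : 𝒜} {S : M ⟶ M} (hS : NumInvolution S) :
    ∃ n : ℕ, tL F hunit M S + 2 * n = Module.finrank K (F.V M) :=
  (srep F hunit M).involution_le ((inv_iff F hunit).1 hS)

/-- The numerical dimension is attained. -/
lemma isGreatest (M : 𝒜) :
    IsGreatest {n : ℕ | ∃ S : M ⟶ M, NumInvolution S ∧ tr S = (n : ℚ) • 𝟙 (𝟙_ 𝒜)} (numDim M) := by
  have := (srep F hunit M).finite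
  obtain ⟨v, hv, n, hn, -⟩ := exists_inv (E := AlgebraicClosure K) (tL F hunit M)
    (srep F hunit M).cyc (srep F hunit M).hasTraces
  have hne : {n : ℕ | ∃ S : M ⟶ M, NumInvolution S ∧
      tr S = (n : ℚ) • 𝟙 (𝟙_ 𝒜)}.Nonempty := by
    refine ⟨n, v, (inv_iff F hunit).2 hv, ?_⟩
    rw [tL_spec F hunit, hn]
  have hbd : BddAbove {n : ℕ | ∃ S : M ⟶ M, NumInvolution S ∧ tr S = (n : ℚ) • 𝟙 (𝟙_ 𝒜)} := by
    refine ⟨Module.finrank K (F.V M), ?_⟩
    rintro m ⟨S, hS, hm⟩
    obtain ⟨k, hk⟩ := involution_le F hunit hS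
    rw [tL_eq F hunit hm] at hk
    have : m + 2 * k = Module.finrank K (F.V M) := by exact_mod_cast hk
    omega
  exact ⟨Nat.sSup_mem hne hbd, fun m hm => le_csSup hbd hm⟩

lemma exists_numDim (M : 𝒜) : ∃ S : M ⟶ M, NumInvolution S ∧ tL F hunit M S = numDim M := by
  obtain ⟨S, hS, h⟩ := (isGreatest F hunit M).1
  exact ⟨S, hS, tL_eq F hunit h⟩

lemma numDim_le (M : 𝒜) : numDim M ≤ Module.finrank K (F.V M) := by
  obtain ⟨S, hS, h⟩ := exists_numDim F hunit M
  obtain ⟨k, hk⟩ := involution_le F hunit hS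
  rw [h] at hk
  have : numDim M + 2 * k = Module.finrank K (F.V M) := by exact_mod_cast hk
  omega

lemma le_numDim {M : 𝒜} {S : M ⟶ M} (hS : NumInvolution S) : tL F hunit M S ≤ numDim M := by
  obtain ⟨k, hk⟩ := involution_le F hunit hS
  have h1 : tL F hunit M S = ((Module.finrank K (F.V M) : ℤ) - 2 * k : ℤ) := by
    push_cast
    linarith
  rcases le_or_gt 0 ((Module.finrank K (F.V M) : ℤ) - 2 * k) with h | h
  · obtain ⟨m, hm⟩ := Int.eq_ofNat_of_zero_le h
    have h2 : tL F hunit M S = (m : ℚ) := by rw [h1, hm]; norm_cast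
    have h3 : m ≤ numDim M := by
      apply (isGreatest F hunit M).2
      refine ⟨S, hS, ?_⟩
      rw [tL_spec F hunit, h2]
    rw [h2]
    exact_mod_cast h3
  · have h2 : tL F hunit M S ≤ 0 := by
      rw [h1]
      exact_mod_cast h.le
    exact h2.trans (Nat.cast_nonneg _)

lemma numInvolution_one (M : 𝒜) : NumInvolution (𝟙 M) := by
  rw [NumInvolution, Category.comp_id, sub_self]
  exact NumTrivial.zero

lemma NumInvolution.neg' {M : 𝒜} {S : M ⟶ M} (hS : NumInvolution S) : NumInvolution (-S) := by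
  rw [NumInvolution, Preadditive.neg_comp, Preadditive.comp_neg, neg_neg]
  exact hS

/-- The tensor product of numerical involutions. -/
lemma inv_tensor {M N : 𝒜} {S : M ⟶ M} {S' : N ⟶ N} (hS : NumInvolution S)
    (hS' : NumInvolution S') : NumInvolution (S ⊗ₘ S') := by
  have h1 : (S ⊗ₘ S') ≫ (S ⊗ₘ S') - 𝟙 (M ⊗ N) =
      (S ≫ S - 𝟙 M) ⊗ₘ (S' ≫ S') + 𝟙 M ⊗ₘ (S' ≫ S' - 𝟙 N) := by
    rw [tensorHom_comp_tensorHom, sub_ten, ten_sub, id_tensorHom_id]
    abel
  rw [NumInvolution, h1]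
  exact (num_tensor F hunit hS _).add (num_tensor' F hunit hS' _)

lemma tL_tensor {M N : 𝒜} (f : M ⟶ M) (g : N ⟶ N) :
    tL F hunit (M ⊗ N) (f ⊗ₘ g) = tL F hunit M f * tL F hunit N g := by
  apply tL_eq F hunit
  rw [← tr_ptr F hunit, MonoidalCategory.tensorHom_def, ptr_left, ptr_scalar (tL_spec F hunit g),
    Linear.comp_smul, Category.comp_id, tr_smul', tL_spec F hunit f, smul_smul, mul_comm]

lemma mul_numDim_le (M N : 𝒜) : numDim M * numDim N ≤ numDim (M ⊗ N) := by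
  obtain ⟨S, hS, h⟩ := exists_numDim F hunit M
  obtain ⟨S', hS', h'⟩ := exists_numDim F hunit N
  have h1 := le_numDim F hunit (inv_tensor F hunit hS hS')
  rw [tL_tensor, h, h'] at h1
  exact_mod_cast h1

lemma tL_Tm {M : 𝒜} (f : M ⟶ M) (n : ℕ) :
    tL F hunit (T M n) (Tm f n) = tL F hunit M f ^ n := by
  induction n with
  | zero =>
    rw [pow_zero]
    apply tL_eq F hunit
    change tr (𝟙 (𝟙_ 𝒜)) = _
    rw [tr_id_unit, one_smul]
  | succ n ih =>
    change tL F hunit (T M n ⊗ M) (Tm f n ⊗ₘ f) = _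
    rw [tL_tensor, ih, pow_succ]

lemma inv_Tm {M : 𝒜} {S : M ⟶ M} (hS : NumInvolution S) (n : ℕ) : NumInvolution (Tm S n) := by
  induction n with
  | zero => exact numInvolution_one F hunit _
  | succ n ih => exact inv_tensor F hunit ih hS

lemma pow_numDim_le (M : 𝒜) (n : ℕ) : numDim M ^ n ≤ numDim (T M n) := by
  obtain ⟨S, hS, h⟩ := exists_numDim F hunit M
  have h1 := le_numDim F hunit (inv_Tm F hunit hS n)
  rw [tL_Tm, h] at h1
  exact_mod_cast h1

lemma num_iso {X Y : 𝒜} (e : X ≅ Y) {f : X ⟶ X} (h : NumTrivial f) :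
    NumTrivial (e.inv ≫ f ≫ e.hom) := (h.comp_right _).comp_left _

lemma numDim_le_of_iso {X Y : 𝒜} (e : X ≅ Y) : numDim X ≤ numDim Y := by
  obtain ⟨S, hS, h⟩ := exists_numDim F hunit X
  have h1 : NumInvolution (e.inv ≫ S ≫ e.hom) := by
    have h2 := num_iso F hunit e hS
    have h3 : e.inv ≫ (S ≫ S - 𝟙 X) ≫ e.hom =
        (e.inv ≫ S ≫ e.hom) ≫ (e.inv ≫ S ≫ e.hom) - 𝟙 Y := by
      simp
    rwa [h3] at h2
  have h2 := le_numDim F hunit h1
  have h3 : tL F hunit Y (e.inv ≫ S ≫ e.hom) = tL F hunit X S := by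
    apply tL_congr
    rw [tr_comm, Category.assoc, Iso.hom_inv_id, Category.comp_id]
  rw [h3, h] at h2
  exact_mod_cast h2

lemma numDim_iso {X Y : 𝒜} (e : X ≅ Y) : numDim X = numDim Y :=
  le_antisymm (numDim_le_of_iso F hunit e) (numDim_le_of_iso F hunit e.symm)

end

end Pool.Agent.H843.Km
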