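import Pool.Agent.H843.Km3

/-!
# Multiplicativity of the numerical dimension and numerical Kimura-finiteness
-/

open CategoryTheory MonoidalCategory Limits BraidedCategory

universe u v w

set_option autoImplicit false
set_option linter.unusedSectionVars false

namespace Pool.Agent.H843.Km

open Pool.Agent.TH90.Kim Pool.Agent.TH90.AB Pool.Agent.H843.Nd

section kill

variable {E : Type*} [Field E] [Algebra ℚ E]

/-- If the involution `V` has the largest possible trace and the idempotent `q`, on which it is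
scalar, has trace zero then `q` is zero. -/
theorem kill [IsAlgClosed E] {R : Type*} [Ring R] [Algebra ℚ R] {t : R →ₗ[ℚ] ℚ}
    (hc : ∀ a b, t (a * b) = t (b * a)) (hE : HasTraces E t)
    [Module.Finite ℚ (LinearMap.range (form t))] {B : ℚ}
    (hB : ∀ v, (∀ b, t (v * v * b) = t b) → t v ≤ B) {V q : R} {κ : ℚ} (hκ : κ * κ = 1)
    (hV : ∀ b, t (V * V * b) = t b) (hVB : t V = B) (hq : ∀ b, t (q * q * b) = t (q * b))
    (h1 : ∀ b, t (V * q * b) = t (κ • q * b)) (h2 : ∀ b, t (q * V * b) = t (κ • q * b))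
    (h0 : t q = 0) : ∀ b, t (q * b) = 0 := by
  by_contra hne
  push Not at hne
  obtain ⟨u, hu1, hu2, hu3, n, hn, hn1⟩ := corner (E := E) hc hE hq hne
  have := radI_two t hc
  set I := radI t hc with hI
  let π : R →ₐ[ℚ] R ⧸ I := Ideal.Quotient.mkₐ ℚ I
  have hker : ∀ a, π a = 0 ↔ ∀ b, t (a * b) = 0 := fun a => Ideal.Quotient.eq_zero_iff_mem
  have hke : ∀ a b, π a = π b ↔ ∀ c, t (a * c) = t (b * c) := by
    intro a b
    rw [← sub_eq_zero, ← map_sub, hker]
    constructor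
    · intro h c
      have := h c
      rwa [sub_mul, map_sub, sub_eq_zero] at this
    · intro h c
      rw [sub_mul, map_sub, h, sub_self]
  have e1 : π V * π V = 1 := by
    rw [← map_mul, ← map_one π, hke]
    intro c
    rw [hV, one_mul]
  have e2 : π q * π q = π q := by rw [← map_mul, hke]; exact hq
  have e3 : π V * π q = κ • π q := by rw [← map_mul, ← map_smul, hke]; exact h1
  have e4 : π q * π V = κ • π q := by rw [← map_mul, ← map_smul, hke]; exact h2
  have e5 : π u * π q = π u := by rw [← map_mul, hke]; exact hu1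
  have e6 : π q * π u = π u := by rw [← map_mul, hke]; exact hu2
  have e7 : π u * π u = π q := by rw [← map_mul, hke]; exact hu3
  have e8 : π V * π u = κ • π u := by rw [← e6, ← mul_assoc, e3, smul_mul_assoc]
  have e9 : π u * π V = κ • π u := by
    rw [← e5, mul_assoc, e4, mul_smul_comm]
  have key : π (V - κ • q + u) * π (V - κ • q + u) = 1 := by
    rw [map_add, map_sub, map_smul]
    generalize π V = a at *
    generalize π q = b at *
    generalize π u = c at *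
    have e : (a - κ • b + c) * (a - κ • b + c) = a * a - κ • (a * b) - κ • (b * a) + a * c + c * a +
        (κ * κ) • (b * b) - κ • (b * c) - κ • (c * b) + c * c := by
      simp only [add_mul, mul_add, sub_mul, mul_sub, smul_mul_assoc, mul_smul_comm]
      module
    rw [e, e1, e2, e3, e4, e5, e6, e7, e8, e9, smul_smul, hκ, one_smul]
    abel
  have h3 := hB (V - κ • q + u) (by
    intro b
    have h4 : π ((V - κ • q + u) * (V - κ • q + u)) = π 1 := by rw [map_mul, key, map_one]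
    have h5 := (hke _ _).1 h4 b
    rwa [one_mul] at h5)
  rw [map_add, map_sub, map_smul, h0, hVB, hn, smul_zero, sub_zero] at h3
  have h4 : (1 : ℚ) ≤ n := by exact_mod_cast hn1
  linarith

end kill

noncomputable section

variable {𝒜 : Type u} [Category.{v} 𝒜] [MonoidalCategory 𝒜] [SymmetricCategory 𝒜]
  [Preadditive 𝒜] [MonoidalPreadditive 𝒜] [Linear ℚ 𝒜] [MonoidalLinear ℚ 𝒜]

@[reassoc]
lemma sw_Tm {P Q : 𝒜} (f : P ⟶ Q) (n : ℕ) :
    sw (T P n) P ≫ Tm f (n + 2) = Tm f (n + 2) ≫ sw (T Q n) Q := by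
  change sw (T P n) P ≫ ((Tm f n ⊗ₘ f) ⊗ₘ f) = ((Tm f n ⊗ₘ f) ⊗ₘ f) ≫ sw (T Q n) Q
  simp only [sw, Category.assoc]
  rw [associator_naturality_assoc, ← associator_inv_naturality,
    ← id_tensorHom, ← id_tensorHom, tensorHom_comp_tensorHom_assoc, tensorHom_comp_tensorHom_assoc,
    Category.id_comp, Category.comp_id, braiding_naturality]

lemma sy_Tm (ε : ℚ) {P Q : 𝒜} (f : P ⟶ Q) : ∀ n, sy ε P n ≫ Tm f n = Tm f n ≫ sy ε Q n
  | 0 => by
    change 𝟙 _ ≫ _ = _ ≫ 𝟙 _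
    rw [Category.id_comp, Category.comp_id]
  | 1 => by
    change 𝟙 _ ≫ _ = _ ≫ 𝟙 _
    rw [Category.id_comp, Category.comp_id]
  | n + 2 => by
    have ih := sy_Tm ε f (n + 1)
    have h1 : sy ε P (n + 1) ▷ P ≫ Tm f (n + 2) = Tm f (n + 2) ≫ sy ε Q (n + 1) ▷ Q := by
      change sy ε P (n + 1) ▷ P ≫ (Tm f (n + 1) ⊗ₘ f) = (Tm f (n + 1) ⊗ₘ f) ≫ sy ε Q (n + 1) ▷ Q
      rw [← tensorHom_id, ← tensorHom_id, tensorHom_comp_tensorHom, tensorHom_comp_tensorHom, ih,
        Category.id_comp, Category.comp_id]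
    rw [sy_succ, sy_succ, Linear.smul_comp, Linear.comp_smul, Preadditive.add_comp,
      Preadditive.comp_add, Linear.smul_comp, Linear.comp_smul]
    simp only [Category.assoc]
    rw [h1, sw_Tm_assoc, reassoc_of% h1]

section num

variable [hdual : ∀ X : 𝒜, HasRightDual X]
variable {K : Type w} [Field K] [CharZero K] (F : Realisation 𝒜 K)
  (hunit : ∀ f : 𝟙_ 𝒜 ⟶ 𝟙_ 𝒜, ∃ q : ℚ, f = q • 𝟙 (𝟙_ 𝒜))

lemma Tm_smul {M N : 𝒜} (c : ℚ) (f : M ⟶ N) (n : ℕ) : Tm (c • f) n = c ^ n • Tm f n := by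
  induction n with
  | zero =>
    change 𝟙 _ = _ • 𝟙 _
    rw [pow_zero, one_smul]
  | succ n ih =>
    change Tm (c • f) n ⊗ₘ (c • f) = _ • (Tm f n ⊗ₘ f)
    rw [ih, smul_tensor, tensor_smul, smul_smul, pow_succ]

include F hunit

/-- The partial traces of the symmetric and exterior powers of a numerical idempotent. -/
lemma ptr_pow {ε : ℚ} (hε : ε * ε = 1) {M : 𝒜} {e : M ⟶ M} (he : NumTrivial (e ≫ e - e)) {χ : ℚ}
    (hχ : tr e = χ • 𝟙 (𝟙_ 𝒜)) : ∀ n : ℕ,
    NumTrivial (ptr (Tm e (n + 1) ≫ sy ε M (n + 1)) -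
      ((χ + ε * n) / (n + 1)) • (Tm e n ≫ sy ε M n))
  | 0 => by
    have h1 : ptr (Tm e 1 ≫ sy ε M 1) = χ • 𝟙 (𝟙_ 𝒜) := by
      change ptr ((𝟙 _ ⊗ₘ e) ≫ 𝟙 _) = _
      rw [Category.comp_id, id_tensorHom, ptr_scalar hχ]
    have h2 : Tm e 0 ≫ sy ε M 0 = 𝟙 (𝟙_ 𝒜) := Category.comp_id _
    rw [h1, h2]
    have h3 : (χ + ε * ((0 : ℕ) : ℚ)) / (((0 : ℕ) : ℚ) + 1) = χ := by simp
    rw [h3, sub_self]
    exact NumTrivial.zero
  | n + 1 => by
    set X := T M (n + 1) with hX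
    set s := sy ε M (n + 1) with hs
    have hss : s ≫ s = s := (isSy hε M (n + 1)).idem
    have hTm : Tm e (n + 2) = Tm e (n + 1) ▷ M ≫ X ◁ e := by
      change Tm e (n + 1) ⊗ₘ e = _
      rw [MonoidalCategory.tensorHom_def]
    have hc : s ≫ Tm e (n + 1) = Tm e (n + 1) ≫ s := sy_Tm ε e (n + 1)
    have p1 : ptr (Tm e (n + 2) ≫ s ▷ M) = χ • (Tm e (n + 1) ≫ s) := by
      rw [ptr_right, hTm, ptr_left, ptr_scalar hχ, Linear.comp_smul, Category.comp_id,
        Linear.smul_comp]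
    have p2 : ptr (Tm e (n + 2) ≫ s ▷ M ≫ sw (T M n) M ≫ s ▷ M) =
        s ≫ (Tm e (n + 1) ≫ T M n ◁ e) ≫ s := by
      have e1 : Tm e (n + 2) ≫ s ▷ M ≫ sw (T M n) M ≫ s ▷ M =
          (Tm e (n + 1) ≫ s) ▷ M ≫ ((T M n ⊗ M) ◁ e ≫ sw (T M n) M) ≫ s ▷ M := by
        rw [hTm, Category.assoc, comp_whiskerRight, Category.assoc, Category.assoc]
        rw [whisker_exchange_assoc]
      rw [e1, ptr_left, ptr_right, ptr_whisker_sw, ← hc]
      simp only [Category.assoc]
    have p3 : NumTrivial (s ≫ (Tm e (n + 1) ≫ T M n ◁ e) ≫ s - Tm e (n + 1) ≫ s) := by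
      have e1 : Tm e (n + 1) ≫ T M n ◁ e = Tm e n ⊗ₘ (e ≫ e) := by
        change (Tm e n ⊗ₘ e) ≫ _ = _
        rw [← id_tensorHom, tensorHom_comp_tensorHom, Category.comp_id]
      have e2 : Tm e (n + 1) ≫ s = s ≫ Tm e (n + 1) ≫ s := by
        rw [← Category.assoc, hc, Category.assoc, hss]
      have e3 : s ≫ (Tm e (n + 1) ≫ T M n ◁ e) ≫ s - Tm e (n + 1) ≫ s =
          s ≫ (Tm e n ⊗ₘ (e ≫ e - e)) ≫ s := by
        rw [e2, e1, ten_sub, Preadditive.sub_comp, Preadditive.comp_sub]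
        rfl
      rw [e3]
      exact ((num_tensor' F hunit he _).comp_right _).comp_left _
    have p4 : ptr (Tm e (n + 2) ≫ sy ε M (n + 2)) = ((n : ℚ) + 2)⁻¹ • (χ • (Tm e (n + 1) ≫ s) +
        (ε * (n + 1)) • (s ≫ (Tm e (n + 1) ≫ T M n ◁ e) ≫ s)) := by
      rw [sy_succ, Linear.comp_smul, ptr_smul, Preadditive.comp_add, ptr_add, Linear.comp_smul,
        ptr_smul, p1, p2]
    have p5 : ptr (Tm e (n + 2) ≫ sy ε M (n + 2)) -
        ((χ + ε * ((n + 1 : ℕ) : ℚ)) / (((n + 1 : ℕ) : ℚ) + 1)) • (Tm e (n + 1) ≫ s) =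
        (((n : ℚ) + 2)⁻¹ * (ε * (n + 1))) •
          (s ≫ (Tm e (n + 1) ≫ T M n ◁ e) ≫ s - Tm e (n + 1) ≫ s) := by
      rw [p4]
      have h1 : ((n : ℚ) + 2) ≠ 0 := by positivity
      have h2 : (χ + ε * ((n + 1 : ℕ) : ℚ)) / (((n + 1 : ℕ) : ℚ) + 1) =
          ((n : ℚ) + 2)⁻¹ * χ + ((n : ℚ) + 2)⁻¹ * (ε * (n + 1)) := by
        push_cast
        field_simp
        ring
      rw [h2]
      module
    rw [p5]
    exact p3.smul _

/-- The traces of the symmetric and exterior powers of a numerical idempotent. -/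
lemma tL_pow {ε : ℚ} (hε : ε * ε = 1) {M : 𝒜} {e : M ⟶ M} (he : NumTrivial (e ≫ e - e)) (n : ℕ) :
    tL F hunit _ (Tm e (n + 1) ≫ sy ε M (n + 1)) =
      ((tL F hunit M e + ε * n) / (n + 1)) * tL F hunit _ (Tm e n ≫ sy ε M n) := by
  apply tL_eq F hunit
  have h1 := (ptr_pow F hunit hε he (tL_spec F hunit e) n).tr
  rw [tr_sub', sub_eq_zero] at h1
  rw [← tr_ptr F hunit, h1, tr_smul', tL_spec F hunit (Tm e n ≫ sy ε M n), smul_smul]

lemma tL_pow_zero {ε : ℚ} (hε : ε * ε = 1) {M : 𝒜} {e : M ⟶ M} (he : NumTrivial (e ≫ e - e))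
    {k : ℕ} (hk : tL F hunit M e + ε * k = 0) {n : ℕ} (hn : k < n) :
    tL F hunit _ (Tm e n ≫ sy ε M n) = 0 := by
  induction n, hn using Nat.le_induction with
  | base => rw [tL_pow F hunit hε he, hk, zero_div, zero_mul]
  | succ n _ ih => rw [tL_pow F hunit hε he, ih, mul_zero]

lemma tL_congr_num {M : 𝒜} {a b : End M} (h : NumTrivial (show M ⟶ M from a - b)) (c : End M) :
    tL F hunit M (a * c) = tL F hunit M (b * c) := by
  have h1 := (num_iff F hunit).1 h c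
  have h2 : (show End M from (show M ⟶ M from a - b)) * c = a * c - b * c := sub_mul a b c
  rw [h2, map_sub, sub_eq_zero] at h1
  exact h1

lemma exists_k {M : 𝒜} {S : M ⟶ M} (hS : NumInvolution S) (hSt : tL F hunit M S = numDim M)
    {δ : ℚ} (hδ : δ = 1 ∨ δ = -1) : ∃ k : ℕ, k ≤ numDim M ∧
      tL F hunit M ((2⁻¹ : ℚ) • (𝟙 M + δ • S)) + (-δ) * k = 0 := by
  obtain ⟨n1, h1⟩ := involution_le F hunit (numInvolution_one F hunit M)
  obtain ⟨n2, h2⟩ := involution_le F hunit hS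
  have h3 := le_numDim F hunit (numInvolution_one F hunit M)
  have h4 := le_numDim F hunit (NumInvolution.neg' F hunit (numInvolution_one F hunit M))
  have h5 : tL F hunit M (-𝟙 M) = -tL F hunit M (𝟙 M) := map_neg (tL F hunit M) (1 : End M)
  have h6 : tL F hunit M ((2⁻¹ : ℚ) • (𝟙 M + δ • S)) =
      2⁻¹ * (tL F hunit M (𝟙 M) + δ * tL F hunit M S) := by
    have e1 : tL F hunit M ((2⁻¹ : ℚ) • (𝟙 M + δ • S)) =
      (2⁻¹ : ℚ) • (tL F hunit M (𝟙 M) + δ • tL F hunit M S) := by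
      rw [← map_smul (tL F hunit M), ← map_add (tL F hunit M), ← map_smul (tL F hunit M)]
    rw [e1, smul_eq_mul, smul_eq_mul]
  rw [h6]
  rw [h5] at h4
  rw [hSt] at h2 ⊢
  generalize tL F hunit M (𝟙 M) = x at *
  generalize Module.finrank K (F.V M) = r at *
  generalize numDim M = N at *
  rcases hδ with rfl | rfl
  · have a1 : n1 + n2 ≤ r := by
      have : (n1 : ℚ) + n2 ≤ r := by linarith
      exact_mod_cast this
    obtain ⟨k, rfl⟩ := Nat.exists_eq_add_of_le a1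
    refine ⟨k, ?_, ?_⟩
    · have : (k : ℚ) ≤ N := by push_cast at h1 h2; linarith
      exact_mod_cast this
    · push_cast at h1 h2
      linarith
  · have a1 : n2 ≤ n1 := by
      have : (n2 : ℚ) ≤ n1 := by linarith
      exact_mod_cast this
    obtain ⟨k, rfl⟩ := Nat.exists_eq_add_of_le a1
    refine ⟨k, ?_, ?_⟩
    · have : (k : ℚ) ≤ N := by push_cast at h1 h2; linarith
      exact_mod_cast this
    · push_cast at h1 h2
      linarith

/-- **One power decides**: the exterior, respectively symmetric power of the part of `M` on which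
the involution `S` of largest trace is `δ`. -/
lemma kill_part {M : 𝒜} {S : M ⟶ M} (hS : NumInvolution S) (hSt : tL F hunit M S = numDim M)
    {n : ℕ} (hn : numDim M < n) (hmul : numDim (T M n) = numDim M ^ n) {δ : ℚ}
    (hδ : δ = 1 ∨ δ = -1) :
    NumTrivial (((2⁻¹ : ℚ) • (𝟙 M + δ • S)) ≫ ((2⁻¹ : ℚ) • (𝟙 M + δ • S)) -
      (2⁻¹ : ℚ) • (𝟙 M + δ • S)) ∧
    NumTrivial (Tm ((2⁻¹ : ℚ) • (𝟙 M + δ • S)) n ≫ sy (-δ) M n) := by
  obtain ⟨k, hk, hk0⟩ := exists_k F hunit hS hSt hδ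
  set e := (2⁻¹ : ℚ) • (𝟙 M + δ • S) with he
  have hδδ : δ * δ = 1 := by rcases hδ with rfl | rfl <;> norm_num
  have hε : (-δ) * (-δ) = 1 := by rw [neg_mul_neg, hδδ]
  have hee : NumTrivial (e ≫ e - e) := by
    have h1 : e ≫ e - e = (4⁻¹ : ℚ) • (S ≫ S - 𝟙 M) := by
      rw [he]
      simp only [Linear.smul_comp, Linear.comp_smul, Preadditive.add_comp, Preadditive.comp_add,
        Category.id_comp, Category.comp_id, smul_add, smul_smul, smul_sub]
      match_scalars <;> nlinarith [hδδ]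
    rw [h1]
    exact hS.smul _
  have heS : NumTrivial (e ≫ S - δ • e) := by
    have h1 : e ≫ S - δ • e = (2⁻¹ * δ : ℚ) • (S ≫ S - 𝟙 M) := by
      rw [he]
      simp only [Linear.smul_comp, Preadditive.add_comp,
        Category.id_comp, smul_add, smul_smul, smul_sub]
      match_scalars <;> nlinarith [hδδ]
    rw [h1]
    exact hS.smul _
  have hSe : NumTrivial (S ≫ e - δ • e) := by
    have h1 : S ≫ e - δ • e = (2⁻¹ * δ : ℚ) • (S ≫ S - 𝟙 M) := by
      rw [he]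
      simp only [Linear.comp_smul, Preadditive.comp_add,
        Category.comp_id, smul_add, smul_smul, smul_sub]
      match_scalars <;> nlinarith [hδδ]
    rw [h1]
    exact hS.smul _
  refine ⟨hee, ?_⟩
  clear_value e
  have hss : sy (-δ) M n ≫ sy (-δ) M n = sy (-δ) M n := (isSy hε M n).idem
  set s := sy (-δ) M n with hs
  have hc : ∀ f : M ⟶ M, s ≫ Tm f n = Tm f n ≫ s := fun f => sy_Tm (-δ) f n
  have q1 : NumTrivial ((Tm e n ≫ s) ≫ (Tm e n ≫ s) - Tm e n ≫ s) := by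
    have h1 : (Tm e n ≫ s) ≫ (Tm e n ≫ s) - Tm e n ≫ s = (Tm (e ≫ e) n - Tm e n) ≫ s := by
      rw [Preadditive.sub_comp, ← Tm_comp]
      congr 1
      simp only [Category.assoc]
      rw [reassoc_of% (hc e), hss]
    rw [h1]
    exact (num_Tm F hunit hee n).comp_right _
  have q2 : NumTrivial ((Tm e n ≫ s) ≫ Tm S n - δ ^ n • (Tm e n ≫ s)) := by
    have h1 : (Tm e n ≫ s) ≫ Tm S n - δ ^ n • (Tm e n ≫ s) =
        (Tm (e ≫ S) n - Tm (δ • e) n) ≫ s := by
      rw [Preadditive.sub_comp, ← Tm_comp, Tm_smul, Linear.smul_comp]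
      congr 1
      simp only [Category.assoc]
      rw [hc S]
    rw [h1]
    exact (num_Tm F hunit heS n).comp_right _
  have q3 : NumTrivial (Tm S n ≫ (Tm e n ≫ s) - δ ^ n • (Tm e n ≫ s)) := by
    have h1 : Tm S n ≫ (Tm e n ≫ s) - δ ^ n • (Tm e n ≫ s) =
        (Tm (S ≫ e) n - Tm (δ • e) n) ≫ s := by
      rw [Preadditive.sub_comp, ← Tm_comp, Tm_smul, Linear.smul_comp]
      congr 1
      simp only [Category.assoc]
    rw [h1]
    exact (num_Tm F hunit hSe n).comp_right _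
  have := (srep F hunit (T M n)).finite
  have hκ : δ ^ n * δ ^ n = 1 := by rw [← mul_pow, hδδ, one_pow]
  rw [num_iff F hunit]
  refine kill (E := AlgebraicClosure K) (B := (numDim (T M n) : ℚ)) (κ := δ ^ n)
    (V := (show End (T M n) from Tm S n)) (srep F hunit (T M n)).cyc
    (srep F hunit (T M n)).hasTraces ?_ hκ ?_ ?_ ?_ ?_ ?_ ?_
  · intro v hv
    exact le_numDim F hunit ((inv_iff F hunit).2 hv)
  · exact (inv_iff F hunit).1 (inv_Tm F hunit hS n)
  · rw [tL_Tm, hSt, hmul]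
    push_cast
    rfl
  · intro b
    exact tL_congr_num F hunit (a := (show End (T M n) from (Tm e n ≫ s) ≫ (Tm e n ≫ s)))
      (b := (show End (T M n) from Tm e n ≫ s)) q1 b
  · intro b
    exact tL_congr_num F hunit (a := (show End (T M n) from (Tm e n ≫ s) ≫ Tm S n))
      (b := (show End (T M n) from δ ^ n • (Tm e n ≫ s))) q2 b
  · intro b
    exact tL_congr_num F hunit (a := (show End (T M n) from Tm S n ≫ (Tm e n ≫ s)))
      (b := (show End (T M n) from δ ^ n • (Tm e n ≫ s))) q3 b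
  · exact tL_pow_zero F hunit hε hee hk0 (lt_of_le_of_lt hk hn)

/-- Alternating and symmetric endomorphisms. -/
lemma tr_signed {ε : ℚ} (hε : ε * ε = 1) {M : 𝒜} {e : M ⟶ M} {n : ℕ}
    (h : NumTrivial (Tm e n ≫ sy ε M n)) (g : T M n ⟶ T M n) (hg : Signed ε g) :
    tr (Tm e n ≫ g) = 0 := by
  have h1 := h g
  rwa [Category.assoc, sy_comp hε hg] at h1

/-- **Multiplicativity at one power implies numerical Kimura-finiteness.** -/
theorem numKimura {M : 𝒜} {n : ℕ} (hn : numDim M < n) (hmul : numDim (T M n) = numDim M ^ n) :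
    NumKimura M n := by
  obtain ⟨S, hS, hSt⟩ := exists_numDim F hunit M
  obtain ⟨a1, a2⟩ := kill_part F hunit hS hSt hn hmul (δ := 1) (Or.inl rfl)
  obtain ⟨-, b2⟩ := kill_part F hunit hS hSt hn hmul (δ := -1) (Or.inr rfl)
  refine ⟨_, a1, ?_, ?_⟩
  · exact tr_signed F hunit (by norm_num) a2
  · have h1 : 𝟙 M - (2⁻¹ : ℚ) • (𝟙 M + (1 : ℚ) • S) = (2⁻¹ : ℚ) • (𝟙 M + (-1 : ℚ) • S) := by
      simp only [smul_add, smul_smul]
      module
    rw [h1]
    rw [neg_neg] at b2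
    exact tr_signed F hunit (by norm_num) b2

end num

end

end Pool.Agent.H843.Km
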