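import Pool.Agent.H843.Km4
import Pool.Graph.R_seed8.H914R2.Core0

/-!
# Kimura-finiteness and the numerical dimension
-/

open CategoryTheory MonoidalCategory Limits BraidedCategory

universe u v w

set_option autoImplicit false
set_option linter.unusedSectionVars false

namespace Pool.Agent.H843.Km

open Pool.Agent.TH90.Kim Pool.Agent.TH90.AB Pool.Agent.H843.Nd

noncomputable section

variable {𝒜 : Type u} [Category.{v} 𝒜] [MonoidalCategory 𝒜] [SymmetricCategory 𝒜]
  [Preadditive 𝒜] [MonoidalPreadditive 𝒜] [Linear ℚ 𝒜] [MonoidalLinear ℚ 𝒜]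
  [hdual : ∀ X : 𝒜, HasRightDual X]
variable {K : Type w} [Field K] [CharZero K] (F : Realisation 𝒜 K)
  (hunit : ∀ f : 𝟙_ 𝒜 ⟶ 𝟙_ 𝒜, ∃ q : ℚ, f = q • 𝟙 (𝟙_ 𝒜))

include F hunit

/-- Lifting of idempotents modulo numerically trivial endomorphisms. -/
lemma lift_idem {M : 𝒜} (hM : NumNilpotent M) {e : M ⟶ M} (he : NumTrivial (e ≫ e - e)) :
    ∃ e' : M ⟶ M, e' ≫ e' = e' ∧ NumTrivial (e' - e) := by
  have := radI_two (tL F hunit M) (srep F hunit M).cyc
  set I := radI (tL F hunit M) (srep F hunit M).cyc with hI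
  have hmem : ∀ f : End M, f ∈ I ↔ NumTrivial (show M ⟶ M from f) := fun f =>
    (num_iff F hunit).symm
  have hker : ∀ f : End M, Ideal.Quotient.mk I f = 0 ↔ NumTrivial (show M ⟶ M from f) := fun f =>
    Ideal.Quotient.eq_zero_iff_mem.trans (hmem f)
  obtain ⟨e', h1, h2⟩ := exists_isIdempotentElem_eq_of_ker_isNilpotent (Ideal.Quotient.mk I)
    (by
      intro x hx
      exact hM x ((hker x).1 (RingHom.mem_ker.1 hx)))
    (Ideal.Quotient.mk I (show End M from e)) ⟨_, rfl⟩ (by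
      change Ideal.Quotient.mk I (show End M from e) * Ideal.Quotient.mk I (show End M from e) = _
      rw [← map_mul, ← sub_eq_zero, ← map_sub, hker]
      exact he)
  refine ⟨e', h1, ?_⟩
  rw [← sub_eq_zero, ← map_sub, hker] at h2
  exact h2

/-- From a numerical decomposition to a decomposition. -/
lemma split_of_num [IsIdempotentComplete 𝒜] {M : 𝒜} {n : ℕ} (hM : NumNilpotent M)
    (h : NumKimura M n) : ∃ P Q, ∃ _ : Split M P Q, NumTrivial (sy (-1) P n) ∧
      NumTrivial (sy 1 Q n) := by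
  obtain ⟨e, he, h1, h2⟩ := h
  obtain ⟨e', he', hee⟩ := lift_idem F hunit hM he
  have key : ∀ {ε : ℚ} (hε : ε * ε = 1) (f f' : M ⟶ M), NumTrivial (f' - f) →
      (∀ g : T M n ⟶ T M n, Signed ε g → tr (Tm f n ≫ g) = 0) →
      ∀ {P : 𝒜} (i : P ⟶ M) (r : M ⟶ P), i ≫ r = 𝟙 P → r ≫ i = f' →
        NumTrivial (sy ε P n) := by
    intro ε hε f f' hff hf P i r hir hri
    have a1 : NumTrivial (Tm f n ≫ sy ε M n) := by
      intro g
      rw [Category.assoc]
      apply hf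
      intro s hs
      rw [← Category.assoc, signed_sy hε M n s hs, Linear.smul_comp]
    have a2 : NumTrivial (Tm f' n ≫ sy ε M n) := by
      have h3 : Tm f' n ≫ sy ε M n = (Tm f' n - Tm f n) ≫ sy ε M n + Tm f n ≫ sy ε M n := by
        rw [Preadditive.sub_comp, sub_add_cancel]
      rw [h3]
      exact ((num_Tm F hunit hff n).comp_right _).add a1
    have hir' : Tm i n ≫ Tm r n = 𝟙 _ := by rw [Tm_comp, hir, Tm_id]
    have a3 : sy ε P n = Tm i n ≫ (Tm f' n ≫ sy ε M n) ≫ Tm r n := by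
      rw [← hri, ← Tm_comp]
      simp only [Category.assoc]
      rw [sy_Tm, reassoc_of% hir', reassoc_of% hir']
    rw [a3]
    exact (a2.comp_right _).comp_left _
  obtain ⟨P, i, r, hir, hri⟩ := IsIdempotentComplete.idempotents_split M e' he'
  have he'' : (𝟙 M - e') ≫ (𝟙 M - e') = 𝟙 M - e' := by
    rw [Preadditive.sub_comp, Preadditive.comp_sub, Preadditive.comp_sub, he']
    simp
  obtain ⟨Q, j, s, hjs, hsj⟩ := IsIdempotentComplete.idempotents_split M (𝟙 M - e') he''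
  refine ⟨P, Q, ⟨i, r, j, s, hir, hjs, by rw [hri, hsj]; abel⟩, ?_, ?_⟩
  · exact key (by norm_num) e e' hee h1 i r hir hri
  · refine key (by norm_num) (𝟙 M - e) (𝟙 M - e') ?_ h2 j s hjs hsj
    have h3 : 𝟙 M - e' - (𝟙 M - e) = -(e' - e) := by abel
    rw [h3]
    exact hee.neg

/-- If the numerical dimension is zero all endomorphisms are numerically trivial. -/
lemma num_one_of_zero {M : 𝒜} (h : numDim M = 0) : NumTrivial (𝟙 M) := by
  have := (srep F hunit M).finite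
  obtain ⟨v, hv, n, hn, hle⟩ := exists_inv (E := AlgebraicClosure K) (tL F hunit M)
    (srep F hunit M).cyc (srep F hunit M).hasTraces
  have h1 : n = 0 := by
    have := le_numDim F hunit ((inv_iff F hunit).2 hv)
    rw [h] at this
    have h2 : tL F hunit M v ≤ ((0 : ℕ) : ℚ) := this
    rw [hn] at h2
    have h3 : n ≤ 0 := by exact_mod_cast h2
    omega
  rw [h1] at hle
  have h2 : Module.finrank ℚ (LinearMap.range (form (tL F hunit M))) = 0 := by simpa using hle
  have h3 : form (tL F hunit M) = 0 :=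
    LinearMap.range_eq_bot.1 (Submodule.finrank_eq_zero.1 h2)
  rw [num_iff F hunit]
  intro b
  have := LinearMap.congr_fun (LinearMap.congr_fun h3 1) b
  exact this

lemma NumNilpotent.iso {X Y : 𝒜} (e : X ≅ Y) (h : NumNilpotent X) : NumNilpotent Y := by
  intro f hf
  obtain ⟨n, hn⟩ := h (show End X from e.hom ≫ (show Y ⟶ Y from f) ≫ e.inv)
    (num_iso F hunit e.symm hf)
  have h1 : ∀ n : ℕ, (show X ⟶ X from
      (show End X from e.hom ≫ (show Y ⟶ Y from f) ≫ e.inv) ^ n) =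
      e.hom ≫ (show Y ⟶ Y from f ^ n) ≫ e.inv := by
    intro n
    induction n with
    | zero =>
      rw [pow_zero, pow_zero]
      change 𝟙 X = e.hom ≫ 𝟙 Y ≫ e.inv
      simp
    | succ n ih =>
      rw [pow_succ, pow_succ]
      change (e.hom ≫ (show Y ⟶ Y from f) ≫ e.inv) ≫ (show X ⟶ X from
        (show End X from e.hom ≫ (show Y ⟶ Y from f) ≫ e.inv) ^ n) =
        e.hom ≫ ((show Y ⟶ Y from f) ≫ (show Y ⟶ Y from f ^ n)) ≫ e.inv
      rw [ih]
      simp
  refine ⟨n, ?_⟩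
  have h2 := h1 n
  rw [hn] at h2
  have h3 : (show Y ⟶ Y from f ^ n) = e.inv ≫ (e.hom ≫ (show Y ⟶ Y from f ^ n) ≫ e.inv) ≫
      e.hom := by simp
  rw [← h2] at h3
  have h4 : (show Y ⟶ Y from f ^ n) = 0 := by
    rw [h3]
    change e.inv ≫ (0 : X ⟶ X) ≫ e.hom = 0
    simp
  exact h4

/-- Nilpotence on a tensor power implies nilpotence. -/
lemma nil_of_T {M : 𝒜} {m : ℕ} (h0 : numDim M ≠ 0) (h : NumNilpotent (T M (m + 1))) :
    NumNilpotent M := by
  have h' : NumNilpotent (M ⊗ T M m) := NumNilpotent.iso F hunit (β_ (T M m) M) h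
  intro f hf
  obtain ⟨n, hn⟩ := h' (show End (M ⊗ T M m) from (show M ⟶ M from f) ▷ T M m)
    (num_whiskerRight F hunit hf _)
  have hn' : pw ((show M ⟶ M from f) ▷ T M m) n = 0 := hn
  rw [pw_whiskerRight] at hn'
  obtain ⟨S, hS, hSt⟩ := exists_numDim F hunit M
  have h1 : pw (show M ⟶ M from f) n ≫ ptr (M ◁ Tm S m) = 0 := by
    rw [← ptr_left, hn', zero_comp, ptr_zero]
  rw [ptr_scalar (tL_spec F hunit (Tm S m)), tL_Tm, hSt, Linear.comp_smul, Category.comp_id] at h1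
  have h2 : ((numDim M : ℚ)) ^ m ≠ 0 := pow_ne_zero _ (by exact_mod_cast h0)
  exact ⟨n, (smul_eq_zero.1 h1).resolve_left h2⟩

/-- Numerically trivial powers vanish if numerically trivial endomorphisms of the tensor power are
nilpotent. -/
lemma powZero_of_nil {M P : 𝒜} {n : ℕ} {ε : ℚ} (hε : ε * ε = 1) (h : NumNilpotent (T M n))
    (i : P ⟶ M) (r : M ⟶ P) (hir : i ≫ r = 𝟙 P) (hs : NumTrivial (sy ε P n)) :
    PowZero ε P n := by
  rw [powZero_iff hε]
  have hir' : Tm i n ≫ Tm r n = 𝟙 _ := by rw [Tm_comp, hir, Tm_id]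
  have hidem : sy ε P n ≫ sy ε P n = sy ε P n := (isSy hε P n).idem
  obtain ⟨k, hk⟩ := h (show End (T M n) from Tm r n ≫ sy ε P n ≫ Tm i n)
    ((hs.comp_right _).comp_left _)
  have h1 : ∀ k : ℕ, (show T M n ⟶ T M n from
      (show End (T M n) from Tm r n ≫ sy ε P n ≫ Tm i n) ^ (k + 1)) =
      Tm r n ≫ sy ε P n ≫ Tm i n := by
    intro k
    induction k with
    | zero => rw [zero_add, pow_one]
    | succ k ih =>
      rw [pow_succ]
      change (Tm r n ≫ sy ε P n ≫ Tm i n) ≫ (show T M n ⟶ T M n from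
        (show End (T M n) from Tm r n ≫ sy ε P n ≫ Tm i n) ^ (k + 1)) = _
      rw [ih]
      simp only [Category.assoc]
      rw [reassoc_of% hir', reassoc_of% hidem]
  have h2 : (show T M n ⟶ T M n from
      (show End (T M n) from Tm r n ≫ sy ε P n ≫ Tm i n) ^ (k + 1)) = 0 := by
    rw [pow_succ, hk, zero_mul]
  rw [h1] at h2
  have h3 : sy ε P n = Tm i n ≫ (Tm r n ≫ sy ε P n ≫ Tm i n) ≫ Tm r n := by
    simp only [Category.assoc]
    rw [hir', Category.comp_id, reassoc_of% hir']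
  rw [h3, h2, zero_comp, comp_zero]

/-- The symmetric or exterior power of a zero object. -/
lemma powZero_of_zero {P : 𝒜} (h : 𝟙 P = 0) (ε : ℚ) {n : ℕ} (hn : n ≠ 0) : PowZero ε P n := by
  intro Y g _
  have h1 : Tm (𝟙 P) n = 0 := by
    have h2 : (𝟙 P) = (0 : ℚ) • 𝟙 P := by rw [zero_smul, h]
    rw [h2, Tm_smul, zero_pow hn, zero_smul]
  rw [Tm_id] at h1
  rw [← Category.id_comp g, h1, zero_comp]

lemma numPowZero_of_num {ε : ℚ} (hε : ε * ε = 1) {P : 𝒜} {n : ℕ} (h : NumTrivial (sy ε P n)) :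
    NumPowZero ε P n := by
  intro g hg
  rw [← sy_comp hε hg]
  exact h g

/-- A decomposition with a zero part. -/
lemma split_zero [IsIdempotentComplete 𝒜] (M : 𝒜) : ∃ Q, ∃ _ : Split M M Q, 𝟙 Q = 0 := by
  obtain ⟨Q, j, s, hjs, hsj⟩ := IsIdempotentComplete.idempotents_split M (0 : M ⟶ M) zero_comp
  refine ⟨Q, ⟨𝟙 M, 𝟙 M, j, s, Category.comp_id _, hjs, ?_⟩, ?_⟩
  · rw [hsj, add_zero, Category.comp_id]
  · have h1 : 𝟙 Q = (j ≫ s) ≫ (j ≫ s) := by rw [hjs, Category.comp_id]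
    rw [h1]
    simp only [Category.assoc]
    rw [reassoc_of% hsj]
    simp

/-- **One power decides.** -/
theorem kimura_of_nil [IsIdempotentComplete 𝒜] {M : 𝒜} {n : ℕ} (hn : numDim M < n)
    (hmul : numDim (T M n) = numDim M ^ n) (hnil : NumNilpotent (T M n)) :
    ∃ P Q, Nonempty (Split M P Q) ∧ PowZero (-1) P n ∧ PowZero 1 Q n := by
  obtain ⟨m, rfl⟩ := Nat.exists_eq_succ_of_ne_zero (show n ≠ 0 by omega)
  by_cases h0 : numDim M = 0
  · have h1 : NumTrivial (𝟙 (T M (m + 1))) := by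
      have h2 : 𝟙 (T M (m + 1)) = T M m ◁ 𝟙 M := (MonoidalCategory.whiskerLeft_id _ _).symm
      rw [h2]
      exact num_whiskerLeft F hunit (num_one_of_zero F hunit h0) _
    obtain ⟨k, hk⟩ := hnil (1 : End (T M (m + 1))) h1
    rw [one_pow] at hk
    have hk' : 𝟙 (T M (m + 1)) = 0 := hk
    obtain ⟨Q, S, hQ⟩ := split_zero F hunit M
    refine ⟨M, Q, ⟨S⟩, ?_, powZero_of_zero F hunit hQ _ (Nat.succ_ne_zero m)⟩
    intro Y g _
    rw [← Category.id_comp g]
    change 𝟙 (T M (m + 1)) ≫ g = 0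
    rw [hk', zero_comp]
  · obtain ⟨P, Q, S, h1, h2⟩ := split_of_num F hunit (nil_of_T F hunit h0 hnil)
      (numKimura F hunit hn hmul)
    exact ⟨P, Q, ⟨S⟩, powZero_of_nil F hunit (by norm_num) hnil S.i S.r S.ir h1,
      powZero_of_nil F hunit (by norm_num) hnil S.j S.s S.js h2⟩

/-- **One power decides**, the version with phantoms. -/
theorem kimura_of_phantom [IsIdempotentComplete 𝒜] {M : 𝒜} {n : ℕ} (hn : numDim M < n)
    (hmul : numDim (T M n) = numDim M ^ n) (hnil : NumNilpotent M) (hph : NoPhantomPowers M n) :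
    ∃ P Q, Nonempty (Split M P Q) ∧ PowZero (-1) P n ∧ PowZero 1 Q n := by
  obtain ⟨P, Q, S, h1, h2⟩ := split_of_num F hunit hnil (numKimura F hunit hn hmul)
  exact ⟨P, Q, ⟨S⟩, (hph P S.i S.r S.ir).1 (numPowZero_of_num F hunit (by norm_num) h1),
    (hph Q S.j S.s S.js).2 (numPowZero_of_num F hunit (by norm_num) h2)⟩

end

end Pool.Agent.H843.Km
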