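import Pool.Agent.H843.Km5

/-!
# Kimura-finite objects: multiplicativity, nilpotence, no phantoms
-/

open CategoryTheory MonoidalCategory Limits BraidedCategory

universe u v w

set_option autoImplicit false
set_option linter.unusedSectionVars false

namespace Pool.Agent.H843.Km

open Pool.Agent.TH90.Kim Pool.Agent.TH90.AB Pool.Agent.H843.Nd

noncomputable section

variable {𝒜 : Type u} [Category.{v} 𝒜] [MonoidalCategory 𝒜] [SymmetricCategory 𝒜]
  [Preadditive 𝒜] [MonoidalPreadditive 𝒜] [Linear ℚ 𝒜] [MonoidalLinear ℚ 𝒜]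
  [hdual : ∀ X : 𝒜, HasRightDual X]
variable {K : Type w} [Field K] [CharZero K] (F : Realisation 𝒜 K)
  (hunit : ∀ f : 𝟙_ 𝒜 ⟶ 𝟙_ 𝒜, ∃ q : ℚ, f = q • 𝟙 (𝟙_ 𝒜))

include F hunit

/-- If the parity is algebraic the numerical dimension is the dimension of the realisation. -/
lemma par_inv {M : 𝒜} {σ : M ⟶ M} (hσ : ∀ z, F.map σ z = F.par _ z) :
    NumInvolution σ ∧ tL F hunit M σ = Module.finrank K (F.V M) := by
  constructor
  · apply num_of_inv F hunit
    intro x
    rw [F.map_sub', F.map_comp, F.map_id, hσ, hσ, F.par_par, sub_self]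
  · have h1 := F.map_tr_par (g := σ) (c := 1) (fun x => by rw [hσ, one_smul])
    rw [one_mul] at h1
    have h2 := F.unit_inj (tL_spec F hunit σ) h1
    exact_mod_cast h2

lemma numDim_of_par {M : 𝒜} {σ : M ⟶ M} (hσ : ∀ z, F.map σ z = F.par _ z) :
    numDim M = Module.finrank K (F.V M) := by
  apply le_antisymm (numDim_le F hunit M)
  obtain ⟨h1, h2⟩ := par_inv F hunit hσ
  have h3 := le_numDim F hunit h1
  rw [h2] at h3
  exact_mod_cast h3

omit hunit in
lemma par_Tm {M : 𝒜} {σ : M ⟶ M} (hσ : ∀ z, F.map σ z = F.par _ z) (n : ℕ) :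
    ∀ z, F.map (Tm σ n) z = F.par _ z := by
  induction n with
  | zero =>
    intro z
    obtain ⟨c, rfl⟩ := F.span_one z
    change F.map (𝟙 _) _ = _
    rw [F.map_id, _root_.map_smul, F.par_one]
  | succ n ih =>
    intro z
    obtain ⟨m, a, b, rfl⟩ := F.exists_sum z
    rw [map_sum, map_sum]
    refine Finset.sum_congr rfl fun i _ => ?_
    rw [F.par_ext, ← ih, ← hσ]
    exact F.ext_map _ _ _ _

/-- Multiplicativity for the powers of an object with algebraic parity. -/
lemma numDim_T {M : 𝒜} {σ : M ⟶ M} (hσ : ∀ z, F.map σ z = F.par _ z) (n : ℕ) :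
    numDim (T M n) = numDim M ^ n := by
  have h1 := numDim_of_par F hunit (par_Tm F hσ n)
  have h2 := (par_inv F hunit (par_Tm F hσ n)).2
  rw [tL_Tm, (par_inv F hunit hσ).2, ← numDim_of_par F hunit hσ, ← h1] at h2
  exact_mod_cast h2.symm

lemma numDim_tensor {M N : 𝒜} {σ : M ⟶ M} (hσ : ∀ z, F.map σ z = F.par _ z) {τ : N ⟶ N}
    (hτ : ∀ z, F.map τ z = F.par _ z) : numDim (M ⊗ N) = numDim M * numDim N := by
  have h0 : ∀ z, F.map (σ ⊗ₘ τ) z = F.par _ z := by
    intro z
    obtain ⟨m, a, b, rfl⟩ := F.exists_sum z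
    rw [map_sum, map_sum]
    refine Finset.sum_congr rfl fun i _ => ?_
    rw [F.par_ext, ← hτ, ← hσ]
    exact F.ext_map _ _ _ _
  have h1 := numDim_of_par F hunit h0
  have h2 := (par_inv F hunit h0).2
  rw [tL_tensor, (par_inv F hunit hσ).2, ← numDim_of_par F hunit hσ, (par_inv F hunit hτ).2,
    ← numDim_of_par F hunit hτ, ← h1] at h2
  exact_mod_cast h2.symm

/-- The numerically trivial endomorphisms act nilpotently if the parity is algebraic. -/
lemma inv_of_num {M : 𝒜} {σ : M ⟶ M} (hσ : ∀ z, F.map σ z = F.par _ z) {f : M ⟶ M}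
    (hf : NumTrivial f) : ∃ k, F.Inv (pw f k) := by
  have hpow : ∀ k : ℕ, (F.toEnd M (show End M from f)) ^ k = F.toEnd M ((show End M from f) ^ k) :=
    fun k => (map_pow _ _ _).symm
  have h1 : IsNilpotent (F.toEnd M (show End M from f)) := by
    apply Pool.Agent.H914.isNilpotent_of_trace_pow
    intro r
    have h2 : NumTrivial (show M ⟶ M from (show End M from f) ^ (r + 1)) := by
      rw [pow_succ]
      change NumTrivial (f ≫ (show M ⟶ M from (show End M from f) ^ r))
      exact hf.comp_right _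
    have h3 := h2 σ
    rw [tr_zero_iff F hunit] at h3
    have h4 := (srep F hunit M).tr (show End M from
      (show M ⟶ M from (show End M from f) ^ (r + 1)) ≫ σ)
    have h5 : tL F hunit M (show End M from
      (show M ⟶ M from (show End M from f) ^ (r + 1)) ≫ σ) = 0 := h3
    rw [h5, Rat.cast_zero] at h4
    rw [hpow]
    refine Eq.trans ?_ h4
    congr 1
    apply LinearMap.ext
    intro x
    change F.map (show M ⟶ M from (show End M from f) ^ (r + 1)) x =
      F.par M (F.map ((show M ⟶ M from (show End M from f) ^ (r + 1)) ≫ σ) x)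
    rw [F.map_comp, hσ, F.par_par]
  obtain ⟨k, hk⟩ := h1
  refine ⟨k, fun x => ?_⟩
  rw [hpow] at hk
  exact LinearMap.congr_fun hk x

/-- The numerically trivial endomorphisms of a Kimura-finite object are nilpotent. -/
lemma numNilpotent {M : 𝒜} (h : KimuraFinite M) : NumNilpotent M := by
  obtain ⟨σ, hσ⟩ := F.exists_sigma h
  obtain ⟨N, hN⟩ := F.nilp hunit h
  intro f hf
  obtain ⟨k, hk⟩ := inv_of_num F hunit hσ hf
  refine ⟨k * N, ?_⟩
  have h1 := hN (List.replicate N (show End M from pw (show M ⟶ M from f) k)) (by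
    intro x hx
    rw [List.eq_of_mem_replicate hx]
    exact hk) List.length_replicate
  rw [List.prod_replicate] at h1
  rw [pow_mul]
  exact h1

/-- Vanishing powers of an object of pure parity. -/
lemma powZero_descend {ε χ : ℚ} (hε : ε * ε = 1) {P : 𝒜} (h : tr (𝟙 P) = χ • 𝟙 (𝟙_ 𝒜)) {a : ℕ} :
    ∀ m : ℕ, (∀ k, a ≤ k → k < m → χ + ε * k ≠ 0) → a ≤ m → PowZero ε P m → PowZero ε P a
  | 0 => by
    intro _ h1 h2
    obtain rfl : a = 0 := by omega
    exact h2
  | m + 1 => by
    intro h1 h2 h3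
    rcases Nat.lt_or_ge m a with h4 | h4
    · obtain rfl : a = m + 1 := by omega
      exact h3
    · refine powZero_descend hε h m (fun k hk hk' => h1 k hk (by omega)) h4 ?_
      rw [powZero_iff hε] at h3 ⊢
      have h5 := ptr_sy hε h m
      rw [h3, ptr_zero] at h5
      refine (smul_eq_zero.1 h5.symm).resolve_left ?_
      apply div_ne_zero (h1 m h4 (Nat.lt_succ_self m))
      positivity

omit F hunit hdual in
lemma powZero_succ {ε : ℚ} (hε : ε * ε = 1) {P : 𝒜} {n : ℕ} (h : PowZero ε P n) :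
    PowZero ε P (n + 1) := by
  rw [powZero_iff hε] at h ⊢
  match n with
  | 0 =>
    change 𝟙 _ = 0
    have h1 : 𝟙 (𝟙_ 𝒜) = 0 := h
    have h2 : 𝟙 (T P 1) = 𝟙 (𝟙_ 𝒜) ▷ P := (id_whiskerRight _ _).symm
    rw [h2, h1]
    simp
  | n + 1 => rw [sy_succ, h]; simp

omit F hunit hdual in
lemma powZero_mono {ε : ℚ} (hε : ε * ε = 1) {P : 𝒜} {n m : ℕ} (hnm : n ≤ m) (h : PowZero ε P n) :
    PowZero ε P m := by
  induction m, hnm using Nat.le_induction with
  | base => exact h
  | succ m _ ih => exact powZero_succ hε ih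

lemma tL_sy {ε χ : ℚ} (hε : ε * ε = 1) {P : 𝒜} (h : tr (𝟙 P) = χ • 𝟙 (𝟙_ 𝒜)) (n : ℕ)
    (hn : ∀ k < n, χ + ε * k ≠ 0) : tL F hunit _ (sy ε P n) ≠ 0 := by
  induction n with
  | zero =>
    have h1 : tL F hunit (𝟙_ 𝒜) (𝟙 _) = 1 := by
      apply tL_eq F hunit
      rw [tr_id_unit, one_smul]
    change tL F hunit (𝟙_ 𝒜) (𝟙 _) ≠ 0
    rw [h1]
    exact one_ne_zero
  | succ n ih =>
    have h1 : tL F hunit _ (sy ε P (n + 1)) = ((χ + ε * n) / (n + 1)) *
        tL F hunit _ (sy ε P n) := by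
      apply tL_eq F hunit
      rw [← tr_ptr F hunit, ptr_sy hε h, tr_smul', tL_spec F hunit (sy ε P n), smul_smul]
    rw [h1]
    apply mul_ne_zero _ (ih fun k hk => hn k (by omega))
    apply div_ne_zero (hn n (Nat.lt_succ_self n))
    positivity

omit F hunit in
/-- Retracts of an object with numerically vanishing power. -/
lemma NumPowZero.retract {ε : ℚ} {P Q : 𝒜} {n : ℕ} (h : NumPowZero ε P n) (i : Q ⟶ P) (r : P ⟶ Q)
    (hir : i ≫ r = 𝟙 Q) : NumPowZero ε Q n := by
  intro g hg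
  have hir' : Tm i n ≫ Tm r n = 𝟙 _ := by rw [Tm_comp, hir, Tm_id]
  have h1 := h (Tm r n ≫ g ≫ Tm i n) (by
    intro s hs
    obtain ⟨s', hs', h2⟩ := Tm_adj r n s hs
    rw [reassoc_of% h2, ← Category.assoc s', hg s' hs', Linear.smul_comp, Linear.comp_smul])
  rw [tr_comm, Category.assoc, hir', Category.comp_id] at h1
  exact h1

/-- The part of the wrong parity vanishes and the power of the other part vanishes. -/
lemma part_zero {B : 𝒜} {δ : ℚ} (hδ : δ = 1 ∨ δ = -1) (pB : ∀ x, F.par B x = (δ : K) • x) {n : ℕ}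
    (h : NumPowZero δ B n) (hnil : ∀ f : B ⟶ B, F.Inv f → ∃ k, pw f k = 0) : 𝟙 B = 0 := by
  have hδδ : δ * δ = 1 := by rcases hδ with rfl | rfl <;> norm_num
  have h1 := F.tr_scalar hunit hδδ pB
  have h2 : Module.finrank K (F.V B) = 0 := by
    by_contra h0
    have h3 := tL_sy F hunit hδδ h1 n (by
      intro k _ hk
      have h4 : δ * ((Module.finrank K (F.V B) : ℚ) + k) = 0 := by rw [mul_add]; exact hk
      have h5 : δ ≠ 0 := by rintro rfl; norm_num at hδδ
      have h6 : ((Module.finrank K (F.V B) : ℚ) + k) = 0 := (mul_eq_zero.mp h4).resolve_left h5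
      have h7 : ((Module.finrank K (F.V B) + k : ℕ) : ℚ) = 0 := by push_cast; exact h6
      have h8 : Module.finrank K (F.V B) + k = 0 := by exact_mod_cast h7
      omega)
    apply h3
    rw [← tr_zero_iff F hunit]
    exact h _ (signed_sy hδδ B n)
  obtain ⟨k, hk⟩ := hnil (𝟙 B) (by
    intro x
    rw [F.map_id]
    have := Module.finrank_zero_iff.1 h2
    exact Subsingleton.elim _ _)
  have h3 : ∀ k, pw (𝟙 B) k = 𝟙 B := fun k => one_pow (M := End B) k
  rw [h3] at hk
  exact hk

/-- **No phantom powers** for the direct summands of Kimura-finite objects. -/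
lemma noPhantom [IsIdempotentComplete 𝒜] {M : 𝒜} (h : KimuraFinite M) (n : ℕ) :
    NoPhantomPowers M n := by
  intro P i r hir
  obtain ⟨σ, hσ⟩ := F.exists_sigma h
  obtain ⟨N, hN⟩ := F.nilp hunit h
  have hnilP : ∀ f : P ⟶ P, F.Inv f → ∃ n, pw f n = 0 := fun f hf =>
    ⟨N, F.pw_retract hunit hN i r hir hf⟩
  have hσP : ∀ x, F.map (i ≫ σ ≫ r) x = ((1 : ℚ) : K) • F.par P x := by
    intro x
    rw [F.map_comp, F.map_comp, hσ, ← F.par_map, ← F.map_comp i r, hir, F.map_id, Rat.cast_one,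
      one_smul]
  obtain ⟨A, B, ⟨E⟩⟩ := F.exists_eo hnilP one_ne_zero hσP
  have pA : ∀ x, F.par A x = ((1 : ℚ) : K) • x := fun x => by rw [E.even]; simp
  have pB : ∀ x, F.par B x = ((-1 : ℚ) : K) • x := fun x => by rw [E.odd]; simp
  have hA : (E.S.i ≫ i) ≫ (r ≫ E.S.r) = 𝟙 A := by
    rw [Category.assoc, reassoc_of% hir, E.S.ir]
  have hB : (E.S.j ≫ i) ≫ (r ≫ E.S.s) = 𝟙 B := by
    rw [Category.assoc, reassoc_of% hir, E.S.js]
  -- the case of a sign `ε`: `A'` is the part of parity `-ε` and `B'` the part of parity `ε`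
  have key : ∀ (ε : ℚ), (ε = 1 ∨ ε = -1) → ∀ (A' B' : 𝒜) (S' : Split P A' B'),
      (∀ x, F.par A' x = ((-ε : ℚ) : K) • x) → (∀ x, F.par B' x = ((ε : ℚ) : K) • x) →
      NumPowZero ε P n → PowZero ε P n := by
    intro ε hε A' B' S' pA' pB' hP
    have hεε : ε * ε = 1 := by rcases hε with rfl | rfl <;> norm_num
    have hε' : -ε = 1 ∨ -ε = -1 := by rcases hε with rfl | rfl <;> norm_num
    have hεε' : -ε * -ε = 1 := by rw [neg_mul_neg, hεε]
    have hA' : (S'.i ≫ i) ≫ (r ≫ S'.r) = 𝟙 A' := by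
      rw [Category.assoc, reassoc_of% hir, S'.ir]
    have hB' : (S'.j ≫ i) ≫ (r ≫ S'.s) = 𝟙 B' := by
      rw [Category.assoc, reassoc_of% hir, S'.js]
    have h1 : 𝟙 B' = 0 := part_zero F hunit hε pB' (hP.retract S'.j S'.s S'.js)
      (fun f hf => ⟨N, F.pw_retract hunit hN _ _ hB' hf⟩)
    obtain ⟨m, hm⟩ := F.powZero_of_parity hunit h hε' _ _ hA' pA'
    rw [neg_neg] at hm
    have hχ := F.tr_scalar hunit hεε' pA'
    set p := Module.finrank K (F.V A') with hp
    have hfac : ∀ k : ℕ, (-ε * (p : ℚ)) + ε * k = ε * ((k : ℚ) - p) := fun k => by ring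
    have hε0 : ε ≠ 0 := by rintro rfl; norm_num at hεε
    have h2 : PowZero ε A' (p + 1) := by
      rcases Nat.lt_or_ge m (p + 1) with h3 | h3
      · exact powZero_mono hεε h3.le hm
      · refine powZero_descend F hunit hεε hχ m ?_ h3 hm
        intro k hk _ h4
        rw [hfac] at h4
        have h5 := (mul_eq_zero.1 h4).resolve_left hε0
        have h6 : (k : ℚ) = p := by linarith
        have h7 : k = p := by exact_mod_cast h6
        omega
    have h3 : p < n := by
      by_contra hlt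
      apply tL_sy F hunit hεε hχ n
      · intro k hk h4
        rw [hfac] at h4
        have h5 := (mul_eq_zero.1 h4).resolve_left hε0
        have h6 : (k : ℚ) = p := by linarith
        have h7 : k = p := by exact_mod_cast h6
        omega
      · rw [← tr_zero_iff F hunit]
        exact hP.retract S'.i S'.r S'.ir _ (signed_sy hεε A' n)
    have h4 : PowZero ε A' n := powZero_mono hεε h3 h2
    refine h4.retract S'.r S'.i ?_
    have h5 := S'.sum
    have h6 : S'.s ≫ S'.j = 0 := by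
      rw [← Category.comp_id S'.s, h1, comp_zero, zero_comp]
    rwa [h6, add_zero] at h5
  refine ⟨?_, ?_⟩
  · exact key (-1) (Or.inr rfl) A B E.S (by rw [neg_neg]; exact pA) pB
  · exact key 1 (Or.inl rfl) B A E.S.swap pB pA

end

end Pool.Agent.H843.Km
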