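import Pool.Agent.H843.Km6

/-!
# Kimura-finiteness and the numerical dimension: classes closed under squares
-/

open CategoryTheory MonoidalCategory Limits BraidedCategory

universe u v w

set_option autoImplicit false
set_option linter.unusedSectionVars false

namespace Pool.Agent.H843.Km

open Pool.Agent.TH90.Kim Pool.Agent.TH90.AB Pool.Agent.H843.Nd

noncomputable section

variable {𝒜 : Type u} [Category.{v} 𝒜] [MonoidalCategory 𝒜] [SymmetricCategory 𝒜]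

/-- The tensor powers are additive in the exponent. -/
def TT (M : 𝒜) (m : ℕ) : ∀ n : ℕ, T M (m + n) ≅ T M m ⊗ T M n
  | 0 => (ρ_ (T M m)).symm
  | n + 1 => (whiskerRightIso (TT M m n) M).trans (α_ (T M m) (T M n) M)

lemma exists_square {𝒮 : 𝒜 → Prop} (h𝒮 : ∀ M, 𝒮 M → 𝒮 (M ⊗ M)) {M : 𝒜} (hM : 𝒮 M) (k : ℕ) :
    ∃ Y, 𝒮 Y ∧ Nonempty (T M (2 ^ k) ≅ Y) := by
  induction k with
  | zero => exact ⟨M, hM, ⟨λ_ M⟩⟩
  | succ k ih =>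
    obtain ⟨Y, hY, ⟨e⟩⟩ := ih
    refine ⟨Y ⊗ Y, h𝒮 Y hY, ⟨?_⟩⟩
    have h : 2 ^ (k + 1) = 2 ^ k + 2 ^ k := by rw [pow_succ]; ring
    rw [h]
    exact (TT M (2 ^ k) (2 ^ k)).trans (tensorIso e e)

variable [Preadditive 𝒜] [MonoidalPreadditive 𝒜] [Linear ℚ 𝒜] [MonoidalLinear ℚ 𝒜]
  [hdual : ∀ X : 𝒜, HasRightDual X]
variable {K : Type w} [Field K] [CharZero K] (F : Realisation 𝒜 K)
  (hunit : ∀ f : 𝟙_ 𝒜 ⟶ 𝟙_ 𝒜, ∃ q : ℚ, f = q • 𝟙 (𝟙_ 𝒜))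

include F hunit

lemma numDim_square {𝒮 : 𝒜 → Prop} (h𝒮 : ∀ M, 𝒮 M → 𝒮 (M ⊗ M))
    (hmul : ∀ M, 𝒮 M → numDim (M ⊗ M) = numDim M ^ 2) {M : 𝒜} (hM : 𝒮 M) (k : ℕ) :
    numDim (T M (2 ^ k)) = numDim M ^ (2 ^ k) := by
  induction k with
  | zero =>
    rw [pow_zero, pow_one]
    exact numDim_iso F hunit (λ_ M)
  | succ k ih =>
    obtain ⟨Y, hY, ⟨e⟩⟩ := exists_square h𝒮 hM k
    have h : 2 ^ (k + 1) = 2 ^ k + 2 ^ k := by rw [pow_succ]; ring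
    rw [h, numDim_iso F hunit ((TT M (2 ^ k) (2 ^ k)).trans (tensorIso e e)), hmul Y hY,
      ← numDim_iso F hunit e, ih, ← pow_mul]
    congr 1

theorem square_iff [IsIdempotentComplete 𝒜] {𝒮 : 𝒜 → Prop} (h𝒮 : ∀ M, 𝒮 M → 𝒮 (M ⊗ M)) :
    (∀ M, 𝒮 M → KimuraFinite M) ↔
      ∀ M, 𝒮 M → NumNilpotent M ∧ numDim (M ⊗ M) = numDim M ^ 2 := by
  constructor
  · intro h M hM
    obtain ⟨σ, hσ⟩ := F.exists_sigma (h M hM)
    exact ⟨numNilpotent F hunit (h M hM), by rw [numDim_tensor F hunit hσ hσ, sq]⟩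
  · intro h M hM
    obtain ⟨Y, hY, ⟨e⟩⟩ := exists_square h𝒮 hM (numDim M)
    obtain ⟨P, Q, hS, hP, hQ⟩ := kimura_of_nil F hunit (n := 2 ^ numDim M) (M := M)
      Nat.lt_two_pow_self (numDim_square F hunit h𝒮 (fun M hM => (h M hM).2) hM _)
      (NumNilpotent.iso F hunit e.symm (h Y hY).1)
    exact ⟨P, Q, hS, ⟨_, hP⟩, ⟨_, hQ⟩⟩

end

end Pool.Agent.H843.Km
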