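import Pool.Agent.H843.Ex14
import Pool.Agent.H844.Stab.Fin

/-!
# Projectors onto sets of degrees and traces
-/

open CategoryTheory AlgebraicGeometry Function Filter Finset Polynomial

universe u v w

set_option linter.unusedSectionVars false

namespace Pool.Agent.H843.Ks

open Pool.Agent.H914 Pool.Agent.H914.VarClass Pool.Agent.H914.VarClass.Obj
  Pool.Agent.H914.WeilCohomology Pool.Agent.R908 Pool.Agent.H447 Pool.Agent.N180.Cf
  Pool.Agent.W537 Pool.Agent.H843.Ex

/-! ### Ultrapowers of algebraically closed fields -/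

section Germ

variable {I : Type*} (l : Ultrafilter I) {K : Type*} [Field K] [IsAlgClosed K]

theorem isAlgClosed_germ : IsAlgClosed (Germ (l : Filter I) K) := by
  apply IsAlgClosed.of_exists_root
  intro p hp hirr
  set n := p.natDegree with hn
  have hn0 : n ≠ 0 := (Irreducible.natDegree_pos hirr).ne'
  have hcoeff : ∀ j, ∃ a : I → K, (a : Germ (l : Filter I) K) = p.coeff j := fun j => by
    induction p.coeff j using Germ.inductionOn with | h a => exact ⟨a, rfl⟩
  choose a ha using hcoeff
  have hroot : ∀ i, ∃ r : K, (∑ j ∈ range n, a j i * r ^ j) + r ^ n = 0 := by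
    intro i
    let s : K[X] := ∑ j ∈ range n, C (a j i) * X ^ j
    let q : K[X] := s + X ^ n
    have hdeg : s.degree < n := by
      refine (degree_sum_le _ _).trans_lt ?_
      rw [Finset.sup_lt_iff (by exact_mod_cast WithBot.bot_lt_coe n)]
      intro j hj
      refine (degree_C_mul_X_pow_le j _).trans_lt ?_
      exact_mod_cast Finset.mem_range.1 hj
    have hq : q.degree = n := by
      rw [degree_add_eq_right_of_degree_lt (by rwa [degree_X_pow]), degree_X_pow]
    obtain ⟨r, hr⟩ := IsAlgClosed.exists_root q (by rw [hq]; exact_mod_cast hn0)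
    refine ⟨r, ?_⟩
    have h1 : eval r q = 0 := hr
    simp only [q, s, eval_add, eval_pow, eval_X, eval_finsetSum, eval_mul, eval_C] at h1
    exact h1
  choose r hr using hroot
  refine ⟨(r : Germ (l : Filter I) K), ?_⟩
  rw [eval_eq_sum_range, sum_range_succ, ← hn, hn, hp.coeff_natDegree, ← hn, one_mul]
  have h1 : ∀ j, p.coeff j * (r : Germ (l : Filter I) K) ^ j =
      Germ.coeRingHom (l : Filter I) (fun i => a j i * r i ^ j) := by
    intro j
    rw [← ha j]
    rfl
  rw [Finset.sum_congr rfl fun j _ => h1 j, ← map_sum]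
  have h2 : (r : Germ (l : Filter I) K) ^ n = Germ.coeRingHom (l : Filter I) (fun i => r i ^ n) :=
    rfl
  rw [h2, ← map_add]
  have h3 : (∑ j ∈ range n, fun i => a j i * r i ^ j) + (fun i => r i ^ n) = 0 := by
    funext i
    rw [Pi.add_apply, Finset.sum_apply]
    exact hr i
  rw [h3, map_zero]

end Germ

/-! ### Projectors and traces -/

variable {k : Type u} [Field k] {𝒱 : VarClass k} {ops : CycleOps 𝒱}
  {W : WeilCohomology.{u, v} ops} {X Y Z : 𝒱.Obj}

lemma kop_mul {A B : Module.End W.K (W.H X)} (hA : A ∈ KOp W X X 0) (hB : B ∈ KOp W X X 0) :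
    A * B ∈ KOp W X X 0 := KOp.cast (KOp.comp hA hB) (by ring)

lemma kop_one : (1 : Module.End W.K (W.H X)) ∈ KOp W X X 0 := KOp.id X

lemma kop_pow {A : Module.End W.K (W.H X)} (hA : A ∈ KOp W X X 0) (m : ℕ) :
    A ^ m ∈ KOp W X X 0 := by
  induction m with
  | zero => rw [pow_zero]; exact kop_one
  | succ m ih => rw [pow_succ]; exact kop_mul ih hA

lemma kop_hom {A : Module.End W.K (W.H X)} (hA : A ∈ KOp W X X 0) : IsHom (W.gr X) 0 A := by
  have := KOp.isHom hA
  simpa [IsHom] using this

/-- The projector onto the degrees in `S`. -/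
noncomputable def pS (W : WeilCohomology.{u, v} ops) (X : 𝒱.Obj) (S : Set ℕ) :
    Module.End W.K (W.H X) := by
  classical
  exact scal (W.isInternal X) (fun i => if i ∈ S then 1 else 0)

/-- The value of the indicator function. -/
noncomputable def eS (K : Type*) [Field K] (S : Set ℕ) (i : ℕ) : K := by
  classical
  exact if i ∈ S then 1 else 0

lemma pS_apply {S : Set ℕ} {i : ℕ} {a : W.H X} (ha : a ∈ W.gr X i) :
    pS W X S a = eS W.K S i • a := by
  rw [pS, scal_apply _ _ ha, eS]

lemma eS_mul_self {K : Type*} [Field K] (S : Set ℕ) (i : ℕ) : eS K S i * eS K S i = eS K S i := by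
  rw [eS]
  split_ifs <;> simp

lemma eS_map {K K' : Type*} [Field K] [Field K'] (σ : K →+* K') (S : Set ℕ) (i : ℕ) :
    σ (eS K S i) = eS K' S i := by
  rw [eS, eS]
  split_ifs <;> simp

lemma pS_mul_pS {S : Set ℕ} : pS W X S * pS W X S = pS W X S := by
  apply gr_ext (W.isInternal X)
  intro i a ha
  rw [Module.End.mul_apply, pS_apply ha, map_smul, pS_apply ha, smul_smul, eS_mul_self]

lemma pS_proj {S : Set ℕ} (j : ℕ) : pS W X S * proj (W.isInternal X) j =
    eS W.K S j • proj (W.isInternal X) j := by
  apply LinearMap.ext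
  intro a
  rw [Module.End.mul_apply, pS_apply (H914.proj_mem _ _ _), LinearMap.smul_apply]

lemma pS_hom {S : Set ℕ} : IsHom (W.gr X) 0 (pS W X S) := by
  intro i a ha
  rw [add_zero]
  by_cases hi : 0 ≤ i
  · lift i to ℕ using hi
    rw [grZ_natCast] at ha ⊢
    rw [pS_apply ha]
    exact Submodule.smul_mem _ _ ha
  · rw [grZ_of_neg (by omega)] at ha ⊢
    rw [(Submodule.mem_bot _).1 ha, map_zero]
    exact Submodule.zero_mem _

/-- Operators of degree zero commute with the projector onto the degrees in `S`. -/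
lemma pS_comm {S : Set ℕ} {A : Module.End W.K (W.H X)} (hA : IsHom (W.gr X) 0 A) :
    Commute (pS W X S) A := by
  apply gr_ext (W.isInternal X)
  intro i a ha
  have h1 : A a ∈ W.gr X i := by
    have := hA (i : ℕ) a (by rw [grZ_natCast]; exact ha)
    rwa [add_zero, grZ_natCast] at this
  rw [Module.End.mul_apply, Module.End.mul_apply, pS_apply h1, pS_apply ha, map_smul]

/-- The trace on the degree `j`. -/
noncomputable def tj (W : WeilCohomology.{u, v} ops) (X : 𝒱.Obj) (j : ℕ) :
    Module.End W.K (W.H X) →ₗ[W.K] W.K :=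
  LinearMap.trace W.K (W.H X) ∘ₗ LinearMap.mulRight W.K (proj (W.isInternal X) j)

lemma tj_apply (j : ℕ) (T : Module.End W.K (W.H X)) :
    tj W X j T = LinearMap.trace W.K (W.H X) (T * proj (W.isInternal X) j) := rfl

lemma trace_eq_sum_tj (T : Module.End W.K (W.H X)) :
    LinearMap.trace W.K (W.H X) T = ∑ j ∈ range (2 * X.dim + 1), tj W X j T := by
  simp only [tj_apply]
  rw [← map_sum, ← Finset.mul_sum, sum_proj (W.isInternal X) W_hbd, mul_one]

lemma tj_pS {S : Set ℕ} (j : ℕ) (A : Module.End W.K (W.H X)) :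
    tj W X j (pS W X S * A) = eS W.K S j * tj W X j A := by
  rw [tj_apply, tj_apply, mul_assoc, LinearMap.trace_mul_comm, mul_assoc]
  have h1 : proj (W.isInternal X) j * pS W X S = eS W.K S j • proj (W.isInternal X) j := by
    apply gr_ext (W.isInternal X)
    intro i a ha
    rw [Module.End.mul_apply, pS_apply ha, map_smul, LinearMap.smul_apply]
    by_cases hij : i = j
    · rw [hij]
    · rw [proj_ne _ ha hij, smul_zero, smul_zero]
  rw [h1, mul_smul_comm, map_smul, smul_eq_mul]

/-- The projector onto the degrees in `S` is a `K`-linear combination of algebraic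
correspondences. -/
def AlgS (W : WeilCohomology.{u, v} ops) (X : 𝒱.Obj) (S : Set ℕ) : Prop :=
  pS W X S ∈ KOp W X X 0

/-- The traces on the single degrees characterise the projector. -/
theorem algS_of_traces {S : Set ℕ} {T : Module.End W.K (W.H X)} (hT : T ∈ KOp W X X 0)
    (h : ∀ A ∈ KOp W X X 0, ∀ j, tj W X j (T * A) = eS W.K S j * tj W X j A) : AlgS W X S := by
  have hTh := kop_hom hT
  set ν := pS W X S with hν
  have hνT : Commute ν T := pS_comm hTh
  set E := T - ν with hE
  have hEpow : ∀ (m j : ℕ), E ^ m * proj (W.isInternal X) j =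
      (T - eS W.K S j • (1 : Module.End W.K (W.H X))) ^ m * proj (W.isInternal X) j := by
    intro m j
    have hc1 : Commute T (proj (W.isInternal X) j) := (hTh.proj_comm (W.isInternal X) j).symm
    have hc : Commute (T - eS W.K S j • (1 : Module.End W.K (W.H X)))
        (proj (W.isInternal X) j) :=
      hc1.sub_left ((Commute.one_left _).smul_left _)
    have h1 : E * proj (W.isInternal X) j =
        (T - eS W.K S j • (1 : Module.End W.K (W.H X))) * proj (W.isInternal X) j := by
      rw [hE, sub_mul, sub_mul, pS_proj, smul_mul_assoc, one_mul]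
    induction m with
    | zero => rw [pow_zero, pow_zero]
    | succ m ih =>
      rw [pow_succ, mul_assoc, h1, hc.eq, ← mul_assoc, ih, mul_assoc, ← hc.eq, ← mul_assoc,
        ← pow_succ]
  have hnil : IsNilpotent E := by
    apply isNilpotent_of_trace_pow
    intro r
    rw [trace_eq_sum_tj]
    refine Finset.sum_eq_zero fun j _ => ?_
    set A := (T - eS W.K S j • (1 : Module.End W.K (W.H X))) ^ r with hA
    have hAm : A ∈ KOp W X X 0 :=
      kop_pow (Submodule.sub_mem _ hT (Submodule.smul_mem _ _ kop_one)) r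
    rw [tj_apply, pow_succ', mul_assoc, hEpow r j, ← mul_assoc, ← tj_apply, ← hA, hE, sub_mul,
      map_sub, tj_pS, h A hAm, sub_self]
  obtain ⟨N, hN⟩ := hnil
  have hνE : Commute ν E := hνT.sub_right (Commute.refl ν)
  have hνν : ν * ν = ν := pS_mul_pS
  have hT' : T = ν + E := by rw [hE]; abel
  -- the polynomial
  have h1 : (1 - ν) * T ^ N = 0 := by
    have h2 : ∀ m : ℕ, (1 - ν) * T ^ m = (1 - ν) * E ^ m := by
      intro m
      induction m with
      | zero => rw [pow_zero, pow_zero]
      | succ m ih =>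
        have h3 : Commute (1 - ν) E := (Commute.one_left E).sub_left hνE
        have h4 : (1 - ν) * T = (1 - ν) * E := by
          rw [hT', mul_add, sub_mul, one_mul, hνν, sub_self, zero_add]
        rw [pow_succ', ← mul_assoc, h4, h3.eq, mul_assoc, ih, ← mul_assoc, ← h3.eq, mul_assoc,
          ← pow_succ']
    rw [h2, hN, mul_zero]
  have h2 : ν * (1 - T ^ N) ^ N = 0 := by
    have h3 : ν * (1 - T ^ N) = ν * (1 - (1 + E) ^ N) := by
      have h4 : ∀ m : ℕ, ν * T ^ m = ν * (1 + E) ^ m := by
        intro m
        induction m with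
        | zero => rw [pow_zero, pow_zero]
        | succ m ih =>
          have h5 : Commute ν (1 + E) := (Commute.one_right ν).add_right hνE
          have h6 : ν * T = ν * (1 + E) := by
            rw [hT', mul_add, mul_add, hνν, mul_one]
          rw [pow_succ', ← mul_assoc, h6, h5.eq, mul_assoc, ih, ← mul_assoc, ← h5.eq, mul_assoc,
            ← pow_succ']
      rw [mul_sub, mul_sub, h4]
    have hcE : Commute E (∑ i ∈ range N, (1 + E) ^ i) := by
      refine Commute.sum_right _ _ _ fun i _ => ?_
      exact ((Commute.one_right E).add_right (Commute.refl E)).pow_right i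
    have h5 : (1 - (1 + E) ^ N) ^ N = 0 := by
      have h6 : (1 + E) ^ N - 1 = E * ∑ i ∈ range N, (1 + E) ^ i := by
        have := mul_geom_sum (1 + E) N
        rw [add_sub_cancel_left] at this
        exact this.symm
      have h7 : 1 - (1 + E) ^ N = E * (0 - ∑ i ∈ range N, (1 + E) ^ i) := by
        rw [mul_sub, mul_zero, ← h6]
        abel
      rw [h7, ((Commute.zero_right E).sub_right hcE).mul_pow, hN, zero_mul]
    have h7 : ∀ m : ℕ, ν * (1 - T ^ N) ^ m = ν * (1 - (1 + E) ^ N) ^ m := by
      intro m
      have h8 : Commute ν (1 - (1 + E) ^ N) :=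
        (Commute.one_right ν).sub_right (((Commute.one_right ν).add_right hνE).pow_right N)
      induction m with
      | zero => rw [pow_zero, pow_zero]
      | succ m ih =>
        rw [pow_succ', ← mul_assoc, h3, h8.eq, mul_assoc, ih, ← mul_assoc, ← h8.eq, mul_assoc,
          ← pow_succ']
    rw [h7, h5, mul_zero]
  have h3 : ν = 1 - (1 - T ^ N) ^ N := by
    have h4 : ∀ m : ℕ, (1 - ν) * (1 - T ^ N) ^ m = 1 - ν := by
      intro m
      induction m with
      | zero => rw [pow_zero, mul_one]
      | succ m ih => rw [pow_succ', ← mul_assoc, mul_sub, mul_one, h1, sub_zero, ih]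
    have h5 : (1 - T ^ N) ^ N = 1 - ν := by
      have h6 : (1 - T ^ N) ^ N = ν * (1 - T ^ N) ^ N + (1 - ν) * (1 - T ^ N) ^ N := by
        rw [← add_mul, add_sub_cancel, one_mul]
      rw [h6, h2, h4, zero_add]
    rw [h5, sub_sub_cancel]
  rw [AlgS, ← hν, h3]
  exact Submodule.sub_mem _ kop_one (kop_pow (Submodule.sub_mem _ kop_one (kop_pow hT N)) N)

end Pool.Agent.H843.Ks
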