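import Pool.Agent.H843.StarDefs

/-!
# Degrees and symmetries: definitions
-/

open CategoryTheory AlgebraicGeometry

universe u v

namespace Pool.Agent.H843

open Pool.Agent.H914 Pool.Agent.H914.VarClass Pool.Agent.H914.VarClass.Obj
  Pool.Agent.H914.WeilCohomology

variable {k : Type u} [Field k] {𝒱 : VarClass k} {ops : CycleOps 𝒱}

/-- The map `G` from the vector space `V` to itself is linear over `K`. -/
def IsLinOver (K : Type*) {V : Type*} [Semiring K] [AddCommMonoid V] [Module K V] (G : V → V) :
    Prop :=
  ∃ L : V →ₗ[K] V, ⇑L = G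

/-- The map `G` from the cohomology of `Y` to itself is linear (over the coefficient field). -/
def IsLin (W : WeilCohomology.{u, v} ops) (Y : 𝒱.Obj) (G : W.H Y → W.H Y) : Prop :=
  IsLinOver W.K G

/-- The external product `a × b` of a class `a` on `X` and a class `b` on `Y`. -/
noncomputable def cross (W : WeilCohomology.{u, v} ops) {X Y : 𝒱.Obj} (a : W.H X) (b : W.H Y) :
    W.H (X.prod Y) :=
  W.map (fst X Y) a * W.map (snd X Y) b

/-- `Y` is a power `X × (X × (⋯ × X))` of `X`, and `G` is the map induced by the linear map `g` of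
`H(X)` on the cohomology of `Y` (the tensor power of `g`): it is linear and sends the external
product `a × b` of a class `a` on `X` and a class `b` on the power `Y'` to `g a × G' b`, where
`G'` is the map induced on `H(Y')`. -/
inductive IsPowerMap (W : WeilCohomology.{u, v} ops) {X : 𝒱.Obj} (g : W.H X → W.H X) :
    ∀ Y : 𝒱.Obj, (W.H Y → W.H Y) → Prop
  | one : IsPowerMap W g X g
  | step {Y : 𝒱.Obj} {G : W.H Y → W.H Y} {G' : W.H (X.prod Y) → W.H (X.prod Y)} :
      IsPowerMap W g Y G → IsLin W (X.prod Y) G' →
        (∀ a b, G' (cross W a b) = cross W (g a) (G b)) → IsPowerMap W g (X.prod Y) G'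

/-- The map `g` from `H(X)` to itself fixes the classes of all algebraic cycles on all powers
of `X`. -/
def FixesAlgebraic (W : WeilCohomology.{u, v} ops) {X : 𝒱.Obj} (g : W.H X → W.H X) : Prop :=
  ∀ Y G, IsPowerMap W g Y G → ∀ p z, Y.IsCyc p z → G (W.cl Y z) = W.cl Y z

/-- The algebraic classes determine the degrees of the cohomology of `X`: every linear
automorphism of `H(X)` (not assumed to be compatible with the grading, or with the parity) which
fixes all algebraic classes on all powers of `X` maps `H^i(X)` to `H^i(X)` for all `i`. -/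
def DegreeRigid (W : WeilCohomology.{u, v} ops) (X : 𝒱.Obj) : Prop :=
  ∀ g : W.H X → W.H X, IsLin W X g → Function.Bijective g → FixesAlgebraic W g →
    ∀ i, ∀ a ∈ W.gr X i, g a ∈ W.gr X i

/-- The correspondences of degree zero on `X` have rational traces on all `H^i(X)`. -/
def TracesRational (W : WeilCohomology.{u, v} ops) (X : 𝒱.Obj) : Prop :=
  ∀ z, (X.prod X).IsCyc X.dim z → ∀ i, ∃ q : ℚ,
    W537.TraceOn (W.gr X) i (W537.cycOp W X z) (q : W.K)

end Pool.Agent.H843
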