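import Pool.Agent.H843.Ks1
import Pool.Agent.H843.RigDefs
import Pool.Graph.R_pool_sql_team_seeded_f72693b1.W543.KU.RatTr

/-!
# The Kunneth projectors of indistinguishable theories, and the automorphisms
-/

open CategoryTheory AlgebraicGeometry Function Filter Finset Polynomial

universe u v w

set_option linter.unusedSectionVars false

namespace Pool.Agent.H843.Ks

open Pool.Agent.H914 Pool.Agent.H914.VarClass Pool.Agent.H914.VarClass.Obj
  Pool.Agent.H914.WeilCohomology Pool.Agent.R908 Pool.Agent.H447 Pool.Agent.N180.Cf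
  Pool.Agent.W537 Pool.Agent.H843.Ex Pool.Agent.H844.Stab Pool.Agent.W536.RR

variable {k : Type u} [Field k] {𝒱 : VarClass k} {ops : CycleOps 𝒱}
  {W W' : WeilCohomology.{u, v} ops} {X Y Z : 𝒱.Obj}

/-- The space of `K`-linear combinations of correspondences of degree zero. -/
lemma kop_eq_span : KOp W X X 0 =
    Submodule.span W.K (cycOp W X '' {z | (X.prod X).IsCyc X.dim z}) := by
  rw [KOp]
  congr 1
  ext φ
  constructor
  · rintro ⟨p, hp, z, hz, rfl⟩
    have : p = X.dim := by omega
    subst this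
    exact ⟨z, hz, rfl⟩
  · rintro ⟨z, hz, rfl⟩
    exact ⟨X.dim, by simp, z, hz, rfl⟩

lemma cycOp_mul {z w : (X.prod X).Cycles} (hz : (X.prod X).IsCyc X.dim z) :
    cycOp W X (compCyc ops w z) = cycOp W X z * cycOp W X w := corr_compCyc W hz

/-- The system of linear equations for the coefficients of the projector onto the degrees
in `S`. -/
def Sol (W : WeilCohomology.{u, v} ops) (X : 𝒱.Obj) (S : Set ℕ) : Prop :=
  ∃ l ∈ Finsupp.supported W.K W.K {z | (X.prod X).IsCyc X.dim z},
    ∀ w, (X.prod X).IsCyc X.dim w → ∀ j,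
      Finsupp.linearCombination W.K (fun z => tj W X j (cycOp W X (compCyc ops w z))) l =
        eS W.K S j * tj W X j (cycOp W X w)

theorem algS_iff_sol {S : Set ℕ} : AlgS W X S ↔ Sol W X S := by
  have key : ∀ l ∈ Finsupp.supported W.K W.K {z | (X.prod X).IsCyc X.dim z}, ∀ w j,
      Finsupp.linearCombination W.K (fun z => tj W X j (cycOp W X (compCyc ops w z))) l =
        tj W X j (Finsupp.linearCombination W.K (cycOp W X) l * cycOp W X w) := by
    intro l hl w j
    rw [Finsupp.linearCombination_apply, Finsupp.linearCombination_apply, Finsupp.sum,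
      Finsupp.sum, Finset.sum_mul, map_sum]
    refine Finset.sum_congr rfl fun z hz => ?_
    have hz' : (X.prod X).IsCyc X.dim z := hl hz
    rw [cycOp_mul hz', smul_mul_assoc, map_smul]
  constructor
  · intro h
    rw [AlgS, kop_eq_span, Finsupp.mem_span_image_iff_linearCombination] at h
    obtain ⟨l, hl, hl'⟩ := h
    refine ⟨l, hl, fun w hw j => ?_⟩
    rw [key l hl, hl', tj_pS]
  · rintro ⟨l, hl, h⟩
    have hT : Finsupp.linearCombination W.K (cycOp W X) l ∈ KOp W X X 0 := by
      rw [kop_eq_span, Finsupp.mem_span_image_iff_linearCombination]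
      exact ⟨l, hl, rfl⟩
    refine algS_of_traces hT fun A hA j => ?_
    rw [kop_eq_span] at hA
    induction hA using Submodule.span_induction with
    | mem x hx =>
      obtain ⟨w, hw, rfl⟩ := hx
      rw [← key l hl, h w hw j]
    | zero => rw [mul_zero, map_zero, mul_zero]
    | add x y _ _ hx hy => rw [mul_add, map_add, hx, hy, map_add, mul_add]
    | smul c x _ hx =>
      rw [mul_smul_comm, map_smul, hx, map_smul, smul_eq_mul, smul_eq_mul]
      ring

/-- The traces of two indistinguishable theories. -/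
lemma tj_indist {σ : W.K →+* W'.K} (hσ : ∀ (X : 𝒱.Obj) (z : (X.prod X).Cycles),
    (X.prod X).IsCyc X.dim z → ∀ (i : ℕ) (t : W.K),
      TraceOn (W.gr X) i (cycOp W X z) t → TraceOn (W'.gr X) i (cycOp W' X z) (σ t))
    {z : (X.prod X).Cycles} (hz : (X.prod X).IsCyc X.dim z) (j : ℕ) :
    tj W' X j (cycOp W' X z) = σ (tj W X j (cycOp W X z)) := by
  have h := hσ X z hz j _ (traceOn_iff.2 rfl)
  rw [traceOn_iff] at h
  exact h

theorem sol_iff (h : Indistinguishable W W') {S : Set ℕ} : Sol W X S ↔ Sol W' X S := by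
  obtain ⟨-, σ, hσ⟩ := h
  have ht := fun {z : (X.prod X).Cycles} (hz : (X.prod X).IsCyc X.dim z) j =>
    tj_indist hσ hz j
  constructor
  · rintro ⟨l, hl, h1⟩
    refine ⟨l.mapRange σ (map_zero σ), ?_, fun w hw j => ?_⟩
    · intro z hz
      exact hl (Finsupp.support_mapRange hz)
    · have h2 := congrArg σ (h1 w hw j)
      rw [map_mul, eS_map σ, ← ht hw j] at h2
      rw [← h2, Finsupp.linearCombination_apply, Finsupp.linearCombination_apply,
        Finsupp.sum_mapRange_index (fun z => by rw [zero_smul]), Finsupp.sum, Finsupp.sum, map_sum]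
      refine Finset.sum_congr rfl fun z hz => ?_
      have hz' : (X.prod X).IsCyc X.dim z := hl hz
      rw [ht (compCyc_mem hw hz' rfl), smul_eq_mul, smul_eq_mul, map_mul]
  · rintro ⟨l, hl, h1⟩
    let _ := σ.toAlgebra
    obtain ⟨r, hr⟩ := LinearMap.exists_leftInverse_of_injective (Algebra.linearMap W.K W'.K)
      (LinearMap.ker_eq_bot.2 σ.injective)
    have hr1 : ∀ a : W.K, r (σ a) = a := fun a => congrArg (fun A => A a) hr
    have hr2 : ∀ (x : W'.K) (a : W.K), r (x * σ a) = r x * a := by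
      intro x a
      have h2 : x * σ a = a • x := by rw [Algebra.smul_def, mul_comm]; rfl
      rw [h2, map_smul, smul_eq_mul, mul_comm]
    refine ⟨l.mapRange r (map_zero r), ?_, fun w hw j => ?_⟩
    · intro z hz
      exact hl (Finsupp.support_mapRange hz)
    · have h2 := congrArg r (h1 w hw j)
      rw [ht hw j, ← eS_map σ, ← map_mul, hr1] at h2
      rw [← h2, Finsupp.linearCombination_apply, Finsupp.linearCombination_apply,
        Finsupp.sum_mapRange_index (fun z => by rw [zero_smul]), Finsupp.sum, Finsupp.sum, map_sum]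
      refine Finset.sum_congr rfl fun z hz => ?_
      have hz' : (X.prod X).IsCyc X.dim z := hl hz
      rw [ht (compCyc_mem hw hz' rfl), smul_eq_mul, smul_eq_mul, hr2]

theorem algS_iff (h : Indistinguishable W W') {S : Set ℕ} : AlgS W X S ↔ AlgS W' X S := by
  rw [algS_iff_sol, algS_iff_sol, sol_iff h]

lemma pS_singleton (i : ℕ) : pS W X {i} = proj (W.isInternal X) i := by
  apply gr_ext (W.isInternal X)
  intro j a ha
  rw [pS_apply ha, eS]
  by_cases hj : j = i
  · subst hj
    rw [if_pos (Set.mem_singleton j), one_smul, proj_same _ ha]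
  · rw [if_neg (fun h => hj (Set.mem_singleton_iff.1 h)), zero_smul, proj_ne _ ha hj]

lemma kunnethK_iff : KunnethK W X ↔ ∀ i, AlgS W X {i} := by
  constructor
  · intro h i
    rw [AlgS, pS_singleton]
    exact h.proj_mem i
  · intro h i
    have h1 := h i
    rw [AlgS, pS_singleton] at h1
    obtain ⟨γ, hγ, h2⟩ := mem_KOp_iff.1 h1
    refine ⟨γ, by rwa [add_zero] at hγ, ?_⟩
    intro j a ha
    rw [h2]
    split_ifs with hj
    · subst hj; exact proj_same _ ha
    · exact proj_ne _ ha hj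

lemma sign_iff : SignOpAlgebraic W X ↔ AlgS W X {i | Even i} := by
  have h0 : ∀ {i : ℕ} {a : W.H X}, a ∈ W.gr X i →
      (2 : W.K) • pS W X {i | Even i} a - a = (-1 : W.K) ^ i • a := by
    intro i a ha
    rw [pS_apply ha, eS]
    by_cases hi : Even i
    · rw [if_pos (show i ∈ {i | Even i} from hi), one_smul, hi.neg_one_pow, one_smul, two_smul]
      abel
    · rw [if_neg (show i ∉ {i | Even i} from hi), zero_smul, smul_zero,
        (Nat.not_even_iff_odd.1 hi).neg_one_pow, neg_one_smul, zero_sub]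
  constructor
  · rintro ⟨φ, ⟨γ, hγ, rfl⟩, hφ⟩
    have h1 : W.corr γ ∈ KOp W X X 0 := mem_KOp_iff.2 ⟨γ, by rw [add_zero]; exact hγ, rfl⟩
    have h2 : pS W X {i | Even i} = (2 : W.K)⁻¹ • (1 + W.corr γ) := by
      apply gr_ext (W.isInternal X)
      intro i a ha
      have h3 := h0 ha
      rw [← hφ i a ha, sub_eq_iff_eq_add] at h3
      rw [LinearMap.smul_apply, LinearMap.add_apply, Module.End.one_apply, add_comm, ← h3,
        smul_smul, inv_mul_cancel₀ two_ne_zero, one_smul]
    rw [AlgS, h2]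
    exact Submodule.smul_mem _ _ (Submodule.add_mem _ kop_one h1)
  · intro h
    have h1 : (2 : W.K) • pS W X {i | Even i} + (-1 : W.K) • 1 ∈ KOp W X X 0 :=
      Submodule.add_mem _ (Submodule.smul_mem _ _ h) (Submodule.smul_mem _ _ kop_one)
    obtain ⟨γ, hγ, h2⟩ := mem_KOp_iff.1 h1
    refine ⟨W.corr γ, ⟨γ, by rwa [add_zero] at hγ, rfl⟩, fun i a ha => ?_⟩
    rw [h2, LinearMap.add_apply, LinearMap.smul_apply, LinearMap.smul_apply,
      Module.End.one_apply, ← h0 ha, neg_one_smul, sub_eq_add_neg]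

theorem kunnethK_indist (h : Indistinguishable W W') : KunnethK W X ↔ KunnethK W' X := by
  rw [kunnethK_iff, kunnethK_iff]
  exact forall_congr' fun i => algS_iff h

theorem sign_indist (h : Indistinguishable W W') :
    SignOpAlgebraic W X ↔ SignOpAlgebraic W' X := by
  rw [sign_iff, sign_iff, algS_iff h]

lemma isPowerMap_powMap (g : W.H X →ₗ[W.K] W.H X) (n : ℕ) :
    IsPowerMap W ⇑g (pX X X n) ⇑(powMap W g n) := by
  induction n with
  | zero => exact IsPowerMap.one
  | succ n ih => exact IsPowerMap.step ih ⟨_, rfl⟩ fun a b => extHom_tmul _ _ _ _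

lemma powMap_of_isPowerMap {g : W.H X →ₗ[W.K] W.H X} {G : W.H Y → W.H Y}
    (h : IsPowerMap W ⇑g Y G) : ∃ n, (⟨Y, G⟩ : Σ Y : 𝒱.Obj, (W.H Y → W.H Y)) =
      ⟨pX X X n, ⇑(powMap W g n)⟩ := by
  induction h with
  | one => exact ⟨0, rfl⟩
  | @step Y G G' _ hl h2 ih =>
    obtain ⟨n, hn⟩ := ih
    cases hn
    obtain ⟨L, rfl⟩ := hl
    refine ⟨n + 1, ?_⟩
    have h3 : L = powMap W g (n + 1) := by
      apply ext_kunneth_lin
      intro a b
      refine (h2 a b).trans ?_
      exact (extHom_tmul _ _ _ _).symm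
    rw [h3]

/-- The two notions agree. -/
lemma fixes_iff {g : W.H X ≃ₗ[W.K] W.H X} : FixesAlgebraic W ⇑g ↔ FixesCycles W X g := by
  constructor
  · intro h n a ha
    refine algSpan_induction (p := fun a => powMap W g.toLinearMap n a = a) ?_ ?_ ?_ ?_ ha
    · rw [map_zero]
    · intro a b ha hb
      rw [map_add, ha, hb]
    · intro r a ha
      rw [map_smul, ha]
    · intro i z hz
      exact h _ _ (isPowerMap_powMap g.toLinearMap n) i z hz
  · intro h Y G hG p z hz
    obtain ⟨n, hn⟩ := powMap_of_isPowerMap (g := g.toLinearMap) hG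
    cases hn
    exact h n _ (cl_mem_algSpan hz)

/-- Algebraic Kunneth projectors make the degrees rigid. -/
lemma rigid_of_kunneth (h : KunnethK W X) : DegreeRigid W X := by
  rintro _ ⟨g, rfl⟩ hb hg i a ha
  exact h.gr_mem (g := LinearEquiv.ofBijective g hb) (fixes_iff.1 hg) ha

/-- **The conjecture C and the symmetries.** -/
theorem kunneth_of_rigid [IsAlgClosed W.K] (hsign : SignOpAlgebraic W X)
    (hD : ∀ n, HomEqNum W (pX X X n)) (h' : DegreeRigid W X) : KunnethK W X := by
  have h : ∀ g : W.H X ≃ₗ[W.K] W.H X, FixesCycles W X g → ∀ i, ∀ a ∈ W.gr X i,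
      g a ∈ W.gr X i := fun g hg => h' g ⟨g.toLinearMap, rfl⟩ g.bijective (fixes_iff.2 hg)
  rcases subsingleton_or_nontrivial (W.H X) with hs | hs
  · intro i
    refine ⟨0, Submodule.zero_mem _, fun j a _ => ?_⟩
    exact Subsingleton.elim _ _
  have hC : Cancels W X := fun m n τ x hτ hτ0 h1 => alg_of_homEqNum (hD m) hτ hτ0 h1
  intro i
  have hh : IsHom (W.gr X) 0 (proj (W.isInternal X) i) := by
    rw [← pS_singleton]
    exact pS_hom
  obtain ⟨γ, hγ, hγ'⟩ := exists_class_zero hh
  have hinv : Invariant W X 1 γ := by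
    refine invariant_of_comm hγ fun g hg a => ?_
    rw [hγ']
    refine gr_induction (W.isInternal X) (p := fun a => g (proj (W.isInternal X) i a) =
      proj (W.isInternal X) i (g a)) ?_ ?_ a
    · intro j a ha
      by_cases hj : j = i
      · subst hj
        rw [proj_same _ ha, proj_same _ (h g hg j a ha)]
      · rw [proj_ne _ ha hj, proj_ne _ (h g hg j a ha) hj, map_zero]
    · intro a b ha hb
      rw [map_add, map_add, map_add, map_add, ha, hb]
  have h1 := (cancels_iff hsign).1 hC 1 γ hinv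
  refine ⟨γ, spanCycles_of_alg h1 hγ, fun j a ha => ?_⟩
  rw [hγ']
  split_ifs with hj
  · subst hj; exact proj_same _ ha
  · exact proj_ne _ ha hj

/-- **Main theorem.** -/
theorem main (W : WeilCohomology.{u, max (u + 1) v} ops) [IsAlgClosed W.K]
    (hP : ∃ P : 𝒱.Obj, P.dim = 0)
    (hdeg : ∀ X : 𝒱.Obj, ∃ z, X.IsCyc X.dim z ∧ X.V.degCycle z ≠ 0) (hsign : SignAll W) :
    ∃ Ws : WeilCohomology.{u, max (u + 1) v} ops, IsAlgClosed Ws.K ∧
      Indistinguishable W Ws ∧ HomEqNumAll Ws ∧ ∀ X, List.TFAE [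
        KunnethK W X,
        DegreeRigid Ws X,
        ∀ W' : WeilCohomology.{u, max (u + 1) v} ops, IsAlgClosed W'.K →
          Indistinguishable W W' → DegreeRigid W' X,
        ∃ W' : WeilCohomology.{u, max (u + 1) v} ops, IsAlgClosed W'.K ∧
          Indistinguishable W W' ∧ HomEqNumAll W' ∧ DegreeRigid W' X] := by
  obtain ⟨P, hP⟩ := hP
  obtain ⟨𝒟⟩ := exists_sys W hsign hP
  obtain ⟨𝒰, h𝒰⟩ := exists_ultra (W := W) hdeg P
  have hcl : IsAlgClosed (Ex.star.{u, max (u + 1) v} 𝒟 h𝒰).K := isAlgClosed_germ 𝒰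
  have hind : Indistinguishable W (Ex.star.{u, max (u + 1) v} 𝒟 h𝒰) :=
    ⟨fun X i => betti_star h𝒰 X i, constHom W 𝒰, fun X z hz i t ht => traceOn_star h𝒰 hz ht⟩
  have hnum : HomEqNumAll (Ex.star.{u, max (u + 1) v} 𝒟 h𝒰) := fun X => homEqNum_star h𝒰 X
  refine ⟨_, hcl, hind, hnum, fun X => ?_⟩
  tfae_have 1 → 3 := fun h W' _ h2 => rigid_of_kunneth ((kunnethK_indist h2).1 h)
  tfae_have 3 → 2 := fun h => h _ hcl hind
  tfae_have 2 → 4 := fun h => ⟨_, hcl, hind, hnum, h⟩
  tfae_have 4 → 1 := by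
    rintro ⟨W', h1, h2, h3, h4⟩
    exact (kunnethK_indist h2).2
      (kunneth_of_rigid ((sign_indist h2).1 (hsign X)) (fun n => h3 _) h4)
  tfae_finish

end Pool.Agent.H843.Ks
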