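import Pool.Agent.H843.Ks2

/-!
# The Kunneth conjecture for all varieties and the symmetries
-/

open CategoryTheory AlgebraicGeometry Function Filter Finset Polynomial

universe u v w

set_option linter.unusedSectionVars false

namespace Pool.Agent.H843.Ks

open Pool.Agent.H914 Pool.Agent.H914.VarClass Pool.Agent.H914.VarClass.Obj
  Pool.Agent.H914.WeilCohomology Pool.Agent.R908 Pool.Agent.H447 Pool.Agent.N180.Cf
  Pool.Agent.W537 Pool.Agent.H843.Ex Pool.Agent.H844.Stab Pool.Agent.W543.KU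

variable {k : Type u} [Field k] {𝒱 : VarClass k} {ops : CycleOps 𝒱}

lemma hasRat {W : WeilCohomology.{u, v} ops} {X : 𝒱.Obj} (h : TracesRational W X) :
    HasRationalTraces W X := by
  intro z hz i
  obtain ⟨q, hq⟩ := h z hz i
  refine ⟨q, ?_⟩
  rw [traceOn_iff] at hq
  rw [← hq, trOn]
  have hT : ∀ x ∈ W.gr X i, cycOp W X z x ∈ W.gr X i := by
    intro x hx
    have h1 := kop_hom (KOp.gen (W := W) (X := X) (Y := X) (d := 0) (by simp) hz) (i : ℕ) x
      (by rw [grZ_natCast]; exact hx)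
    rwa [add_zero, grZ_natCast] at h1
  rw [← trace_restrict_gr (cycOp W X z) i hT]
  congr 1
  apply LinearMap.ext
  rintro ⟨x, hx⟩
  apply Subtype.ext
  change proj (W.isInternal X) i (cycOp W X z x) = cycOp W X z x
  exact proj_same _ (hT x hx)

lemma kunnethStd_iff {W : WeilCohomology.{u, v} ops} {X : 𝒱.Obj} (h : TracesRational W X) :
    KunnethStd W X ↔ KunnethK W X :=
  kunneth_iff_rational_traces.trans ⟨fun h1 => h1.1, fun h1 => ⟨h1, hasRat h⟩⟩

theorem main_std (W : WeilCohomology.{u, max (u + 1) v} ops) [IsAlgClosed W.K]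
    (hP : ∃ P : 𝒱.Obj, P.dim = 0)
    (hdeg : ∀ X : 𝒱.Obj, ∃ z, X.IsCyc X.dim z ∧ X.V.degCycle z ≠ 0)
    (hrat : ∀ X, TracesRational W X) :
    List.TFAE [
      ∀ X, KunnethStd W X,
      SignAll W ∧ ∀ W' : WeilCohomology.{u, max (u + 1) v} ops, IsAlgClosed W'.K →
        Indistinguishable W W' → ∀ X, DegreeRigid W' X,
      SignAll W ∧ ∃ W' : WeilCohomology.{u, max (u + 1) v} ops, IsAlgClosed W'.K ∧
        Indistinguishable W W' ∧ HomEqNumAll W' ∧ ∀ X, DegreeRigid W' X] ∧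
    (SignAll W → ∃ Ws : WeilCohomology.{u, max (u + 1) v} ops, IsAlgClosed Ws.K ∧
      Indistinguishable W Ws ∧ HomEqNumAll Ws ∧ ∀ X, List.TFAE [
        KunnethStd W X,
        DegreeRigid Ws X,
        ∀ W' : WeilCohomology.{u, max (u + 1) v} ops, IsAlgClosed W'.K →
          Indistinguishable W W' → DegreeRigid W' X,
        ∃ W' : WeilCohomology.{u, max (u + 1) v} ops, IsAlgClosed W'.K ∧
          Indistinguishable W W' ∧ HomEqNumAll W' ∧ DegreeRigid W' X]) := by
  refine ⟨?_, fun hsign => ?_⟩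
  · tfae_have 1 → 2 := by
      intro h
      have hK : ∀ X, KunnethK W X := fun X => (kunnethStd_iff (hrat X)).1 (h X)
      exact ⟨fun X => (hK X).sign, fun W' _ h2 X => rigid_of_kunneth ((kunnethK_indist h2).1 (hK X))⟩
    tfae_have 2 → 3 := by
      rintro ⟨hsign, h⟩
      obtain ⟨Ws, h1, h2, h3, -⟩ := main W hP hdeg hsign
      exact ⟨hsign, Ws, h1, h2, h3, h Ws h1 h2⟩
    tfae_have 3 → 1 := by
      rintro ⟨hsign, W', h1, h2, h3, h4⟩ X
      exact (kunnethStd_iff (hrat X)).2 ((kunnethK_indist h2).2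
        (kunneth_of_rigid ((sign_indist h2).1 (hsign X)) (fun n => h3 _) (h4 X)))
    tfae_finish
  · obtain ⟨Ws, h1, h2, h3, h4⟩ := main W hP hdeg hsign
    refine ⟨Ws, h1, h2, h3, fun X => ?_⟩
    rw [kunnethStd_iff (hrat X)]
    exact h4 X

end Pool.Agent.H843.Ks
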