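import Pool.Agent.H843.LefDefs
import Pool.Agent.H843.Ho8

/-!
# The weight operator attached to the numerical conjecture A
-/

open CategoryTheory AlgebraicGeometry Function Finset Polynomial

universe u v

set_option linter.unusedSectionVars false

namespace Pool.Agent.H843.Le

open Pool.Agent.H914 Pool.Agent.H914.VarClass Pool.Agent.H914.VarClass.Obj
  Pool.Agent.H914.WeilCohomology Pool.Agent.R908 Pool.Agent.H447 Pool.Agent.H843.Ex
  Pool.Agent.X310.Jm Pool.Agent.X310.Sec Pool.Agent.Y163 Pool.Agent.H843.Ho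

variable {k : Type u} [Field k] {𝒱 : VarClass k} {ops : CycleOps 𝒱}
  {W : WeilCohomology.{u, v} ops} {X Y Z : 𝒱.Obj} {Pol : ∀ X : 𝒱.Obj, Set X.Cycles}

/-- **The numerical conjecture A implies that `u ↦ L u + u L` is a Lefschetz operator.** -/
lemma dbl_inj (hW : HomEqNum W (X.prod X)) {D : X.Cycles} (hD : X.IsCyc 1 D)
    (hI : NumLefschetz ops (X.prod X) (ops.pull (fst X X) D + ops.pull (snd X X) D))
    (d : ℕ) (u : Module.End W.K (W.H X)) (hu : ROp W X (-(d : ℤ)) u)
    (h0 : (dbl (Lop W X D) ^ (2 * d)) u = 0) : u = 0 := by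
  by_contra hu0
  have hd := deg_le rop_opAlg (W.isInternal X) W_hbd hu hu0
  rw [abs_neg, Nat.abs_cast] at hd
  have hd' : d ≤ X.dim := by exact_mod_cast hd
  obtain ⟨z, hz, rfl⟩ := exists_of_rop (p := X.dim - d) (by omega) hu
  set DD := ops.pull (fst X X) D + ops.pull (snd X X) D with hDD
  have hDDc : (X.prod X).IsCyc 1 DD := SmVar.IsCyc.add (ops.pull_mem _ hD) (ops.pull_mem _ hD)
  have hdim : (X.prod X).dim = X.dim + X.dim := rfl
  have e2d : (X.prod X).dim - 2 * (X.dim - d) = 2 * d := by omega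
  have hcl : W.cl _ (divPow ops DD (2 * d) z) = 0 := by
    apply corr_inj
    rw [corr_box_pow hD, h0]
  apply hu0
  have h1 := hI (X.dim - d) (by omega) z hz ?_
  · rw [hW (X.dim - d) (by omega) z hz (fun w hw => h1 _ w (by omega) hw), corr_zero]
  · intro q w hq hw
    rw [e2d]
    have h3 := tr_mul_cl (W := W) (divPow_mem (ops := ops) hDDc hz (2 * d)) hw (by omega)
    rw [hcl, zero_mul, map_zero] at h3
    exact_mod_cast h3.symm

/-- The weight operators: `C` belongs to a rational `sl(2)`-triple containing the product with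
a divisor in `Pol X`. -/
def IsWt (W : WeilCohomology.{u, v} ops) (Pol : ∀ X : 𝒱.Obj, Set X.Cycles) (X : 𝒱.Obj)
    (C : Module.End W.K (W.H X)) : Prop :=
  ∃ D ∈ Pol X, ∃ F, ROp W X 0 C ∧ ROp W X (-1) F ∧ Sl2 C (Lop W X D) F

lemma IsWt.rop {C : Module.End W.K (W.H X)} (hC : IsWt W Pol X C) : ROp W X 0 C := by
  obtain ⟨D, hD, F, h1, -, -⟩ := hC
  exact h1

lemma IsWt.node (hPol : IsPolSystem ops Pol) {C : Module.End W.K (W.H X)}
    (hC : IsWt W Pol X C) :
    aeval (C + (X.dim : W.K) • (1 : Module.End W.K (W.H X))) (nodeP W.K X.dim) = 0 := by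
  obtain ⟨D, hD, F, h1, h2, t⟩ := hC
  exact aeval_nodeP t (mulLeft_pow_zero (hPol.isCyc X D hD))

lemma IsWt.ad (hPol : IsPolSystem ops Pol) (hW : HomEqNum W (X.prod X))
    (hI : ∀ D ∈ Pol (X.prod X), NumLefschetz ops (X.prod X) D) {C : Module.End W.K (W.H X)}
    (hC : IsWt W Pol X C) {d : ℤ} {u : Module.End W.K (W.H X)} (hu : ROp W X d u) :
    ad W.K C u = ((2 * d : ℤ) : W.K) • u := by
  have hN := hC.node hPol
  obtain ⟨D, hD, F, h1, h2, t⟩ := hC
  have hDc := hPol.isCyc X D hD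
  exact ad_eq rop_opAlg (W.isInternal X) W_hbd (strNondeg_of_homEqNum hW) h1
    (rop_mulLeft hDc) h2 t hN (dbl_inj hW hDc (hI _ (hPol.box X X D hD D hD))) hu

/-- **Uniqueness of the weight operator.** -/
lemma IsWt.unique (hPol : IsPolSystem ops Pol) (hW : HomEqNum W (X.prod X))
    (hI : ∀ D ∈ Pol (X.prod X), NumLefschetz ops (X.prod X) D) {C C' : Module.End W.K (W.H X)}
    (hC : IsWt W Pol X C) (hC' : IsWt W Pol X C') : C = C' := by
  have had := fun {d : ℤ} {u : Module.End W.K (W.H X)} (hu : ROp W X d u) =>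
    hC.ad hPol hW hI hu
  have had' := fun {d : ℤ} {u : Module.End W.K (W.H X)} (hu : ROp W X d u) =>
    hC'.ad hPol hW hI hu
  obtain ⟨D, hD, F, h1, h2, t⟩ := hC
  obtain ⟨D', hD', F', h1', h2', t'⟩ := hC'
  have hDc := hPol.isCyc X D hD
  have hDc' := hPol.isCyc X D' hD'
  refine wt_unique t t' (mulLeft_pow_zero hDc) (mulLeft_pow_zero hDc') ?_ ?_ ?_ ?_ ?_
  · rw [had h1']; simp
  · rw [had (rop_mulLeft hDc')]; simp
  · rw [had h2']; simp
  · rw [had' (rop_mulLeft hDc)]; simp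
  · rw [had' h2]; simp

end Pool.Agent.H843.Le
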