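import Pool.Agent.H843.Le3

/-!
# The weight operators of products and the action of correspondences
-/

open CategoryTheory AlgebraicGeometry Function Finset Polynomial

universe u v

set_option linter.unusedSectionVars false

namespace Pool.Agent.H843.Le

open Pool.Agent.H914 Pool.Agent.H914.VarClass Pool.Agent.H914.VarClass.Obj
  Pool.Agent.H914.WeilCohomology Pool.Agent.R908 Pool.Agent.H447 Pool.Agent.H843.Ex
  Pool.Agent.X310.Jm Pool.Agent.X310.Sec Pool.Agent.Y163 Pool.Agent.H843.Ho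

variable {k : Type u} [Field k] {𝒱 : VarClass k} {ops : CycleOps 𝒱}
  {W : WeilCohomology.{u, v} ops} {X Y Z : 𝒱.Obj} {Pol : ∀ X : 𝒱.Obj, Set X.Cycles}

/-- The value of the weight operator at `1`. -/
lemma IsWt.one (hPol : IsPolSystem ops Pol) {C : Module.End W.K (W.H X)}
    (hC : IsWt W Pol X C) : C 1 = (-(X.dim : W.K)) • (1 : W.H X) := by
  have hN := hC.node hPol
  obtain ⟨D, hD, F, h1, h2, t⟩ := hC
  have h3 : C 1 ∈ W.gr X 0 := by
    have := rop_opAlg.hom h1 (0 : ℕ) 1 (by rw [grZ_natCast]; exact W.one_mem X)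
    rwa [mul_zero, add_zero, grZ_natCast] at this
  rw [W.gr_zero, Submodule.mem_span_singleton] at h3
  obtain ⟨c, hc⟩ := h3
  set T := C + (X.dim : W.K) • (1 : Module.End W.K (W.H X)) with hT
  have hTa : ∀ a, T a = C a + (X.dim : W.K) • a := fun a => rfl
  have h4 : T 1 = (c + X.dim) • (1 : W.H X) := by rw [hTa, ← hc, add_smul]
  obtain ⟨i, hi, hi2⟩ := eig_lt hN h4 (one_ne hPol)
  set y := (Lop W X D ^ X.dim) 1 with hy
  have hy0 : y ≠ 0 := by
    intro h0
    apply tr_top (W := W) hPol hD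
    rw [← hy, h0, map_zero]
  have h5 : T y = (c + 2 * X.dim + X.dim) • y := by
    rw [hTa, hy, h_epow t hc.symm, ← add_smul]
  obtain ⟨i', hi', hi2'⟩ := eig_lt hN h5 hy0
  have h6 : ((i + 2 * X.dim : ℕ) : W.K) = (i' : W.K) := by
    push_cast
    rw [← hi2, ← hi2']
    ring
  have h7 : i + 2 * X.dim = i' := by exact_mod_cast h6
  obtain rfl : i = 0 := by omega
  rw [← hc]
  congr 1
  rw [Nat.cast_zero] at hi2
  exact eq_neg_of_add_eq_zero_left hi2

lemma IsWt.adj (hPol : IsPolSystem ops Pol) {C : Module.End W.K (W.H X)}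
    (hC : IsWt W Pol X C) : IsWt W Pol X (-adj C) := by
  obtain ⟨D, hD, F, h1, h2, t⟩ := hC
  exact ⟨D, hD, Y163.adj F, rop_opAlg.neg (rop_adj h1), rop_adj h2,
    sl2_adj t (adj_mulLeft (W.cl_mem (hPol.isCyc X D hD)))⟩

lemma IsWt.prod (hPol : IsPolSystem ops Pol) {C : Module.End W.K (W.H X)}
    {C' : Module.End W.K (W.H Y)} (hC : IsWt W Pol X C) (hC' : IsWt W Pol Y C') :
    IsWt W Pol (X.prod Y) (extOp W C 1 + extOp W 1 C') := by
  obtain ⟨D, hD, F, h1, h2, t⟩ := hC
  obtain ⟨D', hD', F', h1', h2', t'⟩ := hC'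
  refine ⟨_, hPol.box X Y D hD D' hD', extOp W F 1 + extOp W 1 F', ?_, ?_, ?_⟩
  · exact rop_opAlg.add (rop_opAlg.cast (rop_ext h1 rop_opAlg.one) (by ring))
      (rop_opAlg.cast (rop_ext rop_opAlg.one h1') (by ring))
  · exact rop_opAlg.add (rop_opAlg.cast (rop_ext h2 rop_opAlg.one) (by ring))
      (rop_opAlg.cast (rop_ext rop_opAlg.one h2') (by ring))
  · rw [Lop_box (hPol.isCyc Y D' hD')]
    exact sl2_ext t t'

/-- The weight of the class of a cycle. -/
lemma IsWt.cl (hPol : IsPolSystem ops Pol) (hW : HomEqNum W (X.prod X))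
    (hI : ∀ D ∈ Pol (X.prod X), NumLefschetz ops (X.prod X) D) {C : Module.End W.K (W.H X)}
    (hC : IsWt W Pol X C) {p : ℕ} {z : X.Cycles} (hz : X.IsCyc p z) :
    C (W.cl X z) = (2 * p - X.dim : W.K) • W.cl X z := by
  have h1 := hC.ad hPol hW hI (u := LinearMap.mulLeft W.K (W.cl X z)) (d := p)
    ⟨_, Realized.mulLeft hz, rfl⟩
  have h2 := congrArg (fun A => A (1 : W.H X)) h1
  simp only [ad_apply, LinearMap.sub_apply, Module.End.mul_apply, LinearMap.mulLeft_apply,
    mul_one, LinearMap.smul_apply] at h2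
  rw [hC.one hPol, mul_smul_comm, mul_one] at h2
  rw [sub_smul]
  push_cast at h2
  rw [← h2]
  module

/-- **The weights of correspondences.** -/
theorem wt_corr (hPol : IsPolSystem ops Pol) (hW : ∀ X, HomEqNum W X)
    (hI : ∀ X, ∀ D ∈ Pol X, NumLefschetz ops X D) {C : Module.End W.K (W.H X)}
    {C' : Module.End W.K (W.H Y)} (hC : IsWt W Pol X C) (hC' : IsWt W Pol Y C') {d : ℤ}
    {u : W.H X →ₗ[W.K] W.H Y} (hu : u ∈ KOp W X Y d) :
    C' ∘ₗ u - u ∘ₗ C = ((2 * d + X.dim - Y.dim : ℤ) : W.K) • u := by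
  have hadj : Y163.adj C = -C := by
    have := hC.unique hPol (hW _) (hI _) (hC.adj hPol)
    rw [this, neg_neg]
    rw [← this]
  induction hu using Submodule.span_induction with
  | mem x hx =>
    obtain ⟨p, hp, z, hz, rfl⟩ := hx
    have h1 := (hC.prod hPol hC').cl hPol (hW _) (hI _) hz
    have h2 : Deg0 (W := W) (X := X) (Y163.adj C) :=
      deg0_of_mem (KOp.ofRop (rop_adj hC.rop))
    have h3 : Deg0 (W := W) (X := Y) C' := deg0_of_mem (KOp.ofRop hC'.rop)
    have h4 : Deg0 (W := W) (X := Y) (1 : Module.End W.K (W.H Y)) := fun i a ha => ha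
    have h5 : Deg0 (W := W) (X := X) (Y163.adj (1 : Module.End W.K (W.H X))) := by
      rw [adj_one]
      exact fun i a ha => ha
    have h6 := congrArg W.corr h1
    rw [LinearMap.add_apply, corr_add, corr_extOp h2 h4, corr_extOp h5 h3, adj_one, hadj,
      corr_smul] at h6
    have h7 : ((1 : Module.End W.K (W.H Y)) ∘ₗ W.corr (W.cl _ z) ∘ₗ (-C)) +
        C' ∘ₗ W.corr (W.cl _ z) ∘ₗ (1 : Module.End W.K (W.H X)) =
        C' ∘ₗ W.corr (W.cl _ z) - W.corr (W.cl _ z) ∘ₗ C := by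
      apply LinearMap.ext
      intro a
      simp only [LinearMap.add_apply, LinearMap.comp_apply, LinearMap.neg_apply, map_neg,
        Module.End.one_apply, LinearMap.sub_apply]
      abel
    rw [h7] at h6
    rw [h6]
    congr 1
    rw [dim_prod]
    have h8 : ((p : ℤ) : W.K) = ((X.dim + d : ℤ) : W.K) := by rw [hp]
    push_cast at h8 ⊢
    rw [h8]
    ring
  | zero => simp
  | add x y _ _ hx hy =>
    rw [LinearMap.comp_add, LinearMap.add_comp, smul_add, ← hx, ← hy]
    abel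
  | smul a x _ hx =>
    rw [LinearMap.comp_smul, LinearMap.smul_comp, smul_comm _ a x, ← hx]
    apply LinearMap.ext
    intro y
    simp only [LinearMap.sub_apply, LinearMap.smul_apply, LinearMap.comp_apply, smul_sub]

end Pool.Agent.H843.Le
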