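import Pool.Agent.H843.Le4

/-!
# The parity operator is the parity of the weights
-/

open CategoryTheory AlgebraicGeometry Function Finset Polynomial

universe u v

set_option linter.unusedSectionVars false

namespace Pool.Agent.H843.Le

open Pool.Agent.H914 Pool.Agent.H914.VarClass Pool.Agent.H914.VarClass.Obj
  Pool.Agent.H914.WeilCohomology Pool.Agent.R908 Pool.Agent.H447 Pool.Agent.H843.Ex
  Pool.Agent.X310.Jm Pool.Agent.X310.Sec Pool.Agent.Y163 Pool.Agent.H843.Ho

variable {k : Type u} [Field k] {𝒱 : VarClass k} {ops : CycleOps 𝒱}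
  {W : WeilCohomology.{u, v} ops} {X Y Z : 𝒱.Obj} {Pol : ∀ X : 𝒱.Obj, Set X.Cycles}

section Top

variable {K : Type*} [Field K] [CharZero K] {V : Type*} [AddCommGroup V] [Module K V]
  [Module.Finite K V] {C L F σ : Module.End K V} {n : ℕ}

/-- The projector onto the top weight space. -/
theorem top_proj (t : Sl2 C L F) (hn : L ^ (n + 1) = 0) (hs : σ * σ = 1) (hC : Commute σ C)
    (hL : Commute σ L) {k : ℕ} (hk : k ≤ n)
    (hmax : ∀ m : ℤ, (k : ℤ) < |m| → ∀ x, σ x = -x → C x = (m : K) • x → x = 0)
    {P κ : Module.End K V} (hP : P = (2 : K)⁻¹ • (1 - σ))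
    (hκ : κ = pr (C + (n : K) • (1 : Module.End K V)) n (n + k)) :
    L * (P * κ) = 0 ∧ L ^ k * (F ^ k * (P * κ)) = ((k.factorial : K) ^ 2) • (P * κ) ∧
    (P * κ) * L ^ (k + 1) = 0 ∧ (P * κ) * (P * κ) = P * κ := by
  have hN := aeval_nodeP t hn
  set T := C + (n : K) • (1 : Module.End K V) with hT
  have hTa : ∀ a, T a = C a + (n : K) • a := fun a => rfl
  have hσT : Commute σ T := by
    rw [hT]
    exact hC.add_right ((Commute.one_right _).smul_right _)
  have hcomm : ∀ {A : Module.End K V}, Commute σ A → Commute P A := by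
    intro A hA
    rw [hP]
    exact ((Commute.one_left A).sub_left hA).smul_left _
  have hPL := hcomm hL
  have hPκ : Commute P κ := by
    rw [hκ]
    exact hcomm (commute_ev hσT _)
  have hPP : P * P = P := by
    have h3 : (1 - σ) * (1 - σ) = (2 : K) • (1 - σ) := by
      rw [sub_mul, mul_sub, mul_sub, one_mul, mul_one, one_mul, hs, two_smul]
      abel
    rw [hP, smul_mul_smul_comm, h3, smul_smul]
    congr 1
    norm_num
  have hσP : ∀ x, σ (P x) = -P x := by
    intro x
    have h2 := congrArg (fun A => A x) hs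
    simp only [Module.End.mul_apply, Module.End.one_apply] at h2
    rw [hP, LinearMap.smul_apply, map_smul, LinearMap.sub_apply, map_sub, h2,
      Module.End.one_apply, ← smul_neg]
    congr 1
    abel
  -- the powers of `L` on the image of `P`
  have hLP : L ^ (k + 1) * P = 0 := by
    rw [← (hPL.pow_right (k + 1)).eq]
    refine ext_eig hN fun l hl x hx => ?_
    rw [Module.End.mul_apply, LinearMap.zero_apply]
    have h2 : C x = (((l : ℤ) - n : ℤ) : K) • x := by
      push_cast
      rw [sub_smul, ← hx, hTa, add_sub_cancel_right]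
    have h3 := congrArg (fun A => A x) (hPL.pow_right (k + 1)).eq
    simp only [Module.End.mul_apply] at h3
    have hCP : Commute P C := hcomm hC
    have h4 : C (P x) = (((l : ℤ) - n : ℤ) : K) • P x := by
      have h5 := congrArg (fun A => A x) hCP.eq
      simp only [Module.End.mul_apply] at h5
      rw [← h5, h2, map_smul]
    rcases lt_or_ge (k : ℤ) |(l : ℤ) - n| with h6 | h6
    · rw [h3, hmax _ h6 _ (hσP x) h4, map_zero]
    · rw [abs_le] at h6
      apply hmax ((l : ℤ) - n + 2 * (k + 1)) (lt_abs.2 (Or.inl (by omega)))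
      · exact hσP _
      · rw [h3, h_epow t h4]
        congr 1
        push_cast
        ring
  have hPLk : P * L ^ (k + 1) = 0 := by rw [(hPL.pow_right (k + 1)).eq, hLP]
  have hκκ : κ * κ = κ := by
    rw [hκ]
    exact pr_mul_self hN (by omega)
  have hLx : ∀ x, C ((P * κ) x) = (k : K) • (P * κ) x ∧ L ((P * κ) x) = 0 := by
    intro x
    have h2 : C ((P * κ) x) = (k : K) • (P * κ) x := by
      rw [hPκ.eq, Module.End.mul_apply]
      have h3 := pr_eigen hN (i := n + k) (by omega) (P x)
      rw [← hκ, hTa] at h3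
      push_cast at h3
      rw [add_smul, add_comm ((n : K) • κ (P x)), add_left_inj] at h3
      exact h3
    refine ⟨h2, ?_⟩
    apply hmax (k + 2) (lt_abs.2 (Or.inl (by omega)))
    · have h5 := congrArg (fun A => A ((P * κ) x)) hL.eq
      simp only [Module.End.mul_apply] at h5
      rw [Module.End.mul_apply, h5, hσP, map_neg]
    · rw [h_e t, h2, map_smul, ← add_smul]
      push_cast
      rfl
  refine ⟨?_, ?_, ?_, ?_⟩
  · apply LinearMap.ext
    intro x
    exact (hLx x).2
  · apply LinearMap.ext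
    intro x
    exact ef_pow t (hLx x).2 (hLx x).1
  · rw [hPκ.eq, mul_assoc, hPLk, mul_zero]
  · rw [mul_assoc, ← mul_assoc κ, ← hPκ.eq, mul_assoc P κ κ, hκκ, ← mul_assoc, hPP]

end Top

/-! ### Numerical equivalence and classes -/

lemma corr_eq {c c' : W.H (X.prod Y)} (h : W.corr c = W.corr c') : c = c' := by
  have h1 : W.corr (c + (-1 : W.K) • c') = 0 := by
    rw [corr_add, corr_smul, h]
    apply LinearMap.ext
    intro x
    rw [LinearMap.add_apply, LinearMap.smul_apply, neg_smul, one_smul, add_neg_cancel,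
      LinearMap.zero_apply]
  have h2 := corr_inj h1
  rwa [neg_smul, one_smul, ← sub_eq_add_neg, sub_eq_zero] at h2

lemma numericallyZero_of_cl {p : ℕ} {z : X.Cycles} (hz : X.IsCyc p z) (h : W.cl X z = 0) :
    NumericallyZero ops X p z := by
  intro q w hq hw
  have h3 := tr_mul_cl (W := W) hz hw hq
  rw [h, zero_mul, map_zero] at h3
  exact_mod_cast h3.symm

lemma cl_of_numericallyZero (hW : HomEqNum W X) {p : ℕ} {z : X.Cycles} (hz : X.IsCyc p z)
    (h : NumericallyZero ops X p z) : W.cl X z = 0 := by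
  by_cases hp : p ≤ X.dim
  · exact hW p hp z hz fun w hw => h _ w (by omega) hw
  · have h1 := W.cl_mem hz
    rw [W.gr_eq_bot X _ (by omega)] at h1
    exact (Submodule.mem_bot _).1 h1

lemma numericallyEq_of_cl {p : ℕ} {z z' : X.Cycles} (hz : X.IsCyc p z) (hz' : X.IsCyc p z')
    (h : W.cl X z = W.cl X z') : NumericallyEq ops X p z z' := by
  intro q w hq hw
  have h3 := tr_mul_cl (W := W) hz hw hq
  have h4 := tr_mul_cl (W := W) hz' hw hq
  rw [h, h4] at h3
  exact_mod_cast h3.symm

lemma cl_of_numericallyEq (hW : HomEqNum W X) {p : ℕ} {z z' : X.Cycles} (hz : X.IsCyc p z)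
    (hz' : X.IsCyc p z') (h : NumericallyEq ops X p z z') : W.cl X z = W.cl X z' := by
  have h0 : X.IsCyc p (z + (-1 : ℚ) • z') := hz.add (hz'.smul _)
  have h1 : W.cl X (z + (-1 : ℚ) • z') = W.cl X z - W.cl X z' := by
    rw [map_add, cl_smul]
    push_cast
    rw [neg_smul, one_smul, sub_eq_add_neg]
  have h2 : NumericallyZero ops X p (z + (-1 : ℚ) • z') := by
    intro q w hq hw
    have h3 := tr_mul_cl (W := W) h0 hw hq
    have h4 := tr_mul_cl (W := W) hz hw hq
    have h5 := tr_mul_cl (W := W) hz' hw hq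
    rw [h1, sub_mul, map_sub, h4, h5, h q w hq hw, sub_self] at h3
    exact_mod_cast h3.symm
  have h3 := cl_of_numericallyZero hW h0 h2
  rw [h1] at h3
  exact sub_eq_zero.1 h3

section

variable (hPol : IsPolSystem ops Pol) (hW : HomEqNum W (X.prod X))
  (hI : ∀ D ∈ Pol (X.prod X), NumLefschetz ops (X.prod X) D) {C : Module.End W.K (W.H X)}
  (hC : IsWt W Pol X C)
include hPol hW hI hC

lemma IsWt.adj_eq : Y163.adj C = -C := by
  have := hC.unique hPol hW hI (hC.adj hPol)
  rw [this, neg_neg]
  rw [← this]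

lemma IsWt.adj_T : Y163.adj (C + (X.dim : W.K) • (1 : Module.End W.K (W.H X))) =
    -C + (X.dim : W.K) • (1 : Module.End W.K (W.H X)) := by
  rw [adj_add, adj_smul, adj_one, hC.adj_eq hPol hW hI]

lemma IsWt.adj_pr {i j : ℕ} (hij : i + j = 2 * X.dim) :
    Y163.adj (pr (C + (X.dim : W.K) • (1 : Module.End W.K (W.H X))) X.dim i) =
      pr (C + (X.dim : W.K) • (1 : Module.End W.K (W.H X))) X.dim j := by
  have hN := hC.node hPol
  have h1 : Y163.adj (pr (C + (X.dim : W.K) • (1 : Module.End W.K (W.H X))) X.dim i) =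
      pr (-C + (X.dim : W.K) • (1 : Module.End W.K (W.H X))) X.dim i := by
    rw [pr, adj_ev, hC.adj_T hPol hW hI, pr]
  rw [h1]
  set T := C + (X.dim : W.K) • (1 : Module.End W.K (W.H X)) with hT
  have hTa : ∀ a, T a = C a + (X.dim : W.K) • a := fun a => rfl
  refine ext_eig hN fun l hl x hx => ?_
  have h2 : (-C + (X.dim : W.K) • (1 : Module.End W.K (W.H X))) x =
      ((2 * X.dim - l : ℕ) : W.K) • x := by
    have h3 : C x = ((l : W.K) - X.dim) • x := by
      rw [sub_smul, ← hx, hTa, add_sub_cancel_right]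
    rw [LinearMap.add_apply, LinearMap.neg_apply, LinearMap.smul_apply, Module.End.one_apply, h3,
      ← neg_smul, ← add_smul]
    congr 1
    rw [Nat.cast_sub (by omega)]
    push_cast
    ring
  by_cases hlj : l = j
  · subst hlj
    rw [pr_same hl hx]
    apply pr_same (by omega)
    rw [h2]
    congr 2
    omega
  · rw [pr_ne (Ne.symm hlj) hl hx]
    exact pr_ne (by omega) (by omega) h2

lemma IsWt.adj_pp :
    Y163.adj (pp (C + (X.dim : W.K) • (1 : Module.End W.K (W.H X))) X.dim) =
      pp (C + (X.dim : W.K) • (1 : Module.End W.K (W.H X))) X.dim := by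
  have hN := hC.node hPol
  have h0 : ∀ (s : Finset ℕ) (g : ℕ → Module.End W.K (W.H X)),
      Y163.adj (∑ i ∈ s, g i) = ∑ i ∈ s, Y163.adj (g i) := by
    intro s g
    classical
    induction s using Finset.induction_on with
    | empty => rw [Finset.sum_empty, Finset.sum_empty, adj_zero]
    | insert a s ha ih => rw [Finset.sum_insert ha, Finset.sum_insert ha, adj_add, ih]
  set T := C + (X.dim : W.K) • (1 : Module.End W.K (W.H X)) with hT
  rw [pp, h0]
  have h1 : ∀ i ∈ range (2 * X.dim + 1), Y163.adj ((-1 : W.K) ^ i • pr T X.dim i) =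
      (-1 : W.K) ^ (2 * X.dim - i) • pr T X.dim (2 * X.dim - i) := by
    intro i hi
    rw [Finset.mem_range] at hi
    rw [adj_smul, hC.adj_pr hPol hW hI (j := 2 * X.dim - i) (by omega)]
    congr 1
    rcases Nat.even_or_odd i with h1 | h1
    · have h2 : Even (2 * X.dim - i) := by
        rcases h1 with ⟨c, hc⟩
        exact ⟨X.dim - c, by omega⟩
      rw [h1.neg_one_pow, h2.neg_one_pow]
    · have h2 : Odd (2 * X.dim - i) := by
        rcases h1 with ⟨c, hc⟩
        exact ⟨X.dim - c - 1, by omega⟩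
      rw [h1.neg_one_pow, h2.neg_one_pow]
  rw [Finset.sum_congr rfl h1]
  exact Finset.sum_range_reflect (fun i => (-1 : W.K) ^ i • pr T X.dim i) (2 * X.dim + 1)

/-- Rational operators commute with the parity of the weights. -/
lemma IsWt.pp_comm {d : ℤ} {u : Module.End W.K (W.H X)} (hu : ROp W X d u) :
    Commute (pp (C + (X.dim : W.K) • (1 : Module.End W.K (W.H X))) X.dim) u := by
  have hN := hC.node hPol
  apply Ho.pp_comm hN (d := d)
  have h1 := hC.ad hPol hW hI hu
  rw [ad_apply] at h1
  rw [← h1]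
  simp only [add_mul, mul_add, smul_mul_assoc, mul_smul_comm, one_mul, mul_one]
  abel
/-- **The parity operator is the parity of the weights.** -/
theorem IsWt.par_eq (hR : ∀ D ∈ Pol X, NumRank ops X D)
    (hpar : ROp W X 0 (par (W.isInternal X))) :
    par (W.isInternal X) = pp (C + (X.dim : W.K) • (1 : Module.End W.K (W.H X))) X.dim := by
  have hN := hC.node hPol
  have hCr := hC.rop
  have hpp := fun {d : ℤ} {u : Module.End W.K (W.H X)} (hu : ROp W X d u) =>
    hC.pp_comm hPol hW hI hu
  obtain ⟨D, hD, F, hC0, hF, t⟩ := hC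
  have hDc := hPol.isCyc X D hD
  have hL : ROp W X 1 (Lop W X D) := rop_mulLeft hDc
  have hLn : Lop W X D ^ (X.dim + 1) = 0 := mulLeft_pow_zero hDc
  set L := Lop W X D with hLdef
  set n := X.dim with hn
  set T := C + (n : W.K) • (1 : Module.End W.K (W.H X)) with hT
  have hTa : ∀ a, T a = C a + (n : W.K) • a := fun a => rfl
  set p := par (W.isInternal X) with hp
  set q := pp T n with hq
  set σ := p * q with hσ
  have hpcomm : ∀ {d : ℤ} {u : Module.End W.K (W.H X)}, ROp W X d u → Commute p u :=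
    fun {d u} hu => IsHom.par_comm (W.isInternal X) (rop_opAlg.hom hu)
  have hTr : ROp W X 0 T := by
    have := rop_opAlg.add hCr (rop_opAlg.smul (n : ℚ) rop_opAlg.one)
    rwa [Rat.cast_natCast] at this
  have hprr : ∀ i, ROp W X 0 (pr T n i) := fun i => rop_opAlg.ev hTr _
  have hqp : p * q = q * p := (hpp hpar).symm.eq
  have hpp2 : p * p = 1 := par_mul_par _
  have hqq : q * q = 1 := pp_mul_pp hN
  have hσσ : σ * σ = 1 := by
    rw [hσ]
    nth_rewrite 2 [hqp]
    rw [mul_assoc, ← mul_assoc q, hqq, one_mul, hpp2]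
  have hσcomm : ∀ {d : ℤ} {u : Module.End W.K (W.H X)}, ROp W X d u → Commute σ u :=
    fun {d u} hu => (hpcomm hu).mul_left (hpp hu)
  suffices h1 : σ = 1 by
    have h2 : p * (q * q) = q := by rw [← mul_assoc, ← hσ, h1, one_mul]
    rw [hqq, mul_one] at h2
    exact h2
  by_contra hne
  obtain ⟨k, hk, ⟨x₀, hx₀, hσx₀, hCx₀⟩, hmax⟩ :=
    exists_top t hLn hσσ (hσcomm hCr) (hσcomm hL) hne
  set P := (2 : W.K)⁻¹ • (1 - σ) with hP
  set κ := pr T n (n + k) with hκ
  obtain ⟨h3, h4, h5, h6⟩ := top_proj t hLn hσσ (hσcomm hCr) (hσcomm hL) hk hmax hP hκ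
  -- rationality
  have hqr : ROp W X 0 q := by
    rw [hq, pp]
    have h6 : ∀ s : Finset ℕ, ROp W X 0 (∑ i ∈ s, (-1 : W.K) ^ i • pr T n i) := by
      intro s
      classical
      induction s using Finset.induction_on with
      | empty => rw [Finset.sum_empty]; exact rop_opAlg.zero 0
      | insert a s ha ih =>
        rw [Finset.sum_insert ha]
        refine rop_opAlg.add ?_ ih
        have := rop_opAlg.smul (((-1 : ℚ)) ^ a) (hprr a)
        push_cast at this
        exact this
    exact h6 _
  have hσr : ROp W X 0 σ := rop_opAlg.cast (rop_opAlg.mul hpar hqr) (by ring)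
  have hPr : ROp W X 0 P := by
    have h6 := rop_opAlg.smul ((2 : ℚ)⁻¹) (rop_opAlg.add rop_opAlg.one (rop_opAlg.neg hσr))
    push_cast at h6
    rwa [← sub_eq_add_neg] at h6
  have hFk : ∀ m : ℕ, ROp W X (-(m : ℤ)) (F ^ m) := by
    intro m
    induction m with
    | zero => rw [pow_zero]; exact rop_opAlg.cast rop_opAlg.one (by simp)
    | succ m ih => rw [pow_succ]; exact rop_opAlg.cast (rop_opAlg.mul ih hF) (by push_cast; ring)
  have hPκr : ROp W X 0 (P * κ) :=
    rop_opAlg.cast (rop_opAlg.mul hPr (hprr _)) (by ring)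
  have hgr : ROp W X (-(k : ℤ)) (((((k.factorial : ℚ) ^ 2)⁻¹ : ℚ) : W.K) • (F ^ k * (P * κ))) :=
    rop_opAlg.smul _ (rop_opAlg.cast (rop_opAlg.mul (hFk k) hPκr) (by ring))
  -- the cycles
  obtain ⟨e, he, hee⟩ := exists_of_rop (p := n) (by omega) hPκr
  obtain ⟨g, hg, hgg⟩ := exists_of_rop (p := n - k) (by omega) hgr
  have hdim : (X.prod X).dim = n + n := rfl
  have hD2 : (X.prod X).IsCyc 1 (ops.pull (snd X X) D) := ops.pull_mem _ hDc
  have hD1 : (X.prod X).IsCyc 1 (ops.pull (fst X X) D) := ops.pull_mem _ hDc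
  have hPκ0 : P * κ ≠ 0 := by
    intro h0
    apply hx₀
    have h6 := congrArg (fun A => A x₀) h0
    have h7 : κ x₀ = x₀ := by
      apply pr_same (by omega)
      rw [hTa, hCx₀, ← add_smul]
      congr 1
      push_cast
      ring
    have h8 : P x₀ = x₀ := by
      rw [hP, LinearMap.smul_apply, LinearMap.sub_apply, Module.End.one_apply, hσx₀,
        sub_neg_eq_add, ← two_smul W.K, smul_smul, inv_mul_cancel₀ two_ne_zero, one_smul]
    simp only [Module.End.mul_apply, LinearMap.zero_apply] at h6
    rwa [h7, h8] at h6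
  have hproj : IsTopProjector ops X D k e := by
    refine ⟨he, ?_, ?_, ?_, ⟨g, hg, ?_⟩, ?_⟩
    · intro h0
      apply hPκ0
      rw [← hee, cl_of_numericallyZero hW he h0, corr_zero]
    · apply numericallyEq_of_cl (W := W) (compCyc_mem he he rfl) he
      apply corr_eq
      rw [corr_compCyc W he, hee]
      exact h6
    · apply numericallyZero_of_cl (W := W) (by rw [add_comm]; exact ops.mul_mem hD2 he)
      apply corr_inj
      rw [W.cl_mul, W.cl_pull, corr_snd _ _ (W.cl_mem hDc), hee]
      exact h3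
    · apply numericallyEq_of_cl (W := W) he
        (by
          have := divPow_mem (ops := ops) hD2 hg k
          rwa [show n - k + k = n by omega] at this)
      apply corr_eq
      rw [Ho.cl_divPow, hee]
      have h7 : ∀ m : ℕ, W.corr ((Lop W (X.prod X) (ops.pull (snd X X) D) ^ m)
          (W.cl (X.prod X) g)) = L ^ m * W.corr (W.cl (X.prod X) g) := by
        intro m
        induction m with
        | zero => rw [pow_zero, pow_zero, one_mul]; rfl
        | succ m ih =>
          rw [pow_succ', Module.End.mul_apply, LinearMap.mulLeft_apply, W.cl_pull,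
            corr_snd _ _ (W.cl_mem hDc), ih, pow_succ', mul_assoc]
      rw [h7, hgg, mul_smul_comm, h4, smul_smul]
      have h8 : (((((k.factorial : ℚ) ^ 2)⁻¹ : ℚ) : W.K)) * (k.factorial : W.K) ^ 2 = 1 := by
        have h9 : (k.factorial : W.K) ≠ 0 := Nat.cast_ne_zero.2 (Nat.factorial_ne_zero k)
        push_cast
        field_simp
      rw [h8, one_smul]
    · apply numericallyZero_of_cl (W := W) (divPow_mem (ops := ops) hD1 he (k + 1))
      apply corr_inj
      rw [Ho.cl_divPow]
      have h7 : ∀ m : ℕ, W.corr ((Lop W (X.prod X) (ops.pull (fst X X) D) ^ m)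
          (W.cl (X.prod X) e)) = W.corr (W.cl (X.prod X) e) * L ^ m := by
        intro m
        induction m with
        | zero => rw [pow_zero, pow_zero, mul_one]; rfl
        | succ m ih =>
          rw [pow_succ', Module.End.mul_apply, LinearMap.mulLeft_apply, W.cl_pull,
            corr_fst _ _ (W.cl_mem hDc), ih, pow_succ, mul_assoc]
      rw [h7, hee]
      exact h5
  have hidx := hR D hD k hk e hproj
  have h7 : p * (P * κ) = (-(-1 : W.K) ^ (n + k)) • (P * κ) := by
    apply LinearMap.ext
    intro x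
    rw [Module.End.mul_apply, LinearMap.smul_apply]
    set y := (P * κ) x with hy
    have hσP : ∀ a, σ (P a) = -P a := by
      intro a
      have h2 := congrArg (fun A => A a) hσσ
      simp only [Module.End.mul_apply, Module.End.one_apply] at h2
      rw [hP, LinearMap.smul_apply, map_smul, LinearMap.sub_apply, map_sub, h2,
        Module.End.one_apply, ← smul_neg]
      congr 1
      abel
    have hσy : σ y = -y := hσP (κ x)
    have hTy : T y = ((n + k : ℕ) : W.K) • y := by
      have h8 : Commute P κ := (((Commute.one_left κ).sub_left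
        (hσcomm (hprr (n + k)))).smul_left _)
      rw [hy, h8.eq, Module.End.mul_apply]
      exact pr_eigen hN (by omega) _
    have hqy : q y = (-1 : W.K) ^ (n + k) • y := pp_apply (by omega) hTy
    have h8 : σ y = p (q y) := rfl
    rw [hσy, hqy, map_smul] at h8
    have h9 : (-1 : W.K) ^ (n + k) * (-1 : W.K) ^ (n + k) = 1 := by
      rw [← mul_pow]
      simp
    rw [neg_smul, ← smul_neg, h8, smul_smul, h9, one_smul]
  have h8 : LinearMap.trace W.K (W.H X) (P * κ) =
      (Module.finrank W.K (LinearMap.range (P * κ)) : W.K) :=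
    LinearMap.IsProj.trace (LinearMap.isProj_range_iff_isIdempotentElem _ |>.2 h6)
  have h9 : 0 < Module.finrank W.K (LinearMap.range (P * κ)) := by
    rw [Module.finrank_pos_iff]
    by_contra hcon
    rw [not_nontrivial_iff_subsingleton, Submodule.subsingleton_iff_eq_bot,
      LinearMap.range_eq_bot] at hcon
    exact hPκ0 hcon
  set r := Module.finrank W.K (LinearMap.range (P * κ)) with hr
  have h10 : LinearMap.trace W.K (W.H X) (p * (P * κ)) =
      ((X.V.degCycle (ops.pull (diag X) e) : ℚ) : W.K) := by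
    rw [← hee, hp, trace_par_corr, ← cl_pull, tr_cl _ (ops.pull_mem _ he)]
  rw [h7, map_smul, h8, smul_eq_mul] at h10
  have h11 : (-(-1 : ℚ) ^ (n + k) * r) = X.V.degCycle (ops.pull (diag X) e) := by
    have : ((-(-1 : ℚ) ^ (n + k) * r : ℚ) : W.K) =
        ((X.V.degCycle (ops.pull (diag X) e) : ℚ) : W.K) := by
      rw [← h10]
      push_cast
      ring
    exact_mod_cast this
  rw [← h11] at hidx
  have h12 : (-1 : ℚ) ^ (n + k) * (-1 : ℚ) ^ (n + k) = 1 := by
    rw [← mul_pow]
    simp
  have h13 : (-1 : ℚ) ^ (n + k) * (-(-1 : ℚ) ^ (n + k) * r) = -(r : ℚ) := by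
    linear_combination (-(r : ℚ)) * h12
  rw [h13] at hidx
  have h14 : (0 : ℚ) < r := by exact_mod_cast h9
  linarith

end

end Pool.Agent.H843.Le
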