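import Pool.Agent.H843.Le7

/-!
# The theory graded by the weights satisfies the conjectures A, B, C, D
-/

open CategoryTheory AlgebraicGeometry Function Filter Finset Polynomial

universe u v

set_option linter.unusedSectionVars false

namespace Pool.Agent.H843.Le

open Pool.Agent.H914 Pool.Agent.H914.VarClass Pool.Agent.H914.VarClass.Obj
  Pool.Agent.H914.WeilCohomology Pool.Agent.R908 Pool.Agent.H447 Pool.Agent.H843.Ex
  Pool.Agent.X310.Jm Pool.Agent.X310.Sec Pool.Agent.Y163 Pool.Agent.N180.Cf Pool.Agent.W537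
  Pool.Agent.H843.Ho

variable {k : Type u} [Field k] {𝒱 : VarClass k} {ops : CycleOps 𝒱}
  {W : WeilCohomology.{u, v} ops} {X Y Z : 𝒱.Obj} {Pol : ∀ X : 𝒱.Obj, Set X.Cycles}
  {Cs : ∀ X, Module.End W.K (W.H X)}

section

variable (hPol : IsPolSystem ops Pol) (hW : ∀ X, HomEqNum W X)
  (hI : ∀ X, ∀ D ∈ Pol X, NumLefschetz ops X D) (hC : ∀ X, IsWt W Pol X (Cs X))
include hPol hW hI hC

lemma exists_F {D : X.Cycles} (hD : D ∈ Pol X) : ∃ F, Sl2 (Cs X) (Lop W X D) F := by
  obtain ⟨C, F, h1, h2, t⟩ := exists_triple (hW _) (hPol.isCyc X D hD)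
  have h3 : IsWt W Pol X C := ⟨D, hD, F, h1, h2, t⟩
  have h4 := h3.unique hPol (hW _) (hI _) (hC X)
  subst h4
  exact ⟨F, t⟩

/-- Hard Lefschetz for the grading by the weights. -/
lemma wgr_hardLef {D : X.Cycles} (hD : D ∈ Pol X) :
    HardLef (wgr W Cs X) X.dim (Lop W X D) := by
  obtain ⟨F, t⟩ := exists_F hPol hW hI hC hD
  intro i hi
  have hinj : ∀ a ∈ wgr W Cs X i, (Lop W X D ^ (X.dim - i)) a = 0 → a = 0 := by
    intro a ha h0
    have h1 := wgr_weight ha
    refine f_pow_inj t.neg_swap (c := X.dim - i) ?_ (neg_pow_zero h0)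
    rw [LinearMap.neg_apply, h1, ← neg_smul]
    congr 1
    rw [Nat.cast_sub hi]
    ring
  refine ⟨hinj, ?_⟩
  set U := wgr W Cs X (2 * X.dim - i) with hU
  set m := X.dim - i with hm
  have hF : ∀ b ∈ U, (F ^ m) b ∈ wgr W Cs X i := by
    intro b hb
    apply weight_wgr
    rw [h_fpow t (wgr_weight hb)]
    congr 1
    rw [Nat.cast_sub (by omega : i ≤ 2 * X.dim), hm, Nat.cast_sub hi]
    push_cast
    ring
  have hL : ∀ a ∈ wgr W Cs X i, (Lop W X D ^ m) a ∈ U := by
    intro a ha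
    apply weight_wgr
    rw [h_epow t (wgr_weight ha)]
    congr 1
    rw [Nat.cast_sub (by omega : i ≤ 2 * X.dim), hm, Nat.cast_sub hi]
    push_cast
    ring
  have hst : ∀ b ∈ U, (Lop W X D ^ m * F ^ m) b ∈ U := fun b hb => hL _ (hF b hb)
  have hinjE : Function.Injective ((Lop W X D ^ m * F ^ m).restrict hst) := by
    rw [← LinearMap.ker_eq_bot, LinearMap.ker_eq_bot']
    rintro ⟨b, hb⟩ h0
    have h1 : (Lop W X D ^ m) ((F ^ m) b) = 0 := congrArg Subtype.val h0
    have h2 := hinj _ (hF b hb) h1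
    refine Subtype.ext (f_pow_inj t (c := m) ?_ h2)
    rw [wgr_weight hb]
    congr 1
    rw [Nat.cast_sub (by omega : i ≤ 2 * X.dim), hm, Nat.cast_sub hi]
    push_cast
    ring
  intro b hb
  obtain ⟨⟨y, hy⟩, hye⟩ := (LinearMap.injective_iff_surjective.1 hinjE) ⟨b, hb⟩
  exact ⟨(F ^ m) y, hF y hy, congrArg Subtype.val hye⟩

/-- The projectors of the grading by the weights are algebraic. -/
lemma wgr_projector (i : ℕ) : ∃ P, (X.prod X).IsCyc X.dim P ∧
    IsProjector (wgr W Cs X) i (W.corr (W.cl (X.prod X) P)) := by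
  have hN := Tt_node hPol hC (X := X)
  have hT : ROp W X 0 (Tt W Cs X) := by
    have := rop_opAlg.add (hC X).rop (rop_opAlg.smul (X.dim : ℚ) rop_opAlg.one)
    rwa [Rat.cast_natCast] at this
  by_cases hi : i < 2 * X.dim + 1
  · obtain ⟨z, hz, hz'⟩ := exists_of_rop (p := X.dim) (by simp)
      (rop_opAlg.ev hT (lp X.dim i))
    refine ⟨z, hz, fun j a ha => ?_⟩
    rw [hz']
    have ha' := mem_wgr.1 ha
    change pr (Tt W Cs X) X.dim i a = _
    split_ifs with hj
    · subst hj
      exact pr_same hi ha'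
    · by_cases h0 : a = 0
      · rw [h0, map_zero]
      obtain ⟨l, hl, hl2⟩ := eig_lt hN ha' h0
      have : j = l := by exact_mod_cast hl2
      subst this
      exact pr_ne (Ne.symm hj) hl ha'
  · refine ⟨0, SmVar.IsCyc.zero _ _, fun j a ha => ?_⟩
    rw [map_zero, corr_zero, LinearMap.zero_apply]
    split_ifs with hj
    · subst hj
      have ha' := mem_wgr.1 ha
      by_contra h0
      obtain ⟨l, hl, hl2⟩ := eig_lt hN ha' (Ne.symm h0)
      have : j = l := by exact_mod_cast hl2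
      omega
    · rfl

end


/-- **The conjectures A, B, C, D for the theory graded by the weights.** -/
theorem allLefschetz_new (hPol : IsPolSystem ops Pol) (hW : ∀ X, HomEqNum W X)
    (hI : ∀ X, ∀ D ∈ Pol X, NumLefschetz ops X D) (hC : ∀ X, IsWt W Pol X (Cs X))
    (hpp : ∀ X, par (W.isInternal X) = pp (Tt W Cs X) X.dim) :
    AllLefschetz (newTheory W Cs hPol hW hI hC hpp) Pol := by
  have hnum : ∀ X, HomEqNum (newTheory W Cs hPol hW hI hC hpp) X := fun X => hW X
  intro X
  refine ⟨fun i => wgr_projector hPol hW hI hC i, hnum X, fun D hD => ?_⟩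
  have hDc := hPol.isCyc X D hD
  have hHL : HardLefschetz (newTheory W Cs hPol hW hI hC hpp) X D :=
    wgr_hardLef hPol hW hI hC hD
  exact ⟨hHL, lefschetzB_of_inverts hDc hHL fun i hi => exists_inverts hDc (hnum _) hi
    (inj_of_lefschetzIn ((hardLefschetz_iff hDc).1 hHL i hi))⟩

/-! ### The converse -/

lemma numLefschetz_of_hard (hW : HomEqNum W X) {D : X.Cycles} (hD : X.IsCyc 1 D)
    (hHL : HardLefschetz W X D) : NumLefschetz ops X D := by
  intro j hj z hz h0
  have hmem := divPow_mem (ops := ops) hD hz (X.dim - 2 * j)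
  rw [show j + (X.dim - 2 * j) = X.dim - j by omega] at hmem
  have h1 := cl_of_numericallyZero hW hmem h0
  apply numericallyZero_of_cl (W := W) hz
  rw [Ho.cl_divPow] at h1
  obtain ⟨h2, -⟩ := hHL (2 * j) hj
  exact h2 _ (W.cl_mem hz) h1

/-- A top projector for hard Lefschetz lives in a single degree. -/
lemma par_mul_top {L E G : Module.End W.K (W.H X)} (hHL : HardLef (W.gr X) X.dim L) {k : ℕ}
    (hE : IsHom (W.gr X) 0 E) (hG : IsHom (W.gr X) (2 * -(k : ℤ)) G) (h1 : L * E = 0)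
    (h2 : E = L ^ k * G) (h3 : E * L ^ (k + 1) = 0) (hL : IsHom (W.gr X) 2 L) :
    par (W.isInternal X) * E = ((-1 : W.K) ^ (X.dim + k)) • E := by
  have hEa : ∀ j a, a ∈ W.gr X j → E a ∈ W.gr X j := by
    intro j a ha
    have := hE (j : ℕ) a (by rw [grZ_natCast]; exact ha)
    rwa [add_zero, grZ_natCast] at this
  apply gr_ext (W.isInternal X)
  intro j a ha
  rw [Module.End.mul_apply, par_gr (hEa j a ha), LinearMap.smul_apply]
  by_cases hj : j = X.dim + k
  · rw [hj]
  have h0 : E a = 0 := by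
    have hLE : L (E a) = 0 := congrArg (fun A => A a) h1
    rcases lt_or_ge j X.dim with hj1 | hj1
    · refine (hHL j hj1.le).1 _ (hEa j a ha) ?_
      obtain ⟨m, hm⟩ : ∃ m, X.dim - j = m + 1 := ⟨X.dim - j - 1, by omega⟩
      rw [hm, pow_succ, Module.End.mul_apply, hLE, map_zero]
    rcases lt_or_ge j (X.dim + k) with hj2 | hj2
    · -- `m < k`
      have hGa : G a ∈ grZ (W.gr X) ((j : ℤ) + 2 * -(k : ℤ)) :=
        hG (j : ℕ) a (by rw [grZ_natCast]; exact ha)
      have hEG : E a = (L ^ k) (G a) := by rw [h2]; rfl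
      suffices hG0 : G a = 0 by rw [hEG, hG0, map_zero]
      rcases lt_or_ge j (2 * k) with hj3 | hj3
      · rw [grZ_of_neg (by omega)] at hGa
        exact (Submodule.mem_bot _).1 hGa
      · rw [show (j : ℤ) + 2 * -(k : ℤ) = ((j - 2 * k : ℕ) : ℤ) by omega, grZ_natCast] at hGa
        refine (hHL (j - 2 * k) (by omega)).1 _ hGa ?_
        obtain ⟨m, hm⟩ : ∃ m, X.dim - (j - 2 * k) = m + (k + 1) :=
          ⟨X.dim - (j - 2 * k) - (k + 1), by omega⟩
        rw [hm, pow_add, Module.End.mul_apply, pow_succ', Module.End.mul_apply, ← hEG, hLE,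
          map_zero]
    · -- `m > k`
      rcases lt_or_ge (2 * X.dim) j with hj3 | hj3
      · rw [W.gr_eq_bot X _ hj3] at ha
        rw [(Submodule.mem_bot _).1 ha, map_zero]
      · obtain ⟨-, hs⟩ := hHL (2 * X.dim - j) (by omega)
        obtain ⟨b, -, hb⟩ := hs a (by
          rwa [show 2 * X.dim - (2 * X.dim - j) = j by omega])
        obtain ⟨m, hm⟩ : ∃ m, X.dim - (2 * X.dim - j) = (k + 1) + m :=
          ⟨X.dim - (2 * X.dim - j) - (k + 1), by omega⟩
        rw [← hb, hm, pow_add, Module.End.mul_apply]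
        exact congrArg (fun A => A ((L ^ m) b)) h3
  rw [h0, smul_zero, smul_zero]

theorem numRank_of_hard (hW2 : HomEqNum W (X.prod X)) {D : X.Cycles}
    (hD : X.IsCyc 1 D) (hHL : HardLefschetz W X D) : NumRank ops X D := by
  intro k hk e he
  obtain ⟨he1, hne, hidem, hleft, ⟨g, hg, hge⟩, hright⟩ := he
  have hdim : (X.prod X).dim = X.dim + X.dim := rfl
  have hD2 : (X.prod X).IsCyc 1 (ops.pull (snd X X) D) := ops.pull_mem _ hD
  have hD1 : (X.prod X).IsCyc 1 (ops.pull (fst X X) D) := ops.pull_mem _ hD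
  set L : Module.End W.K (W.H X) := Lop W X D with hL
  set E := W.corr (W.cl (X.prod X) e) with hE
  set G := W.corr (W.cl (X.prod X) g) with hG
  have hEr : ROp W X 0 E := H447.rop_corr (by simp) he1
  have hGr : ROp W X (-(k : ℤ)) G := H447.rop_corr (by omega) hg
  have h1 : L * E = 0 := by
    have h4 := cl_of_numericallyZero hW2 (by rw [add_comm]; exact ops.mul_mem hD2 he1) hleft
    have h5 := congrArg W.corr h4
    rw [W.cl_mul, W.cl_pull, corr_snd _ _ (W.cl_mem hD), corr_zero] at h5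
    exact h5
  have h2 : E = L ^ k * G := by
    have h4 := cl_of_numericallyEq hW2 he1 (by
      have := divPow_mem (ops := ops) hD2 hg k
      rwa [show X.dim - k + k = X.dim by omega] at this) hge
    have h5 := congrArg W.corr h4
    rw [Ho.cl_divPow] at h5
    have h7 : ∀ m : ℕ, W.corr ((Lop W (X.prod X) (ops.pull (snd X X) D) ^ m)
        (W.cl (X.prod X) g)) = L ^ m * W.corr (W.cl (X.prod X) g) := by
      intro m
      induction m with
      | zero => rw [pow_zero, pow_zero, one_mul]; rfl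
      | succ m ih =>
        rw [pow_succ', Module.End.mul_apply, LinearMap.mulLeft_apply, W.cl_pull,
          corr_snd _ _ (W.cl_mem hD), ih, pow_succ', mul_assoc]
    rw [h7] at h5
    exact h5
  have h3 : E * L ^ (k + 1) = 0 := by
    have h4 := cl_of_numericallyZero hW2 (divPow_mem (ops := ops) hD1 he1 (k + 1)) hright
    have h5 := congrArg W.corr h4
    rw [Ho.cl_divPow] at h5
    have h7 : ∀ m : ℕ, W.corr ((Lop W (X.prod X) (ops.pull (fst X X) D) ^ m)
        (W.cl (X.prod X) e)) = W.corr (W.cl (X.prod X) e) * L ^ m := by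
      intro m
      induction m with
      | zero => rw [pow_zero, pow_zero, mul_one]; rfl
      | succ m ih =>
        rw [pow_succ', Module.End.mul_apply, LinearMap.mulLeft_apply, W.cl_pull,
          corr_fst _ _ (W.cl_mem hD), ih, pow_succ, mul_assoc]
    rw [h7, corr_zero] at h5
    exact h5
  have h6 : E * E = E := by
    have h4 := cl_of_numericallyEq hW2 (compCyc_mem he1 he1 rfl) he1 hidem
    have h5 := congrArg W.corr h4
    rw [corr_compCyc W he1] at h5
    exact h5
  have hE0 : E ≠ 0 := by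
    intro h0
    exact hne (numericallyZero_of_cl (W := W) he1 (corr_inj h0))
  have h7 := par_mul_top hHL (rop_opAlg.hom hEr) (rop_opAlg.hom hGr) h1 h2 h3
    (rop_opAlg.hom (rop_mulLeft hD))
  have h8 : LinearMap.trace W.K (W.H X) E =
      (Module.finrank W.K (LinearMap.range E) : W.K) :=
    LinearMap.IsProj.trace (LinearMap.isProj_range_iff_isIdempotentElem _ |>.2 h6)
  have h9 : 0 < Module.finrank W.K (LinearMap.range E) := by
    rw [Module.finrank_pos_iff]
    by_contra hcon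
    rw [not_nontrivial_iff_subsingleton, Submodule.subsingleton_iff_eq_bot,
      LinearMap.range_eq_bot] at hcon
    exact hE0 hcon
  set r := Module.finrank W.K (LinearMap.range E) with hr
  have h10 : LinearMap.trace W.K (W.H X) (par (W.isInternal X) * E) =
      ((X.V.degCycle (ops.pull (diag X) e) : ℚ) : W.K) := by
    rw [hE, trace_par_corr, ← cl_pull, tr_cl _ (ops.pull_mem _ he1)]
  rw [h7, map_smul, h8, smul_eq_mul] at h10
  have h11 : ((-1 : ℚ) ^ (X.dim + k) * r) = X.V.degCycle (ops.pull (diag X) e) := by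
    have : (((-1 : ℚ) ^ (X.dim + k) * r : ℚ) : W.K) =
        ((X.V.degCycle (ops.pull (diag X) e) : ℚ) : W.K) := by
      rw [← h10]
      push_cast
      ring
    exact_mod_cast this
  rw [← h11, ← mul_assoc, ← mul_pow]
  have h14 : (0 : ℚ) < r := by exact_mod_cast h9
  simpa using h14

/-- **Main theorem.** -/
theorem main (hPol : IsPolSystem ops Pol) (hP : ∃ P : 𝒱.Obj, P.dim = 0) :
    [(∃ W : WeilCohomology.{u, max (u + 1) v} ops, SignAll W) ∧
        ∀ X, ∀ D ∈ Pol X, NumLefschetz ops X D ∧ NumRank ops X D,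
      ∃ W : WeilCohomology.{u, max (u + 1) v} ops, HomEqNumAll W ∧ HardLefschetzFor W Pol,
      ∃ W : WeilCohomology.{u, max (u + 1) v} ops, AllLefschetz W Pol].TFAE := by
  tfae_have 1 → 3 := by
    rintro ⟨⟨W, hsign⟩, hI⟩
    obtain ⟨P, hP⟩ := hP
    have hdeg : ∀ X : 𝒱.Obj, ∃ z, X.IsCyc X.dim z ∧ X.V.degCycle z ≠ 0 := by
      intro X
      obtain ⟨D, hD⟩ := hPol.nonempty X
      have h1 := divPow_mem (ops := ops) (hPol.isCyc X D hD) X.V.fundCycle_mem X.dim
      rw [zero_add] at h1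
      exact ⟨_, h1, (hPol.degree_pos X D hD).ne'⟩
    obtain ⟨𝒟⟩ := exists_sys W hsign hP
    obtain ⟨𝒰, h𝒰⟩ := exists_ultra (W := W) hdeg P
    have hnum := fun X => homEqNum_star.{u, max (u + 1) v} (𝒟 := 𝒟) h𝒰 X
    have hpar : ∀ X, ROp (Ex.star.{u, max (u + 1) v} 𝒟 h𝒰) X 0
        (par ((Ex.star.{u, max (u + 1) v} 𝒟 h𝒰).isInternal X)) := fun X =>
      par_rop_of_sign (sign_star h𝒰 (signStd_of_alg (hsign X)))
    have hex : ∀ X, ∃ C, IsWt (Ex.star.{u, max (u + 1) v} 𝒟 h𝒰) Pol X C := by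
      intro X
      obtain ⟨D, hD⟩ := hPol.nonempty X
      obtain ⟨C, F, h1, h2, t⟩ := exists_triple (hnum _) (hPol.isCyc X D hD)
      exact ⟨C, D, hD, F, h1, h2, t⟩
    choose Cs hC using hex
    have hI1 : ∀ X, ∀ D ∈ Pol X, NumLefschetz ops X D := fun X D hD => (hI X D hD).1
    have hpp : ∀ X, par ((Ex.star.{u, max (u + 1) v} 𝒟 h𝒰).isInternal X) =
        pp (Tt _ Cs X) X.dim := fun X =>
      IsWt.par_eq hPol (hnum _) (hI1 _) (hC X) (fun D hD => (hI X D hD).2) (hpar X)
    exact ⟨_, allLefschetz_new hPol hnum hI1 hC hpp⟩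
  tfae_have 3 → 2 := by
    rintro ⟨W, hW⟩
    exact ⟨W, fun X => (hW X).2.1, fun X D hD => ((hW X).2.2 D hD).1⟩
  tfae_have 2 → 1 := by
    rintro ⟨W, hW, hHL⟩
    refine ⟨⟨W, fun X => ?_⟩, fun X D hD => ?_⟩
    · obtain ⟨D, hD⟩ := hPol.nonempty X
      have hDc := hPol.isCyc X D hD
      exact sign_of_inverts hDc fun i hi => exists_inverts hDc (hW _) hi
        (inj_of_lefschetzIn ((hardLefschetz_iff hDc).1 (hHL X D hD) i hi))
    · have hDc := hPol.isCyc X D hD
      exact ⟨numLefschetz_of_hard (hW X) hDc (hHL X D hD),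
        numRank_of_hard (hW _) hDc (hHL X D hD)⟩
  tfae_finish

end Pool.Agent.H843.Le
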