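import Pool.Agent.H843.StarDefs
import Pool.Graph.R_seed8.H914R2.KDefs

/-!
# Numerical Lefschetz conditions: definitions
-/

open CategoryTheory AlgebraicGeometry

universe u v

namespace Pool.Agent.H843

open Pool.Agent.H914 Pool.Agent.H914.VarClass Pool.Agent.H914.VarClass.Obj
  Pool.Agent.H914.WeilCohomology

variable {k : Type u} [Field k] {𝒱 : VarClass k}

/-- The cycle `z` of codimension `p` on `X` is numerically equivalent to zero: all its
intersection numbers with cycles of the complementary codimension vanish. -/
def NumericallyZero (ops : CycleOps 𝒱) (X : 𝒱.Obj) (p : ℕ) (z : X.Cycles) : Prop :=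
  ∀ q w, p + q = X.dim → X.IsCyc q w → X.V.degCycle (ops.mul z w) = 0

/-- The cycles `z` and `z'` of codimension `p` on `X` are numerically equivalent: they have the
same intersection numbers with all cycles of the complementary codimension. -/
def NumericallyEq (ops : CycleOps 𝒱) (X : 𝒱.Obj) (p : ℕ) (z z' : X.Cycles) : Prop :=
  ∀ q w, p + q = X.dim → X.IsCyc q w → X.V.degCycle (ops.mul z w) = X.V.degCycle (ops.mul z' w)

/-- The numerical form of the conjecture A for the variety `X` of dimension `n` and the divisor
`D`: for `2 j ≤ n` and every cycle `z` of codimension `j`, if `D ^ (n - 2 j) · z` is numerically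
equivalent to zero, then `z` is. (The spaces of the cycles of codimension `j` and of codimension
`n - j` modulo numerical equivalence have the same dimension, which is finite if there is a Weil
cohomology theory; so multiplication with `D ^ (n - 2 j)` is then an isomorphism.) -/
def NumLefschetz (ops : CycleOps 𝒱) (X : 𝒱.Obj) (D : X.Cycles) : Prop :=
  ∀ j, 2 * j ≤ X.dim → ∀ z, X.IsCyc j z →
    NumericallyZero ops X (X.dim - j) (divPow ops D (X.dim - 2 * j) z) →
      NumericallyZero ops X j z

/-- The correspondence `e`, a cycle of codimension `n = dim X` on `X × X`, is numerically a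
projector onto classes which are of highest weight `k` for the product with `D`: modulo numerical
equivalence `e` is not zero, `e ∘ e = e`, `D · e = 0`, `e = D ^ k · g` for a cycle `g`, and
`e · D ^ (k + 1) = 0`. Here the products with `D` on the left and on the right are the products
with the divisors `X × D` and `D × X` (the compositions with the product with `D`). -/
structure IsTopProjector (ops : CycleOps 𝒱) (X : 𝒱.Obj) (D : X.Cycles) (k : ℕ)
    (e : (X.prod X).Cycles) : Prop where
  isCyc : (X.prod X).IsCyc X.dim e
  ne_zero : ¬ NumericallyZero ops (X.prod X) X.dim e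
  idem : NumericallyEq ops (X.prod X) X.dim (compCyc ops e e) e
  left : NumericallyZero ops (X.prod X) (X.dim + 1) (ops.mul (ops.pull (snd X X) D) e)
  range : ∃ g, (X.prod X).IsCyc (X.dim - k) g ∧
    NumericallyEq ops (X.prod X) X.dim e (divPow ops (ops.pull (snd X X) D) k g)
  right : NumericallyZero ops (X.prod X) (X.dim + (k + 1))
    (divPow ops (ops.pull (fst X X) D) (k + 1) e)

/-- The condition on the signs of ranks, for the variety `X` of dimension `n` and the divisor `D`:
the intersection number with the diagonal of a projector onto classes of highest weight `k` has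
the sign `(-1) ^ (n + k)`. -/
def NumRank (ops : CycleOps 𝒱) (X : 𝒱.Obj) (D : X.Cycles) : Prop :=
  ∀ k ≤ X.dim, ∀ e, IsTopProjector ops X D k e →
    0 < (-1 : ℚ) ^ (X.dim + k) * X.V.degCycle (ops.pull (diag X) e)

variable {ops : CycleOps 𝒱}

/-- The Weil cohomology theory `W` satisfies the conjectures C and D for all varieties of the
class, and hard Lefschetz and the conjecture B for all varieties `X` of the class and all divisors
in `Pol X`. -/
def AllLefschetz (W : WeilCohomology.{u, v} ops) (Pol : ∀ X : 𝒱.Obj, Set X.Cycles) : Prop :=
  ∀ X : 𝒱.Obj, KunnethStd W X ∧ HomEqNum W X ∧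
    ∀ D ∈ Pol X, HardLefschetz W X D ∧ LefschetzB W X D

end Pool.Agent.H843
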