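import Mathlib

/-!
# Large commutative subfields of a division algebra
-/

set_option autoImplicit false

namespace Pool.Agent.H843.Nd

open Module Polynomial TensorProduct

section Div

variable {D : Type*} [DivisionRing D] [Algebra ℚ D] [Module.Finite ℚ D]

lemma inv_mem (L : Subalgebra ℚ D) {a : D} (ha : a ∈ L) : a⁻¹ ∈ L := by
  by_cases h0 : a = 0
  · rw [h0, inv_zero]; exact L.zero_mem
  let f : L →ₗ[ℚ] L := LinearMap.mulLeft ℚ (⟨a, ha⟩ : L)
  have hf : Function.Injective f := by
    rw [injective_iff_map_eq_zero]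
    intro x hx
    have h1 : a * (x : D) = 0 := congrArg Subtype.val hx
    exact Subtype.ext ((mul_eq_zero.1 h1).resolve_left h0)
  obtain ⟨b, hb⟩ := (LinearMap.injective_iff_surjective.1 hf) 1
  have h1 : a * (b : D) = 1 := congrArg Subtype.val hb
  rw [inv_eq_of_mul_eq_one_right h1]
  exact b.2

/-- A commutative subalgebra of a division algebra is a field. -/
@[reducible] noncomputable def fieldOf (L : Subalgebra ℚ D)
    (hL : ∀ a ∈ L, ∀ b ∈ L, a * b = b * a) : Field L :=
  { (inferInstance : Ring L) with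
    mul_comm := fun a b => Subtype.ext (hL a a.2 b b.2)
    inv := fun a => ⟨(a : D)⁻¹, inv_mem L a.2⟩
    exists_pair_ne := ⟨0, 1, fun h => zero_ne_one (α := D) (congrArg Subtype.val h)⟩
    mul_inv_cancel := fun a ha => Subtype.ext (mul_inv_cancel₀ (fun h => ha (Subtype.ext h)))
    inv_zero := Subtype.ext inv_zero
    nnqsmul := _
    nnqsmul_def := fun _ _ => rfl
    qsmul := _
    qsmul_def := fun _ _ => rfl }

lemma finrank_le_sq (L : Subalgebra ℚ D) (hL : ∀ a ∈ L, ∀ b ∈ L, a * b = b * a)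
    (hmax : ∀ y, (∀ a ∈ L, a * y = y * a) → y ∈ L) :
    finrank ℚ D ≤ finrank ℚ L ^ 2 := by
  classical
  let _ : Field L := fieldOf L hL
  let Φ : L ⊗[ℚ] Dᵐᵒᵖ →ₐ[ℚ] Module.End ℚ D :=
    (AlgHom.mulLeftRight ℚ D).comp (Algebra.TensorProduct.map L.val (AlgHom.id ℚ _))
  have hΦ : ∀ (l : L) (d x : D), Φ (l ⊗ₜ MulOpposite.op d) x = l * x * d := by
    intro l d x
    simp [Φ]
  let R := Φ.range
  have hact : ∀ (r : R) (x : D), r • x = (r : Module.End ℚ D) x := fun _ _ => rfl
  have hright : ∀ d : D, ∃ r : R, ∀ x : D, r • x = x * d := fun d =>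
    ⟨⟨Φ ((1 : L) ⊗ₜ MulOpposite.op d), ⟨_, rfl⟩⟩, fun x => by
      rw [hact]
      change Φ ((1 : L) ⊗ₜ MulOpposite.op d) x = _
      rw [hΦ]; simp⟩
  have hleft : ∀ l : L, ∃ r : R, ∀ x : D, r • x = l * x := fun l =>
    ⟨⟨Φ (l ⊗ₜ MulOpposite.op 1), ⟨_, rfl⟩⟩, fun x => by
      rw [hact]
      change Φ (l ⊗ₜ MulOpposite.op 1) x = _
      rw [hΦ]; simp⟩
  have hsimple : IsSimpleModule R D := by
    rw [isSimpleModule_iff_toSpanSingleton_surjective]
    refine ⟨inferInstance, fun x hx y => ?_⟩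
    obtain ⟨r, hr⟩ := hright (x⁻¹ * y)
    refine ⟨r, ?_⟩
    rw [LinearMap.toSpanSingleton_apply, hr, ← mul_assoc, mul_inv_cancel₀ hx, one_mul]
  -- endomorphisms are left multiplications
  have hend : ∀ φ : Module.End R D, ∃ c : L, ∀ x, φ x = c * x := by
    intro φ
    have h1 : ∀ x, φ x = φ 1 * x := by
      intro x
      obtain ⟨r, hr⟩ := hright x
      have := φ.map_smul r 1
      rw [hr, hr, one_mul] at this
      exact this
    refine ⟨⟨φ 1, hmax _ fun a ha => ?_⟩, h1⟩
    obtain ⟨r, hr⟩ := hleft ⟨a, ha⟩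
    have := φ.map_smul r 1
    rw [hr, hr, mul_one] at this
    change φ a = a * φ 1 at this
    rw [← this, h1 a]
  -- L-linear maps belong to R
  have hcom : ∀ f : D →ₗ[L] D, f.restrictScalars ℚ ∈ R := by
    intro f
    let F : Module.End (Module.End R D) D :=
      { toFun := f
        map_add' := f.map_add
        map_smul' := fun φ x => by
          obtain ⟨c, hc⟩ := hend φ
          rw [Module.End.smul_def, hc, RingHom.id_apply, Module.End.smul_def, hc]
          exact f.map_smul c x }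
    let b := Module.finBasis ℚ D
    obtain ⟨r, hr⟩ := jacobson_density (R := R) (M := D) F (Finset.univ.image b)
    have h2 : f.restrictScalars ℚ = (r : Module.End ℚ D) := by
      apply b.ext
      intro i
      exact hr (b i) (Finset.mem_image_of_mem _ (Finset.mem_univ i))
    rw [h2]
    exact r.2
  have e1 : finrank ℚ (D →ₗ[L] D) ≤ finrank ℚ R := by
    let ψ : (D →ₗ[L] D) →ₗ[ℚ] R :=
      { toFun := fun f => ⟨f.restrictScalars ℚ, hcom f⟩
        map_add' := fun f g => rfl
        map_smul' := fun q f => rfl }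
    apply LinearMap.finrank_le_finrank_of_injective (f := ψ)
    intro f g h
    apply LinearMap.ext
    intro x
    exact congrArg (fun r : R => (r : Module.End ℚ D) x) h
  have e2 : finrank ℚ R ≤ finrank ℚ L * finrank ℚ D := by
    have h1 : finrank ℚ R ≤ finrank ℚ (L ⊗[ℚ] Dᵐᵒᵖ) := LinearMap.finrank_range_le Φ.toLinearMap
    rwa [Module.finrank_tensorProduct,
      ← (MulOpposite.opLinearEquiv ℚ : D ≃ₗ[ℚ] Dᵐᵒᵖ).finrank_eq] at h1
  have e3 : finrank ℚ L * finrank L D = finrank ℚ D := Module.finrank_mul_finrank ℚ L D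
  have hfin : Module.Finite L D := Module.Finite.of_restrictScalars_finite ℚ L D
  have e4 : finrank ℚ L * finrank L (D →ₗ[L] D) = finrank ℚ (D →ₗ[L] D) :=
    Module.finrank_mul_finrank ℚ L _
  rw [Module.finrank_linearMap] at e4
  set g := finrank ℚ L
  set n := finrank L D
  have hg : 0 < g := Module.finrank_pos
  have hn : 0 < n := Module.finrank_pos
  have h5 : g * (n * n) ≤ g * (g * n) := by
    rw [e4, e3]
    exact e1.trans e2
  have h6 : n * n ≤ g * n := Nat.le_of_mul_le_mul_left h5 hg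
  have h7 : n ≤ g := Nat.le_of_mul_le_mul_right h6 hn
  rw [← e3, sq]
  exact Nat.mul_le_mul_left _ h7

lemma exists_max_comm : ∃ L : Subalgebra ℚ D, (∀ a ∈ L, ∀ b ∈ L, a * b = b * a) ∧
    ∀ y, (∀ a ∈ L, a * y = y * a) → y ∈ L := by
  classical
  let P : ℕ → Prop := fun n => ∃ L : Subalgebra ℚ D, (∀ a ∈ L, ∀ b ∈ L, a * b = b * a) ∧
    finrank ℚ L = n
  have h0 : P (finrank ℚ (⊥ : Subalgebra ℚ D)) := by
    refine ⟨⊥, ?_, rfl⟩
    rintro a ⟨x, rfl⟩ b -
    exact Algebra.commutes x b
  have hle : ∀ L : Subalgebra ℚ D, finrank ℚ L ≤ finrank ℚ D := fun L =>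
    Submodule.finrank_le (Subalgebra.toSubmodule L)
  obtain ⟨L, hL, hn⟩ := Nat.findGreatest_spec (P := P) (hle _) h0
  refine ⟨L, hL, fun y hy => ?_⟩
  let L' := Algebra.adjoin ℚ ((L : Set D) ∪ {y})
  have hcomm : ∀ a ∈ L', ∀ b ∈ L', a * b = b * a := by
    intro a ha b hb
    apply Algebra.commute_of_mem_adjoin_of_forall_mem_commute hb
    intro c hc
    refine (Algebra.commute_of_mem_adjoin_of_forall_mem_commute ha fun d hd => ?_).symm
    rcases hc with hc | hc <;> rcases hd with hd | hd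
    · exact hL c hc d hd
    · rw [Set.mem_singleton_iff] at hd
      subst hd
      exact hy c hc
    · rw [Set.mem_singleton_iff] at hc
      subst hc
      exact (hy d hd).symm
    · rw [Set.mem_singleton_iff] at hc hd
      subst hc
      rw [hd]
  have hLL : L ≤ L' := fun x hx => Algebra.subset_adjoin (Or.inl hx)
  have h1 : finrank ℚ L' ≤ finrank ℚ L := by
    rw [hn]
    exact Nat.le_findGreatest (hle _) ⟨L', hcomm, rfl⟩
  have h2 : Subalgebra.toSubmodule L = Subalgebra.toSubmodule L' :=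
    Submodule.eq_of_le_of_finrank_le hLL h1
  have h3 : y ∈ Subalgebra.toSubmodule L' := Algebra.subset_adjoin (Or.inr rfl)
  rw [← h2] at h3
  exact h3

/-- **An element of large degree.** -/
theorem exists_elt (D : Type*) [DivisionRing D] [Algebra ℚ D] [Module.Finite ℚ D] :
    ∃ y : D, finrank ℚ D ≤ (minpoly ℚ y).natDegree ^ 2 := by
  obtain ⟨L, hL, hmax⟩ := exists_max_comm (D := D)
  have h1 := finrank_le_sq L hL hmax
  let _ : Field L := fieldOf L hL
  obtain ⟨y, hy⟩ := Field.exists_primitive_element ℚ L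
  rw [Field.primitive_element_iff_minpoly_natDegree_eq] at hy
  refine ⟨y, ?_⟩
  have h2 : minpoly ℚ (y : D) = minpoly ℚ y :=
    minpoly.algHom_eq L.val Subtype.val_injective y
  rw [h2, hy]
  exact h1

end Div

end Pool.Agent.H843.Nd
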