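import Pool.Agent.H843.Nd9

/-!
# The numerical dimension of the powers and the rank of the correspondences
-/

open CategoryTheory AlgebraicGeometry Filter Topology

set_option autoImplicit false
set_option linter.unusedSectionVars false

universe u v

namespace Pool.Agent.H843.Nd

open Module
open Pool.Agent.H914 Pool.Agent.H914.VarClass Pool.Agent.H914.VarClass.Obj
  Pool.Agent.H914.WeilCohomology Pool.Agent.Y133.Half Pool.Agent.H447 Pool.Agent.Q55.Rate
  Pool.Agent.Q55.Lr Pool.Agent.Q57.ND Pool.Agent.W534 Pool.Agent.Q55.Hs Pool.Agent.Q55.Fin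
open scoped TensorProduct

section lin

/-- A two-sided ideal of a semisimple ring is generated by a central idempotent. -/
lemma ideal_central {B : Type*} [Ring B] [IsSemisimpleRing B] (I : Ideal B)
    (hr : ∀ x ∈ I, ∀ b, x * b ∈ I) :
    ∃ f ∈ I, f * f = f ∧ (∀ b, b * f = f * b) ∧ ∀ x ∈ I, x * f = x := by
  obtain ⟨f, hf, hI⟩ := IsSemisimpleRing.ideal_eq_span_idempotent I
  have hff : f * f = f := hf
  have hfI : f ∈ I := by rw [hI]; exact Ideal.subset_span rfl
  have h1 : ∀ x ∈ I, x * f = x := by
    intro x hx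
    rw [hI, Ideal.mem_span_singleton'] at hx
    obtain ⟨a, rfl⟩ := hx
    rw [mul_assoc, hff]
  refine ⟨f, hfI, hff, fun b => ?_, h1⟩
  have h2 : ∀ b, f * b * f = f * b := fun b => h1 _ (hr f hfI b)
  -- `y = b f - f b f` generates a nilpotent left ideal
  set y := b * f - f * b * f with hy
  have h3 : ∀ a, y * a * y = 0 := by
    intro a
    have e1 : y = y * f := by rw [hy, sub_mul, mul_assoc b, hff, mul_assoc (f * b), hff]
    have e2 : f * (a * y) = 0 := by
      have e3 : f * (a * (b * f)) = f * (a * b) := by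
        rw [← h2 (a * b)]; simp only [mul_assoc]
      have e4 : f * (a * (f * b * f)) = f * (a * b) := by
        have e5 : f * a * f = f * a := h2 a
        calc f * (a * (f * b * f)) = (f * a * f) * b * f := by simp only [mul_assoc]
          _ = f * (a * b) * f := by rw [e5]; simp only [mul_assoc]
          _ = _ := h2 _
      rw [hy, mul_sub, mul_sub, e3, e4, sub_self]
    rw [mul_assoc, e1, mul_assoc, ← e1, e2, mul_zero]
  obtain ⟨e, he, hI'⟩ := IsSemisimpleRing.ideal_eq_span_idempotent (Ideal.span {y})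
  have hee : e * e = e := he
  have h4 : e ∈ Ideal.span {y} := by rw [hI']; exact Ideal.subset_span rfl
  obtain ⟨a, ha⟩ := Ideal.mem_span_singleton'.1 h4
  have h5 : e = 0 := by
    rw [← hee, ← ha]
    calc a * y * (a * y) = a * (y * a * y) := by simp only [mul_assoc]
      _ = 0 := by rw [h3, mul_zero]
  have h6 : y ∈ Ideal.span {e} := by rw [← hI']; exact Ideal.subset_span rfl
  obtain ⟨c, hc⟩ := Ideal.mem_span_singleton'.1 h6
  rw [h5, mul_zero] at hc
  rw [hy] at hc
  rw [← h2 b]
  exact sub_eq_zero.1 hc.symm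

lemma exists_central {K V : Type*} [Field K] [AddCommGroup V] [Module K V]
    (B : Subalgebra K (Module.End K V)) [IsSemisimpleRing B] (J : Submodule K (Module.End K V))
    (hl : ∀ b ∈ B, ∀ x ∈ J, b * x ∈ J) (hr : ∀ x ∈ J, ∀ b ∈ B, x * b ∈ J) :
    ∃ h ∈ B, h * h = h ∧ (∀ b ∈ B, b * h = h * b) ∧ 1 - h ∈ J ∧ ∀ x ∈ B, x ∈ J → x * h = 0 := by
  let I : Ideal B :=
    { carrier := {x | (x : Module.End K V) ∈ J}
      add_mem' := fun ha hb => Submodule.add_mem _ ha hb
      zero_mem' := Submodule.zero_mem _
      smul_mem' := fun b x hx => hl b b.2 x hx }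
  obtain ⟨f, hf, hff, hc, h1⟩ := ideal_central I fun x hx b => hr x hx b b.2
  have hf' : (f : Module.End K V) ∈ J := hf
  have hff' : (f : Module.End K V) * f = f := congrArg Subtype.val hff
  refine ⟨1 - f, Subalgebra.sub_mem _ (Subalgebra.one_mem _) f.2, ?_, fun b hb => ?_, ?_,
    fun x hx hx' => ?_⟩
  · rw [mul_sub, sub_mul, one_mul, mul_one, sub_mul, one_mul, hff']
    abel
  · have := congrArg Subtype.val (hc ⟨b, hb⟩)
    change b * (f : Module.End K V) = f * b at this
    rw [mul_sub, sub_mul, mul_one, one_mul, this]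
  · rw [sub_sub_cancel]; exact hf'
  · have := congrArg Subtype.val (h1 ⟨x, hx⟩ hx')
    change x * (f : Module.End K V) = x at this
    rw [mul_sub, mul_one, this, sub_self]

variable {K M ι : Type*} [Field K] [AddCommGroup M] [Module K M] [FiniteDimensional K M]
  [Fintype ι] [DecidableEq ι] {N : ℕ}

theorem span_idem_closed [IsAlgClosed K] [CharZero K] (e : Basis (Fin N → ι) K M)
    (ρ : Equiv.Perm (Fin N) →* Module.End K M)
    (hP : ∀ σ w, ∃ s : K, s ≠ 0 ∧ ρ σ (e (w ∘ σ)) = s • e w) {h : Module.End K M}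
    (hh : h * h = h) (hc : ∀ σ, ρ σ * h = h * ρ σ) :
    finrank K (LinearMap.range h) ^ 2 ≤
      finrank K (Submodule.span K (Set.range fun σ => ρ σ * h)) *
        (N + 1) ^ (Fintype.card ι ^ 2) := by
  set R := LinearMap.range h with hR
  have hmem : ∀ x : R, h x = x := by
    rintro ⟨_, y, rfl⟩
    exact LinearMap.congr_fun hh y
  have hst : ∀ (u : Module.End K M), u * h = h * u → ∀ x ∈ R, u x ∈ R := by
    rintro u hu _ ⟨y, rfl⟩
    exact ⟨u y, (LinearMap.congr_fun hu y).symm⟩
  let ρ' : Equiv.Perm (Fin N) →* Module.End K R :=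
    { toFun := fun σ => (ρ σ).restrict (hst _ (hc σ))
      map_one' := by
        apply LinearMap.ext
        intro x
        apply Subtype.ext
        change ρ 1 (x : M) = x
        rw [map_one]; rfl
      map_mul' := fun σ τ => by
        apply LinearMap.ext
        intro x
        apply Subtype.ext
        change ρ (σ * τ) (x : M) = ρ σ (ρ τ (x : M))
        rw [map_mul]; rfl }
  have hρ' : ∀ σ (x : R), ((ρ' σ x : R) : M) = ρ σ x := fun _ _ => rfl
  let D : Submodule K (Module.End K M) :=
    { carrier := {u | ∀ σ m, u (ρ σ m) = ρ σ (u m)}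
      zero_mem' := fun σ m => by rw [LinearMap.zero_apply, LinearMap.zero_apply, map_zero]
      add_mem' := fun {a b} ha hb σ m => by
        rw [LinearMap.add_apply, LinearMap.add_apply, ha σ m, hb σ m, map_add]
      smul_mem' := fun c a ha σ m => by
        rw [LinearMap.smul_apply, LinearMap.smul_apply, ha σ m, map_smul] }
  let D' : Submodule K (Module.End K R) :=
    { carrier := {u | ∀ σ m, u (ρ' σ m) = ρ' σ (u m)}
      zero_mem' := fun σ m => by rw [LinearMap.zero_apply, LinearMap.zero_apply, map_zero]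
      add_mem' := fun {a b} ha hb σ m => by
        rw [LinearMap.add_apply, LinearMap.add_apply, ha σ m, hb σ m, map_add]
      smul_mem' := fun c a ha σ m => by
        rw [LinearMap.smul_apply, LinearMap.smul_apply, ha σ m, map_smul] }
  have h1 := commutant_le e (fun σ => ρ σ) hP D fun u hu σ m => hu σ m
  have h2 := sq_le_mul_commutant K (repAlg ρ') R D' fun u hu σ m => hu ⟨_, rep_mem ρ' σ⟩ m
  -- the commutants
  let π : M →ₗ[K] R := h.rangeRestrict
  let ext : Module.End K R →ₗ[K] Module.End K M :=
    { toFun := fun u => R.subtype ∘ₗ u ∘ₗ π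
      map_add' := fun a b => by rw [LinearMap.add_comp, LinearMap.comp_add]
      map_smul' := fun c a => by rw [LinearMap.smul_comp, LinearMap.comp_smul]; rfl }
  have hext : ∀ u x, ext u x = (u (π x) : M) := fun _ _ => rfl
  have hπ : ∀ x : R, π (x : M) = x := fun x => Subtype.ext (hmem x)
  have hinj : Function.Injective ext := by
    rw [injective_iff_map_eq_zero]
    intro u hu
    apply LinearMap.ext
    intro x
    apply Subtype.ext
    have := LinearMap.congr_fun hu (x : M)
    rw [hext, hπ] at this
    exact this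
  have h3 : finrank K D' ≤ finrank K D := by
    have h4 : D'.map ext ≤ D := by
      rintro _ ⟨u, hu, rfl⟩
      intro σ m
      rw [hext, hext]
      have e1 : π (ρ σ m) = ρ' σ (π m) := by
        apply Subtype.ext
        exact (LinearMap.congr_fun (hc σ) m).symm
      rw [e1]
      have := hu σ (π m)
      rw [this]
      rfl
    rw [(Submodule.equivMapOfInjective ext hinj D').finrank_eq]
    exact Submodule.finrank_mono h4
  have h6 : finrank K (repAlg ρ') ≤
      finrank K (Submodule.span K (Set.range fun σ => ρ σ * h)) := by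
    let res : Module.End K M →ₗ[K] Module.End K R :=
      { toFun := fun u => π ∘ₗ u ∘ₗ R.subtype
        map_add' := fun a b => by rw [LinearMap.add_comp, LinearMap.comp_add]
        map_smul' := fun c a => by rw [LinearMap.smul_comp, LinearMap.comp_smul]; rfl }
    have h7 : Subalgebra.toSubmodule (repAlg ρ') ≤
        (Submodule.span K (Set.range fun σ => ρ σ * h)).map res := by
      refine (repAlg_le ρ').trans ?_
      rw [Submodule.span_le]
      rintro _ ⟨σ, rfl⟩
      refine ⟨ρ σ * h, Submodule.subset_span ⟨σ, rfl⟩, ?_⟩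
      apply LinearMap.ext
      intro x
      apply Subtype.ext
      change h (ρ σ (h (x : M))) = ρ σ x
      rw [hmem]
      exact hmem (ρ' σ x)
    exact (Submodule.finrank_mono h7).trans (Submodule.finrank_map_le _ _)
  exact h2.trans (Nat.mul_le_mul h6 (h3.trans h1))

/-- **The rank of a central idempotent of the algebra spanned by the permutations.** -/
theorem span_idem [CharZero K] (e : Basis (Fin N → ι) K M)
    (ρ : Equiv.Perm (Fin N) →* Module.End K M)
    (hP : ∀ σ w, ∃ s : K, s ≠ 0 ∧ ρ σ (e (w ∘ σ)) = s • e w) {h : Module.End K M}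
    (hh : h * h = h) (hc : ∀ σ, ρ σ * h = h * ρ σ) :
    finrank K (LinearMap.range h) ^ 2 ≤
      finrank K (Submodule.span K (Set.range fun σ => ρ σ * h)) *
        (N + 1) ^ (Fintype.card ι ^ 2) := by
  have hchar : CharZero (AlgebraicClosure K) :=
    charZero_of_injective_algebraMap (algebraMap K (AlgebraicClosure K)).injective
  let ρ' : Equiv.Perm (Fin N) →* Module.End (AlgebraicClosure K) (AlgebraicClosure K ⊗[K] M) :=
    { toFun := fun σ => (ρ σ).baseChange (AlgebraicClosure K)
      map_one' := by rw [map_one, LinearMap.baseChange_one]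
      map_mul' := fun σ τ => by rw [map_mul, LinearMap.baseChange_mul] }
  set h' := h.baseChange (AlgebraicClosure K) with hh'
  have hidem : h' * h' = h' := by rw [hh', ← LinearMap.baseChange_mul, hh]
  have hcomm : ∀ σ, ρ' σ * h' = h' * ρ' σ := fun σ => by
    change (ρ σ).baseChange (AlgebraicClosure K) * _ = _ * (ρ σ).baseChange (AlgebraicClosure K)
    rw [hh', ← LinearMap.baseChange_mul, hc, LinearMap.baseChange_mul]
  have h0 := span_idem_closed (e.baseChange (AlgebraicClosure K)) ρ' (by
    intro σ w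
    obtain ⟨s, hs, h⟩ := hP σ w
    refine ⟨algebraMap K _ s, (map_ne_zero _).2 hs, ?_⟩
    rw [Basis.baseChange_apply, Basis.baseChange_apply]
    change (ρ σ).baseChange (AlgebraicClosure K) _ = _
    rw [LinearMap.baseChange_tmul, h, TensorProduct.tmul_smul, algebraMap_smul]) hidem hcomm
  have h1 := finrank_span_bc (AlgebraicClosure K) (Set.range fun σ => ρ σ * h)
  have h2 : (fun u : Module.End K M => u.baseChange (AlgebraicClosure K)) ''
      (Set.range fun σ => ρ σ * h) = Set.range fun σ => ρ' σ * h' := by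
    rw [← Set.range_comp]
    congr 1
    funext σ
    exact LinearMap.baseChange_mul _ _
  rw [h2] at h1
  have h3 : finrank (AlgebraicClosure K) (LinearMap.range h') = finrank K (LinearMap.range h) := by
    have a1 := trace_idem (K := AlgebraicClosure K) (f := h') hidem
    have a2 := trace_idem (K := K) (f := h) hh
    rw [hh', LinearMap.trace_baseChange, a2, map_natCast] at a1
    exact_mod_cast a1.symm
  rw [h3] at h0
  exact h0.trans (Nat.mul_le_mul_right _ h1)

end lin

variable {k : Type u} [Field k] {𝒱 : VarClass k} {ops : CycleOps 𝒱}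

/-- **The numerical dimension of a power is bounded in terms of the rank of the correspondences
modulo numerical equivalence.** -/
theorem dim_sq_le (W : WeilCohomology.{u, v} ops) (X : 𝒱.Obj) (n : ℕ) :
    numericalDim ops (pw X n) ^ 2 ≤
      numRank ops ((pw X n).prod (pw X n)) (pw X n).dim * (n + 2) ^ (totalBetti W X ^ 2) := by
  classical
  set P := pw X n with hP
  set ρ := rho W X n with hρ
  have hrep := repAlg_le ρ
  have hspan : Submodule.span W.K (Set.range ρ) ≤ KOp W P P 0 := by
    rw [Submodule.span_le]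
    rintro _ ⟨σ, rfl⟩
    exact Pool.Agent.Y163.map_mem_KOp _
  have hkop : ∀ u ∈ repAlg ρ, u ∈ KOp W P P 0 := fun u hu => hspan (hrep hu)
  have hop : ∀ u ∈ repAlg ρ, u ∈ (algSys W).Op P P := fun u hu => kop_op W (hkop u hu)
  obtain ⟨h, hh, hhh, hcen, hn, hz⟩ := exists_central (repAlg ρ) ((algSys W).NOp P P)
    (fun b hb x hx => Sys.NOp.comp_left (hop b hb) hx)
    (fun x hx b hb => Sys.NOp.comp_right hx (hop b hb))
  have h1 := dim_le_rank (hop h hh) hhh hn
  obtain ⟨e, he⟩ := Pool.Agent.Y133.Half.exists_hbasis W X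
  have h2 := span_idem (Pool.Agent.Y133.Half.wb e n) ρ (Pool.Agent.Y133.Half.tau_wb e he n) hhh
    fun σ => hcen _ (rep_mem ρ σ)
  rw [Fintype.card_fin] at h2
  set M₀ := Submodule.span W.K (Set.range fun σ => ρ σ * h) with hM₀
  have hM₁ : M₀ ≤ Subalgebra.toSubmodule (repAlg ρ) := by
    rw [hM₀, Submodule.span_le]
    rintro _ ⟨σ, rfl⟩
    exact Subalgebra.mul_mem _ (rep_mem ρ σ) hh
  have hM₂ : ∀ x ∈ M₀, x * h = x := by
    intro x hx
    induction hx using Submodule.span_induction with
    | mem x hx =>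
      obtain ⟨σ, rfl⟩ := hx
      change ρ σ * h * h = ρ σ * h
      rw [mul_assoc, hhh]
    | zero => rw [zero_mul]
    | add x y _ _ hx hy => rw [add_mul, hx, hy]
    | smul a x _ hx => rw [smul_mul_assoc, hx]
  have h3 := finrank_le_numRank W M₀ (fun x hx => hkop x (hM₁ hx)) (by
    rw [eq_bot_iff]
    rintro x ⟨hx, hx'⟩
    rw [Submodule.mem_bot, ← hM₂ x hx]
    exact hz x (hM₁ hx) hx')
  calc numericalDim ops P ^ 2 ≤ finrank W.K (LinearMap.range h) ^ 2 := Nat.pow_le_pow_left h1 2
    _ ≤ finrank W.K M₀ * (n + 2) ^ (totalBetti W X ^ 2) := h2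
    _ ≤ _ := Nat.mul_le_mul_right _ h3

end Pool.Agent.H843.Nd
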