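import Pool.Agent.H843.Nd10

/-!
# The sign conjecture, the nilpotence of the numerically trivial correspondences and the
multiplicativity of the numerical dimension
-/

open CategoryTheory AlgebraicGeometry Filter Topology

set_option autoImplicit false
set_option linter.unusedSectionVars false

universe u v v'

namespace Pool.Agent.H843.Nd

open Module
open Pool.Agent.H914 Pool.Agent.H914.VarClass Pool.Agent.H914.VarClass.Obj
  Pool.Agent.H914.WeilCohomology Pool.Agent.Y133.Half Pool.Agent.H447 Pool.Agent.Q55.Rate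
  Pool.Agent.Q55.Lr Pool.Agent.Q57.ND Pool.Agent.W534 Pool.Agent.Q55.Hs Pool.Agent.Q55.Fin

lemma log_bound {b m : ℕ} (hb : 3 ≤ b) (hm : b ^ 4 ≤ m) :
    (b : ℝ) ^ 3 * Real.log (m + 1) < 4 * m := by
  set s : ℝ := Real.sqrt (Real.sqrt m) with hs
  have hs4 : s ^ 4 = m := by
    have h1 : s ^ 4 = (s ^ 2) ^ 2 := by ring
    rw [h1, hs, Real.sq_sqrt (Real.sqrt_nonneg _), Real.sq_sqrt (Nat.cast_nonneg _)]
  have hs0 : 0 ≤ s := Real.sqrt_nonneg _
  have hbs : (b : ℝ) ≤ s := by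
    have h1 : ((b : ℝ)) ^ 4 ≤ s ^ 4 := by rw [hs4]; exact_mod_cast hm
    exact le_of_pow_le_pow_left₀ (by norm_num) hs0 h1
  have hb3 : (3 : ℝ) ≤ b := by exact_mod_cast hb
  have hs3 : (3 : ℝ) ≤ s := hb3.trans hbs
  have h2 : Real.log (m + 1) < 4 * s := by
    have h3 : (m : ℝ) + 1 ≤ (s + 1) ^ 4 := by
      rw [← hs4]
      nlinarith [pow_nonneg hs0 3, pow_nonneg hs0 2]
    have h4 : Real.log (m + 1) ≤ Real.log ((s + 1) ^ 4) :=
      Real.log_le_log (by positivity) h3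
    rw [Real.log_pow] at h4
    have h5 : Real.log (s + 1) < s := by
      have := Real.log_lt_sub_one_of_pos (x := s + 1) (by positivity) (by linarith)
      linarith
    push_cast at h4
    linarith
  have h6 : (b : ℝ) ^ 3 ≤ s ^ 3 := pow_le_pow_left₀ (by linarith) hbs 3
  have h7 : (0 : ℝ) < (b : ℝ) ^ 3 := by positivity
  calc (b : ℝ) ^ 3 * Real.log (m + 1) < (b : ℝ) ^ 3 * (4 * s) := by
        exact mul_lt_mul_of_pos_left h2 h7
    _ ≤ s ^ 3 * (4 * s) := mul_le_mul_of_nonneg_right h6 (by linarith)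
    _ = 4 * m := by rw [← hs4]; ring

lemma pow_bound {b c m : ℕ} (hc : c + 2 ≤ b) (hm : b ^ 4 ≤ m) :
    c ^ (2 * m) * (m + 1) ^ (b ^ 2) < b ^ (2 * m) := by
  have hm0 : 0 < m := lt_of_lt_of_le (pow_pos (by omega : 0 < b) 4) hm
  rcases Nat.eq_zero_or_pos c with h0 | h0
  · rw [h0, zero_pow (by omega), zero_mul]
    exact pow_pos (by omega) _
  have hb3 : 3 ≤ b := by omega
  have hL := log_bound hb3 hm
  have hb0 : (0 : ℝ) < b := by exact_mod_cast (by omega : 0 < b)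
  have hc0 : (0 : ℝ) < c := by exact_mod_cast h0
  have hlog : Real.log c + 2 / b ≤ Real.log b := by
    have h1 : Real.log ((c : ℝ) / b) ≤ (c : ℝ) / b - 1 :=
      Real.log_le_sub_one_of_pos (by positivity)
    rw [Real.log_div hc0.ne' hb0.ne'] at h1
    have h2 : (c : ℝ) / b ≤ 1 - 2 / b := by
      rw [div_le_iff₀ hb0, sub_mul, div_mul_cancel₀ _ hb0.ne', one_mul]
      have : ((c : ℝ)) + 2 ≤ b := by exact_mod_cast hc
      linarith
    linarith
  have h3 : (b : ℝ) ^ 2 * Real.log (m + 1) < 2 * m * (2 / b) := by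
    have h4 : (2 : ℝ) * m * (2 / b) = 4 * m / b := by ring
    rw [h4, lt_div_iff₀ hb0]
    calc (b : ℝ) ^ 2 * Real.log (m + 1) * b = (b : ℝ) ^ 3 * Real.log (m + 1) := by ring
      _ < _ := hL
  have h5 : Real.log ((c : ℝ) ^ (2 * m) * ((m : ℝ) + 1) ^ (b ^ 2)) <
      Real.log ((b : ℝ) ^ (2 * m)) := by
    rw [Real.log_mul (by positivity) (by positivity), Real.log_pow, Real.log_pow, Real.log_pow]
    push_cast
    have h6 : (2 : ℝ) * m * (Real.log c + 2 / b) ≤ 2 * m * Real.log b :=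
      mul_le_mul_of_nonneg_left hlog (by positivity)
    linarith
  have h7 := (Real.log_lt_log_iff (by positivity) (by positivity)).1 h5
  exact_mod_cast h7

variable {k : Type u} [Field k] {𝒱 : VarClass k} {ops : CycleOps 𝒱}

/-- The rank of the group of correspondences of degree zero modulo numerical equivalence. -/
noncomputable def corrRank (ops : CycleOps 𝒱) (X : 𝒱.Obj) : ℕ := numRank ops (X.prod X) X.dim

lemma num_le_of_not (W : WeilCohomology.{u, v} ops) {X : 𝒱.Obj} (h : ¬ SignStd W X) :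
    numericalDim ops X + 2 ≤ totalBetti W X := by
  have h1 := dist_add_le W (X := X)
  have h2 : evenDist W X ≠ 0 := fun h0 => h (Pool.Agent.Q55.Lr.edist_eq_zero.1 h0)
  omega

lemma nilp_of_sign {W : WeilCohomology.{u, v} ops} {X : 𝒱.Obj} (h : SignStd W X) :
    NumTrivialNilpotent W X := by
  obtain ⟨ρ, h0, h1, h2⟩ := exists_cyc_rate W X
  obtain ⟨-, h3, -, h4⟩ := Pool.Agent.Q55.Rate.main h0 h1 h2 W
  exact (h3.out 0 1 rfl rfl).1 (h4 (Or.inl (Pool.Agent.Q55.Lr.signAlgebraic_iff.2 h)))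

/-- **The criterion on one power.** -/
theorem finite_tfae (W : WeilCohomology.{u, v} ops) (X : 𝒱.Obj) {n : ℕ}
    (hn : totalBetti W X ^ 4 ≤ n + 1) :
    List.TFAE [SignStd W X,
      AllNilpotent (IsNumTrivialOp W (pw X n)) ∧
        numericalDim ops (pw X n) = numericalDim ops X ^ (n + 1),
      AllNilpotent (IsNumTrivialOp W (pw X n)) ∧
        corrRank ops (pw X n) ≤ numericalDim ops X ^ (2 * (n + 1))] := by
  tfae_have 1 → 2 := by
    intro h
    refine ⟨nilp_of_sign h n, ?_⟩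
    rw [dim_pw_of_sign h n, (sign_iff W).1 h]
  tfae_have 2 → 3 := by
    rintro ⟨h1, h2⟩
    refine ⟨h1, (rank_le_sq W (pw X n)).trans (le_of_eq ?_)⟩
    rw [h2, ← pow_mul, mul_comm]
  tfae_have 3 → 1 := by
    rintro ⟨h1, h2⟩
    by_contra h
    have h3 := growth_rank W X n fun u hu => h1 u (isNumTrivialOp_iff.2 hu)
    have h4 := pow_bound (num_le_of_not W h) hn
    have h5 : totalBetti W X ^ (2 * (n + 1)) ≤
        numericalDim ops X ^ (2 * (n + 1)) * (n + 1 + 1) ^ (totalBetti W X ^ 2) :=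
      h3.trans (Nat.mul_le_mul_right _ h2)
    omega
  tfae_finish

lemma tendsto_poly (c : ℕ) :
    Tendsto (fun n : ℕ => ((n : ℝ) + 2) ^ ((c : ℝ) / (n + 1))) atTop (𝓝 1) := by
  have h1 := tendsto_rpow_div_mul_add (c : ℝ) 1 (-1) (by norm_num)
  have h2 : Tendsto (fun n : ℕ => (n : ℝ) + 2) atTop atTop :=
    tendsto_atTop_add_const_right _ _ tendsto_natCast_atTop_atTop
  refine (h1.comp h2).congr fun n => ?_
  change ((n : ℝ) + 2) ^ ((c : ℝ) / (1 * ((n : ℝ) + 2) + -1)) = _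
  congr 2
  ring

/-- **The growth of the rank of the correspondences.** -/
theorem tendsto_corrRank (W : WeilCohomology.{u, v} ops) (X : 𝒱.Obj) {ρ : ℝ}
    (ht : Tendsto (fun n : ℕ => (numericalDim ops (pw X n) : ℝ) ^ ((1 : ℝ) / (n + 1)))
      atTop (𝓝 ρ)) :
    Tendsto (fun n : ℕ => (corrRank ops (pw X n) : ℝ) ^ ((1 : ℝ) / (n + 1))) atTop
      (𝓝 (ρ ^ 2)) := by
  set N : ℕ → ℝ := fun n => (numericalDim ops (pw X n) : ℝ) with hN
  set R : ℕ → ℝ := fun n => (corrRank ops (pw X n) : ℝ) with hR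
  have hN0 : ∀ n, 0 ≤ N n := fun n => Nat.cast_nonneg _
  have hR0 : ∀ n, 0 ≤ R n := fun n => Nat.cast_nonneg _
  have h1 : ∀ n, R n ≤ N n ^ 2 := fun n => by
    have : corrRank ops (pw X n) ≤ numericalDim ops (pw X n) ^ 2 := rank_le_sq W (pw X n)
    change (corrRank ops (pw X n) : ℝ) ≤ (numericalDim ops (pw X n) : ℝ) ^ 2
    exact_mod_cast this
  have h2 : ∀ n : ℕ, N n ^ 2 ≤ R n * ((n : ℝ) + 2) ^ (totalBetti W X ^ 2) := fun n => by
    have : numericalDim ops (pw X n) ^ 2 ≤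
      corrRank ops (pw X n) * (n + 2) ^ (totalBetti W X ^ 2) := dim_sq_le W X n
    change (numericalDim ops (pw X n) : ℝ) ^ 2 ≤
      (corrRank ops (pw X n) : ℝ) * ((n : ℝ) + 2) ^ (totalBetti W X ^ 2)
    exact_mod_cast this
  have hsq : Tendsto (fun n : ℕ => (N n ^ ((1 : ℝ) / (n + 1))) ^ 2) atTop (𝓝 (ρ ^ 2)) :=
    ht.pow 2
  have e1 : ∀ n : ℕ, (N n ^ ((1 : ℝ) / (n + 1))) ^ 2 = (N n ^ 2) ^ ((1 : ℝ) / (n + 1)) := by
    intro n
    rw [← Real.rpow_natCast, ← Real.rpow_mul (hN0 n), ← Real.rpow_natCast (N n),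
      ← Real.rpow_mul (hN0 n), mul_comm]
  have hp := tendsto_poly (totalBetti W X ^ 2)
  have hlow : Tendsto (fun n : ℕ => (N n ^ ((1 : ℝ) / (n + 1))) ^ 2 /
      ((n : ℝ) + 2) ^ (((totalBetti W X ^ 2 : ℕ) : ℝ) / (n + 1))) atTop (𝓝 (ρ ^ 2)) := by
    have := hsq.div hp one_ne_zero
    rwa [div_one] at this
  refine tendsto_of_tendsto_of_tendsto_of_le_of_le hlow hsq (fun n => ?_) (fun n => ?_)
  · have hpos : (0 : ℝ) < (n : ℝ) + 2 := by positivity
    have e2 : ((n : ℝ) + 2) ^ (((totalBetti W X ^ 2 : ℕ) : ℝ) / (n + 1)) =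
        (((n : ℝ) + 2) ^ (totalBetti W X ^ 2)) ^ ((1 : ℝ) / (n + 1)) := by
      rw [← Real.rpow_natCast, ← Real.rpow_mul hpos.le]
      congr 1
      ring
    rw [div_le_iff₀ (Real.rpow_pos_of_pos hpos _), e1, e2,
      ← Real.mul_rpow (hR0 n) (by positivity)]
    exact Real.rpow_le_rpow (by positivity) (h2 n) (by positivity)
  · rw [e1]
    exact Real.rpow_le_rpow (hR0 n) (h1 n) (by positivity)

/-- The multiplicativity of the numerical dimension. -/
theorem mult_tfae (W : WeilCohomology.{u, v} ops) (X : 𝒱.Obj) {ρ : ℝ} (h0 : 0 ≤ ρ)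
    (ht : Tendsto (fun n : ℕ => (numericalDim ops (pw X n) : ℝ) ^ ((1 : ℝ) / (n + 1)))
      atTop (𝓝 ρ)) (hle : ∀ n, (numericalDim ops (pw X n) : ℝ) ≤ ρ ^ (n + 1)) :
    List.TFAE [(numericalDim ops X : ℝ) = ρ,
      ∀ n, numericalDim ops (pw X n) = numericalDim ops X ^ (n + 1),
      ∀ n, corrRank ops (pw X n) ≤ numericalDim ops X ^ (2 * (n + 1))] := by
  tfae_have 1 → 2 := by
    intro h n
    refine le_antisymm ?_ (dim_pow_le W X n)
    have := hle n
    rw [← h] at this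
    exact_mod_cast this
  tfae_have 2 → 3 := by
    intro h n
    refine (rank_le_sq W (pw X n)).trans (le_of_eq ?_)
    rw [h n, ← pow_mul, mul_comm]
  tfae_have 3 → 1 := by
    intro h
    have h1 := tendsto_corrRank W X ht
    have h2 : (numericalDim ops X : ℝ) ≤ ρ := by
      have := hle 0
      rwa [zero_add, pow_one] at this
    refine le_antisymm h2 ?_
    have h3 : ρ ^ 2 ≤ (numericalDim ops X : ℝ) ^ 2 := by
      refine le_of_tendsto' h1 fun n => ?_
      have h4 : (corrRank ops (pw X n) : ℝ) ≤ ((numericalDim ops X : ℝ) ^ 2) ^ ((n : ℝ) + 1) := by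
        have h5 := h n
        have h6 : ((numericalDim ops X : ℝ) ^ 2) ^ ((n : ℝ) + 1) =
            (numericalDim ops X : ℝ) ^ (2 * (n + 1)) := by
          have : ((n : ℝ) + 1) = ((n + 1 : ℕ) : ℝ) := by push_cast; rfl
          rw [this, Real.rpow_natCast, ← pow_mul]
        rw [h6]
        exact_mod_cast h5
      calc (corrRank ops (pw X n) : ℝ) ^ ((1 : ℝ) / (n + 1)) ≤
          (((numericalDim ops X : ℝ) ^ 2) ^ ((n : ℝ) + 1)) ^ ((1 : ℝ) / (n + 1)) :=
            Real.rpow_le_rpow (Nat.cast_nonneg _) h4 (by positivity)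
        _ = (numericalDim ops X : ℝ) ^ 2 := by
            rw [← Real.rpow_mul (by positivity)]
            have : ((n : ℝ) + 1) * (1 / ((n : ℝ) + 1)) = 1 := by field_simp
            rw [this, Real.rpow_one]
    exact (pow_le_pow_iff_left₀ h0 (Nat.cast_nonneg _) (by norm_num)).1 h3
  tfae_finish

/-- **The sign conjecture, nilpotence and multiplicativity.** -/
theorem main (W : WeilCohomology.{u, v} ops) (X : 𝒱.Obj) :
    (∀ Y, numericalDim ops X * numericalDim ops Y ≤ numericalDim ops (X.prod Y)) ∧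
    (∀ n, corrRank ops (pw X n) ≤ numericalDim ops (pw X n) ^ 2 ∧
      numericalDim ops (pw X n) ^ 2 ≤
        corrRank ops (pw X n) * (n + 2) ^ (totalBetti W X ^ 2)) ∧
    ∃ ρ : ℝ,
      Tendsto (fun n : ℕ => (numericalDim ops (pw X n) : ℝ) ^ ((1 : ℝ) / (n + 1)))
        atTop (𝓝 ρ) ∧
      Tendsto (fun n : ℕ => (corrRank ops (pw X n) : ℝ) ^ ((1 : ℝ) / (n + 1)))
        atTop (𝓝 (ρ ^ 2)) ∧
      List.TFAE [(numericalDim ops X : ℝ) = ρ,
        ∀ n, numericalDim ops (pw X n) = numericalDim ops X ^ (n + 1),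
        ∀ n, corrRank ops (pw X n) ≤ numericalDim ops X ^ (2 * (n + 1))] ∧
      ∀ W' : WeilCohomology.{u, v'} ops,
        (numericalDim ops X : ℝ) ≤ ρ ∧ ρ ≤ totalBetti W' X ∧
        (ρ = totalBetti W' X ↔ NumTrivialNilpotent W' X) ∧
        (SignStd W' X ↔ (numericalDim ops X : ℝ) = ρ ∧ NumTrivialNilpotent W' X) ∧
        ∀ n, totalBetti W' X ^ 4 ≤ n + 1 → List.TFAE [
          SignStd W' X,
          AllNilpotent (IsNumTrivialOp W' (pw X n)) ∧
            numericalDim ops (pw X n) = numericalDim ops X ^ (n + 1),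
          AllNilpotent (IsNumTrivialOp W' (pw X n)) ∧
            corrRank ops (pw X n) ≤ numericalDim ops X ^ (2 * (n + 1))] := by
  obtain ⟨ρ, h0, h1, h2⟩ := exists_dim_rate W X
  have h1' : Tendsto (fun n : ℕ => (numericalDim ops (pw X n) : ℝ) ^ ((1 : ℝ) / (n + 1)))
      atTop (𝓝 ρ) := h1
  have h3 : (numericalDim ops X : ℝ) ≤ ρ := by
    have := h2 0
    rwa [zero_add, pow_one] at this
  refine ⟨fun Y => dim_mul_le W X Y, fun n => ⟨rank_le_sq W _, dim_sq_le W X n⟩, ρ, h1',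
    tendsto_corrRank W X h1', mult_tfae W X h0 h1' h2, fun W' => ?_⟩
  have h4 : ρ ≤ totalBetti W' X :=
    rate_le (Nat.cast_nonneg _) h1 fun n => by exact_mod_cast dim_pw_le W' X n
  have h5 := dim_rate_iff W' X h0 h1 h2
  refine ⟨h3, h4, h5, ?_, fun n hn => finite_tfae W' X hn⟩
  rw [← h5, sign_iff W']
  constructor
  · intro h
    have h6 : (numericalDim ops X : ℝ) = totalBetti W' X := by exact_mod_cast h
    constructor <;> linarith
  · rintro ⟨h6, h7⟩
    have h8 : (numericalDim ops X : ℝ) = totalBetti W' X := h6.trans h7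
    exact_mod_cast h8

end Pool.Agent.H843.Nd
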