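import Pool.Agent.H843.Nd11

/-!
# The sign conjecture for all varieties
-/

open CategoryTheory AlgebraicGeometry Filter Topology

set_option autoImplicit false
set_option linter.unusedSectionVars false

universe u v v'

namespace Pool.Agent.H843.Nd

open Module
open Pool.Agent.H914 Pool.Agent.H914.VarClass Pool.Agent.H914.VarClass.Obj
  Pool.Agent.H914.WeilCohomology Pool.Agent.Y133.Half Pool.Agent.H447 Pool.Agent.Q55.Rate
  Pool.Agent.Q55.Lr Pool.Agent.Q57.ND Pool.Agent.W534 Pool.Agent.Q55.Hs Pool.Agent.Q55.Fin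

variable {k : Type u} [Field k] {𝒱 : VarClass k} {ops : CycleOps 𝒱}

lemma dim_two_pow (W : WeilCohomology.{u, v} ops)
    (h : ∀ X : 𝒱.Obj, numericalDim ops (X.prod X) = numericalDim ops X ^ 2) (X : 𝒱.Obj) (j : ℕ) :
    numericalDim ops (pw X (2 ^ j - 1)) = numericalDim ops X ^ (2 ^ j) := by
  induction j with
  | zero => rw [pow_zero, pow_one]; rfl
  | succ j ih =>
    have h0 : 0 < 2 ^ j := pow_pos (by norm_num) j
    have h1 : 2 ^ (j + 1) - 1 = (2 ^ j - 1) + (2 ^ j - 1) + 1 := by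
      rw [pow_succ]; omega
    rw [h1, ← dim_iso W (pwAdd X (2 ^ j - 1) (2 ^ j - 1)), h, ih, ← pow_mul, pow_succ]

/-- **The sign conjecture for all varieties.** -/
theorem global (W : WeilCohomology.{u, v} ops) :
    (∀ X, SignStd W X) ↔ (∀ X, AllNilpotent (IsNumTrivialOp W X)) ∧
      ∀ X : 𝒱.Obj, numericalDim ops (X.prod X) = numericalDim ops X ^ 2 := by
  constructor
  · intro h
    refine ⟨fun X => nilp_of_sign (h X) 0, fun X => ?_⟩
    have h3 : totalBetti W (X.prod X) = totalBetti W X * totalBetti W X :=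
      Pool.Agent.Y133.Half.finrank_prod X X
    rw [(sign_iff W).1 (h X), (sign_iff W).1 (h (X.prod X)), h3, sq]
  · rintro ⟨h1, h2⟩ X
    set b := totalBetti W X with hb
    have h3 : b ^ 4 ≤ 2 ^ (b ^ 4) - 1 + 1 := by
      have h4 : b ^ 4 < 2 ^ (b ^ 4) := Nat.lt_two_pow_self
      omega
    have h5 : 2 ^ (b ^ 4) - 1 + 1 = 2 ^ (b ^ 4) := by
      have : 0 < 2 ^ (b ^ 4) := pow_pos (by norm_num) _
      omega
    refine ((finite_tfae W X h3).out 0 1 rfl rfl).2 ⟨h1 _, ?_⟩
    rw [dim_two_pow W h2 X, h5]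

end Pool.Agent.H843.Nd
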