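import Mathlib

/-!
# Integrality of traces on the elements of a division algebra
-/

set_option autoImplicit false

namespace Pool.Agent.H843.Nd

open Module Polynomial

section

variable {E : Type*} [Field E] [Algebra ℚ E]

omit [Algebra ℚ E] in
lemma vander (S : Finset E) (c : E → E) (h : ∀ k : ℕ, ∑ a ∈ S, c a * a ^ k = 0) :
    ∀ a ∈ S, c a = 0 := by
  classical
  let f : Fin S.card → E := fun i => (S.equivFin.symm i : E)
  have hf : Function.Injective f := fun i j hij =>
    S.equivFin.symm.injective (Subtype.ext hij)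
  have h1 : (fun i => c (f i)) = 0 := by
    apply Matrix.eq_zero_of_forall_pow_sum_mul_pow_eq_zero hf
    intro i
    rw [← h i]
    rw [← Finset.sum_coe_sort S]
    exact Fintype.sum_equiv S.equivFin.symm _ _ fun j => rfl
  intro a ha
  have h2 := congrFun h1 (S.equivFin ⟨a, ha⟩)
  simpa [f] using h2

/-- **Integrality.** -/
theorem trace_one_mul [IsAlgClosed E] {D : Type*} [DivisionRing D] [Algebra ℚ D]
    [Module.Finite ℚ D] (t : D →ₗ[ℚ] ℚ) {y : D} (hy : y ≠ 0) (s : E →₀ ℤ)
    (hs : ∀ p : ℚ[X], p.eval 0 = 0 →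
      algebraMap ℚ E (t (aeval y p)) = s.sum fun a m => (m : E) * aeval a p) :
    ∃ c : ℤ, t 1 = c * (minpoly ℚ y).natDegree ∧ (c = 0 → t y = 0) := by
  classical
  have hint : IsIntegral ℚ y := Algebra.IsIntegral.isIntegral y
  set μ := minpoly ℚ y with hμ
  have hmonic : μ.Monic := minpoly.monic hint
  have hirr : Irreducible μ := minpoly.irreducible hint
  have hμ0 : μ.eval 0 ≠ 0 := by
    rw [← coeff_zero_eq_eval_zero]
    exact minpoly.coeff_zero_ne_zero hint hy
  -- the support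
  have hvan : ∀ a ∈ s.support, (s a : E) * (a * aeval a μ) = 0 := by
    apply vander s.support (fun a => (s a : E) * (a * aeval a μ))
    intro k
    have h1 := hs (X * μ * X ^ k) (by simp)
    have e : aeval y (X * μ * X ^ k) = 0 := by
      rw [map_mul, map_mul, minpoly.aeval, mul_zero, zero_mul]
    rw [e, map_zero, map_zero, Finsupp.sum] at h1
    refine Eq.trans ?_ h1.symm
    apply Finset.sum_congr rfl
    intro a _
    rw [map_mul, map_mul, aeval_X, map_pow, aeval_X]
    ring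
  have hval : ∀ r : ℚ[X], algebraMap ℚ E (t (aeval y r)) =
      ∑ a ∈ s.support.filter (fun a => aeval a μ = 0), (s a : E) * aeval a r := by
    intro r
    have h1 := hs (r * (1 - C (μ.eval 0)⁻¹ * μ)) (by simp [hμ0])
    have h2 : aeval y (r * (1 - C (μ.eval 0)⁻¹ * μ)) = aeval y r := by
      rw [map_mul, map_sub, map_mul, minpoly.aeval, mul_zero, map_one, sub_zero, mul_one]
    rw [h2] at h1
    rw [h1, Finsupp.sum, Finset.sum_filter]
    apply Finset.sum_congr rfl
    intro a ha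
    split_ifs with h
    · rw [map_mul, map_sub, map_mul, h, mul_zero, map_one, sub_zero, mul_one]
    · have h3 := hvan a ha
      rcases mul_eq_zero.1 h3 with h4 | h4
      · rw [h4, zero_mul]
      · rcases mul_eq_zero.1 h4 with h5 | h5
        · subst h5
          rw [map_mul, map_sub, map_mul, map_one, aeval_C]
          have h6 : aeval (0 : E) μ = algebraMap ℚ E (μ.eval 0) := by
            rw [aeval_def, eval₂_at_zero, coeff_zero_eq_eval_zero]
          rw [h6, ← map_mul, inv_mul_cancel₀ hμ0, map_one, sub_self, mul_zero, mul_zero]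
        · exact absurd h5 h
  -- the field
  have hfact : Fact (Irreducible μ) := ⟨hirr⟩
  let F := AdjoinRoot μ
  let pb := AdjoinRoot.powerBasis (f := μ) hmonic.ne_zero
  have hfin : FiniteDimensional ℚ F := pb.finite
  have hdim : finrank ℚ F = μ.natDegree := by
    rw [pb.finrank, AdjoinRoot.powerBasis_dim]
  let φ : F →ₗ[ℚ] ℚ := (t ∘ₗ (aeval y : ℚ[X] →ₐ[ℚ] D).toLinearMap) ∘ₗ
    AdjoinRoot.modByMonicHom hmonic
  have hφ : ∀ r : ℚ[X], φ (AdjoinRoot.mk μ r) = t (aeval y r) := by
    intro r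
    change t (aeval y (AdjoinRoot.modByMonicHom hmonic (AdjoinRoot.mk μ r))) = _
    rw [AdjoinRoot.modByMonicHom_mk, aeval_modByMonic_eq_self_of_root (minpoly.aeval ℚ y)]
  have hσ : ∀ (σ : F →ₐ[ℚ] E) (r : ℚ[X]), σ (AdjoinRoot.mk μ r) =
      aeval (σ (AdjoinRoot.root μ)) r := by
    intro σ r
    rw [← AdjoinRoot.aeval_eq, ← aeval_algHom_apply]
  have hσ0 : ∀ σ : F →ₐ[ℚ] E, aeval (σ (AdjoinRoot.root μ)) μ = 0 := by
    intro σ
    rw [← hσ, AdjoinRoot.mk_self, map_zero]
  have hinj : Function.Injective fun σ : F →ₐ[ℚ] E => σ (AdjoinRoot.root μ) :=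
    fun σ τ h => AdjoinRoot.algHom_ext h
  -- the functional in terms of the embeddings
  have hsum : ∀ z : F, algebraMap ℚ E (φ z) =
      ∑ σ : F →ₐ[ℚ] E, (s (σ (AdjoinRoot.root μ)) : E) * σ z := by
    intro z
    obtain ⟨r, rfl⟩ := AdjoinRoot.mk_surjective z
    rw [hφ, hval]
    have h1 : ∑ σ : F →ₐ[ℚ] E, (s (σ (AdjoinRoot.root μ)) : E) * σ (AdjoinRoot.mk μ r) =
        ∑ a ∈ Finset.univ.image (fun σ : F →ₐ[ℚ] E => σ (AdjoinRoot.root μ)),
          (s a : E) * aeval a r := by
      rw [Finset.sum_image fun σ _ τ _ h => hinj h]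
      exact Finset.sum_congr rfl fun σ _ => by rw [hσ]
    rw [h1]
    apply Finset.sum_subset
    · intro a ha
      rw [Finset.mem_filter] at ha
      rw [Finset.mem_image]
      have h2 : μ.eval₂ ((Algebra.ofId ℚ E : ℚ →ₐ[ℚ] E) : ℚ →+* E) a = 0 := ha.2
      exact ⟨AdjoinRoot.liftAlgHom μ (Algebra.ofId ℚ E) a h2, Finset.mem_univ _,
        AdjoinRoot.liftAlgHom_root μ _ _ _⟩
    · intro a ha hna
      obtain ⟨σ, -, rfl⟩ := Finset.mem_image.1 ha
      have h3 : s (σ (AdjoinRoot.root μ)) = 0 := by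
        by_contra hne
        exact hna (Finset.mem_filter.2 ⟨Finsupp.mem_support_iff.2 hne, hσ0 σ⟩)
      rw [h3, Int.cast_zero, zero_mul]
  have hnd := traceForm_nondegenerate ℚ F
  obtain ⟨θ, hθ⟩ := (LinearMap.BilinForm.toDual (Algebra.traceForm ℚ F) hnd).surjective φ
  have hθ' : ∀ z, φ z = Algebra.trace ℚ F (θ * z) := by
    intro z
    rw [← hθ, LinearMap.BilinForm.toDual_def, Algebra.traceForm_apply]
  have hlin := linearIndependent_toLinearMap ℚ F E
  rw [Fintype.linearIndependent_iff] at hlin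
  have hcoef : ∀ σ : F →ₐ[ℚ] E, σ θ = (s (σ (AdjoinRoot.root μ)) : E) := by
    intro σ
    have h1 := hlin (fun σ => σ θ - (s (σ (AdjoinRoot.root μ)) : E)) (by
      apply LinearMap.ext
      intro z
      rw [LinearMap.sum_apply, LinearMap.zero_apply]
      simp only [LinearMap.smul_apply, AlgHom.toLinearMap_apply, smul_eq_mul, sub_mul]
      rw [Finset.sum_sub_distrib, ← hsum, hθ', trace_eq_sum_embeddings E]
      simp only [map_mul, sub_self]) σ
    exact sub_eq_zero.1 h1
  obtain ⟨σ₀⟩ : Nonempty (F →ₐ[ℚ] E) := ⟨IsAlgClosed.lift⟩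
  have hc : θ = ((s (σ₀ (AdjoinRoot.root μ)) : ℤ) : F) := by
    apply σ₀.toRingHom.injective
    change σ₀ θ = σ₀ _
    rw [hcoef, map_intCast]
  set c := s (σ₀ (AdjoinRoot.root μ)) with hcdef
  have hc' : ∀ z, φ z = c * Algebra.trace ℚ F z := by
    intro z
    rw [hθ', hc]
    have : ((c : ℤ) : F) * z = (c : ℚ) • z := by
      rw [Int.cast_smul_eq_zsmul, zsmul_eq_mul]
    rw [this, map_smul, smul_eq_mul]
  refine ⟨c, ?_, ?_⟩
  · have h1 := hc' 1
    have h2 : φ 1 = t 1 := by
      have := hφ 1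
      rwa [map_one (AdjoinRoot.mk μ), map_one (aeval y : ℚ[X] →ₐ[ℚ] D)] at this
    have h3 : Algebra.trace ℚ F 1 = μ.natDegree := by
      have := Algebra.trace_algebraMap (S := F) (1 : ℚ)
      rw [map_one] at this
      rw [this, hdim, nsmul_eq_mul, mul_one]
    rw [← h2, h1, h3]
  · intro h0
    have h1 := hc' (AdjoinRoot.mk μ X)
    rw [hφ, aeval_X, h0, Int.cast_zero, zero_mul] at h1
    exact h1

end

end Pool.Agent.H843.Nd
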