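import Pool.Agent.H843.Nd1
import Pool.Agent.H843.Nd2

/-!
# Involutions of large trace in a semisimple algebra with an integral trace
-/

set_option autoImplicit false
set_option linter.unusedSectionVars false

namespace Pool.Agent.H843.Nd

open Module Polynomial

section

/-- The traces of the polynomials in an element are sums of their values with integral
multiplicities. -/
def HasTraces (E : Type*) [Field E] [Algebra ℚ E] {R : Type*} [Ring R] [Algebra ℚ R]
    (t : R →ₗ[ℚ] ℚ) : Prop :=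
  ∀ x : R, ∃ s : E →₀ ℤ, ∀ p : ℚ[X],
    algebraMap ℚ E (t (aeval x p)) = s.sum fun a m => (m : E) * aeval a p

variable {E : Type*} [Field E] [Algebra ℚ E]

lemma trace_nilpotent {R : Type*} [Ring R] [Algebra ℚ R] {t : R →ₗ[ℚ] ℚ}
    (hE : HasTraces E t) {x : R} (hx : IsNilpotent x) : t x = 0 := by
  obtain ⟨s, hs⟩ := hE x
  obtain ⟨N, hN⟩ := hx
  have hvan : ∀ a ∈ s.support, (s a : E) * a ^ N = 0 := by
    apply vander s.support (fun a => (s a : E) * a ^ N)
    intro k
    have h1 := hs (X ^ N * X ^ k)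
    have e : aeval x (X ^ N * X ^ k : ℚ[X]) = 0 := by
      rw [map_mul, map_pow, aeval_X, hN, zero_mul]
    rw [e, map_zero, map_zero, Finsupp.sum] at h1
    refine Eq.trans ?_ h1.symm
    apply Finset.sum_congr rfl
    intro a _
    rw [map_mul, map_pow, map_pow, aeval_X]
    ring
  have h2 := hs X
  rw [aeval_X, Finsupp.sum] at h2
  have h3 : ∑ a ∈ s.support, (s a : E) * aeval a (X : ℚ[X]) = 0 := by
    apply Finset.sum_eq_zero
    intro a ha
    rw [aeval_X]
    rcases mul_eq_zero.1 (hvan a ha) with h | h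
    · rw [h, zero_mul]
    · rw [eq_zero_of_pow_eq_zero h, mul_zero]
  rw [h3] at h2
  exact (algebraMap ℚ E).injective (h2.trans (map_zero _).symm)

lemma isSemisimple {A : Type*} [Ring A] [Algebra ℚ A] [Module.Finite ℚ A] {t : A →ₗ[ℚ] ℚ}
    (hE : HasTraces E t) (hnd : ∀ a, (∀ b, t (a * b) = 0) → a = 0) : IsSemisimpleRing A := by
  have : IsArtinianRing A := IsArtinianRing.of_finite ℚ A
  rw [IsArtinianRing.isSemisimpleRing_iff_jacobson, eq_bot_iff]
  intro a ha
  rw [Ideal.mem_bot]
  apply hnd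
  intro b
  apply trace_nilpotent hE
  obtain ⟨n, hn⟩ := IsSemiprimaryRing.isNilpotent (R := A)
  refine ⟨n, ?_⟩
  have h1 : a * b ∈ Ring.jacobson A := Ideal.mul_mem_right _ _ ha
  have h2 := Ideal.pow_mem_pow h1 n
  rw [hn] at h2
  exact h2

section blocks

variable {N : ℕ} {D : Fin N → Type*} [∀ i, DivisionRing (D i)] [∀ i, Algebra ℚ (D i)]
  {d : Fin N → ℕ}

/-- Matrix units. -/
noncomputable def unit (i : Fin N) (k l : Fin (d i)) (y : D i) :
    ∀ i, Matrix (Fin (d i)) (Fin (d i)) (D i) :=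
  Pi.single i (Matrix.single k l y)

lemma unit_mul (i : Fin N) (k l m : Fin (d i)) (y z : D i) :
    (unit i k l y : ∀ i, Matrix (Fin (d i)) (Fin (d i)) (D i)) * unit i l m z =
      unit i k m (y * z) := by
  rw [unit, unit, unit, ← Pi.single_mul, Matrix.single_mul_single_same]

lemma unit_mul_ne (i : Fin N) {k l l' m : Fin (d i)} (h : l ≠ l') (y z : D i) :
    (unit i k l y : ∀ i, Matrix (Fin (d i)) (Fin (d i)) (D i)) * unit i l' m z = 0 := by
  rw [unit, unit, ← Pi.single_mul, Matrix.single_mul_single_of_ne _ _ _ _ h, Pi.single_zero]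

lemma unit_add (i : Fin N) (k l : Fin (d i)) (y z : D i) :
    (unit i k l (y + z) : ∀ i, Matrix (Fin (d i)) (Fin (d i)) (D i)) =
      unit i k l y + unit i k l z := by
  rw [unit, unit, unit, Matrix.single_add, Pi.single_add]

lemma unit_smul (i : Fin N) (k l : Fin (d i)) (q : ℚ) (y : D i) :
    (unit i k l (q • y) : ∀ i, Matrix (Fin (d i)) (Fin (d i)) (D i)) =
      q • unit i k l y := by
  have h1 : (Matrix.single k l (q • y) : Matrix (Fin (d i)) (Fin (d i)) (D i)) =
      q • Matrix.single k l y := by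
    ext a b
    rw [Matrix.smul_apply, Matrix.single_apply, Matrix.single_apply]
    split_ifs
    · rfl
    · exact (by rw [Algebra.smul_def, mul_zero])
  rw [unit, unit, h1]
  funext j
  rw [Pi.smul_apply]
  by_cases hj : j = i
  · subst hj
    rw [Pi.single_eq_same, Pi.single_eq_same]
  · rw [Pi.single_eq_of_ne hj, Pi.single_eq_of_ne hj, smul_zero]

/-- The matrix units as a linear map. -/
noncomputable def unitL (i : Fin N) (k l : Fin (d i)) :
    D i →ₗ[ℚ] (∀ i, Matrix (Fin (d i)) (Fin (d i)) (D i)) where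
  toFun := unit i k l
  map_add' := unit_add i k l
  map_smul' := unit_smul i k l

lemma eq_sum_unit (M : ∀ i, Matrix (Fin (d i)) (Fin (d i)) (D i)) :
    M = ∑ i, ∑ k, ∑ l, unit i k l (M i k l) := by
  classical
  conv_lhs => rw [← Finset.univ_sum_single M]
  apply Finset.sum_congr rfl
  intro i _
  conv_lhs => rw [Matrix.matrix_eq_sum_single (M i)]
  have h : ∀ s : Matrix (Fin (d i)) (Fin (d i)) (D i), (Pi.single i s :
      ∀ i, Matrix (Fin (d i)) (Fin (d i)) (D i)) = AddMonoidHom.single _ i s := fun _ => rfl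
  rw [h, map_sum]
  apply Finset.sum_congr rfl
  intro k _
  rw [map_sum]
  rfl

variable (τ : (∀ i, Matrix (Fin (d i)) (Fin (d i)) (D i)) →ₗ[ℚ] ℚ)

lemma tau_eq (hc : ∀ a b, τ (a * b) = τ (b * a)) [∀ i, NeZero (d i)]
    (M : ∀ i, Matrix (Fin (d i)) (Fin (d i)) (D i)) :
    τ M = ∑ i, ∑ k, τ (unit i 0 0 (M i k k)) := by
  conv_lhs => rw [eq_sum_unit M]
  simp only [map_sum]
  apply Finset.sum_congr rfl
  intro i _
  apply Finset.sum_congr rfl
  intro k _
  rw [Finset.sum_eq_single k]
  · have h1 : (unit i k k (M i k k) : ∀ i, Matrix (Fin (d i)) (Fin (d i)) (D i)) =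
        unit i k 0 (M i k k) * unit i 0 k 1 := by
      rw [unit_mul, mul_one]
    rw [h1, hc, unit_mul, one_mul]
  · intro l _ hl
    have h1 : (unit i k l (M i k l) : ∀ i, Matrix (Fin (d i)) (Fin (d i)) (D i)) =
        unit i k k 1 * unit i k l (M i k l) := by
      rw [unit_mul, one_mul]
    rw [h1, hc, unit_mul_ne i hl, map_zero]
  · intro h
    exact absurd (Finset.mem_univ k) h

lemma aeval_unit (i : Fin N) [∀ i, NeZero (d i)] (y : D i) (p : ℚ[X]) :
    aeval (unit i 0 0 y : ∀ i, Matrix (Fin (d i)) (Fin (d i)) (D i)) p =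
      unit i 0 0 (aeval y p) + p.eval 0 • (1 - unit i 0 0 1) := by
  induction p using Polynomial.induction_on' with
  | add p q hp hq =>
    rw [map_add, hp, hq, map_add, unit_add, eval_add, add_smul]
    abel
  | monomial n a =>
    rw [aeval_monomial, aeval_monomial, eval_monomial, Algebra.algebraMap_eq_smul_one,
      Algebra.algebraMap_eq_smul_one, smul_mul_assoc, smul_mul_assoc, one_mul, one_mul,
      unit_smul]
    rcases Nat.eq_zero_or_pos n with rfl | hn
    · rw [pow_zero, pow_zero, pow_zero, mul_one, ← smul_add]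
      congr 1
      abel
    · rw [zero_pow hn.ne', mul_zero, zero_smul, add_zero]
      congr 1
      clear a
      induction n, hn using Nat.le_induction with
      | base => rw [pow_one, pow_one]
      | succ m _ ih => rw [pow_succ, ih, unit_mul, pow_succ]

end blocks

/-- The constant of a division algebra. -/
lemma exists_const [IsAlgClosed E] {D : Type*} [DivisionRing D] [Algebra ℚ D]
    [Module.Finite ℚ D] (t : D →ₗ[ℚ] ℚ) (ht : t ≠ 0)
    (hs : ∀ y : D, ∃ s : E →₀ ℤ, ∀ p : ℚ[X], p.eval 0 = 0 →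
      algebraMap ℚ E (t (aeval y p)) = s.sum fun a m => (m : E) * aeval a p) :
    ∃ c : ℤ, t 1 = c ∧ finrank ℚ D ≤ c.natAbs ^ 2 := by
  have h1 : t 1 ≠ 0 := by
    intro h0
    apply ht
    apply LinearMap.ext
    intro y
    rw [LinearMap.zero_apply]
    by_cases hy : y = 0
    · rw [hy, map_zero]
    obtain ⟨s, hs⟩ := hs y
    obtain ⟨c, hc, hc0⟩ := trace_one_mul t hy s hs
    apply hc0
    have hpos : (0 : ℚ) < (minpoly ℚ y).natDegree := by
      exact_mod_cast minpoly.natDegree_pos (Algebra.IsIntegral.isIntegral y)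
    rw [h0] at hc
    exact_mod_cast (mul_eq_zero.1 hc.symm).resolve_right hpos.ne'
  obtain ⟨y, hy0, hy⟩ : ∃ y : D, y ≠ 0 ∧ finrank ℚ D ≤ (minpoly ℚ y).natDegree ^ 2 := by
    obtain ⟨y, hy⟩ := exists_elt D
    by_cases h0 : y = 0
    · refine ⟨1, one_ne_zero, ?_⟩
      rw [h0, minpoly.zero, natDegree_X] at hy
      refine hy.trans ?_
      rw [minpoly.one, natDegree_sub_eq_left_of_natDegree_lt] <;> simp
    · exact ⟨y, h0, hy⟩
  obtain ⟨s, hs⟩ := hs y
  obtain ⟨c, hc, -⟩ := trace_one_mul t hy0 s hs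
  refine ⟨c * (minpoly ℚ y).natDegree, by rw [hc]; push_cast; ring, hy.trans ?_⟩
  have hc0 : c ≠ 0 := by
    rintro rfl
    apply h1
    rw [hc, Int.cast_zero, zero_mul]
  rw [Int.natAbs_mul, Int.natAbs_natCast]
  apply Nat.pow_le_pow_left
  have : 1 ≤ c.natAbs := Int.natAbs_pos.2 hc0
  calc (minpoly ℚ y).natDegree = 1 * (minpoly ℚ y).natDegree := (one_mul _).symm
    _ ≤ _ := Nat.mul_le_mul_right _ this

lemma sum_sq_le {ι : Type*} (s : Finset ι) (f : ι → ℕ) : ∑ i ∈ s, f i ^ 2 ≤ (∑ i ∈ s, f i) ^ 2 := by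
  classical
  induction s using Finset.induction_on with
  | empty => simp
  | insert i s hi ih =>
    rw [Finset.sum_insert hi, Finset.sum_insert hi]
    nlinarith [Nat.zero_le (f i * ∑ i ∈ s, f i)]

/-- **An involution of large trace.** -/
theorem exists_inv_fin [IsAlgClosed E] {A : Type*} [Ring A] [Algebra ℚ A] [Module.Finite ℚ A]
    {t : A →ₗ[ℚ] ℚ} (hc : ∀ a b, t (a * b) = t (b * a)) (hE : HasTraces E t)
    (hnd : ∀ a, (∀ b, t (a * b) = 0) → a = 0) :
    ∃ v : A, v * v = 1 ∧ ∃ n : ℕ, t v = n ∧ finrank ℚ A ≤ n ^ 2 := by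
  classical
  have := isSemisimple hE hnd
  obtain ⟨N, D, d, iD, iA, iF, hd, ⟨e⟩⟩ :=
    IsSemisimpleRing.exists_algEquiv_pi_matrix_divisionRing_finite ℚ A
  let τ : (∀ i, Matrix (Fin (d i)) (Fin (d i)) (D i)) →ₗ[ℚ] ℚ := t ∘ₗ e.symm.toLinearMap
  have hτ : ∀ M, τ M = t (e.symm M) := fun _ => rfl
  have hcτ : ∀ a b, τ (a * b) = τ (b * a) := by
    intro a b
    rw [hτ, hτ, map_mul e.symm, map_mul e.symm, hc]
  let ti : ∀ i, D i →ₗ[ℚ] ℚ := fun i => τ ∘ₗ unitL i 0 0
  have hti : ∀ i y, ti i y = τ (unit i 0 0 y) := fun _ _ => rfl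
  have hne : ∀ i, ti i ≠ 0 := by
    intro i h0
    have h1 : e.symm (unit i 0 0 1) = 0 := by
      apply hnd
      intro b
      obtain ⟨b, rfl⟩ := e.symm.surjective b
      rw [← map_mul, ← hτ, tau_eq τ hcτ]
      apply Finset.sum_eq_zero
      intro j _
      apply Finset.sum_eq_zero
      intro k _
      by_cases hj : j = i
      · subst hj
        have := LinearMap.congr_fun h0
          (((unit j 0 0 1 : ∀ i, Matrix (Fin (d i)) (Fin (d i)) (D i)) * b) j k k)
        exact this
      · have h2 : ((unit i 0 0 1 : ∀ i, Matrix (Fin (d i)) (Fin (d i)) (D i)) * b) j = 0 := by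
          rw [Pi.mul_apply, unit, Pi.single_eq_of_ne hj, zero_mul]
        rw [h2, Matrix.zero_apply]
        have h3 : (unit j 0 0 (0 : D j) : ∀ i, Matrix (Fin (d i)) (Fin (d i)) (D i)) = 0 :=
          (unitL j 0 0).map_zero
        rw [h3, map_zero]
    have h2 : (unit i 0 0 1 : ∀ i, Matrix (Fin (d i)) (Fin (d i)) (D i)) = 0 :=
      e.symm.injective (h1.trans (map_zero e.symm).symm)
    have h3 := congrFun (congrFun (congrFun h2 i) 0) 0
    rw [unit, Pi.single_eq_same, Matrix.single_apply_same] at h3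
    exact one_ne_zero h3
  have hconst : ∀ i, ∃ c : ℤ, ti i 1 = c ∧ finrank ℚ (D i) ≤ c.natAbs ^ 2 := by
    intro i
    apply exists_const (E := E) (ti i) (hne i)
    intro y
    obtain ⟨s, hs⟩ := hE (e.symm (unit i 0 0 y))
    refine ⟨s, fun p hp => ?_⟩
    rw [← hs, hti, hτ]
    have h1 : aeval (e.symm (unit i 0 0 y)) p = e.symm (aeval (unit i 0 0 y) p) :=
      aeval_algHom_apply (e.symm.toAlgHom) (unit i 0 0 y) p
    rw [h1, aeval_unit, hp, zero_smul, add_zero]
  choose c hc1 hc2 using hconst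
  let M : ∀ i, Matrix (Fin (d i)) (Fin (d i)) (D i) := fun i => ((c i).sign : ℚ) • 1
  have hsgn : ∀ i, c i ≠ 0 := by
    intro i h0
    have h1 := hc2 i
    rw [h0] at h1
    have h2 : 0 < finrank ℚ (D i) := Module.finrank_pos
    simp at h1
    omega
  refine ⟨e.symm M, ?_, ∑ i, d i * (c i).natAbs, ?_, ?_⟩
  · rw [← map_mul]
    have h1 : M * M = 1 := by
      funext i
      change ((c i).sign : ℚ) • (1 : Matrix (Fin (d i)) (Fin (d i)) (D i)) *
        ((c i).sign : ℚ) • (1 : Matrix (Fin (d i)) (Fin (d i)) (D i)) = 1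
      rw [smul_mul_smul_comm, one_mul]
      have h2 : (c i).sign * (c i).sign = 1 := by
        rcases lt_or_gt_of_ne (hsgn i) with h | h
        · rw [Int.sign_eq_neg_one_of_neg h]; rfl
        · rw [Int.sign_eq_one_of_pos h]; rfl
      have h3 : ((c i).sign : ℚ) * ((c i).sign : ℚ) = 1 := by exact_mod_cast h2
      rw [h3, one_smul]
    rw [h1, map_one]
  · rw [← hτ, tau_eq τ hcτ]
    push_cast
    apply Finset.sum_congr rfl
    intro i _
    have h1 : ∀ k, τ (unit i 0 0 (M i k k)) = ((c i).natAbs : ℚ) := by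
      intro k
      have h2 : M i k k = ((c i).sign : ℚ) • (1 : D i) := by
        change (((c i).sign : ℚ) • (1 : Matrix (Fin (d i)) (Fin (d i)) (D i))) k k = _
        rw [Matrix.smul_apply, Matrix.one_apply_eq]
      rw [h2, ← hti, map_smul, hc1, smul_eq_mul]
      have h3 : (c i).sign * c i = ((c i).natAbs : ℤ) := by
        rw [Int.natCast_natAbs]
        exact Int.sign_mul_self_eq_abs (c i)
      have h4 : (((c i).sign * c i : ℤ) : ℚ) = (((c i).natAbs : ℤ) : ℚ) := by rw [h3]
      rw [Int.cast_mul] at h4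
      rw [h4, Int.cast_natCast]
    simp only [h1, Finset.sum_const, Finset.card_univ, Fintype.card_fin, nsmul_eq_mul]
  · rw [e.toLinearEquiv.finrank_eq, Module.finrank_pi_fintype]
    refine le_trans ?_ (sum_sq_le Finset.univ fun i => d i * (c i).natAbs)
    apply Finset.sum_le_sum
    intro i _
    rw [Module.finrank_matrix, Fintype.card_fin, mul_pow, sq (d i)]
    exact Nat.mul_le_mul_left _ (hc2 i)

section general

variable {R : Type*} [Ring R] [Algebra ℚ R] (t : R →ₗ[ℚ] ℚ)

/-- The trace form. -/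
noncomputable def form : R →ₗ[ℚ] Module.Dual ℚ R := (LinearMap.mul ℚ R).compr₂ t

lemma form_apply (a b : R) : form t a b = t (a * b) := rfl

/-- The radical of the trace form. -/
def radI (hc : ∀ a b, t (a * b) = t (b * a)) : Ideal R where
  carrier := {a | ∀ b, t (a * b) = 0}
  zero_mem' := fun b => by rw [zero_mul, map_zero]
  add_mem' := fun {a a'} ha ha' b => by rw [add_mul, map_add, ha, ha', add_zero]
  smul_mem' := fun r a ha b => by
    rw [smul_eq_mul, mul_assoc, hc, mul_assoc]
    exact ha _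

lemma radI_two (hc : ∀ a b, t (a * b) = t (b * a)) : (radI t hc).IsTwoSided :=
  ⟨fun {a} b ha c => by
    rw [mul_assoc]
    exact ha _⟩

/-- **An involution of large trace, modulo the radical of the trace form.** -/
theorem exists_inv [IsAlgClosed E] (hc : ∀ a b, t (a * b) = t (b * a)) (hE : HasTraces E t)
    [Module.Finite ℚ (LinearMap.range (form t))] :
    ∃ v : R, (∀ b, t (v * v * b) = t b) ∧
      ∃ n : ℕ, t v = n ∧ finrank ℚ (LinearMap.range (form t)) ≤ n ^ 2 := by
  have := radI_two t hc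
  set I := radI t hc with hI
  let π : R →ₐ[ℚ] R ⧸ I := Ideal.Quotient.mkₐ ℚ I
  have hπ : Function.Surjective π := Ideal.Quotient.mkₐ_surjective ℚ I
  have hker : ∀ a, π a = 0 ↔ ∀ b, t (a * b) = 0 := fun a => Ideal.Quotient.eq_zero_iff_mem
  have hkt : ∀ a b, π a = π b → t a = t b := by
    intro a b h
    have h1 := (hker (a - b)).1 (by rw [map_sub, h, sub_self]) 1
    rw [mul_one, map_sub, sub_eq_zero] at h1
    exact h1
  let t' : R ⧸ I →ₗ[ℚ] ℚ :=
    { toFun := fun z => t (Function.surjInv hπ z)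
      map_add' := fun a b => by
        rw [← map_add]
        apply hkt
        rw [map_add, Function.surjInv_eq hπ, Function.surjInv_eq hπ, Function.surjInv_eq hπ]
      map_smul' := fun q a => by
        rw [← map_smul]
        apply hkt
        rw [map_smul, Function.surjInv_eq hπ, Function.surjInv_eq hπ, RingHom.id_apply] }
  have ht' : ∀ a, t' (π a) = t a := fun a => hkt _ _ (Function.surjInv_eq hπ _)
  have hkk : LinearMap.ker π.toLinearMap = LinearMap.ker (form t) := by
    ext a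
    rw [LinearMap.mem_ker, LinearMap.mem_ker, LinearMap.ext_iff]
    exact hker a
  let e : (R ⧸ I) ≃ₗ[ℚ] LinearMap.range (form t) :=
    ((LinearMap.quotKerEquivOfSurjective π.toLinearMap hπ).symm.trans
      (Submodule.quotEquivOfEq _ _ hkk)).trans (form t).quotKerEquivRange
  have hfin : Module.Finite ℚ (R ⧸ I) := Module.Finite.equiv e.symm
  obtain ⟨v, hv, n, hn, hle⟩ := exists_inv_fin (E := E) (t := t')
    (by
      intro a b
      obtain ⟨a, rfl⟩ := hπ a
      obtain ⟨b, rfl⟩ := hπ b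
      rw [← map_mul, ← map_mul, ht', ht', hc])
    (by
      intro x
      obtain ⟨x, rfl⟩ := hπ x
      obtain ⟨s, hs⟩ := hE x
      refine ⟨s, fun p => ?_⟩
      rw [aeval_algHom_apply, ht', hs])
    (by
      intro a ha
      obtain ⟨a, rfl⟩ := hπ a
      rw [hker]
      intro b
      have := ha (π b)
      rwa [← map_mul, ht'] at this)
  obtain ⟨v, rfl⟩ := hπ v
  refine ⟨v, fun b => ?_, n, by rw [← hn, ht'], ?_⟩
  · apply hkt
    rw [map_mul, map_mul, hv, one_mul]
  · rw [← e.finrank_eq]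
    exact hle

end general

end

end Pool.Agent.H843.Nd
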