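import Pool.Agent.H843.Nd3

/-!
# Super traces of operators
-/

set_option autoImplicit false
set_option linter.unusedSectionVars false

namespace Pool.Agent.H843.Nd

open Module Polynomial

section mat

variable {ι : Type*} [Fintype ι] [DecidableEq ι] {E : Type*} [Field E] [IsAlgClosed E]

lemma charpoly_prod (A : Matrix ι ι E) :
    A.charpoly = (A.charpoly.roots.map fun a => X - C a).prod :=
  (IsAlgClosed.splits A.charpoly).eq_prod_roots_of_monic A.charpoly_monic

lemma card_roots' (A : Matrix ι ι E) : A.charpoly.roots.card = Fintype.card ι := by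
  rw [← (IsAlgClosed.splits A.charpoly).natDegree_eq_card_roots, A.charpoly_natDegree_eq_dim]

lemma det_scalar_sub (A : Matrix ι ι E) (r : E) :
    (Matrix.scalar ι r - A).det = (A.charpoly.roots.map fun a => r - a).prod := by
  rw [← Matrix.eval_charpoly]
  conv_lhs => rw [charpoly_prod A]
  rw [eval_multiset_prod, Multiset.map_map]
  congr 1
  refine Multiset.map_congr rfl fun a _ => ?_
  simp

lemma prod_neg_map (s : Multiset E) (f : E → E) :
    (s.map fun a => - f a).prod = (-1) ^ s.card * (s.map f).prod := by
  induction s using Multiset.induction_on with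
  | empty => simp
  | cons a s ih => rw [Multiset.map_cons, Multiset.prod_cons, ih, Multiset.map_cons,
      Multiset.prod_cons, Multiset.card_cons, pow_succ]; ring

lemma det_sub_scalar (A : Matrix ι ι E) (r : E) :
    (A - Matrix.scalar ι r).det = (A.charpoly.roots.map fun a => a - r).prod := by
  have h1 : A - Matrix.scalar ι r = - (Matrix.scalar ι r - A) := by abel
  rw [h1, Matrix.det_neg, det_scalar_sub, ← card_roots' A, ← prod_neg_map]
  congr 1
  refine Multiset.map_congr rfl fun a _ => by ring

lemma det_aeval (A : Matrix ι ι E) {p : E[X]} (hp : p.Monic) :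
    (aeval A p).det = (A.charpoly.roots.map fun a => p.eval a).prod := by
  let φ : E[X] →* E := Matrix.detMonoidHom.comp (aeval A : E[X] →ₐ[E] Matrix ι ι E).toMonoidHom
  have hφ : ∀ q, φ q = (aeval A q).det := fun q => rfl
  have hp2 := (IsAlgClosed.splits p).eq_prod_roots_of_monic hp
  rw [← hφ]
  conv_lhs => rw [hp2]
  rw [map_multiset_prod, Multiset.map_map]
  have h1 : (p.roots.map (φ ∘ fun a => X - C a)) =
      p.roots.map fun r => (A.charpoly.roots.map fun a => a - r).prod := by
    refine Multiset.map_congr rfl fun r _ => ?_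
    rw [Function.comp_apply, hφ, ← det_sub_scalar]
    congr 1
    simp [Matrix.algebraMap_eq_diagonal, Matrix.scalar_apply]
  rw [h1, Multiset.prod_map_prod_map]
  congr 1
  refine Multiset.map_congr rfl fun a _ => ?_
  conv_rhs => rw [hp2]
  rw [eval_multiset_prod, Multiset.map_map]
  congr 1
  refine Multiset.map_congr rfl fun r _ => ?_
  simp

lemma charpoly_pow (A : Matrix ι ι E) {n : ℕ} (hn : n ≠ 0) :
    (A ^ n).charpoly = (A.charpoly.roots.map fun a => X - C (a ^ n)).prod := by
  apply Polynomial.funext
  intro s
  rw [Matrix.eval_charpoly, eval_multiset_prod, Multiset.map_map]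
  have h1 : Matrix.scalar ι s - A ^ n = - (aeval A (X ^ n - C s)) := by
    simp [Matrix.algebraMap_eq_diagonal, Matrix.scalar_apply]
  rw [h1, Matrix.det_neg, det_aeval A (monic_X_pow_sub_C s hn), ← card_roots' A, ← prod_neg_map]
  congr 1
  refine Multiset.map_congr rfl fun a _ => ?_
  simp

/-- the trace of a power is the sum of the powers of the eigenvalues -/
theorem trace_pow (A : Matrix ι ι E) (n : ℕ) :
    (A ^ n).trace = (A.charpoly.roots.map fun a => a ^ n).sum := by
  by_cases hn : n = 0
  · subst hn
    simp only [pow_zero, Matrix.trace_one, Multiset.map_const', Multiset.sum_replicate,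
      nsmul_eq_mul, mul_one]
    rw [card_roots' A]
  rw [Matrix.trace_eq_sum_roots_charpoly, charpoly_pow A hn]
  have : (A.charpoly.roots.map fun a => X - C (a ^ n)) =
      ((A.charpoly.roots.map fun a => a ^ n).map fun a => X - C a) := by
    rw [Multiset.map_map]; rfl
  rw [this, roots_multiset_prod_X_sub_C]

end mat

section int

variable {E : Type*} [Field E] [Algebra ℚ E]

/-- The functional `f` is an integral combination of evaluations. -/
def IntEv (f : ℚ[X] → E) : Prop := ∃ s : E →₀ ℤ, ∀ p, f p = s.sum fun a m => (m : E) * aeval a p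

lemma IntEv.add {f g : ℚ[X] → E} (hf : IntEv f) (hg : IntEv g) : IntEv fun p => f p + g p := by
  classical
  obtain ⟨s, hs⟩ := hf
  obtain ⟨s', hs'⟩ := hg
  refine ⟨s + s', fun p => ?_⟩
  change f p + g p = _
  rw [hs, hs', Finsupp.sum_add_index']
  · intro a; rw [Int.cast_zero, zero_mul]
  · intro a m n; rw [Int.cast_add, add_mul]

lemma IntEv.neg {f : ℚ[X] → E} (hf : IntEv f) : IntEv fun p => - f p := by
  obtain ⟨s, hs⟩ := hf
  refine ⟨-s, fun p => ?_⟩
  change - f p = _
  rw [hs, Finsupp.sum_neg_index]
  · rw [Finsupp.sum, Finsupp.sum, ← Finset.sum_neg_distrib]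
    apply Finset.sum_congr rfl
    intro a _
    rw [Int.cast_neg, neg_mul]
  · intro a; rw [Int.cast_zero, zero_mul]

lemma IntEv.single (a : E) (m : ℤ) : IntEv fun p => (m : E) * aeval a p := by
  classical
  refine ⟨Finsupp.single a m, fun p => ?_⟩
  rw [Finsupp.sum_single_index]
  rw [Int.cast_zero, zero_mul]

lemma IntEv.multiset (s : Multiset E) : IntEv fun p => (s.map fun a => aeval a p).sum := by
  induction s using Multiset.induction_on with
  | empty => exact ⟨0, fun p => by simp⟩
  | cons a s ih =>
    have := (IntEv.single a 1).add ih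
    simpa using this

lemma IntEv.congr {f g : ℚ[X] → E} (hf : IntEv f) (h : ∀ p, g p = f p) : IntEv g := by
  have : g = f := funext h
  rw [this]; exact hf

end int

section op

variable {K : Type*} [Field K] [CharZero K] {V : Type*} [AddCommGroup V] [Module K V]
  [Module.Finite K V] {E : Type*} [Field E] [Algebra K E] [Algebra ℚ E] [IsAlgClosed E]

/-- Polynomials with rational coefficients in an operator. -/
noncomputable def ev (T : Module.End K V) (p : ℚ[X]) : Module.End K V :=
  aeval T (p.map (algebraMap ℚ K))

lemma trace_ev (T : Module.End K V) :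
    IntEv fun p => algebraMap K E (LinearMap.trace K V (ev T p)) := by
  classical
  let b := Module.finBasis K V
  let A : Matrix (Fin (finrank K V)) (Fin (finrank K V)) E :=
    (LinearMap.toMatrix b b T).map (algebraMap K E)
  have hpow : ∀ n : ℕ, algebraMap K E (LinearMap.trace K V (T ^ n)) =
      (A.charpoly.roots.map fun a => a ^ n).sum := by
    intro n
    rw [← trace_pow, LinearMap.trace_eq_matrix_trace K b, ← LinearMap.toMatrix_pow]
    have h1 : A ^ n = ((LinearMap.toMatrix b b T) ^ n).map (algebraMap K E) := by
      have := map_pow ((algebraMap K E).mapMatrix (m := Fin (finrank K V)))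
        (LinearMap.toMatrix b b T) n
      exact this.symm
    rw [h1, AddMonoidHom.map_trace (algebraMap K E)]
  refine (IntEv.multiset A.charpoly.roots).congr fun p => ?_
  induction p using Polynomial.induction_on' with
  | add p q hp hq =>
    rw [ev, Polynomial.map_add, map_add, map_add, map_add]
    rw [ev] at hp hq
    rw [hp, hq, ← Multiset.sum_map_add]
    simp only [map_add]
  | monomial n c =>
    rw [ev, Polynomial.map_monomial, aeval_monomial, ← Algebra.smul_def,
      map_smul, smul_eq_mul, map_mul (algebraMap K E), hpow,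
      ← Multiset.sum_map_mul_left]
    congr 1
    refine Multiset.map_congr rfl fun a _ => ?_
    rw [aeval_monomial]
    congr 1
    exact RingHom.congr_fun (Subsingleton.elim ((algebraMap K E).comp (algebraMap ℚ K))
      (algebraMap ℚ E)) c

lemma trace_idem_ev {T P : Module.End K V} (hP : P * P = P) (hc : T * P = P * T) :
    IntEv fun p => algebraMap K E (LinearMap.trace K V (P * ev T p)) := by
  -- `p (P T) = P p(T) + p(0) (1 - P)`
  have key : ∀ p : ℚ[X], ev (P * T) p = P * ev T p + ((p.eval 0 : ℚ) : K) • (1 - P) := by
    intro p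
    induction p using Polynomial.induction_on' with
    | add p q hp hq =>
      rw [ev, ev] at hp hq ⊢
      rw [Polynomial.map_add, map_add, map_add, hp, hq, mul_add, eval_add, Rat.cast_add, add_smul]
      abel
    | monomial n a =>
      rw [ev, ev, Polynomial.map_monomial, aeval_monomial, aeval_monomial, eval_monomial,
        Algebra.algebraMap_eq_smul_one, smul_mul_assoc, smul_mul_assoc, one_mul, one_mul,
        mul_smul_comm]
      rcases Nat.eq_zero_or_pos n with rfl | hn
      · rw [pow_zero, pow_zero, pow_zero, mul_one, mul_one]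
        change (a : K) • (1 : Module.End K V) = (a : K) • P + (a : K) • (1 - P)
        rw [← smul_add]
        congr 1
        abel
      · rw [zero_pow hn.ne', mul_zero, Rat.cast_zero, zero_smul, add_zero]
        congr 1
        clear a
        induction n, hn using Nat.le_induction with
        | base => rw [pow_one, pow_one]
        | succ m _ ih =>
          rw [pow_succ, ih, pow_succ]
          have h1 : T ^ m * P = P * T ^ m := ((show Commute T P from hc).pow_left m).eq
          calc P * T ^ m * (P * T) = P * (T ^ m * P) * T := by simp only [mul_assoc]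
            _ = _ := by rw [h1, ← mul_assoc, hP, mul_assoc]
  have h1 : LinearMap.trace K V (1 - P) = (finrank K (LinearMap.range (1 - P)) : K) := by
    have h2 : (1 - P) * (1 - P) = 1 - P := by
      rw [mul_sub, sub_mul, sub_mul, hP, one_mul, one_mul, mul_one]
      abel
    exact (LinearMap.IsIdempotentElem.isProj_range _ h2).trace
  refine ((trace_ev (E := E) (P * T)).add
    (IntEv.single (0 : E) (finrank K (LinearMap.range (1 - P)))).neg).congr fun p => ?_
  rw [key, map_add, map_smul, h1, smul_eq_mul, map_add (algebraMap K E),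
    map_mul (algebraMap K E), map_natCast, Int.cast_natCast]
  have h2 : aeval (0 : E) p = algebraMap ℚ E (p.eval 0) := by
    rw [aeval_def, eval₂_at_zero, coeff_zero_eq_eval_zero]
  have h3 : algebraMap K E ((p.eval 0 : ℚ) : K) = algebraMap ℚ E (p.eval 0) :=
    RingHom.congr_fun (Subsingleton.elim ((algebraMap K E).comp (algebraMap ℚ K))
      (algebraMap ℚ E)) _
  rw [h2, h3]
  ring

/-- **Super traces are integral.** -/
theorem strace_ev {T ε : Module.End K V} (hε : ε * ε = 1) (hc : T * ε = ε * T) :
    IntEv fun p => algebraMap K E (LinearMap.trace K V (ε * ev T p)) := by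
  set P : Module.End K V := (2⁻¹ : K) • (1 + ε) with hP
  set M : Module.End K V := (2⁻¹ : K) • (1 - ε) with hM
  have h2K : (2 : K) ≠ 0 := two_ne_zero
  have hPP : P * P = P := by
    rw [hP, smul_mul_smul_comm, add_mul, mul_add, one_mul, mul_add, one_mul, mul_one, hε]
    rw [show (1 : Module.End K V) + ε + (ε + 1) = (2 : K) • (1 + ε) by
      rw [two_smul]; abel, smul_smul]
    congr 1
    field_simp
  have hMM : M * M = M := by
    rw [hM, smul_mul_smul_comm, sub_mul, mul_sub, one_mul, mul_sub, one_mul, mul_one, hε]
    rw [show (1 : Module.End K V) - ε - (ε - 1) = (2 : K) • (1 - ε) by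
      rw [two_smul]; abel, smul_smul]
    congr 1
    field_simp
  have hPM : P - M = ε := by
    rw [hP, hM, ← smul_sub, show (1 : Module.End K V) + ε - (1 - ε) = (2 : K) • ε by
      rw [two_smul]; abel, smul_smul, inv_mul_cancel₀ h2K, one_smul]
  have cP : T * P = P * T := by
    rw [hP, mul_smul_comm, smul_mul_assoc, mul_add, add_mul, hc, mul_one, one_mul]
  have cM : T * M = M * T := by
    rw [hM, mul_smul_comm, smul_mul_assoc, mul_sub, sub_mul, hc, mul_one, one_mul]
  refine ((trace_idem_ev (E := E) hPP cP).add (trace_idem_ev (E := E) hMM cM).neg).congr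
    fun p => ?_
  rw [← hPM, sub_mul, map_sub, map_sub, sub_eq_add_neg]

end op

end Pool.Agent.H843.Nd
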