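import Pool.Agent.H843.Nd4
import Pool.Graph.R_seed8.W534.PoleA

/-!
# Algebras of operators with rational super traces
-/

set_option autoImplicit false
set_option linter.unusedSectionVars false

namespace Pool.Agent.H843.Nd

open Module Polynomial

section op

variable {K : Type*} [Field K] [CharZero K] {V : Type*} [AddCommGroup V] [Module K V]
  [Module.Finite K V] [Module ℚ V] [IsScalarTower ℚ K V]
  {ε : Module.End K V} {R : Subalgebra ℚ (Module.End K V)}

/-- The rational super trace. -/
noncomputable def rtr (hrat : ∀ x ∈ R, ∃ q : ℚ, LinearMap.trace K V (ε * x) = (q : K)) :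
    R →ₗ[ℚ] ℚ where
  toFun x := (hrat x x.2).choose
  map_add' x y := by
    have h1 := (hrat (x + y : R) (x + y : R).2).choose_spec
    have h2 := (hrat x x.2).choose_spec
    have h3 := (hrat y y.2).choose_spec
    have h4 : (((hrat (x + y : R) (x + y : R).2).choose : ℚ) : K) =
        (((hrat x x.2).choose + (hrat y y.2).choose : ℚ) : K) := by
      rw [← h1, Rat.cast_add, ← h2, ← h3, ← map_add, ← mul_add]
      rfl
    exact_mod_cast h4
  map_smul' q x := by
    have h1 := (hrat (q • x : R) (q • x : R).2).choose_spec
    have h2 := (hrat x x.2).choose_spec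
    have h4 : (((hrat (q • x : R) (q • x : R).2).choose : ℚ) : K) =
        ((q * (hrat x x.2).choose : ℚ) : K) := by
      rw [← h1, Rat.cast_mul, ← h2]
      have h5 : ((q • x : R) : Module.End K V) = (q : K) • (x : Module.End K V) := by
        rw [Subalgebra.coe_smul, ← algebraMap_smul K q (x : Module.End K V)]
        rfl
      rw [h5, mul_smul_comm, map_smul, smul_eq_mul]
    exact_mod_cast h4

lemma rtr_spec (hrat : ∀ x ∈ R, ∃ q : ℚ, LinearMap.trace K V (ε * x) = (q : K)) (x : R) :
    LinearMap.trace K V (ε * (x : Module.End K V)) = (rtr hrat x : K) :=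
  (hrat x x.2).choose_spec

variable (hrat : ∀ x ∈ R, ∃ q : ℚ, LinearMap.trace K V (ε * x) = (q : K))

lemma rtr_eq {x y : R} (h : LinearMap.trace K V (ε * (x : Module.End K V)) =
    LinearMap.trace K V (ε * (y : Module.End K V))) : rtr hrat x = rtr hrat y := by
  rw [rtr_spec hrat, rtr_spec hrat] at h
  exact_mod_cast h

lemma rtr_comm (hc : ∀ x ∈ R, x * ε = ε * x) (x y : R) : rtr hrat (x * y) = rtr hrat (y * x) := by
  apply rtr_eq
  rw [Subalgebra.coe_mul, Subalgebra.coe_mul, ← mul_assoc, ← hc _ x.2, mul_assoc,
    LinearMap.trace_mul_comm, mul_assoc]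

lemma finite_form : Module.Finite ℚ (LinearMap.range (form (rtr hrat))) := by
  classical
  have hb : ∀ s : Finset (LinearMap.range (form (rtr hrat))),
      (LinearIndependent ℚ fun i : s => (i : LinearMap.range (form (rtr hrat)))) →
      s.card ≤ finrank K (Module.Dual K (Module.End K V)) := by
    intro s hs
    choose a ha using fun i : s => (i : LinearMap.range (form (rtr hrat))).2
    let Φ : s → Module.Dual K (Module.End K V) := fun i =>
      (LinearMap.trace K V) ∘ₗ LinearMap.mulLeft K (ε * (a i : Module.End K V))
    have hΦ : ∀ (i : s) (b : R), Φ i b = ((form (rtr hrat) (a i) b : ℚ) : K) := by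
      intro i b
      rw [form_apply, ← rtr_spec]
      change LinearMap.trace K V (ε * (a i : Module.End K V) * b) = _
      rw [mul_assoc]
      rfl
    have h1 : LinearIndependent ℚ (fun i : s => fun b : R => form (rtr hrat) (a i) b) := by
      rw [Fintype.linearIndependent_iff] at hs ⊢
      intro g hg
      apply hs g
      apply Subtype.ext
      rw [AddSubmonoidClass.coe_finsetSum, ZeroMemClass.coe_zero]
      apply LinearMap.ext
      intro b
      have := congrFun hg b
      rw [Finset.sum_apply] at this
      rw [LinearMap.sum_apply, LinearMap.zero_apply]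
      rw [Pi.zero_apply] at this
      rw [← this]
      apply Finset.sum_congr rfl
      intro i _
      rw [Submodule.coe_smul, LinearMap.smul_apply, Pi.smul_apply, ← ha i]
    have h2 : LinearIndependent K Φ := by
      rw [Fintype.linearIndependent_iff]
      intro c hc i
      have h3 := Pool.Agent.W534.lin_ext (K := K) h1 (c := c) (by
        intro b
        have h4 := LinearMap.congr_fun hc (b : Module.End K V)
        rw [LinearMap.sum_apply, LinearMap.zero_apply] at h4
        rw [← h4]
        apply Finset.sum_congr rfl
        intro j _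
        rw [LinearMap.smul_apply, smul_eq_mul, hΦ])
      rw [h3]
      rfl
    have h3 := h2.fintype_card_le_finrank
    rwa [Fintype.card_coe] at h3
  have : Module.Free ℚ (LinearMap.range (form (rtr hrat))) := Module.Free.of_divisionRing ℚ _
  rw [← Module.rank_lt_aleph0_iff]
  exact lt_of_le_of_lt (rank_le hb) Cardinal.natCast_lt_aleph0

/-- **An operator of large super trace.** -/
theorem exists_inv_op (hε : ε * ε = 1) (hc : ∀ x ∈ R, x * ε = ε * x) :
    ∃ v : R, (∀ b, rtr hrat (v * v * b) = rtr hrat b) ∧
      ∃ n : ℕ, rtr hrat v = n ∧ finrank ℚ (LinearMap.range (form (rtr hrat))) ≤ n ^ 2 := by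
  have := finite_form hrat
  refine exists_inv (E := AlgebraicClosure K) (rtr hrat) (rtr_comm hrat hc) ?_
  intro x
  obtain ⟨s, hs⟩ := strace_ev (E := AlgebraicClosure K) (T := (x : Module.End K V)) hε (hc x x.2)
  refine ⟨s, fun p => ?_⟩
  rw [← hs p]
  have h1 : (((aeval x p : R)) : Module.End K V) = ev (x : Module.End K V) p := by
    rw [ev]
    have h2 : aeval (x : Module.End K V) (p.map (algebraMap ℚ K)) =
        aeval (x : Module.End K V) p := aeval_map_algebraMap K _ _
    rw [h2]
    exact (aeval_algHom_apply R.val x p).symm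
  change _ = algebraMap K (AlgebraicClosure K) (LinearMap.trace K V (ε * ev _ p))
  rw [← h1, rtr_spec hrat]
  exact (RingHom.congr_fun (Subsingleton.elim ((algebraMap K (AlgebraicClosure K)).comp
    (algebraMap ℚ K)) (algebraMap ℚ (AlgebraicClosure K))) _).symm

end op

end Pool.Agent.H843.Nd
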