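import Pool.Agent.H843.Nd5
import Pool.Graph.R_pool_sql_team_seeded_3997aac3.Q57.ND.Law
import Pool.Graph.R_pool_sql_team_seeded_3997aac3.Q55.Rate.Main
import Pool.Graph.R_seed8.Y163.Pow

/-!
# The numerical dimension and the rank of the correspondences modulo numerical equivalence
-/

open CategoryTheory AlgebraicGeometry

set_option autoImplicit false
set_option linter.unusedSectionVars false

universe u v

namespace Pool.Agent.H843.Nd

open Module
open Pool.Agent.H914 Pool.Agent.H914.VarClass Pool.Agent.H914.VarClass.Obj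
  Pool.Agent.H914.WeilCohomology Pool.Agent.Y133.Half Pool.Agent.H447 Pool.Agent.Q55.Rate
  Pool.Agent.Q55.Lr Pool.Agent.Q57.ND Pool.Agent.W534

variable {k : Type u} [Field k] {𝒱 : VarClass k} {ops : CycleOps 𝒱}
  (W : WeilCohomology.{u, v} ops) {X P : 𝒱.Obj}

lemma str_comm {K V : Type*} [Field K] [AddCommGroup V] [Module K V] {ε S w : Module.End K V}
    (h : ε * S = S * ε) :
    LinearMap.trace K V (ε * (w * S)) = LinearMap.trace K V (ε * (S * w)) := by
  rw [← mul_assoc, LinearMap.trace_mul_comm, ← mul_assoc, ← h, mul_assoc]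

lemma kop_op {Y Z : 𝒱.Obj} {d : ℤ} {u : W.H Y →ₗ[W.K] W.H Z} (hu : u ∈ KOp W Y Z d) :
    u ∈ (algSys W).Op Y Z := by
  induction hu using Submodule.span_induction with
  | mem x hx =>
    obtain ⟨p, hp, z, hz, rfl⟩ := hx
    exact Sys.Op.corr (Submodule.subset_span (Set.mem_iUnion.2 ⟨p, z, hz, rfl⟩))
  | zero => exact Submodule.zero_mem _
  | add x y _ _ hx hy => exact Submodule.add_mem _ hx hy
  | smul a x _ hx => exact Submodule.smul_mem _ _ hx

/-- An operator of degree zero is numerically trivial if the super traces of its products with the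
algebraic operators of degree zero vanish. -/
lemma nop_of {u : Module.End W.K (W.H P)} (hu : u ∈ KOp W P P 0)
    (h : ∀ w ∈ KOp W P P 0, LinearMap.trace W.K (W.H P) (par (W.isInternal P) * (u * w)) = 0) :
    u ∈ (algSys W).NOp P P := by
  obtain ⟨γ, hγ, rfl⟩ := mem_KOp_iff.1 hu
  rw [add_zero] at hγ
  have hgr : γ ∈ W.gr (P.prod P) (2 * P.dim) := Pool.Agent.H447.span_gr hγ
  refine Sys.NOp.corr ⟨?_, fun d hd => ?_⟩
  · have h1 := kop_op W hu
    obtain ⟨c, hc, hcc⟩ := Sys.mem_Op.1 h1
    have hinj : Function.Injective (Pool.Agent.Y133.Half.corrL W P P) :=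
      (injective_iff_map_eq_zero _).2 fun x h => corr_inj h
    have h3 : c = γ := hinj hcc
    rw [← h3]
    exact hc
  · have hd' : d ∈ Submodule.span W.K (⋃ j, algClasses W (P.prod P) j) := hd
    induction hd' using Submodule.span_induction with
    | mem x hx =>
      obtain ⟨p, z, hz, rfl⟩ := Set.mem_iUnion.1 hx
      by_cases hp : p = P.dim
      · subst hp
        have h1 := h (W.corr (W.cl _ (ops.pull (swap P P) z)))
          (kop_of_cyc W (ops.pull_mem _ hz))
        have h2 := trace_corr_corr (W := W) γ (W.cl _ (ops.pull (swap P P) z))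
        have h3 : W.map (swap P P) (W.cl _ (ops.pull (swap P P) z)) = W.cl _ z := by
          rw [W.cl_pull, swap_swap]
        rw [h3] at h2
        rw [← h2]
        exact h1
      · apply W.tr_eq_zero (W.mul_mem hgr (W.cl_mem hz))
        rw [dim_prod]
        omega
    | zero => rw [mul_zero, map_zero]
    | add x y hx hy h1 h2 => rw [mul_add, map_add, h1 hx, h2 hy, add_zero]
    | smul a x hx h1 => rw [mul_smul_comm, map_smul, h1 hx, smul_zero]

lemma nop_trace {u w : Module.End W.K (W.H P)} (hu : u ∈ (algSys W).NOp P P)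
    (hw : w ∈ KOp W P P 0) :
    LinearMap.trace W.K (W.H P) (par (W.isInternal P) * (u * w)) = 0 :=
  Sys.NOp.trace hu (kop_op W hw)

/-- The numerical involutions in terms of operators. -/
lemma inv_iff {z : (P.prod P).Cycles} : IsNumInvolution ops P z ↔ (P.prod P).IsCyc P.dim z ∧
    (W.corr (W.cl _ z) : Module.End W.K (W.H P)) * W.corr (W.cl _ z) - 1 ∈
      (algSys W).NOp P P := by
  constructor
  · intro h
    refine ⟨h.1, nop_of W ?_ fun w hw => str_zero W h hw⟩
    have h1 := kop_of_cyc W h.1
    have h2 : (W.corr (W.cl _ z) : Module.End W.K (W.H P)) * W.corr (W.cl _ z) ∈ KOp W P P 0 := by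
      have := KOp.comp h1 h1
      rwa [add_zero] at this
    exact Submodule.sub_mem _ h2 (KOp.id P)
  · rintro ⟨hz, h⟩
    refine ⟨hz, fun w hw => ?_⟩
    have h3 := str_cyc W hw
    have h4 := str_cyc W (comp_mem (ops := ops) (comp_mem (ops := ops) hz hz) hw)
    have h5 := nop_trace W h (kop_of_cyc W hw)
    rw [corr_comp W hw, corr_comp W hz] at h4
    rw [sub_mul, one_mul, mul_sub, map_sub, h3, sub_eq_zero] at h5
    set T : Module.End W.K (W.H P) := W.corr (W.cl _ z) with hT
    set ε := par (W.isInternal P) with hε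
    have hTε : T * ε = ε * T := kop_comm W (kop_of_cyc W hz)
    have h7 : ε * (T * T) = (T * T) * ε := by
      rw [← mul_assoc, ← hTε, mul_assoc, ← hTε, mul_assoc]
    rw [str_comm h7, h5] at h4
    exact_mod_cast h4.symm

/-! ### The rational correspondences -/

/-- The cohomology as a rational vector space. -/
@[reducible] noncomputable def ratMod (X : 𝒱.Obj) : Module ℚ (W.H X) :=
  Module.compHom (W.H X) (algebraMap ℚ W.K)

lemma ratTower (X : 𝒱.Obj) :
    letI := ratMod W X
    IsScalarTower ℚ W.K (W.H X) := by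
  let _ := ratMod W X
  refine ⟨fun q a x => ?_⟩
  rw [Algebra.smul_def q a, mul_smul]
  rfl

/-- The algebra of the operators given by rational correspondences of degree zero. -/
noncomputable def ratR (X : 𝒱.Obj) :
    letI := ratMod W X
    haveI := ratTower W X
    Subalgebra ℚ (Module.End W.K (W.H X)) :=
  letI := ratMod W X
  haveI := ratTower W X
  { carrier := {T | ∃ z, (X.prod X).IsCyc X.dim z ∧ W.corr (W.cl _ z) = T}
    mul_mem' := by
      rintro _ _ ⟨z, hz, rfl⟩ ⟨w, hw, rfl⟩
      exact ⟨_, comp_mem (ops := ops) hw hz, corr_comp W hz⟩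
    add_mem' := by
      rintro _ _ ⟨z, hz, rfl⟩ ⟨w, hw, rfl⟩
      exact ⟨z + w, hz.add hw, by rw [map_add, corr_add]⟩
    algebraMap_mem' := by
      intro q
      obtain ⟨w, hw, hw'⟩ := exists_diag W (X := X)
      refine ⟨q • w, hw.smul q, ?_⟩
      rw [cl_smul, corr_smul, hw', Algebra.algebraMap_eq_smul_one]
      exact algebraMap_smul W.K q (1 : Module.End W.K (W.H X)) }

lemma isCyc_cast {Y : 𝒱.Obj} {p q : ℕ} (h : p = q) {w : Y.Cycles} (hw : Y.IsCyc p w) :
    Y.IsCyc q w := h ▸ hw

/-- **The rank of the correspondences modulo numerical equivalence is at most the square of the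
numerical dimension.** -/
theorem rank_le_sq (W : WeilCohomology.{u, v} ops) (X : 𝒱.Obj) :
    numRank ops (X.prod X) X.dim ≤ numericalDim ops X ^ 2 := by
  let _ := ratMod W X
  have := ratTower W X
  set R := ratR W X with hR
  have hmem : ∀ x ∈ R, ∃ z, (X.prod X).IsCyc X.dim z ∧ W.corr (W.cl _ z) = x := fun x hx => hx
  have hmem' : ∀ {z : (X.prod X).Cycles}, (X.prod X).IsCyc X.dim z →
      (W.corr (W.cl _ z) : Module.End W.K (W.H X)) ∈ R := fun {z} hz => ⟨z, hz, rfl⟩
  set ε := par (W.isInternal X) with hε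
  have hrat : ∀ x ∈ R, ∃ q : ℚ, LinearMap.trace W.K (W.H X) (ε * x) = (q : W.K) := by
    intro x hx
    obtain ⟨z, hz, rfl⟩ := hmem x hx
    exact ⟨_, str_cyc W hz⟩
  have hc : ∀ x ∈ R, x * ε = ε * x := by
    intro x hx
    obtain ⟨z, hz, rfl⟩ := hmem x hx
    exact kop_comm W (kop_of_cyc W hz)
  obtain ⟨v, hv, n, hn, hle⟩ := exists_inv_op hrat (par_sq W) hc
  obtain ⟨z, hz, hzv⟩ := hmem v v.2
  have hinv : IsNumInvolution ops X z := by
    refine ⟨hz, fun w hw => ?_⟩
    have h1 := hv ⟨_, hmem' hw⟩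
    have h2 := congrArg (fun q : ℚ => (q : W.K)) h1
    change ((rtr hrat _ : ℚ) : W.K) = ((rtr hrat _ : ℚ) : W.K) at h2
    rw [← rtr_spec hrat, ← rtr_spec hrat] at h2
    have h3 := str_cyc W hw
    have h4 := str_cyc W (comp_mem (ops := ops) (comp_mem (ops := ops) hz hz) hw)
    rw [corr_comp W hw, corr_comp W hz] at h4
    have h7 : ε * (W.corr (W.cl _ z) * W.corr (W.cl _ z)) =
        (W.corr (W.cl _ z) * W.corr (W.cl _ z)) * ε := by
      rw [← mul_assoc, ← hc _ (hmem' hz), mul_assoc, ← hc _ (hmem' hz), mul_assoc]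
    rw [str_comm h7] at h4
    have h5 : LinearMap.trace W.K (W.H X) (ε * ((W.corr (W.cl _ z) * W.corr (W.cl _ z)) *
        W.corr (W.cl _ w))) = LinearMap.trace W.K (W.H X) (ε * W.corr (W.cl _ w)) := by
      rw [hzv]
      exact h2
    rw [h5, h3] at h4
    exact_mod_cast h4.symm
  have hnum : fixedNumber ops X z = n := by
    have h1 := str_cyc W hz
    have h2 := rtr_spec hrat v
    rw [← hzv, h1, hn] at h2
    exact_mod_cast h2
  have hN : n ≤ numericalDim ops X := le_csSup (numSet_bdd W) ⟨z, hinv, hnum⟩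
  refine le_trans (le_of_eq ?_) (hle.trans (Nat.pow_le_pow_left hN 2))
  -- the cycles as a rational vector space
  let Zs : Submodule ℚ (X.prod X).Cycles :=
    { carrier := {z | (X.prod X).IsCyc X.dim z}
      add_mem' := fun ha hb => SmVar.IsCyc.add ha hb
      zero_mem' := SmVar.IsCyc.zero _ _
      smul_mem' := fun q z hz => SmVar.IsCyc.smul q hz }
  have hd : (X.prod X).dim - X.dim = X.dim := by rw [dim_prod]; omega
  have hval : ∀ (z : Zs) (w : {w : (X.prod X).Cycles // (X.prod X).IsCyc
      ((X.prod X).dim - X.dim) w}), W.tr (X.prod X) (W.cl _ (z : (X.prod X).Cycles) * W.cl _ w.1) =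
        ((X.prod X).V.degCycle (ops.mul (z : (X.prod X).Cycles) w.1) : W.K) := fun z w =>
    Pool.Agent.W534.tr_mul_cl' z.2 w.2 (by rw [dim_prod]; omega)
  let f : Zs →ₗ[ℚ] ({w : (X.prod X).Cycles // (X.prod X).IsCyc ((X.prod X).dim - X.dim) w} → ℚ) :=
    { toFun := fun z w => (X.prod X).V.degCycle (ops.mul (z : (X.prod X).Cycles) w.1)
      map_add' := fun a b => by
        funext w
        have h1 := hval (a + b) w
        rw [Submodule.coe_add, map_add, add_mul, map_add, hval, hval] at h1
        rw [Pi.add_apply]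
        exact_mod_cast h1.symm
      map_smul' := fun q a => by
        funext w
        have h1 := hval (q • a) w
        rw [Submodule.coe_smul, cl_smul, smul_mul_assoc, map_smul, hval, smul_eq_mul] at h1
        rw [Pi.smul_apply, smul_eq_mul, RingHom.id_apply]
        exact_mod_cast h1.symm }
  let c : Zs →ₗ[ℚ] R :=
    { toFun := fun z => ⟨W.corr (W.cl _ (z : (X.prod X).Cycles)), hmem' z.2⟩
      map_add' := fun a b => Subtype.ext (by
        change W.corr (W.cl _ ((a : (X.prod X).Cycles) + (b : (X.prod X).Cycles))) =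
          W.corr (W.cl _ (a : (X.prod X).Cycles)) + W.corr (W.cl _ (b : (X.prod X).Cycles))
        rw [map_add, corr_add])
      map_smul' := fun q a => Subtype.ext (by
        change W.corr (W.cl _ (q • (a : (X.prod X).Cycles))) =
          q • W.corr (W.cl _ (a : (X.prod X).Cycles))
        rw [cl_smul, corr_smul]
        exact algebraMap_smul W.K q (W.corr (W.cl _ (a : (X.prod X).Cycles))) ) }
  have hcs : LinearMap.range c = ⊤ := by
    rw [LinearMap.range_eq_top]
    rintro ⟨x, hx⟩
    obtain ⟨z, hz, rfl⟩ := hmem x hx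
    exact ⟨⟨z, hz⟩, rfl⟩
  let fm := form (R := R) (rtr hrat)
  let g := fm.comp c
  have hgr : LinearMap.range g = LinearMap.range (form (rtr hrat)) :=
    LinearMap.range_comp_of_range_eq_top _ hcs
  have hg : ∀ (z : Zs) (b : R) (w : (X.prod X).Cycles) (_ : (X.prod X).IsCyc X.dim w)
      (_ : W.corr (W.cl _ w) = (b : Module.End W.K (W.H X))),
      ((g z b : ℚ) : W.K) = W.tr (X.prod X) (W.cl _ (z : (X.prod X).Cycles) *
        W.map (swap X X) (W.cl _ w)) := by
    intro z b w hw hwb
    have h1 := rtr_spec hrat (c z * b)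
    change ((rtr hrat (c z * b) : ℚ) : W.K) = _
    rw [← h1, ← trace_corr_corr]
    rw [hwb]
    rfl
  have hker : LinearMap.ker f = LinearMap.ker g := by
    ext z
    rw [LinearMap.mem_ker, LinearMap.mem_ker]
    constructor
    · intro h
      apply LinearMap.ext
      intro b
      obtain ⟨w, hw, hwb⟩ := hmem b b.2
      have h1 := hg z b w hw hwb
      have h2 := congrFun h ⟨ops.pull (swap X X) w, by rw [hd]; exact ops.pull_mem _ hw⟩
      have h3 := hval z ⟨ops.pull (swap X X) w, by rw [hd]; exact ops.pull_mem _ hw⟩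
      have h4 : (X.prod X).V.degCycle (ops.mul (z : (X.prod X).Cycles)
        (ops.pull (swap X X) w)) = 0 := h2
      rw [h4, Rat.cast_zero, W.cl_pull] at h3
      rw [h3] at h1
      rw [LinearMap.zero_apply]
      exact_mod_cast h1
    · intro h
      funext w
      have hw : (X.prod X).IsCyc X.dim w.1 := isCyc_cast hd w.2
      have h1 := hg z ⟨W.corr (W.cl _ (ops.pull (swap X X) w.1)), hmem' (ops.pull_mem _ hw)⟩
        (ops.pull (swap X X) w.1) (ops.pull_mem _ hw) rfl
      rw [h, LinearMap.zero_apply, Rat.cast_zero, W.cl_pull, swap_swap, hval] at h1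
      change (X.prod X).V.degCycle (ops.mul (z : (X.prod X).Cycles) w.1) = 0
      exact_mod_cast h1.symm
  have hspan : Submodule.span ℚ (Set.range (interNumbers ops (X.prod X) X.dim)) =
      LinearMap.range f := by
    have hset : Set.range (interNumbers ops (X.prod X) X.dim) = (LinearMap.range f : Set _) := by
      ext φ
      constructor
      · rintro ⟨z, rfl⟩
        exact ⟨⟨z.1, z.2⟩, rfl⟩
      · rintro ⟨z, rfl⟩
        exact ⟨⟨z.1, z.2⟩, rfl⟩
    rw [hset, Submodule.span_eq]
  rw [numRank, hspan, ← hgr]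
  exact ((f.quotKerEquivRange.symm.trans (Submodule.quotEquivOfEq _ _ hker)).trans
    g.quotKerEquivRange).finrank_eq

end Pool.Agent.H843.Nd
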