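import Pool.Agent.H843.Nd6

/-!
# The growth of the numerical dimension of the powers
-/

open CategoryTheory AlgebraicGeometry

set_option autoImplicit false
set_option linter.unusedSectionVars false

universe u v

namespace Pool.Agent.H843.Nd

open Module
open Pool.Agent.H914 Pool.Agent.H914.VarClass Pool.Agent.H914.VarClass.Obj
  Pool.Agent.H914.WeilCohomology Pool.Agent.Y133.Half Pool.Agent.H447 Pool.Agent.Q55.Rate
  Pool.Agent.Q55.Lr Pool.Agent.Q57.ND Pool.Agent.W534

variable {k : Type u} [Field k] {𝒱 : VarClass k} {ops : CycleOps 𝒱}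
  (W : WeilCohomology.{u, v} ops) {X P : 𝒱.Obj}

lemma map_span' {Y Z : 𝒱.Obj} (f : Y ⟶ Z) {q : ℤ} {γ : W.H Z} (hγ : γ ∈ spanCycles W Z q) :
    W.map f γ ∈ spanCycles W Y q := by
  induction hγ using Submodule.span_induction with
  | mem x hx =>
    obtain ⟨p, hp, z, hz, rfl⟩ := hx
    exact Submodule.subset_span ⟨p, hp, ops.pull f z, ops.pull_mem _ hz, W.cl_pull _ _⟩
  | zero => rw [map_zero]; exact Submodule.zero_mem _
  | add x y _ _ hx hy => rw [map_add]; exact Submodule.add_mem _ hx hy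
  | smul a x _ hx => rw [map_smul]; exact Submodule.smul_mem _ _ hx

/-- A space of algebraic operators of degree zero without numerically trivial elements is not larger
than the group of correspondences modulo numerical equivalence. -/
lemma finrank_le_numRank (M : Submodule W.K (Module.End W.K (W.H P))) (hM : M ≤ KOp W P P 0)
    (hN : M ⊓ (algSys W).NOp P P = ⊥) : finrank W.K M ≤ numRank ops (P.prod P) P.dim := by
  have hd : (P.prod P).dim - P.dim = P.dim := by rw [dim_prod]; omega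
  rw [numRank_eq (W := W) (by rw [dim_prod]; omega), hd, kRank]
  let Q : Submodule W.K (spanCycles W (P.prod P) P.dim) :=
    (M.comap (Pool.Agent.Y133.Half.corrL W P P)).comap (spanCycles W (P.prod P) P.dim).subtype
  have h1 : finrank W.K M ≤ finrank W.K Q := by
    have h2 : M ≤ Q.map ((Pool.Agent.Y133.Half.corrL W P P) ∘ₗ
        (spanCycles W (P.prod P) P.dim).subtype) := by
      intro u hu
      obtain ⟨γ, hγ, rfl⟩ := mem_KOp_iff.1 (hM hu)
      rw [add_zero] at hγ
      exact ⟨⟨γ, hγ⟩, hu, rfl⟩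
    exact (Submodule.finrank_mono h2).trans (Submodule.finrank_map_le _ _)
  refine h1.trans ?_
  let φ : Q →ₗ[W.K] LinearMap.range (pair W (P.prod P) P.dim P.dim) :=
    (pair W (P.prod P) P.dim P.dim).rangeRestrict ∘ₗ Q.subtype
  apply LinearMap.finrank_le_finrank_of_injective (f := φ)
  rw [injective_iff_map_eq_zero]
  rintro ⟨⟨γ, hγ⟩, hq⟩ h0
  have hq' : W.corr γ ∈ M := hq
  have h3 : pair W (P.prod P) P.dim P.dim ⟨γ, hγ⟩ = 0 := congrArg Subtype.val h0
  have h4 : W.corr γ ∈ (algSys W).NOp P P := by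
    apply nop_of W (hM hq')
    intro w hw
    obtain ⟨δ, hδ, rfl⟩ := mem_KOp_iff.1 hw
    rw [add_zero] at hδ
    have h5 := trace_corr_corr (W := W) γ δ
    have h6 : W.map (swap P P) δ ∈ spanCycles W (P.prod P) P.dim := map_span' W _ hδ
    have h7 := LinearMap.congr_fun h3 ⟨_, h6⟩
    rw [pair_apply, LinearMap.zero_apply] at h7
    rw [← h5] at h7
    exact h7
  have h5 : W.corr γ ∈ M ⊓ (algSys W).NOp P P := ⟨hq', h4⟩
  rw [hN, Submodule.mem_bot] at h5
  have h6 := corr_inj h5
  exact Subtype.ext (Subtype.ext h6)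

/-- **Lower bound.** -/
theorem growth_rank (W : WeilCohomology.{u, v} ops) (X : 𝒱.Obj) (n : ℕ)
    (hnil : ∀ u ∈ (algSys W).NOp (pw X n) (pw X n), IsNilpotent u) :
    totalBetti W X ^ (2 * (n + 1)) ≤
      numRank ops ((pw X n).prod (pw X n)) (pw X n).dim * (n + 2) ^ (totalBetti W X ^ 2) := by
  classical
  set P := pw X n with hP
  set ρ := rho W X n with hρ
  set B₀ := repAlg ρ with hB₀
  have hspan : Submodule.span W.K (Set.range ρ) ≤ KOp W P P 0 := by
    rw [Submodule.span_le]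
    rintro _ ⟨σ, rfl⟩
    exact Pool.Agent.Y163.map_mem_KOp _
  have hle0 : ∀ u ∈ B₀, u ∈ KOp W P P 0 := fun u hu =>
    hspan (Pool.Agent.Y133.Half.repAlg_le ρ hu)
  set M₀ : Submodule W.K (Module.End W.K (W.H P)) := Subalgebra.toSubmodule B₀ with hM₀
  have hbot := inf_eq_bot (algSys W) hnil B₀ fun u hu => kop_op W (hle0 u hu)
  have h1 := finrank_le_numRank W M₀ (fun u hu => hle0 u hu) hbot
  obtain ⟨e, he⟩ := Pool.Agent.Y133.Half.exists_hbasis W X
  have h2 := Pool.Agent.Y133.Half.span_perm (Pool.Agent.Y133.Half.wb e n) ρ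
    (Pool.Agent.Y133.Half.tau_wb e he n)
  have h3 : finrank W.K (Submodule.span W.K (Set.range ρ)) ≤ finrank W.K M₀ := by
    apply Submodule.finrank_mono
    rw [Submodule.span_le]
    rintro _ ⟨σ, rfl⟩
    exact Pool.Agent.Y133.Half.rep_mem ρ σ
  rw [finrank_pw, ← pow_mul, Fintype.card_fin] at h2
  calc totalBetti W X ^ (2 * (n + 1)) = finrank W.K (W.H X) ^ ((n + 1) * 2) := by
        rw [mul_comm]; rfl
    _ ≤ _ := h2
    _ ≤ _ := Nat.mul_le_mul_right _ (h3.trans h1)

theorem growth_dim (W : WeilCohomology.{u, v} ops) (X : 𝒱.Obj) (n : ℕ)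
    (hnil : ∀ u ∈ (algSys W).NOp (pw X n) (pw X n), IsNilpotent u) :
    totalBetti W X ^ (2 * (n + 1)) ≤
      numericalDim ops (pw X n) ^ 2 * (n + 2) ^ (totalBetti W X ^ 2) :=
  (growth_rank W X n hnil).trans (Nat.mul_le_mul_right _ (rank_le_sq W _))

end Pool.Agent.H843.Nd
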