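import Pool.Agent.H843.Nd7
import Pool.Graph.R_pool_sql_team_seeded_3997aac3.Q55.Fin.Ptr
import Pool.Graph.R_pool_sql_team_seeded_3997aac3.Q55.Hs.Nest

/-!
# The numerical dimension of products
-/

open CategoryTheory AlgebraicGeometry

set_option autoImplicit false
set_option linter.unusedSectionVars false

universe u v

namespace Pool.Agent.H843.Nd

open Module
open Pool.Agent.H914 Pool.Agent.H914.VarClass Pool.Agent.H914.VarClass.Obj
  Pool.Agent.H914.WeilCohomology Pool.Agent.Y133.Half Pool.Agent.H447 Pool.Agent.Q55.Rate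
  Pool.Agent.Q55.Lr Pool.Agent.Q57.ND Pool.Agent.W534 Pool.Agent.Q55.Hs Pool.Agent.Q55.Fin

variable {k : Type u} [Field k] {𝒱 : VarClass k} {ops : CycleOps 𝒱}
  {W : WeilCohomology.{u, v} ops} {X Y Z P : 𝒱.Obj}

variable (W) in
/-- The operator is given by one rational correspondence of degree zero. -/
def IsCyO (X Y : 𝒱.Obj) (u : W.H X →ₗ[W.K] W.H Y) : Prop :=
  ∃ z, (X.prod Y).IsCyc X.dim z ∧ W.corr (W.cl _ z) = u

lemma IsCyO.comp {u : W.H Y →ₗ[W.K] W.H Z} {w : W.H X →ₗ[W.K] W.H Y} (hu : IsCyO W Y Z u)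
    (hw : IsCyO W X Y w) : IsCyO W X Z (u ∘ₗ w) := by
  obtain ⟨a, ha, rfl⟩ := hu
  obtain ⟨b, hb, rfl⟩ := hw
  exact ⟨_, compCyc_mem hb ha (by omega), corr_compCyc W ha⟩

lemma IsCyO.map (f : X ⟶ Y) : IsCyO W Y X (W.map f).toLinearMap := by
  refine ⟨ops.push (Obj.lift f (𝟙 X)) X.V.fundCycle, ?_, ?_⟩
  · exact ops.push_mem _ X.V.fundCycle_mem (by simp only [dim_prod]; ring)
  · apply LinearMap.ext
    intro a
    rw [W.cl_push, W.cl_fund, corr_apply, ← W.push_mul, one_mul, ← W.push_comp, ← W.map_comp]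
    have e1 : Obj.lift f (𝟙 X) ≫ snd Y X = 𝟙 X := Obj.lift_snd _ _
    have e2 : Obj.lift f (𝟙 X) ≫ fst Y X = f := Obj.lift_fst _ _
    rw [e1, e2, W.push_id]
    rfl

lemma IsCyO.kop {T : Module.End W.K (W.H P)} (h : IsCyO W P P T) : T ∈ KOp W P P 0 := by
  obtain ⟨z, hz, rfl⟩ := h
  exact kop_of_cyc W hz

lemma IsCyO.op {u : W.H X →ₗ[W.K] W.H Y} (h : IsCyO W X Y u) : u ∈ (algSys W).Op X Y := by
  obtain ⟨z, hz, rfl⟩ := h
  exact Sys.Op.corr (Submodule.subset_span (Set.mem_iUnion.2 ⟨_, z, hz, rfl⟩))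

lemma IsCyO.ext {a : Module.End W.K (W.H X)} {b : Module.End W.K (W.H Y)} (ha : IsCyO W X X a)
    (hb : IsCyO W Y Y b) : IsCyO W (X.prod Y) (X.prod Y) (extOp W a b) := by
  obtain ⟨z, hz, rfl⟩ := ha
  obtain ⟨w, hw, rfl⟩ := hb
  refine ⟨ops.mul (ops.pull (q1 X Y) z) (ops.pull (q2 X Y) w), ?_, ?_⟩
  · rw [dim_prod]
    exact ops.mul_mem (ops.pull_mem _ hz) (ops.pull_mem _ hw)
  · rw [W.cl_mul, W.cl_pull, W.cl_pull]
    exact Sys.corr_ext_class _ ((algSys W).even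
      (Submodule.subset_span (Set.mem_iUnion.2 ⟨_, w, hw, rfl⟩)))

lemma IsCyO.one : IsCyO W P P (1 : Module.End W.K (W.H P)) := exists_diag W

lemma IsCyO.sub {u u' : W.H X →ₗ[W.K] W.H Y} (h : IsCyO W X Y u) (h' : IsCyO W X Y u') :
    IsCyO W X Y (u - u') := by
  obtain ⟨z, hz, rfl⟩ := h
  obtain ⟨w, hw, rfl⟩ := h'
  refine ⟨z + (-1 : ℚ) • w, hz.add (hw.smul (-1)), ?_⟩
  rw [map_add, corr_add, cl_smul, corr_smul, Rat.cast_neg, Rat.cast_one, sub_eq_add_neg]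
  congr 1
  exact neg_one_smul W.K (W.corr (W.cl (X.prod Y) w))

/-! ### The numerical dimension in terms of operators -/

lemma le_dim {T : Module.End W.K (W.H P)} (hT : IsCyO W P P T)
    (h : T * T - 1 ∈ (algSys W).NOp P P) {n : ℕ}
    (hn : LinearMap.trace W.K (W.H P) (par (W.isInternal P) * T) = n) :
    n ≤ numericalDim ops P := by
  obtain ⟨z, hz, rfl⟩ := hT
  refine le_csSup (numSet_bdd W) ⟨z, (inv_iff W).2 ⟨hz, h⟩, ?_⟩
  have h1 := str_cyc W hz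
  rw [hn] at h1
  exact_mod_cast h1.symm

variable (W) in
lemma exists_dim (P : 𝒱.Obj) : ∃ T : Module.End W.K (W.H P), IsCyO W P P T ∧
    T * T - 1 ∈ (algSys W).NOp P P ∧
    LinearMap.trace W.K (W.H P) (par (W.isInternal P) * T) = (numericalDim ops P : W.K) := by
  obtain ⟨z, hz, hn⟩ := Nat.sSup_mem ⟨_, exists_involution W (X := P)⟩ (numSet_bdd W)
  obtain ⟨h1, h2⟩ := (inv_iff W).1 hz
  refine ⟨_, ⟨z, h1, rfl⟩, h2, ?_⟩
  rw [str_cyc W h1, hn]
  norm_cast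

lemma dim_iso_le (W : WeilCohomology.{u, v} ops) (f : X ≅ Y) :
    numericalDim ops X ≤ numericalDim ops Y := by
  obtain ⟨T, hT, h1, h2⟩ := exists_dim W X
  set a : W.H Y →ₗ[W.K] W.H X := (W.map f.hom).toLinearMap with ha
  set b : W.H X →ₗ[W.K] W.H Y := (W.map f.inv).toLinearMap with hb
  have hab : a ∘ₗ b = LinearMap.id := by
    apply LinearMap.ext
    intro x
    change W.map f.hom (W.map f.inv x) = x
    rw [← W.map_comp, f.hom_inv_id, W.map_id]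
  have hba : b ∘ₗ a = LinearMap.id := by
    apply LinearMap.ext
    intro x
    change W.map f.inv (W.map f.hom x) = x
    rw [← W.map_comp, f.inv_hom_id, W.map_id]
  have hpar : (par (W.isInternal Y)) ∘ₗ b = b ∘ₗ (par (W.isInternal X)) :=
    (Sys.Op.ev (Sys.Op.map f.inv : b ∈ (algSys W).Op X Y)).par_comm
  refine le_dim (W := W) (T := b ∘ₗ T ∘ₗ a) ((IsCyO.map f.inv).comp (hT.comp (IsCyO.map f.hom)))
    ?_ ?_
  · have h3 : (b ∘ₗ T ∘ₗ a) * (b ∘ₗ T ∘ₗ a) - 1 = b ∘ₗ (T * T - 1) ∘ₗ a := by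
      have e1 : (b ∘ₗ T ∘ₗ a) * (b ∘ₗ T ∘ₗ a) = b ∘ₗ (T * T) ∘ₗ a := by
        change (b ∘ₗ T ∘ₗ a) ∘ₗ (b ∘ₗ T ∘ₗ a) = b ∘ₗ (T ∘ₗ T) ∘ₗ a
        calc _ = b ∘ₗ T ∘ₗ (a ∘ₗ b) ∘ₗ T ∘ₗ a := by simp only [LinearMap.comp_assoc]
          _ = _ := by rw [hab, LinearMap.id_comp, LinearMap.comp_assoc]
      rw [e1, LinearMap.sub_comp, LinearMap.comp_sub]
      congr 1
      exact hba.symm
    rw [h3]
    exact Sys.NOp.comp_left (Sys.Op.map f.inv) (Sys.NOp.comp_right h1 (Sys.Op.map f.hom))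
  · have h4 : par (W.isInternal Y) * (b ∘ₗ T ∘ₗ a) = b ∘ₗ (par (W.isInternal X) * T) ∘ₗ a := by
      change par (W.isInternal Y) ∘ₗ (b ∘ₗ T ∘ₗ a) = b ∘ₗ (par (W.isInternal X) ∘ₗ T) ∘ₗ a
      rw [← LinearMap.comp_assoc, hpar]
      simp only [LinearMap.comp_assoc]
    rw [h4, LinearMap.trace_comp_comm', LinearMap.comp_assoc, hab, LinearMap.comp_id, h2]

lemma dim_iso (W : WeilCohomology.{u, v} ops) (f : X ≅ Y) :
    numericalDim ops X = numericalDim ops Y :=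
  le_antisymm (dim_iso_le W f) (dim_iso_le W f.symm)

/-- **The numerical dimension is supermultiplicative.** -/
theorem dim_mul_le (W : WeilCohomology.{u, v} ops) (X Y : 𝒱.Obj) :
    numericalDim ops X * numericalDim ops Y ≤ numericalDim ops (X.prod Y) := by
  obtain ⟨T, hT, h1, h2⟩ := exists_dim W X
  obtain ⟨S, hS, h3, h4⟩ := exists_dim W Y
  refine le_dim (W := W) (hT.ext hS) ?_ ?_
  · have h5 : extOp W T S * extOp W T S - 1 =
        extOp W (T * T - 1) 1 * extOp W 1 (S * S) + extOp W 1 (S * S - 1) := by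
      rw [extOp_mul, extOp_mul, mul_one, one_mul, extOp_sub_left, extOp_sub_right, extOp_one]
      abel
    rw [h5]
    refine Submodule.add_mem _ ?_ (Sys.NOp.ext_right h3)
    exact Sys.NOp.comp_right (Sys.NOp.ext_left h1) (Sys.Op.ext Sys.Op.id (Sys.Op.comp hS.op hS.op))
  · rw [par_prod', extOp_mul, trace_extOp, h2, h4]
    push_cast
    rfl

lemma dim_pw_sup (W : WeilCohomology.{u, v} ops) (X : 𝒱.Obj) (m n : ℕ) :
    numericalDim ops (pw X m) * numericalDim ops (pw X n) ≤ numericalDim ops (pw X (m + n + 1)) := by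
  rw [← dim_iso W (pwAdd X m n)]
  exact dim_mul_le W _ _

lemma dim_pw_le (W : WeilCohomology.{u, v} ops) (X : 𝒱.Obj) (n : ℕ) :
    numericalDim ops (pw X n) ≤ totalBetti W X ^ (n + 1) := by
  have := dist_add_le W (X := pw X n)
  rw [betti_pw] at this
  omega

end Pool.Agent.H843.Nd
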