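import Pool.Agent.H843.Nd8

/-!
# Numerically trivial idempotents and the numerical dimension
-/

open CategoryTheory AlgebraicGeometry Filter Topology

set_option autoImplicit false
set_option linter.unusedSectionVars false

universe u v

namespace Pool.Agent.H843.Nd

open Module Polynomial
open Pool.Agent.H914 Pool.Agent.H914.VarClass Pool.Agent.H914.VarClass.Obj
  Pool.Agent.H914.WeilCohomology Pool.Agent.Y133.Half Pool.Agent.H447 Pool.Agent.Q55.Rate
  Pool.Agent.Q55.Lr Pool.Agent.Q57.ND Pool.Agent.W534 Pool.Agent.Q55.Hs Pool.Agent.Q55.Fin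

variable {k : Type u} [Field k] {𝒱 : VarClass k} {ops : CycleOps 𝒱}
  {W : WeilCohomology.{u, v} ops} {X Y Z P : 𝒱.Obj}

lemma aeval_op {T : Module.End W.K (W.H P)} (hT : T ∈ (algSys W).Op P P) (p : W.K[X]) :
    aeval T p ∈ (algSys W).Op P P := by
  let V : Fin 1 → 𝒱.Obj := ![P]
  exact ((algSys W).cat V).aeval_mem (i := 0) hT p

/-- Polynomials in a modified operator. -/
lemma mul_aeval {K V : Type*} [Field K] [AddCommGroup V] [Module K V] {h T S : Module.End K V}
    (h1 : h * T = h * S) (h2 : h * S = S * h) (p : K[X]) :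
    h * aeval T p = h * aeval S p := by
  have key : ∀ n : ℕ, h * T ^ n = h * S ^ n := by
    intro n
    induction n with
    | zero => simp
    | succ n ih =>
      have h3 : h * S ^ n = S ^ n * h := (show Commute h S from h2).pow_right n
      rw [pow_succ, ← mul_assoc, ih, h3, mul_assoc, h1, ← mul_assoc, ← h3, mul_assoc, ← pow_succ]
  induction p using Polynomial.induction_on' with
  | add p q hp hq => rw [map_add, map_add, mul_add, mul_add, hp, hq]
  | monomial n a =>
    rw [aeval_monomial, aeval_monomial, ← Algebra.smul_def, ← Algebra.smul_def, mul_smul_comm,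
      mul_smul_comm, key]

/-- **The numerical dimension is at most the rank of an idempotent whose complement is numerically
trivial.** -/
theorem dim_le_rank {h : Module.End W.K (W.H P)} (hh : h ∈ (algSys W).Op P P) (hi : h ∘ₗ h = h)
    (hn : 1 - h ∈ (algSys W).NOp P P) :
    numericalDim ops P ≤ finrank W.K (LinearMap.range h) := by
  obtain ⟨T, hT, h1, h2⟩ := exists_dim W P
  have hTo := hT.op
  have hhh : h * h = h := hi
  set ε := par (W.isInternal P) with hε
  have hεε : ε * ε = 1 := par_sq W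
  have hεh : ε * h = h * ε := (Sys.Op.ev hh).par_comm
  have hεT : ε * T = T * ε := (Sys.Op.ev hTo).par_comm
  set c := 1 - h with hc
  have hch : c * h = 0 := by rw [hc, sub_mul, one_mul, hhh, sub_self]
  have hhc : h * c = 0 := by rw [hc, mul_sub, mul_one, hhh, sub_self]
  have hcc : c * c = c := by rw [hc, mul_sub, mul_one, ← hc, hch, sub_zero]
  have hεc : ε * c = c * ε := by rw [hc, mul_sub, sub_mul, hεh, mul_one, one_mul]
  set T₁ := h * T * h with hT₁
  set T₂ := T₁ + ε * c with hT₂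
  have hT₁o : T₁ ∈ (algSys W).Op P P := Sys.Op.comp (Sys.Op.comp hh hTo) hh
  have e1 : h * T₁ = T₁ := by rw [hT₁, ← mul_assoc, ← mul_assoc, hhh]
  have e2 : T₁ * h = T₁ := by rw [hT₁, mul_assoc, hhh]
  have e3 : h * (ε * c) = 0 := by rw [← mul_assoc, ← hεh, mul_assoc, hhc, mul_zero]
  have e4 : (ε * c) * h = 0 := by rw [mul_assoc, hch, mul_zero]
  have e5 : h * T₂ = T₁ := by rw [hT₂, mul_add, e1, e3, add_zero]
  have e6 : T₁ * (ε * c) = 0 := by rw [← e2, mul_assoc, e3, mul_zero]
  have e7 : (ε * c) * T₁ = 0 := by rw [← e1, ← mul_assoc, e4, zero_mul]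
  have e8 : (ε * c) * (ε * c) = c := by
    rw [mul_assoc, ← mul_assoc c, ← hεc, mul_assoc, hcc, ← mul_assoc, hεε, one_mul]
  have e9 : T₂ * T₂ - 1 = T₁ * T₁ - h := by
    rw [hT₂, mul_add, add_mul, add_mul, e7, e8, e6, hc]
    abel
  have hTε : T₂ * ε = ε * T₂ := by
    have a1 : T₁ * ε = ε * T₁ := ((Sys.Op.ev hT₁o).par_comm).symm
    have a2 : (ε * c) * ε = ε * (ε * c) := by rw [mul_assoc, ← hεc]
    rw [hT₂, add_mul, mul_add, a1, a2]
  -- `T₁² - h` is numerically trivial
  have e10 : T₁ * T₁ - h = h * ((T * T - 1) - T * c * T) * h := by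
    have a1 : T₁ * T₁ = h * T * h * T * h := by
      rw [hT₁]
      simp only [mul_assoc]
      rw [← mul_assoc h h, hhh]
    have a2 : h * T * h * T * h = h * T * T * h - h * T * c * T * h := by
      have a3 : h = 1 - c := by rw [hc, sub_sub_cancel]
      calc h * T * h * T * h = h * T * (1 - c) * T * h := by rw [← a3]
        _ = _ := by rw [mul_sub, mul_one, sub_mul, sub_mul]
    have a4 : h * ((T * T - 1) - T * c * T) * h =
        h * T * T * h - h * 1 * h - h * T * c * T * h := by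
      rw [mul_sub, mul_sub, sub_mul, sub_mul]
      simp only [mul_assoc]
    rw [a1, a2, a4, mul_one, hhh]
    abel
  have e11 : (T * T - 1) - T * c * T ∈ (algSys W).NOp P P :=
    Submodule.sub_mem _ h1 (Sys.NOp.comp_right (Sys.NOp.comp_left hTo hn) hTo)
  have e12 : T₁ * T₁ - h ∈ (algSys W).NOp P P := by
    rw [e10]
    exact Sys.NOp.comp_right (Sys.NOp.comp_left hh e11) hh
  have e13 : (T₁ * T₁ - h) * h = T₁ * T₁ - h := by rw [sub_mul, mul_assoc, e2, hhh]
  have key : ∀ p : W.K[X], LinearMap.trace W.K (W.H P) (ε * ((T₂ * T₂ - 1) * aeval T₂ p)) = 0 := by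
    intro p
    have a1 : (T₂ * T₂ - 1) * aeval T₂ p = (T₁ * T₁ - h) * (h * aeval T₁ p) := by
      rw [e9, ← mul_aeval (h := h) (T := T₂) (S := T₁) (by rw [e5, e1]) (by rw [e1, e2]) p]
      calc (T₁ * T₁ - h) * aeval T₂ p = ((T₁ * T₁ - h) * h) * aeval T₂ p := by rw [e13]
        _ = _ := mul_assoc _ _ _
    rw [a1]
    exact Sys.NOp.trace e12 (Sys.Op.comp hh (aeval_op hT₁o p))
  obtain ⟨n, hn1, -⟩ := str_rank hεε hTε key
  -- the super trace of `T₂`
  have e14 : LinearMap.trace W.K (W.H P) (ε * T₁) = (numericalDim ops P : W.K) := by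
    have a1 : T = T₁ + (c * T * h + T * c) := by
      have a2 : h = 1 - c := by rw [hc, sub_sub_cancel]
      have a3 : T₁ + c * T * h = T * h := by
        rw [hT₁, ← add_mul, ← add_mul, a2, sub_add_cancel, one_mul]
      rw [← add_assoc, a3, ← mul_add, a2, sub_add_cancel, mul_one]
    have a4 : LinearMap.trace W.K (W.H P) (ε * (c * T * h)) = 0 := by
      rw [mul_assoc c]
      exact Sys.NOp.trace hn (Sys.Op.comp hTo hh)
    have a5 : LinearMap.trace W.K (W.H P) (ε * (T * c)) = 0 := by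
      have a6 : T * c ∈ (algSys W).NOp P P := Sys.NOp.comp_left hTo hn
      have a7 := Sys.NOp.trace a6 (Sys.Op.id (S := algSys W) (X := P))
      rwa [LinearMap.comp_id] at a7
    rw [← h2]
    conv_rhs => rw [a1]
    rw [mul_add, map_add, mul_add, map_add, a4, a5, add_zero, add_zero]
  have e15 : LinearMap.trace W.K (W.H P) (ε * (ε * c)) =
      (finrank W.K (LinearMap.range c) : W.K) := by
    rw [← mul_assoc, hεε, one_mul]
    exact trace_idem (K := W.K) (f := c) hcc
  obtain ⟨_, hdim⟩ := Sys.finrank_compl hi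
  rw [hT₂, mul_add, map_add, e14, e15] at hn1
  have h5 : numericalDim ops P + finrank W.K (LinearMap.range c) + 2 * n = finrank W.K (W.H P) := by
    exact_mod_cast hn1
  rw [← hc] at hdim
  omega

/-- If the numerical dimension is zero then the identity is numerically trivial. -/
lemma one_nop (W : WeilCohomology.{u, v} ops) {P : 𝒱.Obj} (h : numericalDim ops P = 0) :
    (1 : Module.End W.K (W.H P)) ∈ (algSys W).NOp P P := by
  by_contra hn
  have h0 : (1 : Module.End W.K (W.H P)) ≠ 0 := fun h0 => hn (h0 ▸ Submodule.zero_mem _)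
  set M : Submodule W.K (Module.End W.K (W.H P)) := Submodule.span W.K {1} with hM
  have h1 : M ≤ KOp W P P 0 := by
    rw [hM, Submodule.span_le, Set.singleton_subset_iff]
    exact KOp.id P
  have h2 : M ⊓ (algSys W).NOp P P = ⊥ := by
    rw [eq_bot_iff]
    rintro x ⟨hx, hx'⟩
    obtain ⟨c, rfl⟩ := Submodule.mem_span_singleton.1 hx
    by_cases hc : c = 0
    · rw [hc, zero_smul]; exact Submodule.zero_mem _
    · exfalso
      apply hn
      have := Submodule.smul_mem _ c⁻¹ hx'
      rwa [smul_smul, inv_mul_cancel₀ hc, one_smul] at this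
  have h3 := (finrank_le_numRank W M h1 h2).trans (rank_le_sq W P)
  rw [h, hM, finrank_span_singleton h0] at h3
  omega

lemma one_ext {h : Module.End W.K (W.H X)} {h' : Module.End W.K (W.H Y)}
    (hn : 1 - h ∈ (algSys W).NOp X X) (hh : h ∈ (algSys W).Op X X)
    (hn' : 1 - h' ∈ (algSys W).NOp Y Y) :
    1 - extOp W h h' ∈ (algSys W).NOp (X.prod Y) (X.prod Y) := by
  have e : 1 - extOp W h h' = extOp W (1 - h) 1 + extOp W h 1 * extOp W 1 (1 - h') := by
    rw [extOp_mul, mul_one, one_mul, extOp_sub_left, extOp_sub_right, extOp_one]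
    abel
  rw [e]
  exact Submodule.add_mem _ (Sys.NOp.ext_left hn)
    (Sys.NOp.comp_left (Sys.Op.ext hh Sys.Op.id) (Sys.NOp.ext_right hn'))

lemma exists_chain (W : WeilCohomology.{u, v} ops) (X : 𝒱.Obj) {m : ℕ}
    {h : Module.End W.K (W.H (pw X m))} (hh : h ∈ (algSys W).Op (pw X m) (pw X m))
    (hi : h ∘ₗ h = h) (hn : 1 - h ∈ (algSys W).NOp (pw X m) (pw X m)) (t : ℕ) :
    ∃ (Q : 𝒱.Obj) (_ : Nonempty (Q ≅ pw X (m + (m + 1) * t))) (g : Module.End W.K (W.H Q)),
      g ∈ (algSys W).Op Q Q ∧ g ∘ₗ g = g ∧ 1 - g ∈ (algSys W).NOp Q Q ∧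
      finrank W.K (LinearMap.range g) = finrank W.K (LinearMap.range h) ^ (t + 1) := by
  induction t with
  | zero => exact ⟨pw X m, ⟨Iso.refl _⟩, h, hh, hi, hn, by rw [zero_add, pow_one]⟩
  | succ t ih =>
    obtain ⟨Q, ⟨θ⟩, g, h1, h2, h3, h4⟩ := ih
    have e : m + (m + 1) * (t + 1) = m + (m + 1) * t + m + 1 := by ring
    refine ⟨Q.prod (pw X m), ⟨?_⟩, extOp W g h, Sys.Op.ext h1 hh, ?_, one_ext h3 h1 hn, ?_⟩
    · rw [e]
      exact prodCongr θ (Iso.refl _) ≪≫ pwAdd X (m + (m + 1) * t) m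
    · change extOp W g h * extOp W g h = extOp W g h
      rw [extOp_mul]
      change extOp W (g ∘ₗ g) (h ∘ₗ h) = _
      rw [h2, hi]
    · rw [finrank_extOp h2 hi, h4, ← pow_succ]

lemma dim_chain (W : WeilCohomology.{u, v} ops) (X : 𝒱.Obj) {m : ℕ}
    {h : Module.End W.K (W.H (pw X m))} (hh : h ∈ (algSys W).Op (pw X m) (pw X m))
    (hi : h ∘ₗ h = h) (hn : 1 - h ∈ (algSys W).NOp (pw X m) (pw X m)) (t : ℕ) :
    numericalDim ops (pw X (m + (m + 1) * t)) ≤ finrank W.K (LinearMap.range h) ^ (t + 1) := by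
  obtain ⟨Q, ⟨θ⟩, g, h1, h2, h3, h4⟩ := exists_chain W X hh hi hn t
  rw [← h4, ← dim_iso W θ]
  exact dim_le_rank h1 h2 h3

lemma dim_pow_le (W : WeilCohomology.{u, v} ops) (X : 𝒱.Obj) (n : ℕ) :
    numericalDim ops X ^ (n + 1) ≤ numericalDim ops (pw X n) := by
  induction n with
  | zero => rw [zero_add, pow_one]; exact le_rfl
  | succ n ih =>
    rw [pow_succ]
    exact (Nat.mul_le_mul_right _ ih).trans (dim_mul_le W _ _)

lemma dim_zero_or (W : WeilCohomology.{u, v} ops) (X : 𝒱.Obj) :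
    (∀ n, numericalDim ops (pw X n) = 0) ∨ ∀ n, 0 < numericalDim ops (pw X n) := by
  rcases Nat.eq_zero_or_pos (numericalDim ops X) with h | h
  · left
    intro n
    have h1 := one_nop W h
    have h2 := dim_chain W X (m := 0) (h := 0) (Submodule.zero_mem _) (LinearMap.zero_comp _)
      (by rw [sub_zero]; exact h1) n
    have h3 : (0 : ℕ) + (0 + 1) * n = n := by ring
    rw [h3] at h2
    have h4 : finrank W.K (LinearMap.range (0 : Module.End W.K (W.H (pw X 0)))) = 0 := by
      rw [LinearMap.range_zero, finrank_bot]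
    rw [h4, zero_pow (by omega)] at h2
    omega
  · right
    intro n
    exact lt_of_lt_of_le (pow_pos h _) (dim_pow_le W X n)

/-- **The rate of growth of the numerical dimension of the powers.** -/
theorem exists_dim_rate (W : WeilCohomology.{u, v} ops) (X : 𝒱.Obj) :
    ∃ ρ : ℝ, 0 ≤ ρ ∧ Tendsto (rootSeq fun n => numericalDim ops (pw X n)) atTop (𝓝 ρ) ∧
      ∀ n, (numericalDim ops (pw X n) : ℝ) ≤ ρ ^ (n + 1) :=
  exists_rate (dim_pw_sup W X) (Nat.cast_nonneg (totalBetti W X))
    (fun n => by exact_mod_cast dim_pw_le W X n) (dim_zero_or W X)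

theorem dim_rate_idem (W : WeilCohomology.{u, v} ops) (X : 𝒱.Obj) {ρ : ℝ} (hρ : 0 ≤ ρ)
    (ht : Tendsto (rootSeq fun n => numericalDim ops (pw X n)) atTop (𝓝 ρ)) {m : ℕ}
    {g : Module.End W.K (W.H (pw X m))} (hg : g ∈ (algSys W).NOp (pw X m) (pw X m))
    (hgg : g ∘ₗ g = g) :
    ρ ^ (m + 1) ≤ (totalBetti W X : ℝ) ^ (m + 1) - finrank W.K (LinearMap.range g) := by
  obtain ⟨h1, hdim⟩ := Sys.finrank_compl hgg
  have h2 : (1 : Module.End W.K (W.H (pw X m))) - (1 - g) ∈ (algSys W).NOp (pw X m) (pw X m) := by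
    rw [sub_sub_cancel]; exact hg
  have h3 := fun t => dim_chain W X (Submodule.sub_mem _ Sys.Op.id (Sys.NOp.op hg)) h1 h2 t
  have h4 : ρ ^ (m + 1) ≤ (finrank W.K (LinearMap.range (1 - g)) : ℝ) := by
    refine rate_pow_le (q := m) (C := finrank W.K (LinearMap.range (1 - g))) hρ ht (by omega)
      (Nat.cast_nonneg _) fun t => ?_
    have h5 : (numericalDim ops (pw X (m + (m + 1) * t)) : ℝ) ≤
        (finrank W.K (LinearMap.range (1 - g)) : ℝ) ^ (t + 1) := by exact_mod_cast h3 t
    refine h5.trans (le_of_eq ?_)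
    ring
  have h6 : (finrank W.K (LinearMap.range (1 - g)) : ℝ) + finrank W.K (LinearMap.range g) =
      (totalBetti W X : ℝ) ^ (m + 1) := by
    have h7 := hdim
    rw [finrank_pw] at h7
    exact_mod_cast h7
  linarith

/-- **The law of the rate.** -/
theorem dim_rate_iff (W : WeilCohomology.{u, v} ops) (X : 𝒱.Obj) {ρ : ℝ} (hρ : 0 ≤ ρ)
    (ht : Tendsto (rootSeq fun n => numericalDim ops (pw X n)) atTop (𝓝 ρ))
    (hle : ∀ n, (numericalDim ops (pw X n) : ℝ) ≤ ρ ^ (n + 1)) :
    ρ = totalBetti W X ↔ NumTrivialNilpotent W X := by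
  have hb : ρ ≤ totalBetti W X :=
    rate_le (Nat.cast_nonneg _) ht fun n => by exact_mod_cast dim_pw_le W X n
  constructor
  · intro h m u hu
    rw [isNumTrivialOp_iff] at hu
    by_contra hnil
    obtain ⟨g, hg, hgg, hg0⟩ := exists_num_idem (algSys W) hu hnil
    have h1 := dim_rate_idem W X hρ ht hg hgg
    have h2 : 0 < finrank W.K (LinearMap.range g) := Sys.finrank_range_pos hg0
    rw [h] at h1
    have h3 : (0 : ℝ) < finrank W.K (LinearMap.range g) := by exact_mod_cast h2
    linarith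
  · intro h
    refine le_antisymm hb (le_rate hρ hle (m := totalBetti W X ^ 2) fun n => ?_)
    have h1 := growth_dim W X n fun u hu => h n u (isNumTrivialOp_iff.2 hu)
    have h2 := dim_pw_sup W X n n
    rw [← two_mul] at h2
    have h3 : totalBetti W X ^ (2 * (n + 1)) ≤
        numericalDim ops (pw X (2 * n + 1)) * (n + 2) ^ (totalBetti W X ^ 2) := by
      refine h1.trans (Nat.mul_le_mul_right _ ?_)
      rw [sq]
      exact h2
    exact_mod_cast h3

end Pool.Agent.H843.Nd
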